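import Mathlib
import Pool.Agent.Lib_MP_394d50_vs.LOr

/-!
# MP_394d50_gt, walls: definitions for the engine (weak exactness in `ℓ²`)

`NH I S k`: there is no non-zero harmonic square summable `k`-chain of the subquotient given by
the set `S` of cells.
-/

namespace SingerCub

open SingerVS

/-- A free action with finitely many orbits. -/
structure FO (H C : Type) [Group H] [MulAction H C] : Prop where
  free : ∀ (h : H) (c : C), h • c = c → h = 1
  cofin : Finite (Orb H C)

/-- `H` acts freely on the cell complex `I`, with finitely many orbits (no bound for the incidence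
numbers). -/
structure FC (H : Type) {C : Type} [Group H] [MulAction H C] (I : CellCx C) : Prop where
  dim_smul : ∀ (h : H) c, I.dim (h • c) = I.dim c
  inc_smul : ∀ (h : H) p q, I.inc (h • p) (h • q) = I.inc p q
  inc_dim : ∀ p q, I.inc p q ≠ 0 → I.dim q = I.dim p + 1
  faces : ∀ q, {p | I.inc p q ≠ 0}.Finite
  cofaces : ∀ p, {q | I.inc p q ≠ 0}.Finite
  sq : ∀ p r, ∑ᶠ q, I.inc p q * I.inc q r = 0
  free : ∀ (h : H) (c : C), h • c = c → h = 1
  cofin : Finite (Orb H C)

theorem FC.fo {H C : Type} [Group H] [MulAction H C] {I : CellCx C} (hF : FC H I) : FO H C :=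
  ⟨hF.free, hF.cofin⟩

theorem _root_.SingerVS.FreeCell.fc {H C : Type} [Group H] [MulAction H C] {I : CellCx C}
    (hF : FreeCell H I) : FC H I where
  dim_smul := hF.dim_smul
  inc_smul := hF.inc_smul
  inc_dim := hF.inc_dim
  faces := hF.faces
  cofaces := hF.cofaces
  sq := hF.sq
  free := hF.free
  cofin := hF.cofin

section

variable {C : Type}

/-- There is no non-zero harmonic square summable `k`-chain supported on the set `S` of cells (for
the boundary and the coboundary within `S`). -/
def NH (I : CellCx C) (S : Set C) (k : ℕ) : Prop :=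
  ∀ z : L2 C, (∀ c, z c ≠ 0 → c ∈ S ∧ I.dim c = k) →
    (∀ p ∈ S, ∑ᶠ q, (I.inc p q : ℝ) * z q = 0) →
    (∀ q ∈ S, ∑ᶠ p, (I.inc p q : ℝ) * z p = 0) → z = 0

/-- `S` contains all cells between two of its cells (whose dimensions differ by two). -/
def Cvx (I : CellCx C) (S : Set C) : Prop :=
  ∀ p q r, p ∈ S → r ∈ S → I.inc p q ≠ 0 → I.inc q r ≠ 0 → q ∈ S

/-- The `k`-cells in `S`. -/
def lev (I : CellCx C) (S : Set C) (k : ℕ) : Set C := {c | c ∈ S ∧ I.dim c = k}

/-- The chains supported on `A`. -/
def sup (A : Set C) : Submodule ℝ (L2 C) where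
  carrier := {z | ∀ c, c ∉ A → z c = 0}
  add_mem' := fun {a b} ha hb c hc => by
    show a c + b c = 0
    rw [ha c hc, hb c hc, add_zero]
  zero_mem' := fun _ _ => rfl
  smul_mem' := fun r a ha c hc => by
    show r * a c = 0
    rw [ha c hc, mul_zero]

theorem mem_sup {A : Set C} {z : L2 C} : z ∈ sup A ↔ ∀ c, c ∉ A → z c = 0 := Iff.rfl

theorem sup_eq (A : Set C) : sup A = (Submodule.span ℝ {d | ∃ c, c ∉ A ∧ d = delta c})ᗮ := by
  ext z
  rw [mem_sup, Submodule.mem_orthogonal]
  constructor
  · intro h u hu
    induction hu using Submodule.span_induction with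
    | mem u hu =>
      obtain ⟨c, hc, rfl⟩ := hu
      rw [delta_inner]
      exact h c hc
    | zero => exact inner_zero_left _
    | add u v _ _ hu hv => rw [inner_add_left, hu, hv, add_zero]
    | smul r u _ hu => rw [inner_smul_left, hu, mul_zero]
  · intro h c hc
    rw [← delta_inner c z]
    exact h _ (Submodule.subset_span ⟨c, hc, rfl⟩)

theorem isClosed_sup (A : Set C) : IsClosed (sup A : Set (L2 C)) := by
  rw [sup_eq]
  exact Submodule.isClosed_orthogonal _

instance instProjSup (A : Set C) : (sup A).HasOrthogonalProjection := by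
  rw [sup_eq]
  infer_instance

/-- The restriction to `A` (zero outside `A`). -/
noncomputable def rs (A : Set C) : L2 C →L[ℝ] L2 C := (sup A).starProjection

theorem delta_mem_sup {A : Set C} {c : C} (hc : c ∈ A) : (delta c : L2 C) ∈ sup A := by
  intro p hp
  exact delta_ne (fun e => hp (e ▸ hc))

theorem rs_of_mem {A : Set C} (z : L2 C) {c : C} (hc : c ∈ A) : (rs A z) c = z c := by
  unfold rs
  have h := (sup A).starProjection_inner_eq_zero z (delta c) (delta_mem_sup hc)
  rw [inner_sub_left, sub_eq_zero, real_inner_comm, delta_inner, real_inner_comm,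
    delta_inner] at h
  exact h.symm

theorem rs_of_notMem {A : Set C} (z : L2 C) {c : C} (hc : c ∉ A) : (rs A z) c = 0 :=
  (sup A).starProjection_apply_mem z c hc

theorem rs_apply (A : Set C) [DecidablePred (· ∈ A)] (z : L2 C) (c : C) :
    (rs A z) c = if c ∈ A then z c else 0 := by
  split_ifs with h
  · exact rs_of_mem z h
  · exact rs_of_notMem z h

theorem rs_mem (A : Set C) (z : L2 C) : rs A z ∈ sup A := (sup A).starProjection_apply_mem z

theorem rs_eq {A : Set C} {z : L2 C} (hz : z ∈ sup A) : rs A z = z := by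
  apply l2_ext
  intro c
  by_cases h : c ∈ A
  · exact rs_of_mem z h
  · rw [rs_of_notMem z h, hz c h]

/-! ## The action on the chains, the trace -/

section

variable {H : Type} [Group H] [MulAction H C]

/-- The action on the chains: `(shift h z) (h • c) = z c`. -/
noncomputable def shift (h : H) : L2 C ≃ₗᵢ[ℝ] L2 C :=
  twE (MulAction.toPerm h : C ≃ C) (fun _ => 1) (fun _ => Or.inl rfl)

theorem shift_smul (h : H) (z : L2 C) (c : C) : (shift h z) (h • c) = z c := by
  have h1 := twE_apply (MulAction.toPerm h : C ≃ C) (fun _ => 1) (fun _ => Or.inl rfl) z c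
  rw [one_mul] at h1
  exact h1

theorem shift_apply (h : H) (z : L2 C) (c : C) : (shift h z) c = z (h⁻¹ • c) := by
  have h1 := shift_smul h z (h⁻¹ • c)
  rwa [smul_inv_smul] at h1

theorem shift_delta (h : H) (c : C) : shift h (delta c) = (delta (h • c) : L2 C) := by
  have h1 := twE_delta (MulAction.toPerm h : C ≃ C) (fun _ => 1) (fun _ => Or.inl rfl) c
  rw [one_smul] at h1
  exact h1

/-- `T` commutes with the action. -/
def Eqv (H : Type) [Group H] [MulAction H C] (T : L2 C →L[ℝ] L2 C) : Prop :=
  ∀ (h : H) (z : L2 C), T (shift h z) = shift h (T z)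

/-- `M` is invariant. -/
def Inv (H : Type) [Group H] [MulAction H C] (M : Submodule ℝ (L2 C)) : Prop :=
  ∀ (h : H) (z : L2 C), z ∈ M → shift h z ∈ M

/-- The trace: the sum over the orbits of the diagonal coefficients. -/
noncomputable def tr (H : Type) [Group H] [MulAction H C] (T : L2 C →L[ℝ] L2 C) : ℝ :=
  ∑ᶠ o : Orb H C, inner ℝ (T (delta o.out)) (delta o.out)

end

end

end SingerCub
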