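import Mathlib
import Pool.Agent.Lib_MP_394d50_cub.Defs

/-!
# Piece ETR: the trace property `tr (A B) = tr (B A)`

Proof of `tr_comm`. Write `a c o = ⟨A δ_o, δ_c⟩ = (A δ_o) c`, and `b`. For equivariant `A`:
`(A δ_{h • c}) (h • c') = (A δ_c) c'` (`shift_delta`, `shift_smul`).
`⟨B (A δ_o), δ_o⟩ = ⟨A δ_o, B* δ_o⟩ = ∑' c, (A δ_o) c * (B* δ_o) c` (inner product of `lp`,
`lp.inner_eq_tsum` or `lp.hasSum_inner`), and `(B* δ_o) c = ⟨δ_c, B* δ_o⟩ = ⟨B δ_c, δ_o⟩ =
(B δ_c) o`; the sum converges absolutely. Every `c` is `g • o'.out` for exactly one pair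
`(g, o')` (`exists_rep`, `rep_inj`), so `tr (B A) = ∑_o ∑_{o'} ∑'_g (A δ_o)(g • o') * (B δ_{g • o'}) o`
`= ∑_o ∑_{o'} ∑'_g (A δ_{g⁻¹ • o}) o' * (B δ_{o'}) (g⁻¹ • o)`, and with `g ↦ g⁻¹` and the same
computation backwards this is `∑_{o'} ⟨A (B δ_{o'}), δ_{o'}⟩`. (`Orb H C` is finite; the finsum is
a finite sum.)
`tr_add`, `tr_smul`, `tr_mono` are immediate. `tr_proj_eq_zero`: for an invariant `M` the
projection is equivariant (`starProjection` commutes with the isometries `shift h`, which map `M`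
onto `M`), `⟨P δ_c, δ_c⟩ = ‖P δ_c‖²`, so trace zero gives `P δ_c = 0` for all `c` (all `c` are
`h • o.out`), hence every `z ∈ M` has `z c = ⟨δ_c, z⟩ = ⟨δ_c, P z⟩ = ⟨P δ_c, z⟩ = 0`.
-/

namespace SingerCub

open SingerVS

variable {H C : Type} [Group H] [MulAction H C]

private theorem etr_shift_inv (h : H) (z : L2 C) : shift h (shift h⁻¹ z) = z := by
  apply l2_ext
  intro c
  rw [shift_apply, shift_apply, inv_inv, smul_inv_smul]

private theorem etr_inner (h : H) (x y : L2 C) :
    inner ℝ (shift h x) y = inner ℝ x (shift h⁻¹ y) := by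
  conv_lhs => rw [← etr_shift_inv h y]
  exact (shift h).inner_map_map x (shift h⁻¹ y)

theorem Eqv.comp {A B : L2 C →L[ℝ] L2 C} (hA : Eqv H A) (hB : Eqv H B) : Eqv H (A.comp B) :=
  fun h z => by
    show A (B (shift h z)) = shift h (A (B z))
    rw [hB, hA]

theorem Eqv.adjoint {A : L2 C →L[ℝ] L2 C} (hA : Eqv H A) :
    Eqv H (ContinuousLinearMap.adjoint A) := by
  intro h z
  refine ext_inner_right ℝ fun w => ?_
  rw [ContinuousLinearMap.adjoint_inner_left, etr_inner, etr_inner,
    ContinuousLinearMap.adjoint_inner_left, hA]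

theorem Inv.proj {M : Submodule ℝ (L2 C)} [M.HasOrthogonalProjection] (hM : Inv H M) :
    Eqv H M.starProjection := by
  intro h z
  refine M.eq_starProjection_of_mem_of_inner_eq_zero (hM h _ (M.starProjection_apply_mem z)) ?_
  intro w hw
  rw [← map_sub, etr_inner]
  exact M.starProjection_inner_eq_zero z _ (hM h⁻¹ w hw)

/-- The coefficients of an equivariant operator are invariant. -/
private theorem etr_coef {A : L2 C →L[ℝ] L2 C} (hA : Eqv H A) (h : H) (c c' : C) :
    (A (delta (h • c))) (h • c') = (A (delta c)) c' := by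
  rw [← shift_delta, hA, shift_smul]

private theorem etr_hasSum (A B : L2 C →L[ℝ] L2 C) (c : C) :
    HasSum (fun x => (B (delta c)) x * (A (delta x)) c) (inner ℝ (A (B (delta c))) (delta c)) := by
  have h1 := lp.hasSum_inner (𝕜 := ℝ) (G := fun _ : C => ℝ) (B (delta c))
    (ContinuousLinearMap.adjoint A (delta c))
  rw [ContinuousLinearMap.adjoint_inner_right] at h1
  have h2 : (fun x => (B (delta c)) x * (A (delta x)) c) =
      fun x => inner ℝ ((B (delta c)) x) ((ContinuousLinearMap.adjoint A (delta c)) x) := by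
    funext x
    have h3 : (ContinuousLinearMap.adjoint A (delta c)) x = (A (delta x)) c := by
      rw [← delta_inner x, ContinuousLinearMap.adjoint_inner_right, real_inner_comm, delta_inner]
    rw [h3]
    simp [mul_comm]
  rw [h2]
  exact h1

private theorem etr_tsum [Fintype (Orb H C)] (hC : FO H C) (A B : L2 C →L[ℝ] L2 C) (o : Orb H C) :
    inner ℝ (A (B (delta o.out))) (delta o.out) = ∑ o' : Orb H C, ∑' g : H,
      (B (delta o.out)) (g • o'.out) * (A (delta (g • o'.out))) o.out := by
  have hbij : Function.Bijective (fun x : Orb H C × H => x.2 • x.1.out) := by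
    constructor
    · rintro ⟨o1, g1⟩ ⟨o2, g2⟩ e
      obtain ⟨e1, e2⟩ := rep_inj hC.free e
      exact Prod.ext e2 e1
    · intro c
      obtain ⟨h, o', e⟩ := exists_rep (H := H) c
      exact ⟨(o', h), e.symm⟩
  let e : Orb H C × H ≃ C := Equiv.ofBijective _ hbij
  have h1 := etr_hasSum A B o.out
  have h2 : HasSum (fun x : Orb H C × H =>
      (B (delta o.out)) (x.2 • x.1.out) * (A (delta (x.2 • x.1.out))) o.out)
      (inner ℝ (A (B (delta o.out))) (delta o.out)) :=
    (Equiv.hasSum_iff e (f := fun x => (B (delta o.out)) x * (A (delta x)) o.out)).mpr h1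
  rw [← h2.tsum_eq, h2.summable.tsum_prod, tsum_fintype]

theorem tr_comm (hC : FO H C) {A B : L2 C →L[ℝ] L2 C} (hA : Eqv H A) (hB : Eqv H B) :
    tr H (A.comp B) = tr H (B.comp A) := by
  have := hC.cofin
  let _ : Fintype (Orb H C) := Fintype.ofFinite _
  unfold tr
  rw [finsum_eq_sum_of_fintype, finsum_eq_sum_of_fintype]
  have h1 : ∀ o : Orb H C, inner ℝ ((A.comp B) (delta o.out)) (delta o.out) =
      ∑ o' : Orb H C, ∑' g : H,
        (B (delta o.out)) (g • o'.out) * (A (delta (g • o'.out))) o.out :=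
    fun o => etr_tsum hC A B o
  have h2 : ∀ o : Orb H C, inner ℝ ((B.comp A) (delta o.out)) (delta o.out) =
      ∑ o' : Orb H C, ∑' g : H,
        (A (delta o.out)) (g • o'.out) * (B (delta (g • o'.out))) o.out :=
    fun o => etr_tsum hC B A o
  rw [Finset.sum_congr rfl fun o _ => h1 o, Finset.sum_congr rfl fun o _ => h2 o,
    Finset.sum_comm]
  refine Finset.sum_congr rfl fun o _ => Finset.sum_congr rfl fun o' _ => ?_
  rw [← (Equiv.inv H).tsum_eq]
  refine tsum_congr fun g => ?_
  show (B (delta o'.out)) (g⁻¹ • o.out) * (A (delta (g⁻¹ • o.out))) o'.out =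
    (A (delta o.out)) (g • o'.out) * (B (delta (g • o'.out))) o.out
  rw [← etr_coef hB g, ← etr_coef hA g, smul_inv_smul, mul_comm]

theorem tr_add (hC : FO H C) (A B : L2 C →L[ℝ] L2 C) : tr H (A + B) = tr H A + tr H B := by
  have := hC.cofin
  let _ : Fintype (Orb H C) := Fintype.ofFinite _
  unfold tr
  rw [finsum_eq_sum_of_fintype, finsum_eq_sum_of_fintype, finsum_eq_sum_of_fintype,
    ← Finset.sum_add_distrib]
  refine Finset.sum_congr rfl fun o _ => ?_
  rw [add_apply, inner_add_left]

theorem tr_smul (hC : FO H C) (r : ℝ) (A : L2 C →L[ℝ] L2 C) : tr H (r • A) = r * tr H A := by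
  have := hC.cofin
  let _ : Fintype (Orb H C) := Fintype.ofFinite _
  unfold tr
  rw [finsum_eq_sum_of_fintype, finsum_eq_sum_of_fintype, Finset.mul_sum]
  refine Finset.sum_congr rfl fun o _ => ?_
  rw [smul_apply, real_inner_smul_left]

theorem tr_proj_eq_zero (hC : FO H C) {M : Submodule ℝ (L2 C)} [M.HasOrthogonalProjection]
    (hM : Inv H M) (h0 : tr H M.starProjection = 0) : ∀ z ∈ M, z = 0 := by
  have := hC.cofin
  let _ : Fintype (Orb H C) := Fintype.ofFinite _
  have hself : ∀ x : L2 C, inner ℝ (M.starProjection x) x = ‖M.starProjection x‖ ^ 2 := by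
    intro x
    have h := M.starProjection_inner_eq_zero x (M.starProjection x) (M.starProjection_apply_mem x)
    rw [inner_sub_left, sub_eq_zero, real_inner_self_eq_norm_sq] at h
    rw [real_inner_comm]
    exact h
  unfold tr at h0
  rw [finsum_eq_sum_of_fintype, Finset.sum_eq_zero_iff_of_nonneg
    (fun o _ => by rw [hself]; positivity)] at h0
  have h1 : ∀ o : Orb H C, M.starProjection (delta o.out) = 0 := by
    intro o
    have h2 := h0 o (Finset.mem_univ o)
    rw [hself] at h2
    exact norm_eq_zero.mp (pow_eq_zero_iff two_ne_zero |>.mp h2)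
  have h3 : ∀ c : C, M.starProjection (delta c) = 0 := by
    intro c
    obtain ⟨h, o, rfl⟩ := exists_rep (H := H) c
    rw [← shift_delta, hM.proj h, h1, map_zero]
  intro z hz
  apply l2_ext
  intro c
  show z c = 0
  rw [← delta_inner c z]
  have h4 : M.starProjection z = z := Submodule.starProjection_eq_self_iff.mpr hz
  rw [← h4, ← Submodule.inner_starProjection_left_eq_right, h3, inner_zero_left]

end SingerCub
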