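import Mathlib
import Pool.Agent.Lib_MP_394d50_cub.ETr
import Pool.Agent.Lib_MP_394d50_vs.LErg

/-!
# Piece ERK: rank and nullity

Proof. Let `L > 0` with `‖F‖ ^ 2 ≤ L`, `T = 1 - L⁻¹ F* F`, `T' = 1 - L⁻¹ F F*`. Both are
self-adjoint, equivariant, and contractions: `‖T x‖² = ‖x‖² - 2 L⁻¹ ‖F x‖² + L⁻² ‖F* F x‖² ≤ ‖x‖²`
since `‖F* F x‖² ≤ L ‖F x‖²`. The fixed space of `T` is `{x | F x = 0} = K` (`T x = x` gives
`F* F x = 0`, `‖F x‖² = ⟨F* F x, x⟩ = 0`), that of `T'` is `K'`.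
For all `j`: `tr (T ^ j) = tr (T' ^ j)`. Indeed `1 - T ^ j = (1 - T) ∑_{i<j} T ^ i =
L⁻¹ F* F ∑_{i<j} T ^ i = L⁻¹ F* (∑_{i<j} T' ^ i) F` because `F T = T' F`; and
`1 - T' ^ j = L⁻¹ (∑_{i<j} T' ^ i) F F*`; now `tr_comm` with `A = F*` and
`B = (∑_{i<j} T' ^ i) F`, and `tr_add`, `tr_smul`.
Mean ergodic theorem (`ContinuousLinearMap.tendsto_birkhoffAverage_orthogonalProjection`, see the
proof of `SingerVS.le_lim`; it holds for every contraction): for every `x` the averages
`N⁻¹ ∑_{j<N} ⟨T ^ j x, x⟩` tend to `⟨P_K x, x⟩`. Take `x = δ_{o.out}` and sum over the finitely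
many orbits: `N⁻¹ ∑_{j<N} tr (T ^ j) → tr P_K`, and `N⁻¹ ∑_{j<N} tr (T' ^ j) → tr P_{K'}`. The
sequences are equal, so the limits are.
-/

namespace SingerCub

open SingerVS Filter Topology

section Abstract

variable {E : Type} [NormedAddCommGroup E] [InnerProductSpace ℝ E] [CompleteSpace E]

/-- The operator `1 - L⁻¹ F* F`. -/
private noncomputable def erkT (F : E →L[ℝ] E) (L : ℝ) : E →L[ℝ] E :=
  1 - L⁻¹ • (ContinuousLinearMap.adjoint F * F)

private theorem erkT_apply (F : E →L[ℝ] E) (L : ℝ) (x : E) :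
    erkT F L x = x - L⁻¹ • ContinuousLinearMap.adjoint F (F x) := rfl

private theorem erk_norm (F : E →L[ℝ] E) (L : ℝ) (hL : 0 < L) (hFL : ‖F‖ ^ 2 ≤ L) :
    ‖erkT F L‖ ≤ 1 := by
  refine ContinuousLinearMap.opNorm_le_bound _ zero_le_one fun x => ?_
  rw [one_mul]
  have h1 : ‖ContinuousLinearMap.adjoint F (F x)‖ ≤ ‖F‖ * ‖F x‖ := by
    refine ((ContinuousLinearMap.adjoint F).le_opNorm _).trans (le_of_eq ?_)
    rw [LinearIsometryEquiv.norm_map]
  have h2 : ‖ContinuousLinearMap.adjoint F (F x)‖ ^ 2 ≤ L * ‖F x‖ ^ 2 := by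
    calc ‖ContinuousLinearMap.adjoint F (F x)‖ ^ 2 ≤ (‖F‖ * ‖F x‖) ^ 2 :=
          pow_le_pow_left₀ (norm_nonneg _) h1 2
      _ = ‖F‖ ^ 2 * ‖F x‖ ^ 2 := by ring
      _ ≤ L * ‖F x‖ ^ 2 := mul_le_mul_of_nonneg_right hFL (sq_nonneg _)
  have h3 : inner ℝ x (ContinuousLinearMap.adjoint F (F x)) = ‖F x‖ ^ 2 := by
    rw [ContinuousLinearMap.adjoint_inner_right, real_inner_self_eq_norm_sq]
  have h4 : ‖erkT F L x‖ ^ 2 ≤ ‖x‖ ^ 2 := by
    rw [erkT_apply, norm_sub_sq_real, inner_smul_right, h3, norm_smul, mul_pow,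
      Real.norm_eq_abs, sq_abs]
    have h5 : L⁻¹ ^ 2 * ‖ContinuousLinearMap.adjoint F (F x)‖ ^ 2 ≤
        L⁻¹ ^ 2 * (L * ‖F x‖ ^ 2) := mul_le_mul_of_nonneg_left h2 (by positivity)
    have h6 : L⁻¹ ^ 2 * (L * ‖F x‖ ^ 2) = L⁻¹ * ‖F x‖ ^ 2 := by
      rw [sq, mul_assoc, ← mul_assoc L⁻¹ L, inv_mul_cancel₀ hL.ne', one_mul]
    have h7 : 0 ≤ L⁻¹ * ‖F x‖ ^ 2 := by positivity
    linarith
  exact le_of_sq_le_sq h4 (norm_nonneg _)

private theorem erk_fix (F : E →L[ℝ] E) (L : ℝ) (hL : 0 < L) (x : E) :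
    erkT F L x = x ↔ F x = 0 := by
  constructor
  · intro h
    rw [erkT_apply, sub_eq_self, smul_eq_zero] at h
    rcases h with h | h
    · exact absurd h (inv_ne_zero hL.ne')
    · have h1 : inner ℝ x (ContinuousLinearMap.adjoint F (F x)) = ‖F x‖ ^ 2 := by
        rw [ContinuousLinearMap.adjoint_inner_right, real_inner_self_eq_norm_sq]
      rw [h, inner_zero_right] at h1
      exact norm_eq_zero.mp (pow_eq_zero_iff (two_ne_zero) |>.mp h1.symm)
  · intro h
    rw [erkT_apply, h, map_zero, smul_zero, sub_zero]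

/-- The mean ergodic theorem. -/
private theorem erk_lim (T : E →L[ℝ] E) (hT : ‖T‖ ≤ 1)
    (K : Submodule ℝ E) [K.HasOrthogonalProjection] (hK : ∀ x, x ∈ K ↔ T x = x) (x : E) :
    Tendsto (fun N : ℕ => (N : ℝ)⁻¹ * ∑ j ∈ Finset.range N, inner ℝ ((T ^ j) x) x) atTop
      (𝓝 (inner ℝ (K.starProjection x) x)) := by
  have h1 := ContinuousLinearMap.tendsto_birkhoffAverage_orthogonalProjection T hT x
  have hKe : K = T.eqLocus (1 : E →L[ℝ] E) := by
    ext y
    rw [hK]
    rfl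
  have h2 : K.starProjection x =
      (T.eqLocus (1 : E →L[ℝ] E)).orthogonalProjectionOnto x := by
    subst hKe
    rfl
  rw [h2]
  have h3 := (h1.inner (tendsto_const_nhds (x := x) (f := atTop) : Tendsto (fun _ : ℕ => x) _ _)
    (𝕜 := ℝ))
  refine h3.congr fun N => ?_
  unfold birkhoffAverage birkhoffSum
  rw [inner_smul_left, sum_inner]
  simp only [RCLike.conj_to_real, id_eq]
  congr 1
  refine Finset.sum_congr rfl fun j _ => ?_
  rw [le_iter]

/-- `T ^ j F* = F* T' ^ j`. -/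
private theorem erk_intw (F : E →L[ℝ] E) (L : ℝ) (j : ℕ) :
    erkT F L ^ j * ContinuousLinearMap.adjoint F =
      ContinuousLinearMap.adjoint F * erkT (ContinuousLinearMap.adjoint F) L ^ j := by
  induction j with
  | zero => rw [pow_zero, pow_zero, one_mul, mul_one]
  | succ j ih =>
    have h1 : erkT F L * ContinuousLinearMap.adjoint F =
        ContinuousLinearMap.adjoint F * erkT (ContinuousLinearMap.adjoint F) L := by
      unfold erkT
      rw [ContinuousLinearMap.adjoint_adjoint, sub_mul, mul_sub, one_mul, mul_one,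
        smul_mul_assoc, mul_smul_comm, mul_assoc]
    rw [pow_succ, mul_assoc, h1, ← mul_assoc, ih, mul_assoc, ← pow_succ]

end Abstract

variable {H C : Type} [Group H] [MulAction H C]

private theorem erk_eqv {F : L2 C →L[ℝ] L2 C} (hF : Eqv H F) (L : ℝ) : Eqv H (erkT F L) := by
  intro h z
  rw [erkT_apply, erkT_apply, hF h, hF.adjoint h, map_sub, map_smul]

private theorem erk_eqv_pow {T : L2 C →L[ℝ] L2 C} (hT : Eqv H T) (j : ℕ) : Eqv H (T ^ j) := by
  induction j with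
  | zero => intro h z; rfl
  | succ j ih =>
    rw [pow_succ]
    exact ih.comp hT

private theorem erk_tr_pow (hC : FO H C) {F : L2 C →L[ℝ] L2 C} (hF : Eqv H F) (L : ℝ) (j : ℕ) :
    tr H (erkT F L ^ j) = tr H (erkT (ContinuousLinearMap.adjoint F) L ^ j) := by
  induction j with
  | zero => rfl
  | succ j ih =>
    have e1 : erkT F L ^ (j + 1) = erkT F L ^ j +
        (-L⁻¹) • ((ContinuousLinearMap.adjoint F).comp
          (erkT (ContinuousLinearMap.adjoint F) L ^ j * F)) := by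
      have h2 : (ContinuousLinearMap.adjoint F).comp
          (erkT (ContinuousLinearMap.adjoint F) L ^ j * F) =
          erkT F L ^ j * (ContinuousLinearMap.adjoint F * F) := by
        rw [← mul_assoc, erk_intw, mul_assoc]
        rfl
      rw [h2, pow_succ]
      conv_lhs => rw [erkT.eq_def F L]
      rw [mul_sub, mul_one, mul_smul_comm, neg_smul, ← sub_eq_add_neg]
      rw [← erkT.eq_def F L]
    have e2 : erkT (ContinuousLinearMap.adjoint F) L ^ (j + 1) =
        erkT (ContinuousLinearMap.adjoint F) L ^ j +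
        (-L⁻¹) • ((erkT (ContinuousLinearMap.adjoint F) L ^ j * F).comp
          (ContinuousLinearMap.adjoint F)) := by
      have h2 : (erkT (ContinuousLinearMap.adjoint F) L ^ j * F).comp
          (ContinuousLinearMap.adjoint F) =
          erkT (ContinuousLinearMap.adjoint F) L ^ j * (F * ContinuousLinearMap.adjoint F) := by
        rw [← mul_assoc]
        rfl
      have h3 : erkT (ContinuousLinearMap.adjoint F) L =
          1 - L⁻¹ • (F * ContinuousLinearMap.adjoint F) := by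
        unfold erkT
        rw [ContinuousLinearMap.adjoint_adjoint]
      rw [h2, pow_succ, neg_smul, ← sub_eq_add_neg, ← mul_smul_comm]
      nth_rewrite 2 [h3]
      rw [mul_sub, mul_one]
    have hE : Eqv H (erkT (ContinuousLinearMap.adjoint F) L ^ j * F) :=
      (erk_eqv_pow (erk_eqv hF.adjoint L) j).comp hF
    rw [e1, e2, tr_add hC, tr_add hC, tr_smul hC, tr_smul hC, ih, tr_comm hC hF.adjoint hE]

private theorem erk_tr_lim (hC : FO H C) (T : L2 C →L[ℝ] L2 C) (hT : ‖T‖ ≤ 1)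
    (K : Submodule ℝ (L2 C)) [K.HasOrthogonalProjection] (hK : ∀ x, x ∈ K ↔ T x = x) :
    Tendsto (fun N : ℕ => (N : ℝ)⁻¹ * ∑ j ∈ Finset.range N, tr H (T ^ j)) atTop
      (𝓝 (tr H K.starProjection)) := by
  have := hC.cofin
  let _ : Fintype (Orb H C) := Fintype.ofFinite _
  have h1 : tr H K.starProjection =
      ∑ o : Orb H C, inner ℝ (K.starProjection (delta o.out)) (delta o.out) := by
    unfold tr
    rw [finsum_eq_sum_of_fintype]
  rw [h1]
  have h2 := tendsto_finset_sum (Finset.univ : Finset (Orb H C))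
    (fun o _ => erk_lim T hT K hK (delta o.out))
  refine h2.congr fun N => ?_
  rw [← Finset.mul_sum, Finset.sum_comm]
  congr 1
  refine Finset.sum_congr rfl fun j _ => ?_
  unfold tr
  rw [finsum_eq_sum_of_fintype]

theorem tr_ker (hC : FO H C) {F : L2 C →L[ℝ] L2 C} (hF : Eqv H F) (K K' : Submodule ℝ (L2 C))
    [K.HasOrthogonalProjection] [K'.HasOrthogonalProjection] (hK : ∀ x, x ∈ K ↔ F x = 0)
    (hK' : ∀ x, x ∈ K' ↔ ContinuousLinearMap.adjoint F x = 0) :
    tr H K.starProjection = tr H K'.starProjection := by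
  obtain ⟨L, hL, hFL⟩ : ∃ L : ℝ, 0 < L ∧ ‖F‖ ^ 2 ≤ L :=
    ⟨‖F‖ ^ 2 + 1, by positivity, by linarith⟩
  have hFL' : ‖ContinuousLinearMap.adjoint F‖ ^ 2 ≤ L := by
    rw [LinearIsometryEquiv.norm_map]
    exact hFL
  have h1 := erk_tr_lim hC (erkT F L) (erk_norm F L hL hFL) K
    (fun x => (hK x).trans (erk_fix F L hL x).symm)
  have h2 := erk_tr_lim hC (erkT (ContinuousLinearMap.adjoint F) L)
    (erk_norm (ContinuousLinearMap.adjoint F) L hL hFL') K'
    (fun x => (hK' x).trans (erk_fix (ContinuousLinearMap.adjoint F) L hL x).symm)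
  refine tendsto_nhds_unique h1 (h2.congr fun N => ?_)
  congr 1
  exact Finset.sum_congr rfl fun j _ => (erk_tr_pow hC hF L j).symm

end SingerCub
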