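import Mathlib
import Pool.Agent.Lib_MP_394d50_cub.Defs

/-!
# Piece EOP: the boundary operator of a free cell complex (without the bound `|inc| ≤ 1`)

Proof. `(fun p q => (I.inc p q : ℝ))` has finitely many values up to the action: by `exists_rep`
every `q` is `h • o.out` with `o` in the finite type `Orb H C`, and `I.inc p q =
I.inc (h⁻¹ • p) o.out`; `{p | I.inc p o.out ≠ 0}` is finite. So there is `B : ℕ`, `B ≥ 1`, with
`|I.inc p q| ≤ B` for all `p q`, and (as in `SingerVS.exists_bound`, whose proof only uses the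
fields of `FC`) there is `R : ℕ` with `{q | I.inc c q ≠ 0}.ncard ≤ R` and
`{p | I.inc p c ≠ 0}.ncard ≤ R`. Apply `SingerRA.exists_op` (Lib_MP_394d50_gt.BOp) to the matrix
`I.inc p q / B`, and multiply the operator by `B`. For the adjoint: `(D* z) q = ⟨δ_q, D* z⟩ =
⟨D δ_q, z⟩`; `D δ_q` is the finite sum `∑ p, inc p q • δ_p` (compare coordinates; see
`SingerVS.exists_bdOp`, `adj_delta`), so this is `∑ᶠ p, inc p q * z p`.
-/

namespace SingerCub

open SingerVS

variable {H C : Type} [Group H] [MulAction H C] {I : CellCx C}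

private theorem eop_bound (hF : FC H I) :
    ∃ R : ℕ, ∀ c, {q | I.inc c q ≠ 0}.ncard ≤ R ∧ {p | I.inc p c ≠ 0}.ncard ≤ R := by
  classical
  have := hF.cofin
  have hfin : Fintype (Orb H C) := Fintype.ofFinite _
  refine ⟨∑ o : Orb H C, ({q | I.inc o.out q ≠ 0}.ncard + {p | I.inc p o.out ≠ 0}.ncard),
    fun c => ?_⟩
  obtain ⟨h, o, rfl⟩ := exists_rep (H := H) c
  have h1 : ({q | I.inc o.out q ≠ 0}.ncard + {p | I.inc p o.out ≠ 0}.ncard) ≤
      ∑ o : Orb H C, ({q | I.inc o.out q ≠ 0}.ncard + {p | I.inc p o.out ≠ 0}.ncard) :=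
    Finset.single_le_sum (f := fun o : Orb H C =>
      ({q | I.inc o.out q ≠ 0}.ncard + {p | I.inc p o.out ≠ 0}.ncard))
      (fun _ _ => Nat.zero_le _) (Finset.mem_univ o)
  have h2 : {q | I.inc (h • o.out) q ≠ 0}.ncard ≤ {q | I.inc o.out q ≠ 0}.ncard := by
    refine Set.ncard_le_ncard_of_injOn (fun q => h⁻¹ • q) ?_ ?_ (hF.cofaces _)
    · intro q hq
      show I.inc o.out (h⁻¹ • q) ≠ 0
      rw [← hF.inc_smul h, smul_inv_smul]
      exact hq
    · intro a _ b _ e
      exact smul_left_cancel _ e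
  have h3 : {p | I.inc p (h • o.out) ≠ 0}.ncard ≤ {p | I.inc p o.out ≠ 0}.ncard := by
    refine Set.ncard_le_ncard_of_injOn (fun q => h⁻¹ • q) ?_ ?_ (hF.faces _)
    · intro q hq
      show I.inc (h⁻¹ • q) o.out ≠ 0
      rw [← hF.inc_smul h, smul_inv_smul]
      exact hq
    · intro a _ b _ e
      exact smul_left_cancel _ e
  omega

private theorem eop_val (hF : FC H I) : ∃ B : ℕ, 1 ≤ B ∧ ∀ p q, |I.inc p q| ≤ B := by
  classical
  have := hF.cofin
  have hfin : Fintype (Orb H C) := Fintype.ofFinite _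
  refine ⟨1 + ∑ o : Orb H C, ∑ p ∈ (hF.faces o.out).toFinset, (I.inc p o.out).natAbs,
    Nat.le_add_right 1 _, fun p q => ?_⟩
  obtain ⟨h, o, rfl⟩ := exists_rep (H := H) q
  have e : I.inc p (h • o.out) = I.inc (h⁻¹ • p) o.out := by
    rw [← hF.inc_smul h (h⁻¹ • p), smul_inv_smul]
  rw [e, Int.abs_eq_natAbs]
  by_cases h0 : I.inc (h⁻¹ • p) o.out = 0
  · rw [h0, Int.natAbs_zero]
    exact_mod_cast Nat.zero_le _
  · have h1 : (I.inc (h⁻¹ • p) o.out).natAbs ≤
        ∑ p ∈ (hF.faces o.out).toFinset, (I.inc p o.out).natAbs :=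
      Finset.single_le_sum (f := fun p => (I.inc p o.out).natAbs) (fun _ _ => Nat.zero_le _)
        ((hF.faces o.out).mem_toFinset.2 h0)
    have h2 : ∑ p ∈ (hF.faces o.out).toFinset, (I.inc p o.out).natAbs ≤
        ∑ o : Orb H C, ∑ p ∈ (hF.faces o.out).toFinset, (I.inc p o.out).natAbs :=
      Finset.single_le_sum (f := fun o : Orb H C =>
        ∑ p ∈ (hF.faces o.out).toFinset, (I.inc p o.out).natAbs)
        (fun _ _ => Nat.zero_le _) (Finset.mem_univ o)
    exact_mod_cast (h1.trans h2).trans (Nat.le_add_left _ 1)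

theorem FC.exists_D {H C : Type} [Group H] [MulAction H C] {I : CellCx C} (hF : FC H I) :
    ∃ D : L2 C →L[ℝ] L2 C, (∀ z p, (D z) p = ∑ᶠ q, (I.inc p q : ℝ) * z q) ∧
      (∀ z q, (ContinuousLinearMap.adjoint D z) q = ∑ᶠ p, (I.inc p q : ℝ) * z p) ∧
      Eqv H D := by
  classical
  obtain ⟨R, hR⟩ := eop_bound hF
  obtain ⟨B, hB1, hB⟩ := eop_val hF
  have hB0 : (0 : ℝ) < B := by exact_mod_cast hB1
  have h1 : ∀ p q : C, (I.inc p q : ℝ) / B ≠ 0 ↔ I.inc p q ≠ 0 := fun p q => by
    rw [div_ne_zero_iff, Int.cast_ne_zero]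
    exact ⟨fun h => h.1, fun h => ⟨h, hB0.ne'⟩⟩
  obtain ⟨D, hD, -⟩ := SingerRA.exists_op (fun p q : C => (I.inc p q : ℝ) / B) R (by
      intro p q
      rw [abs_div, abs_of_pos hB0, div_le_one hB0]
      have := hB p q
      exact_mod_cast this) (by
      intro p
      simp only [h1]
      exact ⟨hF.cofaces p, (hR p).1⟩) (by
      intro q
      simp only [h1]
      exact ⟨hF.faces q, (hR q).2⟩)
  have hE : ∀ (z : L2 C) (p : C), (((B : ℝ) • D) z) p = ∑ᶠ q, (I.inc p q : ℝ) * z q := by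
    intro z p
    have h2 : (((B : ℝ) • D) z) p = (B : ℝ) * (D z) p := rfl
    rw [h2, hD, mul_finsum]
    refine finsum_congr fun q => ?_
    field_simp
  refine ⟨(B : ℝ) • D, hE, ?_, ?_⟩
  · intro z q
    rw [← delta_inner q, ContinuousLinearMap.adjoint_inner_right, lp.inner_eq_tsum]
    have h3 : ∀ p, (((B : ℝ) • D) (delta q)) p = (I.inc p q : ℝ) := by
      intro p
      rw [hE, finsum_eq_single _ q]
      · rw [delta_self, mul_one]
      · intro q' hq'
        rw [delta_ne hq', mul_zero]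
    have h4 : (fun p => inner ℝ ((((B : ℝ) • D) (delta q)) p) (z p)) =
        fun p => (I.inc p q : ℝ) * z p := by
      funext p
      rw [h3, RCLike.inner_apply, conj_trivial, mul_comm]
    rw [h4]
    apply tsum_eq_finsum
    refine (hF.faces q).subset fun p hp => ?_
    rw [Function.mem_support] at hp
    exact Int.cast_ne_zero.1 (left_ne_zero_of_mul hp)
  · intro h z
    apply l2_ext
    intro c
    rw [hE, shift_apply, hE]
    have h5 := finsum_comp_equiv (MulAction.toPerm h⁻¹ : Equiv.Perm C)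
      (f := fun q => (I.inc (h⁻¹ • c) q : ℝ) * z q)
    refine Eq.trans (finsum_congr fun q => ?_) h5
    rw [shift_apply, MulAction.toPerm_apply, hF.inc_smul]

end SingerCub
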