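import Mathlib
import Pool.Agent.Lib_MP_394d50_cub.Defs
import Pool.Agent.Lib_MP_394d50_vs.VStat
import Pool.Agent.Lib_MP_394d50_vs.VBr
import Pool.Agent.Lib_MP_394d50_vs.LSim

/-!
# Piece ABET: `NH` and the `ℓ²`-Betti numbers

Let `I = simpCx X (· < ·)`. Faces and cofaces of a simplex are finite (`hX.cof_finite`). So `z ∈ harm I` iff
`∀ q, ∑ᶠ p, inc p q * z p = 0` and `∀ p, ∑ᶠ q, inc p q * z q = 0`: for every `q` the function `p ↦ inc p q` has
finite support, so it is a chain `w` with `IsBd I w`, and `⟨w, z⟩` is the finite sum; `harm` is the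
orthogonal complement of all of these.

`nh_of_betti`. `bettiX Γ X k = l2Betti Γ I k` (`bettiX_eq`, see the end of `main_rn` in MNR; or directly from
the definition), a sum over the finitely many orbits of non-negative terms (`locDim_nonneg`), so
`locDim I c = 0` for the representatives of dimension `k`, and for all `c` of dimension `k`
(`locDim_smul_simp`). `locDim I c = ‖P δ_c‖²` (`SingerVS.le_self`), so `P δ_c = 0`. For a harmonic `z`
supported in dimension `k`: `z c = ⟨δ_c, z⟩ = ⟨δ_c, P z⟩ = ⟨P δ_c, z⟩ = 0` if `dim c = k`, and `z c = 0`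
otherwise.

`betti_of_nh`. Let `dim c = k`, `z = P δ_c ∈ harm I`, and `z'` the restriction of `z` to the `k`-cells. `z'` is
harmonic: `∑ᶠ q, inc p q * z' q` is `∑ᶠ q, inc p q * z q = 0` if `dim p + 1 = k` (all `q` with `inc p q ≠ 0` have
dimension `k`) and has no non-zero term otherwise; the same for the other condition. So `z' = 0` by `NH`
and `locDim I c = ⟨z, δ_c⟩ = z c = z' c = 0`. Then every term of `bettiX` is zero.

`locDim_of_nh` is the same statement for one simplex.
-/

namespace SingerCub

open SingerVS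
open scoped Pointwise

variable {Γ P : Type} [Group Γ] [LinearOrder P] [MulAction Γ P] {X : Set (Finset P)}

private theorem abet_chain {C : Type} (g : C → ℤ) (hg : {p | g p ≠ 0}.Finite) :
    ∃ w : L2 C, (∀ p, w p = (g p : ℝ)) ∧ ∀ z : L2 C, inner ℝ w z = ∑ᶠ p, (g p : ℝ) * z p := by
  classical
  refine ⟨∑ p ∈ hg.toFinset, (g p : ℝ) • (delta p : L2 C), ?_, ?_⟩
  · intro c
    rw [l2_sum_apply]
    by_cases hc : g c = 0
    · rw [hc, Int.cast_zero]
      refine Finset.sum_eq_zero fun p hp => ?_
      have hne : c ≠ p := by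
        rintro rfl
        exact (hg.mem_toFinset.1 hp) hc
      show (g p : ℝ) * (delta p : L2 C) c = 0
      rw [delta_ne hne, mul_zero]
    · rw [Finset.sum_eq_single c]
      · show (g c : ℝ) * (delta c : L2 C) c = g c
        rw [delta_self, mul_one]
      · intro p _ hp
        show (g p : ℝ) * (delta p : L2 C) c = 0
        rw [delta_ne (Ne.symm hp), mul_zero]
      · intro h
        exact absurd (hg.mem_toFinset.2 hc) h
  · intro z
    rw [sum_inner, finsum_eq_sum_of_support_subset (s := hg.toFinset)]
    · refine Finset.sum_congr rfl fun p _ => ?_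
      rw [real_inner_smul_left, delta_inner]
    · intro p hp
      rw [Finset.mem_coe, hg.mem_toFinset]
      intro h0
      apply hp
      show (g p : ℝ) * z p = 0
      rw [h0, Int.cast_zero, zero_mul]

private theorem abet_harm {C : Type} {I : CellCx C} (hf : ∀ q, {p | I.inc p q ≠ 0}.Finite)
    (hc : ∀ p, {q | I.inc p q ≠ 0}.Finite) (z : L2 C) :
    z ∈ harm I ↔ (∀ p, ∑ᶠ q, (I.inc p q : ℝ) * z q = 0) ∧
      (∀ q, ∑ᶠ p, (I.inc p q : ℝ) * z p = 0) := by
  unfold harm
  rw [Submodule.mem_orthogonal]
  constructor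
  · intro h
    constructor
    · intro p
      obtain ⟨w, hw, hi⟩ := abet_chain (fun q => I.inc p q) (hc p)
      rw [← hi z]
      exact h _ (Submodule.subset_span (Or.inr ⟨p, hw⟩))
    · intro q
      obtain ⟨w, hw, hi⟩ := abet_chain (fun p => I.inc p q) (hf q)
      rw [← hi z]
      exact h _ (Submodule.subset_span (Or.inl ⟨q, hw⟩))
  · rintro ⟨h1, h2⟩ u hu
    induction hu using Submodule.span_induction with
    | mem x hx =>
      rcases hx with ⟨q, hq⟩ | ⟨p, hp⟩
      · obtain ⟨w, hw, hi⟩ := abet_chain (fun p => I.inc p q) (hf q)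
        have hx : x = w := l2_ext _ _ fun p => by rw [hq, hw]
        rw [hx, hi, h2]
      · obtain ⟨w, hw, hi⟩ := abet_chain (fun q => I.inc p q) (hc p)
        have hx : x = w := l2_ext _ _ fun q => by rw [hp, hw]
        rw [hx, hi, h1]
    | zero => rw [inner_zero_left]
    | add a b _ _ ha hb => rw [inner_add_left, ha, hb, add_zero]
    | smul r a _ ha => rw [inner_smul_left, ha, mul_zero]

private theorem abet_faces (hX : FreeCx Γ X) (q : {σ : Finset P // σ ∈ X}) :
    {p | (simpCx X (fun x y : P => x < y)).inc p q ≠ 0}.Finite := by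
  have _ := hX
  refine Set.Finite.of_finite_image (f := Subtype.val) ?_ Subtype.val_injective.injOn
  refine (q.1.image (fun v => q.1.erase v)).finite_toSet.subset ?_
  rintro _ ⟨p, hp, rfl⟩
  obtain ⟨v, hv, e⟩ := simpInc_ne hp
  exact Finset.mem_coe.mpr (Finset.mem_image.mpr ⟨v, hv, e.symm⟩)

private theorem abet_cofaces (hX : FreeCx Γ X) (p : {σ : Finset P // σ ∈ X}) :
    {q | (simpCx X (fun x y : P => x < y)).inc p q ≠ 0}.Finite := by
  refine Set.Finite.of_finite_image (f := Subtype.val) ?_ Subtype.val_injective.injOn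
  refine (hX.cof_finite p.2).subset ?_
  rintro _ ⟨q, hq, rfl⟩
  obtain ⟨v, hv, e⟩ := simpInc_ne hq
  exact ⟨q.2, by rw [e]; exact Finset.erase_subset v q.1⟩

private theorem abet_dim (hX : FreeCx Γ X) (p q : {σ : Finset P // σ ∈ X})
    (h : (simpCx X (fun x y : P => x < y)).inc p q ≠ 0) :
    (simpCx X (fun x y : P => x < y)).dim q = (simpCx X (fun x y : P => x < y)).dim p + 1 := by
  obtain ⟨v, hv, e⟩ := simpInc_ne h
  show q.1.card - 1 = p.1.card - 1 + 1
  have h1 := Finset.card_pos.mpr (hX.ne _ p.2)
  have h2 : p.1.card = q.1.card - 1 := by rw [e, Finset.card_erase_of_mem hv]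
  omega

private theorem abet_card (hX : FreeCx Γ X) (c : {σ : Finset P // σ ∈ X}) (k : ℕ) :
    (simpCx X (fun x y : P => x < y)).dim c = k ↔ c.1.card = k + 1 := by
  show c.1.card - 1 = k ↔ _
  have h1 := Finset.card_pos.mpr (hX.ne _ c.2)
  omega

private theorem abet_loc (hX : FreeCx Γ X) (g : Γ) (c : {σ : Finset P // σ ∈ X}) :
    locDim (simpCx X (fun x y : P => x < y)) ⟨g • c.1, hX.inv g c.1 c.2⟩ =
      locDim (simpCx X (fun x y : P => x < y)) c := by
  classical
  let iA : MulAction Γ {σ : Finset P // σ ∈ X} := simpAct hX.inv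
  have hsm : ∀ (h : Γ) (c : {σ : Finset P // σ ∈ X}), (h • c).1 = h • c.1 := fun _ _ => rfl
  have hr0 : ∀ σ ∈ X, TotOn (fun x y : P => x < y) σ := by
    intro σ _
    refine ⟨fun x _ => lt_irrefl x, fun x _ y _ hxy => ?_⟩
    exact ⟨fun h => not_lt_of_gt h, fun h => lt_of_le_of_ne (not_lt.1 h) hxy⟩
  exact locDim_smul_simp (H := Γ) hX.inv hsm hr0 g c

theorem nh_of_betti (hX : FreeCx Γ X) (k : ℕ) (h : bettiX Γ X k = 0) :
    NH (simpCx X (fun x y : P => x < y)) Set.univ k := by
  classical
  have hloc0 : ∀ c : {σ : Finset P // σ ∈ X}, c.1.card = k + 1 →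
      locDim (simpCx X (fun x y : P => x < y)) c = 0 := by
    intro c hc
    unfold bettiX at h
    obtain ⟨R, hR1, hR2⟩ := hX.fin
    have hsupp : (Function.support fun o : MulAction.orbitRel.Quotient Γ (Finset P) =>
        if h : o.out ∈ X ∧ o.out.card = k + 1 then
          locDim (simpCx X (fun x y : P => x < y)) ⟨o.out, h.1⟩ else 0).Finite := by
      refine (R.finite_toSet.image
        (fun σ => (Quotient.mk (MulAction.orbitRel Γ (Finset P)) σ :
          MulAction.orbitRel.Quotient Γ (Finset P)))).subset ?_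
      intro o ho
      have h1 : o.out ∈ X := by
        by_contra hn
        apply ho
        exact dif_neg fun h => hn h.1
      obtain ⟨g, r, hr, e⟩ := hR2 _ h1
      refine ⟨r, hr, ?_⟩
      rw [← Quotient.out_eq o]
      refine (Quotient.sound (MulAction.orbitRel_apply.mpr ⟨g, ?_⟩)).symm
      exact e.symm
    rw [finsum_eq_sum _ hsupp, Finset.sum_eq_zero_iff_of_nonneg] at h
    · have h1 := Quotient.mk_out (s := MulAction.orbitRel Γ (Finset P)) c.1
      obtain ⟨g, hg⟩ := MulAction.orbitRel_apply.mp h1
      have hg' : g • c.1 = Quotient.out (Quotient.mk (MulAction.orbitRel Γ (Finset P)) c.1) := hg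
      have hX1 : Quotient.out (Quotient.mk (MulAction.orbitRel Γ (Finset P)) c.1) ∈ X :=
        hg' ▸ hX.inv g _ c.2
      have hX2 : (Quotient.out (Quotient.mk (MulAction.orbitRel Γ (Finset P)) c.1)).card = k + 1 := by
        rw [← hg', Finset.card_smul_finset]
        exact hc
      have h2 : locDim (simpCx X (fun x y : P => x < y))
          ⟨Quotient.out (Quotient.mk (MulAction.orbitRel Γ (Finset P)) c.1), hX1⟩ = 0 := by
        by_contra hne
        have h3 := h (Quotient.mk (MulAction.orbitRel Γ (Finset P)) c.1) (by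
          rw [Set.Finite.mem_toFinset, Function.mem_support, dif_pos ⟨hX1, hX2⟩]
          exact hne)
        rw [dif_pos ⟨hX1, hX2⟩] at h3
        exact hne h3
      rw [← abet_loc hX g c, ← h2]
      congr 1
      exact Subtype.ext hg'
    · intro o _
      split_ifs
      · exact locDim_nonneg _
      · exact le_rfl
  intro z h1 h2 h3
  have hz : z ∈ harm (simpCx X (fun x y : P => x < y)) :=
    (abet_harm (abet_faces hX) (abet_cofaces hX) z).2
      ⟨fun p => h2 p (Set.mem_univ p), fun q => h3 q (Set.mem_univ q)⟩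
  apply l2_ext
  intro c
  show z c = 0
  by_contra hc
  have h4 := (abet_card hX c k).1 (h1 c hc).2
  have h5 := hloc0 c h4
  unfold locDim at h5
  rw [le_self, sq_eq_zero_iff, norm_eq_zero] at h5
  have h6 : (harm (simpCx X (fun x y : P => x < y))).starProjection z = z :=
    Submodule.starProjection_eq_self_iff.2 hz
  apply hc
  rw [← delta_inner c z, ← h6, ← Submodule.inner_starProjection_left_eq_right, h5,
    inner_zero_left]

theorem locDim_of_nh (hX : FreeCx Γ X) (k : ℕ)
    (h : NH (simpCx X (fun x y : P => x < y)) Set.univ k) (c : {σ : Finset P // σ ∈ X})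
    (hc : c.1.card = k + 1) : locDim (simpCx X (fun x y : P => x < y)) c = 0 := by
  classical
  obtain ⟨z, hz⟩ : ∃ z, z = (harm (simpCx X (fun x y : P => x < y))).starProjection (delta c) :=
    ⟨_, rfl⟩
  have hzm : z ∈ harm (simpCx X (fun x y : P => x < y)) :=
    hz ▸ Submodule.starProjection_apply_mem _ _
  obtain ⟨h1, h2⟩ := (abet_harm (abet_faces hX) (abet_cofaces hX) z).1 hzm
  obtain ⟨A, hA⟩ : ∃ A : Set {σ : Finset P // σ ∈ X},
      A = {c | (simpCx X (fun x y : P => x < y)).dim c = k} := ⟨_, rfl⟩
  have hmA : ∀ c, c ∈ A ↔ (simpCx X (fun x y : P => x < y)).dim c = k := fun c => by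
    rw [hA]
    exact Iff.rfl
  have hzero : rs A z = 0 := by
    refine h (rs A z) ?_ ?_ ?_
    · intro p hp
      refine ⟨Set.mem_univ _, ?_⟩
      by_contra hn
      exact hp (rs_of_notMem z fun hm => hn ((hmA p).1 hm))
    · intro p _
      by_cases hp : (simpCx X (fun x y : P => x < y)).dim p + 1 = k
      · rw [← h1 p]
        refine finsum_congr fun q => ?_
        by_cases h0 : (simpCx X (fun x y : P => x < y)).inc p q = 0
        · rw [h0]
          simp
        · rw [rs_of_mem z ((hmA q).2 ((abet_dim hX p q h0).trans hp))]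
      · rw [← finsum_zero (α := {σ : Finset P // σ ∈ X}) (M := ℝ)]
        refine finsum_congr fun q => ?_
        by_cases h0 : (simpCx X (fun x y : P => x < y)).inc p q = 0
        · rw [h0]
          simp
        · rw [rs_of_notMem z, mul_zero]
          intro hm
          exact hp ((abet_dim hX p q h0).symm.trans ((hmA q).1 hm))
    · intro q _
      by_cases hq : (simpCx X (fun x y : P => x < y)).dim q = k + 1
      · rw [← h2 q]
        refine finsum_congr fun p => ?_
        by_cases h0 : (simpCx X (fun x y : P => x < y)).inc p q = 0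
        · rw [h0]
          simp
        · have h3 := abet_dim hX p q h0
          rw [rs_of_mem z ((hmA p).2 (by omega))]
      · rw [← finsum_zero (α := {σ : Finset P // σ ∈ X}) (M := ℝ)]
        refine finsum_congr fun p => ?_
        by_cases h0 : (simpCx X (fun x y : P => x < y)).inc p q = 0
        · rw [h0]
          simp
        · rw [rs_of_notMem z, mul_zero]
          intro hm
          have h3 := abet_dim hX p q h0
          have h4 := (hmA p).1 hm
          omega
  have h3 := rs_of_mem z ((hmA c).2 ((abet_card hX c k).2 hc))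
  rw [hzero] at h3
  unfold locDim
  rw [← hz, real_inner_comm, delta_inner]
  exact h3.symm

theorem betti_of_nh (hX : FreeCx Γ X) (k : ℕ)
    (h : NH (simpCx X (fun x y : P => x < y)) Set.univ k) : bettiX Γ X k = 0 := by
  unfold bettiX
  refine finsum_eq_zero_of_forall_eq_zero fun o => ?_
  split_ifs with h1
  · exact locDim_of_nh hX k h ⟨o.out, h1.1⟩ h1.2
  · rfl

end SingerCub
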