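import Mathlib
import Pool.Agent.Lib_MP_394d50_vs.VStat
import Pool.Agent.Lib_MP_394d50_rn.RDefs

/-!
# Walls: definitions for the statement
-/

namespace SingerCub

open SingerVS
open scoped Pointwise

/-- The intersection of the walls `Y i`, `i ∈ t`. -/
def wi {P ι : Type} (Y : ι → Set (Finset P)) (t : Finset ι) : Set (Finset P) :=
  {σ | ∀ i ∈ t, σ ∈ Y i}

/-- `Y i`, `i : ι`, is a `Γ`-equivariant, locally finite family of walls in the simplicial complex `X`
of dimension `n`: subcomplexes such that every non-empty intersection of `j ≥ 1` walls is acyclic over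
`F₂` and a homology manifold over `F₂` of dimension at least `n - j`, and such that the complement of
the union of the walls is the disjoint union of the open stars of the vertices `z ∈ Z`. -/
structure Walls (n : ℕ) (Γ : Type) [Group Γ] {P ι : Type} [DecidableEq P] [MulAction Γ P]
    [MulAction Γ ι] (X : Set (Finset P)) (Y : ι → Set (Finset P)) (Z : Set P) : Prop where
  sub : ∀ i, Y i ⊆ X
  down : ∀ i, ∀ σ ∈ Y i, ∀ τ, τ ⊆ σ → τ.Nonempty → τ ∈ Y i
  smul : ∀ (g : Γ) i, ∀ σ ∈ Y i, g • σ ∈ Y (g • i)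
  locfin : ∀ σ ∈ X, {i | σ ∈ Y i}.Finite
  inter : ∀ t : Finset ι, t.Nonempty → (wi Y t).Nonempty →
    Acyc (wi Y t) ∧ ∃ m, n ≤ m + t.card ∧ HomMfd m (wi Y t)
  cell : ∀ σ ∈ X, (∀ i, σ ∉ Y i) ↔ ∃ z ∈ Z, z ∈ σ
  uniq : ∀ σ ∈ X, ∀ z ∈ Z, ∀ z' ∈ Z, z ∈ σ → z' ∈ σ → z = z'

end SingerCub
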