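import Mathlib
import Pool.Agent.Lib_MP_394d50_cub.Defs

/-!
# The double complex of a family of closed sets of cells (walls)

`Y i` (`i : ι`) is a family of sets of cells of `I`. The cells of `cech I Y J` are the pairs `(t, c)`,
`t` a list of at most `J` indices and `c` a cell in all `Y i`, `i ∈ t`, of dimension
`t.length + dim c`.
-/

namespace SingerCub

open SingerVS

section

variable {C ι : Type}

/-- The pairs `(t, c)`. -/
def CC (Y : ι → Set C) (J : ℕ) : Type :=
  {x : List ι × C // x.1.length ≤ J ∧ ∀ i ∈ x.1, x.2 ∈ Y i}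

open scoped Classical in
/-- The incidence number of lists: `∑ (-1) ^ i` over the `i` such that `t` is obtained from `t'` by
deleting the entry number `i`. -/
noncomputable def linc (t t' : List ι) : ℤ :=
  ∑ i ∈ Finset.range t'.length, if t'.eraseIdx i = t then (-1 : ℤ) ^ i else 0

open scoped Classical in
/-- The double complex. -/
noncomputable def cech (I : CellCx C) (Y : ι → Set C) (J : ℕ) : CellCx (CC Y J) where
  dim x := x.1.1.length + I.dim x.1.2
  inc x y := (if x.1.1 = y.1.1 then (-1 : ℤ) ^ x.1.1.length * I.inc x.1.2 y.1.2 else 0) +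
    (if x.1.2 = y.1.2 then linc x.1.1 y.1.1 else 0)

/-- The hypotheses on the family: closed, equivariant, locally finite. -/
structure Fam (H : Type) [Group H] [MulAction H C] [MulAction H ι] (I : CellCx C)
    (Y : ι → Set C) : Prop where
  down : ∀ i, ∀ q ∈ Y i, ∀ p, I.inc p q ≠ 0 → p ∈ Y i
  smul : ∀ (h : H) i, ∀ c ∈ Y i, h • c ∈ Y (h • i)
  locfin : ∀ c, {i | c ∈ Y i}.Finite

/-- The action on the pairs. -/
abbrev ccAct {H : Type} [Group H] [MulAction H C] [MulAction H ι] {Y : ι → Set C}
    (hY : ∀ (h : H) i, ∀ c ∈ Y i, h • c ∈ Y (h • i)) (J : ℕ) : MulAction H (CC Y J) where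
  smul h x := ⟨(x.1.1.map (h • ·), h • x.1.2), by
    refine ⟨by rw [List.length_map]; exact x.2.1, fun i hi => ?_⟩
    obtain ⟨j, hj, rfl⟩ := List.mem_map.mp hi
    exact hY h j _ (x.2.2 j hj)⟩
  one_smul x := Subtype.ext (Prod.ext (by
    show x.1.1.map ((1 : H) • ·) = x.1.1
    simp) (one_smul H x.1.2))
  mul_smul g h x := Subtype.ext (Prod.ext (by
    show x.1.1.map ((g * h) • ·) = (x.1.1.map (h • ·)).map (g • ·)
    rw [List.map_map]
    exact List.map_congr_left fun i _ => mul_smul g h i) (mul_smul g h x.1.2))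

end

end SingerCub
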