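import Mathlib
import Pool.Agent.Lib_MP_394d50_cub.CDefs

/-!
# Piece CSQ: the square of the boundary of the double complex is zero

`linc_sq`: `∑ᶠ s, linc t s * linc s u = ∑_{j < |u|} ∑_{i < |u| - 1} (-1)^(i+j) [(u.eraseIdx j).eraseIdx i = t]`
(for each `j` the only `s` is `u.eraseIdx j`; the support is contained in the finite set of the
`u.eraseIdx j`), and the pairs `(j, i)` with `i < j` cancel against the pairs `(i, j - 1)`:
`(u.eraseIdx j).eraseIdx i = (u.eraseIdx i).eraseIdx (j - 1)` for `i < j` (List.eraseIdx_eraseIdx_of_lt or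
by `List.ext_getElem`). An alternative proof is by induction on `u`: `linc t (a :: u) = [t = u] -
(if t = a :: t₁ then linc t₁ u else 0)`.

`linc_length`: `linc t t' ≠ 0 → t'.length = t.length + 1`, and the entries of `t` are entries of `t'`.

`cech_sq`. Let `p = (t, c)`, `r = (t'', c'')`, `q = (t', c')`. The product `inc p q * inc q r` is a sum of
four terms. Summed over all `q`:
* vertical-vertical: non-zero only for `t = t' = t''`: `∑ᶠ c', I.inc c c' * I.inc c' c''` over the `c'` in
  all `Y i`, `i ∈ t`. These are all `c'` with non-zero term: `c'' ∈ Y i` and `I.inc c' c'' ≠ 0` give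
  `c' ∈ Y i` (`down`). So it is `0` by `hF.sq`.
* horizontal-horizontal: `c = c' = c''`, and `∑ᶠ s, linc t s * linc s t'' = 0` over the lists `s` with
  `s.length ≤ J` and entries `i` with `c ∈ Y i`; if `linc s t'' ≠ 0` this is automatic.
* mixed: `t' = t`, `c' = c''`: `(-1)^|t| * I.inc c c'' * linc t t''`; and `c' = c`, `t' = t''`:
  `linc t t'' * (-1)^|t''| * I.inc c c''`. The sum is zero, since `|t''| = |t| + 1` when
  `linc t t'' ≠ 0`. Both `q` exist when `linc t t'' ≠ 0` and `I.inc c c'' ≠ 0`: `(t, c'')` because the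
  entries of `t` are entries of `t''`, and `(t'', c)` because of `down`.
  (If `c = c''`, then `I.inc c c'' = 0` by `hF.inc_dim`, and if `t = t''` then `linc t t'' = 0`.)
All sums are finite: `{q | inc p q ≠ 0}` is finite, or use that the support is contained in the
finite set of the `q = (t', c')` with `t' ∈ {t''} ∪ {t''.eraseIdx i}` and `c' = c''` or `I.inc c' c'' ≠ 0`.
-/

namespace SingerCub

open SingerVS

section

variable {C ι : Type}

private theorem csq_exists {t t' : List ι} (h : linc t t' ≠ 0) :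
    ∃ i, i < t'.length ∧ t'.eraseIdx i = t := by
  classical
  by_contra hno
  push Not at hno
  apply h
  unfold linc
  refine Finset.sum_eq_zero fun i hi => ?_
  rw [if_neg (hno i (Finset.mem_range.mp hi))]

theorem linc_length {t t' : List ι} (h : linc t t' ≠ 0) :
    t'.length = t.length + 1 ∧ ∀ i ∈ t, i ∈ t' := by
  obtain ⟨i, hi, rfl⟩ := csq_exists h
  refine ⟨?_, fun j hj => List.mem_of_mem_eraseIdx hj⟩
  rw [List.length_eraseIdx_of_lt hi]
  omega

private theorem csq_ee (u : List ι) : ∀ i j : ℕ, i ≤ j →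
    (u.eraseIdx i).eraseIdx j = (u.eraseIdx (j + 1)).eraseIdx i := by
  induction u with
  | nil => intro i j _; rfl
  | cons a u ih =>
    intro i j hij
    cases i with
    | zero => rfl
    | succ i =>
      cases j with
      | zero => omega
      | succ j =>
        show a :: (u.eraseIdx i).eraseIdx j = a :: (u.eraseIdx (j + 1)).eraseIdx i
        rw [ih i j (by omega)]

private theorem csq_fin (g : List ι → ℤ) (u : List ι) :
    ∑ᶠ s, g s * linc s u = ∑ j ∈ Finset.range u.length, (-1 : ℤ) ^ j * g (u.eraseIdx j) := by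
  classical
  have h1 : ∀ s, g s * linc s u =
      ∑ j ∈ Finset.range u.length, if u.eraseIdx j = s then (-1 : ℤ) ^ j * g s else 0 := by
    intro s
    unfold linc
    rw [Finset.mul_sum]
    refine Finset.sum_congr rfl fun j _ => ?_
    rw [mul_ite, mul_zero, mul_comm]
  rw [finsum_congr h1, finsum_sum_comm]
  · refine Finset.sum_congr rfl fun j _ => ?_
    rw [finsum_eq_single _ (u.eraseIdx j) (fun s hs => if_neg (Ne.symm hs)), if_pos rfl]
  · intro j _
    refine (Set.finite_singleton (u.eraseIdx j)).subset fun s hs => ?_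
    by_contra hne
    apply hs
    show (if u.eraseIdx j = s then (-1 : ℤ) ^ j * g s else 0) = 0
    rw [if_neg]
    intro e
    exact hne e.symm

theorem linc_sq (t u : List ι) : ∑ᶠ s, linc t s * linc s u = 0 := by
  classical
  rw [csq_fin]
  have h1 : ∀ j ∈ Finset.range u.length, (-1 : ℤ) ^ j * linc t (u.eraseIdx j) =
      ∑ i ∈ Finset.range (u.length - 1),
        if (u.eraseIdx j).eraseIdx i = t then (-1 : ℤ) ^ (i + j) else 0 := by
    intro j hj
    unfold linc
    rw [List.length_eraseIdx_of_lt (Finset.mem_range.mp hj), Finset.mul_sum]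
    refine Finset.sum_congr rfl fun i _ => ?_
    rw [mul_ite, mul_zero, ← pow_add, add_comm]
  rw [Finset.sum_congr rfl h1, ← Finset.sum_product']
  refine Finset.sum_involution
    (fun x _ => if x.2 < x.1 then (x.2, x.1 - 1) else (x.2 + 1, x.1)) ?_ ?_ ?_ ?_
  · rintro ⟨j, i⟩ _
    by_cases hij : i < j
    · simp only [hij, if_true]
      have h2 : (u.eraseIdx i).eraseIdx (j - 1) = (u.eraseIdx j).eraseIdx i := by
        have := csq_ee u i (j - 1) (by omega)
        rw [show j - 1 + 1 = j by omega] at this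
        exact this
      rw [h2]
      split_ifs
      · have h3 : i + j = (j - 1 + i) + 1 := by omega
        rw [h3, pow_succ]
        ring
      · rfl
    · simp only [hij, if_false]
      rw [← csq_ee u j i (by omega)]
      split_ifs
      · have h3 : j + (i + 1) = (i + j) + 1 := by omega
        rw [h3, pow_succ]
        ring
      · rfl
  · rintro ⟨j, i⟩ _ _ he
    by_cases hij : i < j
    · simp only [hij, if_true, Prod.mk.injEq] at he
      omega
    · simp only [hij, if_false, Prod.mk.injEq] at he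
      omega
  · rintro ⟨j, i⟩ hx
    rw [Finset.mem_product, Finset.mem_range, Finset.mem_range] at hx
    simp only at hx
    by_cases hij : i < j
    · simp only [hij, if_true]
      rw [Finset.mem_product, Finset.mem_range, Finset.mem_range]
      simp only
      omega
    · simp only [hij, if_false]
      rw [Finset.mem_product, Finset.mem_range, Finset.mem_range]
      simp only
      omega
  · rintro ⟨j, i⟩ _
    by_cases hij : i < j
    · simp only [hij, if_true]
      rw [if_neg (show ¬ (j - 1 < i) by omega)]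
      rw [Prod.mk.injEq]
      omega
    · simp only [hij, if_false]
      rw [if_pos (show j < i + 1 by omega)]
      rw [Prod.mk.injEq]
      omega

theorem cech_inc_dim {H : Type} [Group H] [MulAction H C] {I : CellCx C} (hF : FC H I)
    (Y : ι → Set C) (J : ℕ) (p q : CC Y J) (h : (cech I Y J).inc p q ≠ 0) :
    (cech I Y J).dim q = (cech I Y J).dim p + 1 := by
  classical
  show q.1.1.length + I.dim q.1.2 = p.1.1.length + I.dim p.1.2 + 1
  have h' : (if p.1.1 = q.1.1 then (-1 : ℤ) ^ p.1.1.length * I.inc p.1.2 q.1.2 else 0) +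
    (if p.1.2 = q.1.2 then linc p.1.1 q.1.1 else 0) ≠ 0 := h
  by_cases h1 : p.1.1 = q.1.1 ∧ I.inc p.1.2 q.1.2 ≠ 0
  · rw [h1.1, hF.inc_dim _ _ h1.2]
    omega
  · by_cases h2 : p.1.2 = q.1.2 ∧ linc p.1.1 q.1.1 ≠ 0
    · rw [h2.1, (linc_length h2.2).1]
      omega
    · exfalso
      apply h'
      rw [not_and_or, not_not] at h1 h2
      have e1 : (if p.1.1 = q.1.1 then (-1 : ℤ) ^ p.1.1.length * I.inc p.1.2 q.1.2 else 0) = 0 := by
        rcases h1 with h1 | h1
        · rw [if_neg h1]
        · rw [h1, mul_zero, ite_self]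
      have e2 : (if p.1.2 = q.1.2 then linc p.1.1 q.1.1 else 0) = 0 := by
        rcases h2 with h2 | h2
        · rw [if_neg h2]
        · rw [h2, ite_self]
      rw [e1, e2, add_zero]

private theorem csq_fin_v {H : Type} [Group H] [MulAction H C] {I : CellCx C} (hF : FC H I)
    (Y : ι → Set C) (J : ℕ) (r : CC Y J) :
    {q : CC Y J | q.1.1 = r.1.1 ∧ I.inc q.1.2 r.1.2 ≠ 0}.Finite := by
  refine Set.Finite.of_finite_image (f := fun q : CC Y J => q.1.2)
    ((hF.faces r.1.2).subset ?_) ?_
  · rintro _ ⟨q, hq, rfl⟩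
    exact hq.2
  · intro q hq q' hq' e
    exact Subtype.ext (Prod.ext (hq.1.trans hq'.1.symm) e)

private theorem csq_fin_h (Y : ι → Set C) (J : ℕ) (r : CC Y J) :
    {q : CC Y J | q.1.2 = r.1.2 ∧ linc q.1.1 r.1.1 ≠ 0}.Finite := by
  refine Set.Finite.of_finite_image (f := fun q : CC Y J => q.1.1)
    (((Finset.range r.1.1.length).finite_toSet.image (fun i => r.1.1.eraseIdx i)).subset ?_) ?_
  · rintro _ ⟨q, hq, rfl⟩
    obtain ⟨i, hi, e⟩ := csq_exists hq.2
    exact ⟨i, Finset.mem_coe.mpr (Finset.mem_range.mpr hi), e⟩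
  · intro q hq q' hq' e
    exact Subtype.ext (Prod.ext e (hq.1.trans hq'.1.symm))

theorem cech_faces {H : Type} [Group H] [MulAction H C] {I : CellCx C} (hF : FC H I)
    (Y : ι → Set C) (J : ℕ) (q : CC Y J) : {p | (cech I Y J).inc p q ≠ 0}.Finite := by
  classical
  refine ((csq_fin_v hF Y J q).union (csq_fin_h Y J q)).subset fun p hp => ?_
  have h' : (if p.1.1 = q.1.1 then (-1 : ℤ) ^ p.1.1.length * I.inc p.1.2 q.1.2 else 0) +
    (if p.1.2 = q.1.2 then linc p.1.1 q.1.1 else 0) ≠ 0 := hp
  by_cases h1 : p.1.1 = q.1.1 ∧ I.inc p.1.2 q.1.2 ≠ 0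
  · exact Or.inl h1
  · refine Or.inr ?_
    by_contra h2
    apply h'
    have h2' : ¬ (p.1.2 = q.1.2 ∧ linc p.1.1 q.1.1 ≠ 0) := h2
    rw [not_and_or, not_not] at h1 h2'
    have e1 : (if p.1.1 = q.1.1 then (-1 : ℤ) ^ p.1.1.length * I.inc p.1.2 q.1.2 else 0) = 0 := by
      rcases h1 with h1 | h1
      · rw [if_neg h1]
      · rw [h1, mul_zero, ite_self]
    have e2 : (if p.1.2 = q.1.2 then linc p.1.1 q.1.1 else 0) = 0 := by
      rcases h2' with h2 | h2
      · rw [if_neg h2]
      · rw [h2, ite_self]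
    rw [e1, e2, add_zero]

/-- Comparison of two finite sums along a map which is a bijection of the supports. -/
private theorem csq_bij {α β : Type} (f : α → ℤ) (g : β → ℤ) (e : α → β)
    (h1 : ∀ x, f x ≠ 0 → f x = g (e x)) (h2 : ∀ x x', f x ≠ 0 → f x' ≠ 0 → e x = e x' → x = x')
    (h3 : ∀ y, g y ≠ 0 → ∃ x, f x ≠ 0 ∧ e x = y) : ∑ᶠ x, f x = ∑ᶠ y, g y := by
  rw [← finsum_mem_support f, ← finsum_mem_support g]
  refine finsum_mem_eq_of_bijOn e ⟨?_, ?_, ?_⟩ ?_
  · intro x hx
    show g (e x) ≠ 0
    rw [← h1 x hx]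
    exact hx
  · intro x hx x' hx' he
    exact h2 x x' hx hx' he
  · intro y hy
    obtain ⟨x, hx, e⟩ := h3 y hy
    exact ⟨x, hx, e⟩
  · intro x hx
    exact h1 x hx

theorem cech_sq {H : Type} [Group H] [MulAction H C] {I : CellCx C} (hF : FC H I)
    (Y : ι → Set C) (hdown : ∀ i, ∀ q ∈ Y i, ∀ p, I.inc p q ≠ 0 → p ∈ Y i) (J : ℕ)
    (p r : CC Y J) : ∑ᶠ q, (cech I Y J).inc p q * (cech I Y J).inc q r = 0 := by
  classical
  obtain ⟨A, hA⟩ : ∃ A : CC Y J → ℤ, A = fun q =>
    (if p.1.1 = q.1.1 then (-1 : ℤ) ^ p.1.1.length * I.inc p.1.2 q.1.2 else 0) := ⟨_, rfl⟩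
  obtain ⟨B, hB⟩ : ∃ B : CC Y J → ℤ, B = fun q =>
    (if p.1.2 = q.1.2 then linc p.1.1 q.1.1 else 0) := ⟨_, rfl⟩
  obtain ⟨A', hA'⟩ : ∃ A' : CC Y J → ℤ, A' = fun q =>
    (if q.1.1 = r.1.1 then (-1 : ℤ) ^ q.1.1.length * I.inc q.1.2 r.1.2 else 0) := ⟨_, rfl⟩
  obtain ⟨B', hB'⟩ : ∃ B' : CC Y J → ℤ, B' = fun q =>
    (if q.1.2 = r.1.2 then linc q.1.1 r.1.1 else 0) := ⟨_, rfl⟩
  have hsplit : ∀ q, (cech I Y J).inc p q * (cech I Y J).inc q r =
      (A q * A' q + B q * B' q) + (A q * B' q + B q * A' q) := by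
    intro q
    have e1 : (cech I Y J).inc p q = A q + B q := by rw [hA, hB]; rfl
    have e2 : (cech I Y J).inc q r = A' q + B' q := by rw [hA', hB']; rfl
    rw [e1, e2]
    ring
  have fA' : (Function.support A').Finite := by
    refine (csq_fin_v hF Y J r).subset fun q hq => ?_
    have hq' : A' q ≠ 0 := hq
    rw [hA'] at hq'
    simp only [ne_eq, ite_eq_right_iff, mul_eq_zero, not_forall, not_or] at hq'
    obtain ⟨h1, h2⟩ := hq'
    exact ⟨h1, h2.2⟩
  have fB' : (Function.support B').Finite := by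
    refine (csq_fin_h Y J r).subset fun q hq => ?_
    have hq' : B' q ≠ 0 := hq
    rw [hB'] at hq'
    simp only [ne_eq, ite_eq_right_iff, not_forall] at hq'
    obtain ⟨h1, h2⟩ := hq'
    exact ⟨h1, h2⟩
  have fm : ∀ f g : CC Y J → ℤ, (Function.support g).Finite →
      (Function.support fun q => f q * g q).Finite := by
    intro f g hg
    refine hg.subset fun q hq hz => hq ?_
    show f q * g q = 0
    rw [hz, mul_zero]
  have fadd : ∀ f g : CC Y J → ℤ, (Function.support f).Finite → (Function.support g).Finite →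
      (Function.support fun q => f q + g q).Finite := by
    intro f g hf hg
    exact (hf.union hg).subset (Function.support_add f g)
  rw [finsum_congr hsplit,
    finsum_add_distrib (fadd _ _ (fm A A' fA') (fm B B' fB')) (fadd _ _ (fm A B' fB') (fm B A' fA')),
    finsum_add_distrib (fm A A' fA') (fm B B' fB'), finsum_add_distrib (fm A B' fB') (fm B A' fA')]
  -- vertical-vertical
  have hVV : ∑ᶠ q, A q * A' q = 0 := by
    by_cases ht : p.1.1 = r.1.1
    · rw [← hF.sq p.1.2 r.1.2]
      have hv : ∀ q : CC Y J, A q * A' q ≠ 0 →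
          q.1.1 = p.1.1 ∧ I.inc p.1.2 q.1.2 * I.inc q.1.2 r.1.2 ≠ 0 := by
        intro q hq
        rw [hA, hA'] at hq
        simp only at hq
        by_cases h1 : p.1.1 = q.1.1
        · refine ⟨h1.symm, fun h0 => hq ?_⟩
          rw [if_pos h1, if_pos (h1.symm.trans ht), mul_mul_mul_comm, h0, mul_zero]
        · exfalso
          apply hq
          rw [if_neg h1, zero_mul]
      have he : ∀ q : CC Y J, q.1.1 = p.1.1 →
          A q * A' q = I.inc p.1.2 q.1.2 * I.inc q.1.2 r.1.2 := by
        intro q h1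
        rw [hA, hA']
        simp only
        rw [if_pos h1.symm, if_pos (h1.trans ht), h1, mul_mul_mul_comm, ← mul_pow]
        norm_num
      refine csq_bij _ _ (fun q : CC Y J => q.1.2) ?_ ?_ ?_
      · intro q hq
        exact he q (hv q hq).1
      · intro q q' hq hq' e
        exact Subtype.ext (Prod.ext ((hv q hq).1.trans (hv q' hq').1.symm) e)
      · intro c' hc'
        have h2 : I.inc c' r.1.2 ≠ 0 := right_ne_zero_of_mul hc'
        obtain ⟨q0, hq0⟩ : ∃ q0 : CC Y J, q0.1 = (p.1.1, c') :=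
          ⟨⟨(p.1.1, c'), p.2.1, fun i hi => by
            have hi' : i ∈ r.1.1 := ht ▸ hi
            exact hdown i _ (r.2.2 i hi') c' h2⟩, rfl⟩
        refine ⟨q0, ?_, by show q0.1.2 = c'; rw [hq0]⟩
        rw [he q0 (by rw [hq0]), hq0]
        exact hc'
    · have : ∀ q, A q * A' q = 0 := by
        intro q
        rw [hA, hA']
        simp only
        by_cases h1 : p.1.1 = q.1.1
        · have h2 : ¬ q.1.1 = r.1.1 := fun h => ht (h1.trans h)
          rw [if_neg h2, mul_zero]
        · rw [if_neg h1, zero_mul]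
      rw [finsum_congr this, finsum_zero]
  -- horizontal-horizontal
  have hHH : ∑ᶠ q, B q * B' q = 0 := by
    by_cases hc : p.1.2 = r.1.2
    · rw [← linc_sq p.1.1 r.1.1]
      have hv : ∀ q : CC Y J, B q * B' q ≠ 0 → q.1.2 = p.1.2 := by
        intro q hq
        by_contra h1
        apply hq
        rw [hB]
        simp only
        rw [if_neg (fun h => h1 h.symm), zero_mul]
      have he : ∀ q : CC Y J, q.1.2 = p.1.2 →
          B q * B' q = linc p.1.1 q.1.1 * linc q.1.1 r.1.1 := by
        intro q h1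
        rw [hB, hB']
        simp only
        rw [if_pos h1.symm, if_pos (h1.trans hc)]
      refine csq_bij _ _ (fun q : CC Y J => q.1.1) ?_ ?_ ?_
      · intro q hq
        exact he q (hv q hq)
      · intro q q' hq hq' e
        exact Subtype.ext (Prod.ext e ((hv q hq).trans (hv q' hq').symm))
      · intro s hs
        have h2 : linc s r.1.1 ≠ 0 := right_ne_zero_of_mul hs
        obtain ⟨h3, h4⟩ := linc_length h2
        obtain ⟨q0, hq0⟩ : ∃ q0 : CC Y J, q0.1 = (s, p.1.2) := by
          refine ⟨⟨(s, p.1.2), ?_, fun i hi => ?_⟩, rfl⟩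
          · have := r.2.1
            show s.length ≤ J
            omega
          · show p.1.2 ∈ Y i
            rw [hc]
            exact r.2.2 i (h4 i hi)
        refine ⟨q0, ?_, by show q0.1.1 = s; rw [hq0]⟩
        rw [he q0 (by rw [hq0]), hq0]
        exact hs
    · have : ∀ q, B q * B' q = 0 := by
        intro q
        rw [hB, hB']
        simp only
        by_cases h1 : p.1.2 = q.1.2
        · have h2 : ¬ q.1.2 = r.1.2 := fun h => hc (h1.trans h)
          rw [if_neg h2, mul_zero]
        · rw [if_neg h1, zero_mul]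
      rw [finsum_congr this, finsum_zero]
  -- mixed
  have hVH : ∑ᶠ q, A q * B' q = (-1) ^ p.1.1.length * I.inc p.1.2 r.1.2 * linc p.1.1 r.1.1 := by
    by_cases hl : linc p.1.1 r.1.1 = 0
    · rw [hl, mul_zero]
      have : ∀ q, A q * B' q = 0 := by
        intro q
        rw [hA, hB']
        simp only
        by_cases h1 : p.1.1 = q.1.1
        · rw [← h1, hl, ite_self, mul_zero]
        · rw [if_neg h1, zero_mul]
      rw [finsum_congr this, finsum_zero]
    · obtain ⟨h3, h4⟩ := linc_length hl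
      obtain ⟨q0, hq0⟩ : ∃ q0 : CC Y J, q0.1 = (p.1.1, r.1.2) :=
        ⟨⟨(p.1.1, r.1.2), p.2.1, fun i hi => r.2.2 i (h4 i hi)⟩, rfl⟩
      rw [finsum_eq_single _ q0]
      · rw [hA, hB']
        simp only
        rw [hq0, if_pos rfl, if_pos rfl]
      · intro q hq
        rw [hA, hB']
        simp only
        by_cases h1 : p.1.1 = q.1.1
        · have h2 : ¬ q.1.2 = r.1.2 := fun h => hq (Subtype.ext (by
            rw [hq0]; exact Prod.ext h1.symm h))
          rw [if_neg h2, mul_zero]
        · rw [if_neg h1, zero_mul]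
  have hHV : ∑ᶠ q, B q * A' q = linc p.1.1 r.1.1 * ((-1) ^ r.1.1.length * I.inc p.1.2 r.1.2) := by
    by_cases hl : I.inc p.1.2 r.1.2 = 0
    · rw [hl, mul_zero, mul_zero]
      have : ∀ q, B q * A' q = 0 := by
        intro q
        rw [hB, hA']
        simp only
        by_cases h1 : p.1.2 = q.1.2
        · rw [← h1, hl, mul_zero, ite_self, mul_zero]
        · rw [if_neg h1, zero_mul]
      rw [finsum_congr this, finsum_zero]
    · obtain ⟨q0, hq0⟩ : ∃ q0 : CC Y J, q0.1 = (r.1.1, p.1.2) :=
        ⟨⟨(r.1.1, p.1.2), r.2.1, fun i hi => hdown i _ (r.2.2 i hi) _ hl⟩, rfl⟩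
      rw [finsum_eq_single _ q0]
      · rw [hB, hA']
        simp only
        rw [hq0, if_pos rfl, if_pos rfl]
      · intro q hq
        rw [hB, hA']
        simp only
        by_cases h1 : p.1.2 = q.1.2
        · have h2 : ¬ q.1.1 = r.1.1 := fun h => hq (Subtype.ext (by
            rw [hq0]; exact Prod.ext h h1.symm))
          rw [if_neg h2, mul_zero]
        · rw [if_neg h1, zero_mul]
  rw [hVV, hHH, hVH, hHV, add_zero, zero_add]
  by_cases hl : linc p.1.1 r.1.1 = 0
  · rw [hl]
    ring
  · rw [(linc_length hl).1, pow_succ]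
    ring

end

end SingerCub
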