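import Mathlib
import Pool.Agent.Lib_MP_394d50_cub.CSq

/-!
# Piece CFC: the double complex is a free cell complex with finitely many orbits

* `inc_smul`: `linc (t.map (h • ·)) (t'.map (h • ·)) = linc t t'` because `List.map` commutes with
  `eraseIdx` and is injective.
* `cofaces` of `(t, c)`: `(t, c')` with `I.inc c c' ≠ 0`; `(t', c)` with `t'.eraseIdx i = t` for some
  `i < t'.length`: `t'` has length `t.length + 1` and its entries are in the finite set `{j | c ∈ Y j}`
  (`Set.Finite` of lists of bounded length with entries in a finite set: `List.finite_length_le`-like,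
  or map from `Fin`-functions).
* `free`: `h • (t, c) = (t, c)` gives `h • c = c`.
* `cofin`: every pair is in the orbit of a pair `(t, o.out)`, `o : Orb H C`, with `t.length ≤ J` and
  entries in the finite set `{i | o.out ∈ Y i}`: if `c = h • o.out`, then
  `(t, c) = h • (t.map (h⁻¹ • ·), o.out)`. So `Orb H (CC Y J)` is the image of a finite type.
-/

namespace SingerCub

open SingerVS

private theorem linc_map {ι : Type} (f : ι → ι) (hf : Function.Injective f) (t t' : List ι) :
    linc (t.map f) (t'.map f) = linc t t' := by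
  classical
  unfold linc
  rw [List.length_map]
  apply Finset.sum_congr rfl
  intro i _
  have h1 : (t'.map f).eraseIdx i = (t'.eraseIdx i).map f := by
    rw [List.eraseIdx_map]
  rw [h1]
  by_cases h : t'.eraseIdx i = t
  · rw [if_pos h, if_pos (by rw [h])]
  · rw [if_neg h, if_neg (fun e => h (List.map_injective_iff.2 hf e))]

private theorem finite_lists {ι : Type} (s : Set ι) (hs : s.Finite) (J : ℕ) :
    {l : List ι | l.length ≤ J ∧ ∀ i ∈ l, i ∈ s}.Finite := by
  have := hs.to_subtype
  have h1 : ({l : List s | l.length ≤ J}).Finite := List.finite_length_le s J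
  refine (h1.image (List.map Subtype.val)).subset ?_
  rintro l ⟨hl, hls⟩
  refine ⟨l.attach.map fun x => ⟨x.1, hls x.1 x.2⟩, ?_, ?_⟩
  · simpa using hl
  · rw [List.map_map]
    conv_rhs => rw [← List.attach_map_subtype_val l]
    rfl

theorem cech_fc {H C ι : Type} [Group H] [MulAction H C] [MulAction H ι] {I : CellCx C}
    (hF : FC H I) {Y : ι → Set C} (hY : Fam H I Y) (J : ℕ) :
    letI : MulAction H (CC Y J) := ccAct hY.smul J
    FC H (cech I Y J) := by
  classical
  letI act : MulAction H (CC Y J) := ccAct hY.smul J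
  have hsm1 : ∀ (h : H) (x : CC Y J), (h • x).1.1 = x.1.1.map (h • ·) := fun _ _ => rfl
  have hsm2 : ∀ (h : H) (x : CC Y J), (h • x).1.2 = h • x.1.2 := fun _ _ => rfl
  have hinj : ∀ h : H, Function.Injective (fun i : ι => h • i) := fun h => MulAction.injective h
  refine ⟨?_, ?_, ?_, ?_, ?_, ?_, ?_, ?_⟩
  · intro h x
    show (h • x).1.1.length + I.dim (h • x).1.2 = x.1.1.length + I.dim x.1.2
    rw [hsm1, hsm2, List.length_map, hF.dim_smul]
  · intro h x y
    show (if (h • x).1.1 = (h • y).1.1 then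
        (-1 : ℤ) ^ (h • x).1.1.length * I.inc (h • x).1.2 (h • y).1.2 else 0) +
      (if (h • x).1.2 = (h • y).1.2 then linc (h • x).1.1 (h • y).1.1 else 0) =
      (if x.1.1 = y.1.1 then (-1 : ℤ) ^ x.1.1.length * I.inc x.1.2 y.1.2 else 0) +
      (if x.1.2 = y.1.2 then linc x.1.1 y.1.1 else 0)
    rw [hsm1, hsm1, hsm2, hsm2, List.length_map, hF.inc_smul, linc_map _ (hinj h)]
    have e1 : (x.1.1.map (h • ·) = y.1.1.map (h • ·)) ↔ x.1.1 = y.1.1 :=
      ⟨fun e => List.map_injective_iff.2 (hinj h) e, fun e => by rw [e]⟩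
    have e2 : (h • x.1.2 = h • y.1.2) ↔ x.1.2 = y.1.2 := (MulAction.injective h).eq_iff
    simp only [e1, e2]
  · exact fun p q h => cech_inc_dim hF Y J p q h
  · exact fun q => cech_faces hF Y J q
  · -- cofaces
    intro p
    have h1 : {c' | I.inc p.1.2 c' ≠ 0}.Finite := hF.cofaces p.1.2
    have h2 : {l : List ι | l.length ≤ J ∧ ∀ i ∈ l, i ∈ {j | p.1.2 ∈ Y j}}.Finite :=
      finite_lists _ (hY.locfin p.1.2) J
    have h3 : (({p.1.1} : Set (List ι)) ×ˢ {c' | I.inc p.1.2 c' ≠ 0} ∪
        {l : List ι | l.length ≤ J ∧ ∀ i ∈ l, i ∈ {j | p.1.2 ∈ Y j}} ×ˢ {p.1.2}).Finite :=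
      ((Set.finite_singleton _).prod h1).union (h2.prod (Set.finite_singleton _))
    refine (h3.preimage (f := fun q : CC Y J => q.1) (Subtype.val_injective.injOn)).subset ?_
    intro q hq
    have hq' : (if p.1.1 = q.1.1 then (-1 : ℤ) ^ p.1.1.length * I.inc p.1.2 q.1.2 else 0) +
      (if p.1.2 = q.1.2 then linc p.1.1 q.1.1 else 0) ≠ 0 := hq
    by_cases ha : p.1.1 = q.1.1 ∧ I.inc p.1.2 q.1.2 ≠ 0
    · exact Or.inl ⟨ha.1.symm, ha.2⟩
    · right
      have hz : (if p.1.1 = q.1.1 then (-1 : ℤ) ^ p.1.1.length * I.inc p.1.2 q.1.2 else 0) = 0 := by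
        split_ifs with h
        · have : I.inc p.1.2 q.1.2 = 0 := by
            by_contra h'
            exact ha ⟨h, h'⟩
          rw [this, mul_zero]
        · rfl
      rw [hz, zero_add] at hq'
      have hc : p.1.2 = q.1.2 := by
        by_contra h
        rw [if_neg h] at hq'
        exact hq' rfl
      refine ⟨⟨q.2.1, fun i hi => ?_⟩, hc.symm⟩
      show p.1.2 ∈ Y i
      rw [hc]
      exact q.2.2 i hi
  · exact fun p r => cech_sq hF Y hY.down J p r
  · intro h x hx
    have : h • x.1.2 = x.1.2 := congrArg (fun y : CC Y J => y.1.2) hx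
    exact hF.free h _ this
  · -- finitely many orbits
    have hfin := hF.cofin
    have hT : Finite {x : CC Y J // ∃ o : Orb H C, x.1.2 = o.out} := by
      have h1 : ∀ o : Orb H C,
          {l : List ι | l.length ≤ J ∧ ∀ i ∈ l, i ∈ {j | o.out ∈ Y j}}.Finite :=
        fun o => finite_lists _ (hY.locfin o.out) J
      have h2 : (⋃ o : Orb H C, {l : List ι | l.length ≤ J ∧ ∀ i ∈ l, i ∈ {j | o.out ∈ Y j}} ×ˢ
          ({o.out} : Set C)).Finite :=
        Set.finite_iUnion fun o => (h1 o).prod (Set.finite_singleton _)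
      have h3 : ((fun q : CC Y J => q.1) ⁻¹' (⋃ o : Orb H C,
          {l : List ι | l.length ≤ J ∧ ∀ i ∈ l, i ∈ {j | o.out ∈ Y j}} ×ˢ
          ({o.out} : Set C))).Finite := h2.preimage Subtype.val_injective.injOn
      refine (h3.subset ?_).to_subtype
      rintro x ⟨o, ho⟩
      refine Set.mem_iUnion.2 ⟨o, ⟨x.2.1, fun i hi => ?_⟩, ho⟩
      show o.out ∈ Y i
      rw [← ho]
      exact x.2.2 i hi
    refine Finite.of_surjective
      (fun x : {x : CC Y J // ∃ o : Orb H C, x.1.2 = o.out} =>
        (Quotient.mk'' x.1 : Orb H (CC Y J))) ?_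
    intro O
    induction O using Quotient.inductionOn' with
    | h y =>
      let o : Orb H C := Quotient.mk'' y.1.2
      have ho : MulAction.orbitRel H C o.out y.1.2 := Quotient.exact' (by
        rw [Quotient.out_eq']
        )
      obtain ⟨h, hh⟩ := ho
      refine ⟨⟨h • y, o, ?_⟩, ?_⟩
      · rw [hsm2]; exact hh
      · apply Quotient.sound'
        exact ⟨h, rfl⟩

end SingerCub
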