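import Mathlib
import Pool.Agent.Lib_MP_394d50_cub.ERk

/-!
# Piece EDEN: the density lemma

Proof. Let `U₀ = {u ∈ U | ∃ w ∈ W, f u = T w}` (a subspace), `N = {u ∈ U | u ⊥ U₀}`, a closed
invariant subspace (`U₀` is invariant because `f`, `T` are equivariant and `U`, `W` invariant; the
inverse `shift h⁻¹` also preserves them). It suffices that `N = 0`: then the closure of `U₀` is `U`
(if `u ∈ U`, project `u` on the closure of `U₀`; the difference is in `U` and orthogonal to `U₀`).
Work in `L2 (C ⊕ C)`, `H` acting on both summands (`Sum` action of Mathlib; `FO H (C ⊕ C)` follows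
from `hC`). Let `i₁ i₂ : L2 C → L2 (C ⊕ C)` be the two isometric inclusions and `p₁ p₂` their
adjoints (restrictions). Put `Ψ z = i₁ (f (P_N (p₁ z)) - T (P_W (p₂ z)))`, an equivariant bounded
operator.
* `Ψ z = 0` iff `P_N (p₁ z) = 0` and `T (P_W (p₂ z)) = 0`: if `f u = T w` with `u = P_N (p₁ z) ∈ N ⊆ U`,
  `w = P_W (p₂ z) ∈ W`, then `u ∈ U₀`, and `u ⊥ U₀`, so `u = 0`.
* `Ψ* z = i₁ (P_N (f* (p₁ z))) - i₂ (P_W (T* (p₁ z)))`. So `Ψ* z = 0` iff `P_W (T* (p₁ z)) = 0`: this
  says `p₁ z ⊥ T w` for all `w ∈ W`, hence `p₁ z` is orthogonal to the closure of `T '' W`, which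
  contains `f u` for all `u ∈ N`, and so `P_N (f* (p₁ z)) = 0`.
Let `Q = T ∘ P_W` on `L2 C` and `n = tr 1` on `L2 C`. The projection on `ker Ψ` is
`i₁ (1 - P_N) p₁ + i₂ P_{ker Q} p₂`, of trace `n - tr P_N + tr P_{ker Q}` (the orbits of `C ⊕ C` are
the orbits of the two summands), and the projection on `ker Ψ*` is `i₁ P_{ker Q*} p₁ + i₂ p₂`, of
trace `tr P_{ker Q*} + n`. By `tr_ker` for `Ψ` and for `Q`: `tr P_N = 0`, so `N = 0` by
`tr_proj_eq_zero`.
(It is fine to replace `C ⊕ C` by another type with two copies, for example `C × Bool`.)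
-/

namespace SingerCub

open SingerVS

section pull

variable {C D : Type}

private theorem eden_mem (ι : C → D) (hι : Function.Injective ι) (z : L2 D) :
    Memℓp (fun c => z (ι c)) 2 := by
  have h1 : Summable fun d : D => ‖z d‖ ^ (2 : ENNReal).toReal :=
    (lp.memℓp z).summable (by norm_num)
  exact memℓp_gen (h1.comp_injective hι)

private noncomputable def eden_pull (ι : C → D) (hι : Function.Injective ι) :
    L2 D →L[ℝ] L2 C :=
  LinearMap.mkContinuous
    { toFun := fun z => ⟨fun c => z (ι c), eden_mem ι hι z⟩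
      map_add' := fun z w => by
        apply lp.ext
        rfl
      map_smul' := fun r z => by
        apply lp.ext
        rfl } 1 (by
    intro z
    rw [one_mul]
    have h1 := lp.norm_rpow_eq_tsum (p := 2) (by norm_num) z
    have h2 := lp.norm_rpow_eq_tsum (p := 2) (by norm_num)
      (⟨fun c : C => z (ι c), eden_mem ι hι z⟩ : L2 C)
    have h3 : Summable fun d : D => ‖z d‖ ^ (2 : ENNReal).toReal :=
      (lp.memℓp z).summable (by norm_num)
    have h4 := tsum_comp_le_tsum_of_inj h3 (fun d => by positivity) hι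
    have h5 : ‖(⟨fun c : C => z (ι c), eden_mem ι hι z⟩ : L2 C)‖ ^ (2 : ENNReal).toReal ≤
        ‖z‖ ^ (2 : ENNReal).toReal := by
      rw [h1, h2]
      exact h4
    exact (Real.rpow_le_rpow_iff (norm_nonneg _) (norm_nonneg _) (by norm_num)).mp h5)

private theorem eden_pull_apply (ι : C → D) (hι : Function.Injective ι) (z : L2 D) (c : C) :
    eden_pull ι hι z c = z (ι c) := rfl

private noncomputable def eden_push (ι : C → D) (hι : Function.Injective ι) :
    L2 C →L[ℝ] L2 D := ContinuousLinearMap.adjoint (eden_pull ι hι)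

private theorem eden_inner (ι : C → D) (hι : Function.Injective ι) (x : L2 C) (z : L2 D) :
    inner ℝ (eden_push ι hι x) z = inner ℝ x (eden_pull ι hι z) :=
  ContinuousLinearMap.adjoint_inner_left _ _ _

private theorem eden_pull_delta (ι : C → D) (hι : Function.Injective ι) (c : C) :
    eden_pull ι hι (delta (ι c)) = delta c := by
  apply l2_ext
  intro c'
  rw [eden_pull_apply]
  by_cases h : c' = c
  · rw [h, delta_self, delta_self]
  · rw [delta_ne h, delta_ne (fun h' => h (hι h'))]

private theorem eden_pull_delta' (ι : C → D) (hι : Function.Injective ι) {d : D}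
    (hd : ∀ c, ι c ≠ d) : eden_pull ι hι (delta d) = 0 := by
  apply l2_ext
  intro c'
  rw [eden_pull_apply, delta_ne (hd c')]
  rfl

private theorem eden_push_apply (ι : C → D) (hι : Function.Injective ι) (x : L2 C) (c : C) :
    eden_push ι hι x (ι c) = x c := by
  rw [← delta_inner, real_inner_comm, eden_inner, eden_pull_delta, real_inner_comm, delta_inner]

private theorem eden_push_apply' (ι : C → D) (hι : Function.Injective ι) (x : L2 C) {d : D}
    (hd : ∀ c, ι c ≠ d) : eden_push ι hι x d = 0 := by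
  rw [← delta_inner, real_inner_comm, eden_inner, eden_pull_delta' ι hι hd, inner_zero_right]

private theorem eden_push_delta (ι : C → D) (hι : Function.Injective ι) (c : C) :
    eden_push ι hι (delta c) = delta (ι c) := by
  apply l2_ext
  intro d
  by_cases hd : ∃ c', ι c' = d
  · obtain ⟨c', rfl⟩ := hd
    rw [eden_push_apply]
    by_cases h : c' = c
    · rw [h, delta_self, delta_self]
    · rw [delta_ne h, delta_ne (fun h' => h (hι h'))]
  · push Not at hd
    rw [eden_push_apply' ι hι _ hd, delta_ne (fun h => hd c h.symm)]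

private theorem eden_pull_push (ι : C → D) (hι : Function.Injective ι) (x : L2 C) :
    eden_pull ι hι (eden_push ι hι x) = x := by
  apply l2_ext
  intro c
  rw [eden_pull_apply, eden_push_apply]

private theorem eden_pull_push' (ι κ : C → D) (hι : Function.Injective ι)
    (hκ : Function.Injective κ) (h : ∀ c c', κ c' ≠ ι c) (x : L2 C) :
    eden_pull ι hι (eden_push κ hκ x) = 0 := by
  apply l2_ext
  intro c
  rw [eden_pull_apply, eden_push_apply' κ hκ _ (h c)]
  rfl

variable {H : Type} [Group H] [MulAction H C] [MulAction H D]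

private theorem eden_pull_shift (ι : C → D) (hι : Function.Injective ι)
    (he : ∀ (h : H) c, ι (h • c) = h • ι c) (h : H) (z : L2 D) :
    eden_pull ι hι (shift h z) = shift h (eden_pull ι hι z) := by
  apply l2_ext
  intro c
  rw [eden_pull_apply, shift_apply, shift_apply, eden_pull_apply, he]

private theorem eden_push_shift (ι : C → D) (hι : Function.Injective ι)
    (he : ∀ (h : H) c, ι (h • c) = h • ι c) (h : H) (x : L2 C) :
    eden_push ι hι (shift h x) = shift h (eden_push ι hι x) := by
  apply l2_ext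
  intro d
  by_cases hd : ∃ c', ι c' = d
  · obtain ⟨c, rfl⟩ := hd
    rw [eden_push_apply, shift_apply, shift_apply, ← he, eden_push_apply]
  · push Not at hd
    rw [eden_push_apply' ι hι _ hd, shift_apply, eden_push_apply' ι hι]
    intro c hc
    apply hd (h • c)
    rw [he, hc, smul_inv_smul]

end pull

section trace

variable {H C : Type} [Group H] [MulAction H C]

private theorem eden_diag {A : L2 C →L[ℝ] L2 C} (hA : Eqv H A) (h : H) (c : C) :
    inner ℝ (A (delta (h • c))) (delta (h • c)) = inner ℝ (A (delta c)) (delta c) := by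
  rw [← shift_delta, hA, LinearIsometryEquiv.inner_map_map]

private theorem eden_inl : Function.Injective (Sum.inl : C → C ⊕ C) := Sum.inl_injective
private theorem eden_inr : Function.Injective (Sum.inr : C → C ⊕ C) := Sum.inr_injective

/-- the first and the second inclusion, as maps of orbits -/
private noncomputable def eden_orb : Orb H C ⊕ Orb H C → Orb H (C ⊕ C)
  | Sum.inl o => Quotient.mk (MulAction.orbitRel H (C ⊕ C)) (Sum.inl o.out)
  | Sum.inr o => Quotient.mk (MulAction.orbitRel H (C ⊕ C)) (Sum.inr o.out)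

private theorem eden_orb_bij : Function.Bijective (eden_orb : Orb H C ⊕ Orb H C → Orb H (C ⊕ C)) := by
  constructor
  · intro o o' h
    rcases o with o | o <;> rcases o' with o' | o'
    · have h1 := Quotient.exact h
      obtain ⟨g, hg⟩ := h1
      have hg' : (Sum.inl (g • o'.out) : C ⊕ C) = Sum.inl o.out := hg
      have h2 := Sum.inl_injective hg'
      congr 1
      rw [← Quotient.out_eq o, ← Quotient.out_eq o']
      exact Quotient.sound ⟨g, h2⟩
    · have h1 := Quotient.exact h
      obtain ⟨g, hg⟩ := h1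
      have hg' : (Sum.inr (g • o'.out) : C ⊕ C) = Sum.inl o.out := hg
      cases hg'
    · have h1 := Quotient.exact h
      obtain ⟨g, hg⟩ := h1
      have hg' : (Sum.inl (g • o'.out) : C ⊕ C) = Sum.inr o.out := hg
      cases hg'
    · have h1 := Quotient.exact h
      obtain ⟨g, hg⟩ := h1
      have hg' : (Sum.inr (g • o'.out) : C ⊕ C) = Sum.inr o.out := hg
      have h2 := Sum.inr_injective hg'
      congr 1
      rw [← Quotient.out_eq o, ← Quotient.out_eq o']
      exact Quotient.sound ⟨g, h2⟩
  · intro o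
    rw [← Quotient.out_eq o]
    rcases hc : o.out with c | c
    · obtain ⟨g, o', hg⟩ := exists_rep (H := H) c
      refine ⟨Sum.inl o', Quotient.sound ⟨g⁻¹, ?_⟩⟩
      show g⁻¹ • (Sum.inl c : C ⊕ C) = Sum.inl o'.out
      rw [Sum.smul_inl, hg, inv_smul_smul]
    · obtain ⟨g, o', hg⟩ := exists_rep (H := H) c
      refine ⟨Sum.inr o', Quotient.sound ⟨g⁻¹, ?_⟩⟩
      show g⁻¹ • (Sum.inr c : C ⊕ C) = Sum.inr o'.out
      rw [Sum.smul_inr, hg, inv_smul_smul]

private theorem eden_FO (hC : FO H C) : FO H (C ⊕ C) where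
  free h c hc := by
    rcases c with c | c
    · exact hC.free h c (Sum.inl_injective hc)
    · exact hC.free h c (Sum.inr_injective hc)
  cofin := by
    have := hC.cofin
    exact Finite.of_surjective _ (eden_orb_bij (H := H) (C := C)).2

private theorem eden_tr (hC : FO H C) {A : L2 (C ⊕ C) →L[ℝ] L2 (C ⊕ C)} (hA : Eqv H A)
    {A1 A2 : L2 C →L[ℝ] L2 C}
    (h1 : ∀ x, eden_pull Sum.inl eden_inl (A (eden_push Sum.inl eden_inl x)) = A1 x)
    (h2 : ∀ x, eden_pull Sum.inr eden_inr (A (eden_push Sum.inr eden_inr x)) = A2 x) :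
    tr H A = tr H A1 + tr H A2 := by
  classical
  have := hC.cofin
  have := (eden_FO hC).cofin
  have := Fintype.ofFinite (Orb H C)
  have := Fintype.ofFinite (Orb H (C ⊕ C))
  unfold tr
  rw [finsum_eq_sum_of_fintype, finsum_eq_sum_of_fintype, finsum_eq_sum_of_fintype,
    ← (Equiv.ofBijective _ (eden_orb_bij (H := H) (C := C))).sum_comp, Fintype.sum_sum_type]
  have key : ∀ d : C ⊕ C, inner ℝ (A (delta (Quotient.mk (MulAction.orbitRel H (C ⊕ C)) d).out))
      (delta (Quotient.mk (MulAction.orbitRel H (C ⊕ C)) d).out) =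
      inner ℝ (A (delta d)) (delta d) := by
    intro d
    obtain ⟨g, hg⟩ := Quotient.mk_out (s := MulAction.orbitRel H (C ⊕ C)) d
    have hg' : g • d = (Quotient.mk (MulAction.orbitRel H (C ⊕ C)) d).out := hg
    rw [← hg', eden_diag hA]
  congr 1
  · refine Finset.sum_congr rfl fun o _ => ?_
    rw [Equiv.ofBijective_apply]
    show inner ℝ (A (delta (Quotient.mk (MulAction.orbitRel H (C ⊕ C)) (Sum.inl o.out)).out))
      (delta (Quotient.mk (MulAction.orbitRel H (C ⊕ C)) (Sum.inl o.out)).out) = _
    rw [key, ← eden_push_delta Sum.inl eden_inl, real_inner_comm, eden_inner, h1, real_inner_comm]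
  · refine Finset.sum_congr rfl fun o _ => ?_
    rw [Equiv.ofBijective_apply]
    show inner ℝ (A (delta (Quotient.mk (MulAction.orbitRel H (C ⊕ C)) (Sum.inr o.out)).out))
      (delta (Quotient.mk (MulAction.orbitRel H (C ⊕ C)) (Sum.inr o.out)).out) = _
    rw [key, ← eden_push_delta Sum.inr eden_inr, real_inner_comm, eden_inner, h2, real_inner_comm]

end trace

section main

variable {H C : Type} [Group H] [MulAction H C]

private theorem eden_proj (K : Submodule ℝ (L2 C)) [K.HasOrthogonalProjection] {x v : L2 C}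
    (hv : v ∈ K) (h : ∀ w ∈ K, inner ℝ (x - v) w = 0) : K.starProjection x = v :=
  Submodule.eq_starProjection_of_mem_of_inner_eq_zero hv h

private theorem eden_trN (hC : FO H C) (N W : Submodule ℝ (L2 C))
    [N.HasOrthogonalProjection] [W.HasOrthogonalProjection]
    (hN : Inv H N) (hW : Inv H W) {f T : L2 C →L[ℝ] L2 C} (hf : Eqv H f) (hT : Eqv H T)
    (h : ∀ u ∈ N, f u ∈ closure (T '' (W : Set (L2 C))))
    (h0 : ∀ u ∈ N, ∀ w ∈ W, f u = T w → u = 0) : tr H N.starProjection = 0 := by
  have hPN := hN.proj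
  have hPW := hW.proj
  obtain ⟨Q, hQ⟩ : ∃ Q : L2 C →L[ℝ] L2 C, Q = T.comp W.starProjection := ⟨_, rfl⟩
  have hQe : Eqv H Q := by rw [hQ]; exact hT.comp hPW
  have hQa : ∀ x, Q x = T (W.starProjection x) := fun x => by rw [hQ]; rfl
  obtain ⟨Ψ, hΨ⟩ : ∃ Ψ : L2 (C ⊕ C) →L[ℝ] L2 (C ⊕ C), Ψ = (eden_push Sum.inl eden_inl).comp
    ((f.comp N.starProjection).comp (eden_pull Sum.inl eden_inl) -
      Q.comp (eden_pull Sum.inr eden_inr)) := ⟨_, rfl⟩
  have hΨa : ∀ z, Ψ z = eden_push Sum.inl eden_inl (f (N.starProjection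
      (eden_pull Sum.inl eden_inl z)) - Q (eden_pull Sum.inr eden_inr z)) := fun z => by
    rw [hΨ]; rfl
  have e1 : ∀ (h : H) (c : C), (Sum.inl (h • c) : C ⊕ C) = h • Sum.inl c := fun _ _ => rfl
  have e2 : ∀ (h : H) (c : C), (Sum.inr (h • c) : C ⊕ C) = h • Sum.inr c := fun _ _ => rfl
  have hΨe : Eqv H Ψ := by
    intro g z
    rw [hΨa, hΨa, eden_pull_shift _ _ e1, eden_pull_shift _ _ e2, hPN, hf, hQe, ← map_sub,
      eden_push_shift _ _ e1]
  -- kernels
  have n12 : ∀ (c c' : C), (Sum.inr c' : C ⊕ C) ≠ Sum.inl c := fun _ _ h => by cases h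
  have n21 : ∀ (c c' : C), (Sum.inl c' : C ⊕ C) ≠ Sum.inr c := fun _ _ h => by cases h
  have hp11 := eden_pull_push (Sum.inl : C → C ⊕ C) eden_inl
  have hp22 := eden_pull_push (Sum.inr : C → C ⊕ C) eden_inr
  have hp12 := eden_pull_push' (Sum.inl : C → C ⊕ C) Sum.inr eden_inl eden_inr n12
  have hp21 := eden_pull_push' (Sum.inr : C → C ⊕ C) Sum.inl eden_inr eden_inl n21
  have hinj : ∀ x : L2 C, eden_push (Sum.inl : C → C ⊕ C) eden_inl x = 0 → x = 0 := by
    intro x hx
    rw [← hp11 x, hx, map_zero]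
  have hkerΨ : ∀ z, Ψ z = 0 ↔ N.starProjection (eden_pull Sum.inl eden_inl z) = 0 ∧
      Q (eden_pull Sum.inr eden_inr z) = 0 := by
    intro z
    rw [hΨa]
    constructor
    · intro hz
      have h1 := sub_eq_zero.1 (hinj _ hz)
      have h2 := h0 _ (N.starProjection_apply_mem _) _ (W.starProjection_apply_mem _)
        (h1.trans (hQa _))
      refine ⟨h2, ?_⟩
      rw [← h1, h2, map_zero]
    · rintro ⟨h1, h2⟩
      rw [h1, h2, map_zero, sub_zero, map_zero]
  have hadjQ : ∀ v, ContinuousLinearMap.adjoint Q v = 0 ↔ ∀ y, inner ℝ (Q y) v = 0 := by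
    intro v
    constructor
    · intro hv y
      rw [← ContinuousLinearMap.adjoint_inner_right, hv, inner_zero_right]
    · intro hv
      have := hv (ContinuousLinearMap.adjoint Q v)
      rw [← ContinuousLinearMap.adjoint_inner_right] at this
      exact inner_self_eq_zero.1 this
  have hkerΨ' : ∀ z, ContinuousLinearMap.adjoint Ψ z = 0 ↔
      ContinuousLinearMap.adjoint Q (eden_pull Sum.inl eden_inl z) = 0 := by
    intro z
    have h1 : ContinuousLinearMap.adjoint Ψ z = 0 ↔ ∀ y, inner ℝ (Ψ y) z = 0 := by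
      constructor
      · intro hv y
        rw [← ContinuousLinearMap.adjoint_inner_right, hv, inner_zero_right]
      · intro hv
        have := hv (ContinuousLinearMap.adjoint Ψ z)
        rw [← ContinuousLinearMap.adjoint_inner_right] at this
        exact inner_self_eq_zero.1 this
    rw [h1, hadjQ]
    constructor
    · intro hz y
      have h2 := hz (eden_push Sum.inr eden_inr y)
      rw [hΨa, hp12, hp22, map_zero, map_zero, zero_sub, eden_inner, inner_neg_left,
        neg_eq_zero] at h2
      exact h2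
    · intro hz y
      rw [hΨa, eden_inner, inner_sub_left, hz, sub_zero]
      have h3 := h _ (N.starProjection_apply_mem (eden_pull Sum.inl eden_inl y))
      have h4 : IsClosed {v : L2 C | inner ℝ v (eden_pull Sum.inl eden_inl z) = (0 : ℝ)} :=
        isClosed_eq (by fun_prop) continuous_const
      refine (closure_minimal ?_ h4) h3
      rintro _ ⟨w, hw, rfl⟩
      have h5 := hz w
      rw [hQa, Submodule.starProjection_eq_self_iff.2 hw] at h5
      exact h5
  -- the four kernels as submodules
  obtain ⟨K, hK⟩ : ∃ K : Submodule ℝ (L2 (C ⊕ C)), K = LinearMap.ker Ψ.toLinearMap := ⟨_, rfl⟩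
  obtain ⟨K', hK'⟩ : ∃ K : Submodule ℝ (L2 (C ⊕ C)),
    K = LinearMap.ker (ContinuousLinearMap.adjoint Ψ).toLinearMap := ⟨_, rfl⟩
  obtain ⟨J, hJ⟩ : ∃ K : Submodule ℝ (L2 C), K = LinearMap.ker Q.toLinearMap := ⟨_, rfl⟩
  obtain ⟨J', hJ'⟩ : ∃ K : Submodule ℝ (L2 C),
    K = LinearMap.ker (ContinuousLinearMap.adjoint Q).toLinearMap := ⟨_, rfl⟩
  have hKm : ∀ x, x ∈ K ↔ Ψ x = 0 := fun x => by rw [hK]; exact LinearMap.mem_ker
  have hKm' : ∀ x, x ∈ K' ↔ ContinuousLinearMap.adjoint Ψ x = 0 := fun x => by
    rw [hK']; exact LinearMap.mem_ker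
  have hJm : ∀ x, x ∈ J ↔ Q x = 0 := fun x => by rw [hJ]; exact LinearMap.mem_ker
  have hJm' : ∀ x, x ∈ J' ↔ ContinuousLinearMap.adjoint Q x = 0 := fun x => by
    rw [hJ']; exact LinearMap.mem_ker
  have c1 : IsClosed (K : Set (L2 (C ⊕ C))) := by
    have : (K : Set (L2 (C ⊕ C))) = {x | Ψ x = 0} := Set.ext hKm
    rw [this]
    exact isClosed_eq (by fun_prop) continuous_const
  have c2 : IsClosed (K' : Set (L2 (C ⊕ C))) := by
    have : (K' : Set (L2 (C ⊕ C))) = {x | ContinuousLinearMap.adjoint Ψ x = 0} := Set.ext hKm'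
    rw [this]
    exact isClosed_eq (by fun_prop) continuous_const
  have c3 : IsClosed (J : Set (L2 C)) := by
    have : (J : Set (L2 C)) = {x | Q x = 0} := Set.ext hJm
    rw [this]
    exact isClosed_eq (by fun_prop) continuous_const
  have c4 : IsClosed (J' : Set (L2 C)) := by
    have : (J' : Set (L2 C)) = {x | ContinuousLinearMap.adjoint Q x = 0} := Set.ext hJm'
    rw [this]
    exact isClosed_eq (by fun_prop) continuous_const
  have := c1.completeSpace_coe
  have := c2.completeSpace_coe
  have := c3.completeSpace_coe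
  have := c4.completeSpace_coe
  have t1 := tr_ker (eden_FO hC) hΨe K K' hKm hKm'
  have t2 := tr_ker hC hQe J J' hJm hJm'
  have q : ∀ {K : Submodule ℝ (L2 (C ⊕ C))} [K.HasOrthogonalProjection] {x v : L2 (C ⊕ C)}
    (_ : v ∈ K) (_ : ∀ w ∈ K, inner ℝ (x - v) w = 0), K.starProjection x = v :=
      fun hv h => Submodule.eq_starProjection_of_mem_of_inner_eq_zero hv h
  have s1 : tr H K.starProjection = tr H (1 - N.starProjection) + tr H J.starProjection := by
    refine eden_tr hC ?_ ?_ ?_
    · have hKI : Inv H K := by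
        intro g z hz
        rw [hKm] at hz ⊢
        rw [hΨe, hz, map_zero]
      exact hKI.proj
    · intro x
      have : K.starProjection (eden_push Sum.inl eden_inl x) =
          eden_push Sum.inl eden_inl (x - N.starProjection x) := by
        refine q ?_ ?_
        · rw [hKm, hkerΨ, hp11, hp21, map_zero, map_sub]
          refine ⟨?_, rfl⟩
          rw [Submodule.starProjection_eq_self_iff.2 (N.starProjection_apply_mem x), sub_self]
        · intro w hw
          rw [hKm, hkerΨ] at hw
          rw [← map_sub, sub_sub_cancel, eden_inner, Submodule.inner_starProjection_left_eq_right,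
            hw.1, inner_zero_right]
      rw [this, hp11]
      rfl
    · intro y
      have : K.starProjection (eden_push Sum.inr eden_inr y) =
          eden_push Sum.inr eden_inr (J.starProjection y) := by
        refine q ?_ ?_
        · rw [hKm, hkerΨ, hp22, hp12, map_zero]
          exact ⟨rfl, (hJm _).1 (J.starProjection_apply_mem y)⟩
        · intro w hw
          rw [hKm, hkerΨ] at hw
          rw [← map_sub, eden_inner]
          exact J.starProjection_inner_eq_zero y _ ((hJm _).2 hw.2)
      rw [this, hp22]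
  have s2 : tr H K'.starProjection = tr H J'.starProjection +
      tr H (1 : L2 C →L[ℝ] L2 C) := by
    refine eden_tr hC ?_ ?_ ?_
    · have hKI : Inv H K' := by
        intro g z hz
        rw [hKm'] at hz ⊢
        rw [hΨe.adjoint, hz, map_zero]
      exact hKI.proj
    · intro x
      have : K'.starProjection (eden_push Sum.inl eden_inl x) =
          eden_push Sum.inl eden_inl (J'.starProjection x) := by
        refine q ?_ ?_
        · rw [hKm', hkerΨ', hp11]
          exact (hJm' _).1 (J'.starProjection_apply_mem x)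
        · intro w hw
          rw [hKm', hkerΨ'] at hw
          rw [← map_sub, eden_inner]
          exact J'.starProjection_inner_eq_zero x _ ((hJm' _).2 hw)
      rw [this, hp11]
    · intro y
      have : K'.starProjection (eden_push Sum.inr eden_inr y) = eden_push Sum.inr eden_inr y := by
        refine q ?_ ?_
        · rw [hKm', hkerΨ', hp12, map_zero]
        · intro w hw
          rw [sub_self, inner_zero_left]
      rw [this, hp22]
      rfl
  have s3 := tr_add hC (1 - N.starProjection) N.starProjection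
  rw [sub_add_cancel] at s3
  linarith

theorem dense_lift (hC : FO H C) (U W : Submodule ℝ (L2 C))
    (hUc : IsClosed (U : Set (L2 C))) (hWc : IsClosed (W : Set (L2 C)))
    (hU : Inv H U) (hW : Inv H W) {f T : L2 C →L[ℝ] L2 C} (hf : Eqv H f) (hT : Eqv H T)
    (h : ∀ u ∈ U, f u ∈ closure (T '' (W : Set (L2 C)))) :
    ∀ u ∈ U, u ∈ closure {u' | u' ∈ U ∧ ∃ w ∈ W, f u' = T w} := by
  obtain ⟨U₀, hU₀⟩ : ∃ U₀ : Submodule ℝ (L2 C), ∀ u, u ∈ U₀ ↔ u ∈ U ∧ ∃ w ∈ W, f u = T w :=
    ⟨{ carrier := {u' | u' ∈ U ∧ ∃ w ∈ W, f u' = T w}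
       add_mem' := by
        rintro a b ⟨ha, w, hw, e⟩ ⟨hb, w', hw', e'⟩
        exact ⟨U.add_mem ha hb, w + w', W.add_mem hw hw', by rw [map_add, map_add, e, e']⟩
       zero_mem' := ⟨U.zero_mem, 0, W.zero_mem, by rw [map_zero, map_zero]⟩
       smul_mem' := by
        rintro r a ⟨ha, w, hw, e⟩
        exact ⟨U.smul_mem r ha, r • w, W.smul_mem r hw, by rw [map_smul, map_smul, e]⟩ },
      fun u => Iff.rfl⟩
  have hU₀i : Inv H U₀ := by
    intro g z hz
    rw [hU₀] at hz ⊢
    obtain ⟨h1, w, hw, e⟩ := hz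
    exact ⟨hU g z h1, shift g w, hW g w hw, by rw [hf, e, hT]⟩
  obtain ⟨N, hN⟩ : ∃ N : Submodule ℝ (L2 C), N = U ⊓ U₀ᗮ := ⟨_, rfl⟩
  have hNc : IsClosed (N : Set (L2 C)) := by
    rw [hN]
    exact hUc.inter (Submodule.isClosed_orthogonal _)
  have := hNc.completeSpace_coe
  have := hWc.completeSpace_coe
  have hNi : Inv H N := by
    intro g z hz
    rw [hN, Submodule.mem_inf, Submodule.mem_orthogonal] at hz ⊢
    refine ⟨hU g z hz.1, fun u hu => ?_⟩
    have h1 := hz.2 _ (hU₀i g⁻¹ u hu)
    have h2 : shift g (shift g⁻¹ u) = u := by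
      apply l2_ext
      intro c
      rw [shift_apply, shift_apply, inv_inv, smul_inv_smul]
    rw [← h2, LinearIsometryEquiv.inner_map_map]
    exact h1
  have htr : tr H N.starProjection = 0 := by
    refine eden_trN hC N W hNi hW hf hT (fun u hu => ?_) (fun u hu w hw e => ?_)
    · rw [hN] at hu
      exact h u hu.1
    · rw [hN] at hu
      have h1 : u ∈ U₀ := (hU₀ u).2 ⟨hu.1, w, hw, e⟩
      have h2 := (Submodule.mem_orthogonal _ _).1 hu.2 u h1
      exact inner_self_eq_zero.1 h2
  have hN0 := tr_proj_eq_zero hC hNi htr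
  intro u hu
  have h1 : U₀.topologicalClosure ≤ U := by
    refine Submodule.topologicalClosure_minimal _ (fun v hv => ((hU₀ v).1 hv).1) hUc
  have := U₀.isClosed_topologicalClosure.completeSpace_coe
  have h2 : u - U₀.topologicalClosure.starProjection u ∈ N := by
    rw [hN, Submodule.mem_inf]
    refine ⟨U.sub_mem hu (h1 (Submodule.starProjection_apply_mem _ _)), ?_⟩
    rw [Submodule.mem_orthogonal']
    intro v hv
    exact Submodule.starProjection_inner_eq_zero _ _ (U₀.le_topologicalClosure hv)
  have h3 := sub_eq_zero.1 (hN0 _ h2)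
  have h4 : u ∈ U₀.topologicalClosure := by
    rw [h3]
    exact Submodule.starProjection_apply_mem _ _
  have h5 : (U₀ : Set (L2 C)) = {u' | u' ∈ U ∧ ∃ w ∈ W, f u' = T w} := Set.ext hU₀
  rw [← h5]
  exact h4

end main

end SingerCub
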