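import Mathlib
import Pool.Agent.Lib_MP_394d50_cub.EOp
import Pool.Agent.Lib_MP_394d50_cub.EDen

/-!
# Piece EMRL: weak exactness of subcomplexes and quotients

Let `D` be the operator of `FC.exists_D`. `D` maps `sup (lev I S (k+1))` to chains supported on
cells of dimension `k`. For `w` supported on `lev I S (k+1)` put `∂ w = rs S (D w)`, supported on
`lev I S k`. If `S` is convex (`Cvx`), `rs S (D (rs S (D w))) = 0` for `w ∈ sup S`: the coefficient at
`p ∈ S` is `∑_{q ∈ S} ∑_{r ∈ S} inc p q * inc q r * w r`, and for `p, r ∈ S` the `q ∉ S` do not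
contribute by `Cvx`, so it is `0` by `FC.sq` (finite sums by `faces`, `cofaces`).

`nh_iff`. (→) let `x` be a cycle, `x = x' + y` with `x'` in the closure `B` of the image of `∂` on
`sup (lev I S (k+1))` and `y ⊥ B`. `y` is supported on `lev I S k`, `rs S (D y) = 0` (as `B` consists of
cycles), and `(D* y) q = ⟨D δ_q, y⟩ = ⟨rs S (D δ_q), y⟩ = 0` for `q ∈ lev I S (k+1)`; for `q ∈ S` of
another dimension `(D* y) q = ∑ p, inc p q * y p = 0` by `inc_dim`. So `y = 0` by `NH`. (←) If `z` is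
harmonic, it is a cycle, so in `B`, and `⟨rs S (D w), z⟩ = ⟨w, D* z⟩ = 0` for `w ∈ sup (lev I S (k+1))`,
so `⟨z, z⟩ = 0`.

Now let `S = S1 ∪ S2`, disjoint, `inc p q = 0` for `p ∈ S2`, `q ∈ S1`. Then `S1` and `S2` are convex.
All subspaces below are closed and invariant (`S1`, `S2` are `H`-invariant sets) and the operators
`rs A ∘ D ∘ rs B` are equivariant for invariant `A`, `B`.

(M) `nh_mid`. Let `x` be a cycle of `S` in degree `k`, and `x2 = rs S2 x`. `rs S2 (D x) = rs S2 (D x2)`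
(as `inc p q = 0` for `p ∈ S2`, `q ∈ S1`), so `x2` is a cycle of `S2`, in the closure of
`{rs S2 (D z) | z ∈ sup (lev I S2 (k+1))}`. `dense_lift` with `U` = the cycles of `S` in degree `k`,
`f = rs S2`, `T = rs S2 ∘ D`, `W = sup (lev I S2 (k+1))`: the `x ∈ U` with `rs S2 x = rs S2 (D z)`
for some `z ∈ W` are dense in `U`. For those `x`, `x - rs S (D z)` is supported on `lev I S1 k` and a
cycle of `S1`, so it is in the closure of the boundaries of `S1`, and `x` in the closure of the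
boundaries of `S` (for `w` supported on `S1`, `rs S (D w) = rs S1 (D w)`).

(R) `nh_sub`. Let `x` be a cycle of `S1` in degree `k`; it is a cycle of `S`, so in the closure of
`rs S (D w)`, `w ∈ W = sup (lev I S (k+1))`. `dense_lift` with `U` = the cycles of `S1` in degree `k`,
`f = id`, `T = rs S ∘ D`: the `x ∈ U` with `x = rs S (D w)` exactly are dense in `U`. For those,
`w = y + z`, `y = rs S1 w`, `z = rs S2 w`, and `rs S2 (D z) = rs S2 x = 0`, so `z` is a cycle of `S2` in
degree `k+1`, a limit of `rs S2 (D v)`, `v ∈ sup (lev I S2 (k+2))`. `rs S1 (D (rs S2 (D v))) =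
- rs S1 (D (rs S1 (D v)))` is a boundary of `S1` (`∂ ∂ v = 0` in `S`), so `rs S1 (D z)` is in the closure
of the boundaries of `S1`, and so is `x = rs S1 (D y) + rs S1 (D z)`.

(L) `nh_quo`. Let `x` be a cycle of `S2` in degree `k+1`. `rs S1 (D x)` is a cycle of `S1` in degree
`k` (`∂ ∂ x = 0` in `S`), so in the closure of `rs S1 (D y)`, `y ∈ sup (lev I S1 (k+1))`. `dense_lift`
with `U` = the cycles of `S2` in degree `k+1`, `f = rs S1 ∘ D = T`: the `x ∈ U` with
`rs S1 (D x) = rs S1 (D y)` are dense. For those, `x - y` is a cycle of `S`, so in the closure of the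
`rs S (D w)`; apply `rs S2`: `x` is in the closure of `rs S2 (D w) = rs S2 (D (rs S2 w))`.
-/

namespace SingerCub

open SingerVS

variable {H C : Type} [Group H] [MulAction H C] {I : CellCx C}

private theorem em_add (a b : L2 C) (c : C) : (a + b : L2 C) c = a c + b c := rfl

private theorem em_sub (a b : L2 C) (c : C) : (a - b : L2 C) c = a c - b c := rfl

private theorem em_zero (c : C) : (0 : L2 C) c = 0 := rfl

private theorem em_mono {A B : Set C} (h : A ⊆ B) {z : L2 C} (hz : z ∈ sup A) : z ∈ sup B :=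
  fun c hc => hz c fun hA => hc (h hA)

private theorem em_lev_sub (S : Set C) (k : ℕ) : lev I S k ⊆ S := fun _ hc => hc.1

private theorem em_lev_mono {A B : Set C} (h : A ⊆ B) (k : ℕ) : lev I A k ⊆ lev I B k :=
  fun _ hc => ⟨h hc.1, hc.2⟩

/-- restriction to a smaller set after restriction to a larger one -/
private theorem em_rs_rs {A B : Set C} (h : A ⊆ B) (z : L2 C) : rs A (rs B z) = rs A z := by
  apply l2_ext
  intro c
  by_cases hc : c ∈ A
  · rw [rs_of_mem _ hc, rs_of_mem _ hc, rs_of_mem _ (h hc)]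
  · rw [rs_of_notMem _ hc, rs_of_notMem _ hc]

private theorem em_rs_union {A B : Set C} (h : Disjoint A B) (z : L2 C) :
    rs (A ∪ B) z = rs A z + rs B z := by
  apply l2_ext
  intro c
  rw [em_add]
  by_cases hA : c ∈ A
  · have hB : c ∉ B := fun hB => Set.disjoint_left.1 h hA hB
    rw [rs_of_mem _ (Set.mem_union_left B hA), rs_of_mem _ hA, rs_of_notMem _ hB, add_zero]
  · by_cases hB : c ∈ B
    · rw [rs_of_mem _ (Set.mem_union_right A hB), rs_of_notMem _ hA, rs_of_mem _ hB, zero_add]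
    · rw [rs_of_notMem _ (fun h => h.elim hA hB : c ∉ A ∪ B), rs_of_notMem _ hA,
        rs_of_notMem _ hB, zero_add]

private theorem em_rs_zero {A B : Set C} (h : Disjoint A B) {z : L2 C} (hz : z ∈ sup A) :
    rs B z = 0 := by
  apply l2_ext
  intro c
  rw [em_zero]
  by_cases hB : c ∈ B
  · rw [rs_of_mem _ hB]
    exact hz c fun hA => Set.disjoint_left.1 h hA hB
  · exact rs_of_notMem _ hB

/-- the restriction of a chain of dimension `k` -/
private theorem em_rs_lev {A B : Set C} {k : ℕ} {z : L2 C} (hz : z ∈ sup (lev I B k)) :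
    rs A z ∈ sup (lev I A k) := by
  intro c hc
  by_cases hA : c ∈ A
  · rw [rs_of_mem _ hA]
    exact hz c fun h => hc ⟨hA, h.2⟩
  · exact rs_of_notMem _ hA

section

variable {D : L2 C →L[ℝ] L2 C} (hD : ∀ z p, (D z) p = ∑ᶠ q, (I.inc p q : ℝ) * z q)

include hD

private theorem em_D_zero {A : Set C} {w : L2 C} (hw : w ∈ sup A) {p : C}
    (h : ∀ q ∈ A, I.inc p q = 0) : (D w) p = 0 := by
  rw [hD]
  refine (finsum_congr fun q => ?_).trans finsum_zero
  by_cases hq : q ∈ A
  · rw [h q hq, Int.cast_zero, zero_mul]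
  · rw [hw q hq, mul_zero]

private theorem em_D_lev (hF : FC H I) {S A : Set C} {k : ℕ} {w : L2 C}
    (hw : w ∈ sup (lev I S (k + 1))) : rs A (D w) ∈ sup (lev I A k) := by
  intro c hc
  by_cases hA : c ∈ A
  · rw [rs_of_mem _ hA]
    refine em_D_zero hD hw fun q hq => ?_
    by_contra h0
    have h1 := hF.inc_dim c q h0
    rw [hq.2] at h1
    exact hc ⟨hA, (Nat.succ_injective h1).symm⟩
  · exact rs_of_notMem _ hA

private theorem em_dd (hF : FC H I) {S : Set C} (hS : Cvx I S) {w : L2 C} (hw : w ∈ sup S) :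
    rs S (D (rs S (D w))) = 0 := by
  classical
  apply l2_ext
  intro p
  rw [em_zero]
  by_cases hp : p ∈ S
  · rw [rs_of_mem _ hp, hD]
    have e0 : ∀ q, (I.inc p q : ℝ) ≠ 0 → q ∈ (hF.cofaces p).toFinset := by
      intro q hq
      rw [Set.Finite.mem_toFinset]
      intro h0
      exact hq (by rw [h0, Int.cast_zero])
    have e1 : ∀ q ∈ (hF.cofaces p).toFinset, (D w) q =
        ∑ r ∈ (hF.cofaces p).toFinset.biUnion (fun q => (hF.cofaces q).toFinset),
          (I.inc q r : ℝ) * w r := by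
      intro q hq
      rw [hD]
      apply finsum_eq_sum_of_support_subset
      intro r hr
      rw [Finset.mem_coe, Finset.mem_biUnion]
      refine ⟨q, hq, ?_⟩
      rw [Set.Finite.mem_toFinset]
      intro h0
      refine hr ?_
      show (I.inc q r : ℝ) * w r = 0
      rw [h0, Int.cast_zero, zero_mul]
    rw [finsum_eq_sum_of_support_subset (s := (hF.cofaces p).toFinset) _ (fun q hq =>
      e0 q fun h0 => hq (by rw [h0, zero_mul]))]
    have e2 : ∀ q ∈ (hF.cofaces p).toFinset, (I.inc p q : ℝ) * (rs S (D w)) q =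
        ∑ r ∈ (hF.cofaces p).toFinset.biUnion (fun q => (hF.cofaces q).toFinset),
          (if q ∈ S then (I.inc p q : ℝ) * (I.inc q r : ℝ) * w r else 0) := by
      intro q hq
      by_cases hqS : q ∈ S
      · rw [rs_of_mem _ hqS, e1 q hq, Finset.mul_sum]
        refine Finset.sum_congr rfl fun r _ => ?_
        rw [if_pos hqS, mul_assoc]
      · rw [rs_of_notMem _ hqS, mul_zero]
        symm
        refine Finset.sum_eq_zero fun r _ => ?_
        rw [if_neg hqS]
    rw [Finset.sum_congr rfl e2, Finset.sum_comm]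
    refine Finset.sum_eq_zero fun r _ => ?_
    by_cases hr : r ∈ S
    · have e3 : ∀ q ∈ (hF.cofaces p).toFinset,
          (if q ∈ S then (I.inc p q : ℝ) * (I.inc q r : ℝ) * w r else 0) =
            ((I.inc p q * I.inc q r : ℤ) : ℝ) * w r := by
        intro q _
        split_ifs with hqS
        · push_cast
          ring
        · have h0 : I.inc p q * I.inc q r = 0 := by
            by_contra h0
            exact hqS (hS p q r hp hr (left_ne_zero_of_mul h0) (right_ne_zero_of_mul h0))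
          rw [h0, Int.cast_zero, zero_mul]
      rw [Finset.sum_congr rfl e3, ← Finset.sum_mul, ← Int.cast_sum]
      have e4 : ∑ q ∈ (hF.cofaces p).toFinset, I.inc p q * I.inc q r = 0 := by
        refine Eq.trans ?_ (hF.sq p r)
        symm
        apply finsum_eq_sum_of_support_subset
        intro q hq
        rw [Finset.mem_coe, Set.Finite.mem_toFinset]
        intro h0
        refine hq ?_
        show I.inc p q * I.inc q r = 0
        rw [h0, zero_mul]
      rw [e4, Int.cast_zero, zero_mul]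
    · refine Finset.sum_eq_zero fun q _ => ?_
      rw [hw r hr, mul_zero, ite_self]
  · exact rs_of_notMem _ hp

end

private theorem em_rs_inner (S : Set C) (x y : L2 C) :
    inner ℝ (rs S x) y = inner ℝ x (rs S y) :=
  (sup S).inner_starProjection_left_eq_right x y

private theorem em_inner_zero {S : Set C} {w v : L2 C} (hw : w ∈ sup S)
    (hv : ∀ c ∈ S, v c = 0) : inner ℝ w v = 0 := by
  have h1 : rs S v = 0 := by
    apply l2_ext
    intro c
    rw [em_zero]
    by_cases hc : c ∈ S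
    · rw [rs_of_mem _ hc, hv c hc]
    · exact rs_of_notMem _ hc
  rw [← rs_eq hw, em_rs_inner, h1, inner_zero_right]

/-- the closure of the boundaries -/
private noncomputable def emB (I : CellCx C) (D : L2 C →L[ℝ] L2 C) (S : Set C) (k : ℕ) :
    Submodule ℝ (L2 C) :=
  ((sup (lev I S (k + 1))).map (((rs S).comp D : L2 C →L[ℝ] L2 C) : L2 C →ₗ[ℝ] L2 C)).topologicalClosure

private theorem em_mem_B {D : L2 C →L[ℝ] L2 C} {S : Set C} {k : ℕ} {x : L2 C} :
    x ∈ emB I D S k ↔
      x ∈ closure ((fun w => rs S (D w)) '' (sup (lev I S (k + 1)) : Set (L2 C))) := by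
  unfold emB
  rw [← SetLike.mem_coe, Submodule.topologicalClosure_coe, Submodule.map_coe]
  rfl

private theorem em_B_closed {D : L2 C →L[ℝ] L2 C} {S : Set C} {k : ℕ} :
    IsClosed (emB I D S k : Set (L2 C)) := Submodule.isClosed_topologicalClosure _

private theorem em_B_mk {D : L2 C →L[ℝ] L2 C} {S : Set C} {k : ℕ} {w : L2 C}
    (hw : w ∈ sup (lev I S (k + 1))) : rs S (D w) ∈ emB I D S k :=
  em_mem_B.2 (subset_closure ⟨w, hw, rfl⟩)

private theorem em_B_le {D : L2 C →L[ℝ] L2 C} {S : Set C} {k : ℕ} {V : Set (L2 C)}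
    (hV : IsClosed V) (h : ∀ w ∈ sup (lev I S (k + 1)), rs S (D w) ∈ V) {x : L2 C}
    (hx : x ∈ emB I D S k) : x ∈ V := by
  rw [em_mem_B] at hx
  refine closure_minimal ?_ hV hx
  rintro _ ⟨w, hw, rfl⟩
  exact h w hw

theorem nh_iff (hF : FC H I) {D : L2 C →L[ℝ] L2 C}
    (hD : ∀ z p, (D z) p = ∑ᶠ q, (I.inc p q : ℝ) * z q)
    (hD' : ∀ z q, (ContinuousLinearMap.adjoint D z) q = ∑ᶠ p, (I.inc p q : ℝ) * z p)
    {S : Set C} (hS : Cvx I S) (k : ℕ) :
    NH I S k ↔ ∀ x ∈ sup (lev I S k), rs S (D x) = 0 →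
      x ∈ closure ((fun w => rs S (D w)) '' (sup (lev I S (k + 1)) : Set (L2 C))) := by
  constructor
  · intro hN x hx hx0
    rw [← em_mem_B]
    have hcompl : CompleteSpace (emB I D S k) := em_B_closed.completeSpace_coe
    have hy0 : x - (emB I D S k).starProjection x = 0 := by
      have hyB := (emB I D S k).sub_starProjection_mem_orthogonal x
      have hPm := (emB I D S k).starProjection_apply_mem x
      have hPl : (emB I D S k).starProjection x ∈ sup (lev I S k) :=
        em_B_le (isClosed_sup _) (fun w hw => em_D_lev hD hF hw) hPm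
      have hP0 : rs S (D ((emB I D S k).starProjection x)) = 0 := by
        refine em_B_le (V := {v | rs S (D v) = 0}) ?_ (fun w hw => ?_) hPm
        · exact isClosed_eq ((rs S).continuous.comp D.continuous) continuous_const
        · exact em_dd hD hF hS (em_mono (em_lev_sub S (k + 1)) hw)
      have hyl : x - (emB I D S k).starProjection x ∈ sup (lev I S k) := sub_mem hx hPl
      refine hN _ (fun c hc => ?_) (fun p hp => ?_) fun q hq => ?_
      · by_contra h
        exact hc (hyl c h)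
      · rw [← hD, ← rs_of_mem _ hp, map_sub, map_sub, hx0, hP0, sub_zero]
        rfl
      · by_cases hdim : I.dim q = k + 1
        · rw [← hD', ← delta_inner, ContinuousLinearMap.adjoint_inner_right]
          have h1 : rs S (D (delta q)) ∈ emB I D S k :=
            em_B_mk (delta_mem_sup ⟨hq, hdim⟩)
          have h2 := (Submodule.mem_orthogonal _ _).1 hyB _ h1
          rw [em_rs_inner, rs_eq (em_mono (em_lev_sub S k) hyl)] at h2
          exact h2
        · refine (finsum_congr fun p => ?_).trans finsum_zero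
          by_cases hpl : p ∈ lev I S k
          · have h0 : I.inc p q = 0 := by
              by_contra h0
              have h1 := hF.inc_dim p q h0
              rw [hpl.2] at h1
              exact hdim h1
            rw [h0, Int.cast_zero, zero_mul]
          · rw [hyl p hpl, mul_zero]
    rw [sub_eq_zero] at hy0
    rw [hy0]
    exact (emB I D S k).starProjection_apply_mem x
  · intro h z hz hz1 hz2
    have hzl : z ∈ sup (lev I S k) := fun c hc => by
      by_contra h0
      exact hc (hz c h0)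
    have hz0 : rs S (D z) = 0 := by
      apply l2_ext
      intro p
      rw [em_zero]
      by_cases hp : p ∈ S
      · rw [rs_of_mem _ hp, hD, hz1 p hp]
      · exact rs_of_notMem _ hp
    have hzB := h z hzl hz0
    rw [← em_mem_B] at hzB
    have hzz : inner ℝ z z = 0 := by
      refine em_B_le (V := {v | inner ℝ v z = 0}) ?_ (fun w hw => ?_) hzB
      · exact isClosed_eq (continuous_id.inner continuous_const) continuous_const
      · change inner ℝ (rs S (D w)) z = 0
        rw [em_rs_inner, rs_eq (em_mono (em_lev_sub S k) hzl),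
          ← ContinuousLinearMap.adjoint_inner_right]
        refine em_inner_zero (em_mono (em_lev_sub S (k + 1)) hw) fun c hc => ?_
        rw [hD', hz2 c hc]
    exact inner_self_eq_zero.1 hzz

/-! ### the two pieces -/

private theorem em_cvx1 {S1 S2 : Set C} (hS : Cvx I (S1 ∪ S2))
    (h12 : ∀ p ∈ S2, ∀ q ∈ S1, I.inc p q = 0) : Cvx I S1 := by
  intro p q r hp hr hpq hqr
  rcases hS p q r (Or.inl hp) (Or.inl hr) hpq hqr with h | h
  · exact h
  · exact absurd (h12 q h r hr) hqr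

private theorem em_cvx2 {S1 S2 : Set C} (hS : Cvx I (S1 ∪ S2))
    (h12 : ∀ p ∈ S2, ∀ q ∈ S1, I.inc p q = 0) : Cvx I S2 := by
  intro p q r hp hr hpq hqr
  rcases hS p q r (Or.inr hp) (Or.inr hr) hpq hqr with h | h
  · exact absurd (h12 p hp q h) hpq
  · exact h

private theorem em_iff {A : Set C} (hi : ∀ (h : H), ∀ c ∈ A, h • c ∈ A) (h : H) (c : C) :
    h⁻¹ • c ∈ A ↔ c ∈ A :=
  ⟨fun h1 => by have h2 := hi h _ h1; rwa [smul_inv_smul] at h2, fun h1 => hi _ _ h1⟩

private theorem em_eqv_rs {A : Set C} (hi : ∀ (h : H), ∀ c ∈ A, h • c ∈ A) : Eqv H (rs A) := by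
  intro h z
  apply l2_ext
  intro c
  by_cases hc : c ∈ A
  · rw [rs_of_mem _ hc, shift_apply, shift_apply, rs_of_mem _ ((em_iff hi h c).2 hc)]
  · rw [rs_of_notMem _ hc, shift_apply, rs_of_notMem _ (fun h1 => hc ((em_iff hi h c).1 h1))]

private theorem em_inv_sup {A : Set C} (hi : ∀ (h : H), ∀ c ∈ A, h • c ∈ A) : Inv H (sup A) := by
  intro h z hz c hc
  rw [shift_apply]
  exact hz _ fun h1 => hc ((em_iff hi h c).1 h1)

private theorem em_inv_lev (hF : FC H I) {A : Set C} (hi : ∀ (h : H), ∀ c ∈ A, h • c ∈ A)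
    (k : ℕ) : ∀ (h : H), ∀ c ∈ lev I A k, h • c ∈ lev I A k :=
  fun h c hc => ⟨hi h c hc.1, by rw [hF.dim_smul]; exact hc.2⟩

private theorem em_eqv_comp {F G : L2 C →L[ℝ] L2 C} (hF : Eqv H F) (hG : Eqv H G) :
    Eqv H (F.comp G) := by
  intro h z
  rw [ContinuousLinearMap.comp_apply, ContinuousLinearMap.comp_apply, hG h z, hF h]

/-- the cycles -/
private noncomputable def emZ (I : CellCx C) (D : L2 C →L[ℝ] L2 C) (S : Set C) (k : ℕ) :
    Submodule ℝ (L2 C) :=
  sup (lev I S k) ⊓ LinearMap.ker (((rs S).comp D : L2 C →L[ℝ] L2 C) : L2 C →ₗ[ℝ] L2 C)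

private theorem em_mem_Z {D : L2 C →L[ℝ] L2 C} {S : Set C} {k : ℕ} {x : L2 C} :
    x ∈ emZ I D S k ↔ x ∈ sup (lev I S k) ∧ rs S (D x) = 0 := Iff.rfl

private theorem em_Z_closed {D : L2 C →L[ℝ] L2 C} {S : Set C} {k : ℕ} :
    IsClosed (emZ I D S k : Set (L2 C)) := by
  have h1 : (emZ I D S k : Set (L2 C)) = (sup (lev I S k) : Set (L2 C)) ∩ {x | rs S (D x) = 0} :=
    rfl
  rw [h1]
  exact (isClosed_sup _).inter
    (isClosed_eq ((rs S).continuous.comp D.continuous) continuous_const)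

private theorem em_Z_inv (hF : FC H I) {D : L2 C →L[ℝ] L2 C} (hDe : Eqv H D) {S : Set C}
    (hi : ∀ (h : H), ∀ c ∈ S, h • c ∈ S) (k : ℕ) : Inv H (emZ I D S k) := by
  intro h z hz
  obtain ⟨h1, h2⟩ := em_mem_Z.1 hz
  refine em_mem_Z.2 ⟨em_inv_sup (em_inv_lev hF hi k) h z h1, ?_⟩
  rw [hDe h z, em_eqv_rs hi h, h2, map_zero]

/-- (M) -/
theorem nh_mid (hF : FC H I) {S1 S2 : Set C} (hd : Disjoint S1 S2) (hS : Cvx I (S1 ∪ S2))
    (h12 : ∀ p ∈ S2, ∀ q ∈ S1, I.inc p q = 0) (i1 : ∀ (h : H), ∀ c ∈ S1, h • c ∈ S1)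
    (i2 : ∀ (h : H), ∀ c ∈ S2, h • c ∈ S2) {k : ℕ} (h1 : NH I S1 k) (h2 : NH I S2 k) :
    NH I (S1 ∪ S2) k := by
  obtain ⟨D, hD, hD', hDe⟩ := hF.exists_D
  have c1 := em_cvx1 hS h12
  have c2 := em_cvx2 hS h12
  have i12 : ∀ (h : H), ∀ c ∈ S1 ∪ S2, h • c ∈ S1 ∪ S2 := fun h c hc => hc.imp (i1 h c) (i2 h c)
  have s1 : S1 ⊆ S1 ∪ S2 := Set.subset_union_left
  have s2 : S2 ⊆ S1 ∪ S2 := Set.subset_union_right
  rw [nh_iff hF hD hD' c1] at h1
  rw [nh_iff hF hD hD' c2] at h2
  rw [nh_iff hF hD hD' hS]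
  -- chains of `S1` have no boundary in `S2`
  have hz21 : ∀ w ∈ sup S1, rs S2 (D w) = 0 := by
    intro w hw
    apply l2_ext
    intro p
    rw [em_zero]
    by_cases hp : p ∈ S2
    · rw [rs_of_mem _ hp]
      exact em_D_zero hD hw (h12 p hp)
    · exact rs_of_notMem _ hp
  intro x hx hx0
  have hlift := dense_lift hF.fo (emZ I D (S1 ∪ S2) k) (sup (lev I S2 (k + 1))) em_Z_closed
    (isClosed_sup _) (em_Z_inv hF hDe i12 k) (em_inv_sup (em_inv_lev hF i2 _))
    (f := rs S2) (T := (rs S2).comp D) (em_eqv_rs i2) (em_eqv_comp (em_eqv_rs i2) hDe) ?_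
    x (em_mem_Z.2 ⟨hx, hx0⟩)
  · rw [← em_mem_B]
    refine closure_minimal ?_ (em_B_closed (I := I) (D := D) (S := S1 ∪ S2) (k := k)) hlift
    rintro u ⟨hu, w, hw, huw⟩
    obtain ⟨hu1, hu2⟩ := em_mem_Z.1 hu
    have huw' : rs S2 u = rs S2 (D w) := huw
    have hwS : w ∈ sup (lev I (S1 ∪ S2) (k + 1)) := em_mono (em_lev_mono s2 _) hw
    have hb : rs (S1 ∪ S2) (D w) ∈ sup (lev I (S1 ∪ S2) k) := em_D_lev hD hF hw
    have hx' : u - rs (S1 ∪ S2) (D w) ∈ sup (lev I S1 k) := by
      have h3 : u - rs (S1 ∪ S2) (D w) ∈ sup (lev I (S1 ∪ S2) k) := sub_mem hu1 hb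
      have h4 : rs S2 (u - rs (S1 ∪ S2) (D w)) = 0 := by
        rw [map_sub, em_rs_rs s2, huw', sub_self]
      have h5 : u - rs (S1 ∪ S2) (D w) = rs S1 (u - rs (S1 ∪ S2) (D w)) := by
        have h6 := em_rs_union hd (u - rs (S1 ∪ S2) (D w))
        rw [rs_eq (em_mono (em_lev_sub _ _) h3), h4, add_zero] at h6
        exact h6
      rw [h5]
      exact em_rs_lev h3
    have hx0' : rs S1 (D (u - rs (S1 ∪ S2) (D w))) = 0 := by
      rw [← em_rs_rs s1, map_sub, map_sub, hu2,
        em_dd hD hF hS (em_mono (em_lev_sub _ _) hwS), sub_zero, map_zero]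
    have h7 := h1 _ hx' hx0'
    rw [← em_mem_B] at h7
    have h8 : u - rs (S1 ∪ S2) (D w) ∈ emB I D (S1 ∪ S2) k := by
      refine em_B_le em_B_closed (fun w1 hw1 => ?_) h7
      have h9 : rs S1 (D w1) = rs (S1 ∪ S2) (D w1) := by
        rw [em_rs_union hd, hz21 w1 (em_mono (em_lev_sub _ _) hw1), add_zero]
      rw [h9]
      exact em_B_mk (em_mono (em_lev_mono s1 _) hw1)
    have h10 := add_mem h8 (em_B_mk (D := D) hwS)
    rw [sub_add_cancel] at h10
    exact h10
  · intro u hu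
    obtain ⟨hu1, hu2⟩ := em_mem_Z.1 hu
    refine h2 (rs S2 u) (em_rs_lev hu1) ?_
    have h3 : u = rs S1 u + rs S2 u := by
      rw [← em_rs_union hd, rs_eq (em_mono (em_lev_sub _ _) hu1)]
    have h4 : rs S2 (D u) = rs S2 (D (rs S2 u)) := by
      conv_lhs => rw [h3]
      rw [map_add, map_add, hz21 _ (rs_mem _ _), zero_add]
    rw [← h4, ← em_rs_rs s2, hu2, map_zero]

/-- (R) -/
theorem nh_sub (hF : FC H I) {S1 S2 : Set C} (hd : Disjoint S1 S2) (hS : Cvx I (S1 ∪ S2))
    (h12 : ∀ p ∈ S2, ∀ q ∈ S1, I.inc p q = 0) (i1 : ∀ (h : H), ∀ c ∈ S1, h • c ∈ S1)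
    (i2 : ∀ (h : H), ∀ c ∈ S2, h • c ∈ S2) {k : ℕ} (h1 : NH I (S1 ∪ S2) k)
    (h2 : NH I S2 (k + 1)) : NH I S1 k := by
  obtain ⟨D, hD, hD', hDe⟩ := hF.exists_D
  have c1 := em_cvx1 hS h12
  have c2 := em_cvx2 hS h12
  have i12 : ∀ (h : H), ∀ c ∈ S1 ∪ S2, h • c ∈ S1 ∪ S2 := fun h c hc => hc.imp (i1 h c) (i2 h c)
  have s1 : S1 ⊆ S1 ∪ S2 := Set.subset_union_left
  have s2 : S2 ⊆ S1 ∪ S2 := Set.subset_union_right
  rw [nh_iff hF hD hD' hS] at h1
  rw [nh_iff hF hD hD' c2] at h2
  rw [nh_iff hF hD hD' c1]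
  have hz21 : ∀ w ∈ sup S1, rs S2 (D w) = 0 := by
    intro w hw
    apply l2_ext
    intro p
    rw [em_zero]
    by_cases hp : p ∈ S2
    · rw [rs_of_mem _ hp]
      exact em_D_zero hD hw (h12 p hp)
    · exact rs_of_notMem _ hp
  intro x hx hx0
  have hlift := dense_lift hF.fo (emZ I D S1 k) (sup (lev I (S1 ∪ S2) (k + 1))) em_Z_closed
    (isClosed_sup _) (em_Z_inv hF hDe i1 k) (em_inv_sup (em_inv_lev hF i12 _))
    (f := ContinuousLinearMap.id ℝ (L2 C)) (T := (rs (S1 ∪ S2)).comp D) (fun h z => rfl)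
    (em_eqv_comp (em_eqv_rs i12) hDe) ?_ x (em_mem_Z.2 ⟨hx, hx0⟩)
  · rw [← em_mem_B]
    refine closure_minimal ?_ (em_B_closed (I := I) (D := D) (S := S1) (k := k)) hlift
    rintro u ⟨hu, w, hw, huw⟩
    obtain ⟨hu1, hu2⟩ := em_mem_Z.1 hu
    have huw' : u = rs (S1 ∪ S2) (D w) := huw
    have hw' : w = rs S1 w + rs S2 w := by
      rw [← em_rs_union hd, rs_eq (em_mono (em_lev_sub _ _) hw)]
    have hz : rs S2 (D (rs S2 w)) = 0 := by
      have h3 : rs S2 (D w) = rs S2 (D (rs S2 w)) := by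
        conv_lhs => rw [hw']
        rw [map_add, map_add, hz21 _ (rs_mem _ _), zero_add]
      rw [← h3, ← em_rs_rs s2, ← huw']
      exact em_rs_zero hd (em_mono (em_lev_sub _ _) hu1)
    have hzB := h2 (rs S2 w) (em_rs_lev hw) hz
    rw [← em_mem_B] at hzB
    have h4 : rs S1 (D (rs S2 w)) ∈ emB I D S1 k := by
      refine em_B_le (V := {v | rs S1 (D v) ∈ emB I D S1 k}) ?_ (fun v hv => ?_) hzB
      · exact em_B_closed.preimage ((rs S1).continuous.comp D.continuous)
      · change rs S1 (D (rs S2 (D v))) ∈ emB I D S1 k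
        have h5 := em_dd hD hF hS (em_mono s2 (em_mono (em_lev_sub _ _) hv))
        have h6 : rs S1 (D (rs S1 (D v))) + rs S1 (D (rs S2 (D v))) = 0 := by
          rw [← map_add, ← map_add, ← em_rs_union hd, ← em_rs_rs s1, h5, map_zero]
        have h7 : rs S1 (D (rs S2 (D v))) = - rs S1 (D (rs S1 (D v))) :=
          eq_neg_of_add_eq_zero_right h6
        rw [h7]
        exact neg_mem (em_B_mk (em_D_lev hD hF hv))
    have h8 : u = rs S1 (D (rs S1 w)) + rs S1 (D (rs S2 w)) := by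
      rw [← map_add, ← map_add, ← hw', ← em_rs_rs s1, ← huw']
      exact (rs_eq (em_mono (em_lev_sub _ _) hu1)).symm
    rw [h8]
    exact add_mem (em_B_mk (em_rs_lev hw)) h4
  · intro u hu
    obtain ⟨hu1, hu2⟩ := em_mem_Z.1 hu
    refine h1 u (em_mono (em_lev_mono s1 _) hu1) ?_
    rw [em_rs_union hd, hu2, hz21 u (em_mono (em_lev_sub _ _) hu1), zero_add]

/-- (L) -/
theorem nh_quo (hF : FC H I) {S1 S2 : Set C} (hd : Disjoint S1 S2) (hS : Cvx I (S1 ∪ S2))
    (h12 : ∀ p ∈ S2, ∀ q ∈ S1, I.inc p q = 0) (i1 : ∀ (h : H), ∀ c ∈ S1, h • c ∈ S1)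
    (i2 : ∀ (h : H), ∀ c ∈ S2, h • c ∈ S2) {k : ℕ} (h1 : NH I (S1 ∪ S2) (k + 1))
    (h2 : NH I S1 k) : NH I S2 (k + 1) := by
  obtain ⟨D, hD, hD', hDe⟩ := hF.exists_D
  have c1 := em_cvx1 hS h12
  have c2 := em_cvx2 hS h12
  have s1 : S1 ⊆ S1 ∪ S2 := Set.subset_union_left
  have s2 : S2 ⊆ S1 ∪ S2 := Set.subset_union_right
  rw [nh_iff hF hD hD' hS] at h1
  rw [nh_iff hF hD hD' c1] at h2
  rw [nh_iff hF hD hD' c2]
  have hz21 : ∀ w ∈ sup S1, rs S2 (D w) = 0 := by
    intro w hw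
    apply l2_ext
    intro p
    rw [em_zero]
    by_cases hp : p ∈ S2
    · rw [rs_of_mem _ hp]
      exact em_D_zero hD hw (h12 p hp)
    · exact rs_of_notMem _ hp
  intro x hx hx0
  have hlift := dense_lift hF.fo (emZ I D S2 (k + 1)) (sup (lev I S1 (k + 1))) em_Z_closed
    (isClosed_sup _) (em_Z_inv hF hDe i2 (k + 1)) (em_inv_sup (em_inv_lev hF i1 _))
    (f := (rs S1).comp D) (T := (rs S1).comp D) (em_eqv_comp (em_eqv_rs i1) hDe)
    (em_eqv_comp (em_eqv_rs i1) hDe) ?_ x (em_mem_Z.2 ⟨hx, hx0⟩)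
  · rw [← em_mem_B]
    refine closure_minimal ?_ (em_B_closed (I := I) (D := D) (S := S2) (k := k + 1)) hlift
    rintro u ⟨hu, y, hy, huy⟩
    obtain ⟨hu1, hu2⟩ := em_mem_Z.1 hu
    have huy' : rs S1 (D u) = rs S1 (D y) := huy
    have h3 := h1 (u - y) (sub_mem (em_mono (em_lev_mono s2 _) hu1)
      (em_mono (em_lev_mono s1 _) hy)) (by
        rw [em_rs_union hd, map_sub, map_sub, map_sub, huy', sub_self, hu2,
          hz21 y (em_mono (em_lev_sub _ _) hy), sub_self, zero_add])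
    rw [← em_mem_B] at h3
    have h4 : rs S2 (u - y) = u := by
      rw [map_sub, rs_eq (em_mono (em_lev_sub _ _) hu1),
        em_rs_zero hd (em_mono (em_lev_sub _ _) hy), sub_zero]
    rw [SetLike.mem_coe, ← h4]
    refine em_B_le (V := {v | rs S2 v ∈ emB I D S2 (k + 1)}) ?_ (fun v hv => ?_) h3
    · exact em_B_closed.preimage (rs S2).continuous
    · change rs S2 (rs (S1 ∪ S2) (D v)) ∈ emB I D S2 (k + 1)
      have h5 : v = rs S1 v + rs S2 v := by
        rw [← em_rs_union hd, rs_eq (em_mono (em_lev_sub _ _) hv)]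
      have h6 : rs S2 (D v) = rs S2 (D (rs S2 v)) := by
        conv_lhs => rw [h5]
        rw [map_add, map_add, hz21 _ (rs_mem _ _), zero_add]
      rw [em_rs_rs s2, h6]
      exact em_B_mk (em_rs_lev hv)
  · intro u hu
    obtain ⟨hu1, hu2⟩ := em_mem_Z.1 hu
    refine h2 (rs S1 (D u)) (em_D_lev hD hF hu1) ?_
    have h3 : rs (S1 ∪ S2) (D u) = rs S1 (D u) := by
      rw [em_rs_union hd, hu2, add_zero]
    have h4 := em_dd hD hF hS (em_mono s2 (em_mono (em_lev_sub _ _) hu1))
    rw [h3] at h4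
    rw [← em_rs_rs s1, h4, map_zero]

end SingerCub
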