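import Mathlib
import Pool.Agent.Lib_MP_394d50_cub.EMrl

/-!
# Piece EFIL: filtrations, blocks, transport

`nh_filtration`. Induction on `N` with `nh_mid`: for `N + 1` take `S1 = {c ∈ S | f c < N}`,
`S2 = {c ∈ S | f c = N}`. `inc p q = 0` for `p ∈ S2`, `q ∈ S1` because `inc p q ≠ 0` gives `f p ≤ f q`.
`S1` is convex (`Cvx`): for `p, r ∈ S1` and `q` between, `q ∈ S` and `f q ≤ f r < N`; it is invariant.
Apply the induction hypothesis to `S1` (with the same `f`), and `nh_mid`. For `N = 0` the set `S` is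
empty, and `NH I ∅ k` is trivial.

`nh_block`. Let `z` be harmonic on `S` in degree `k`, and `β` in the image of `b`. The restriction
`z' = rs {c | b c = β} z` is harmonic on `{c ∈ S | b c = β}`: for `p ∈ S` with `b p = β`,
`∑ᶠ q, inc p q * z' q = ∑ᶠ q, inc p q * z q` since `z q ≠ 0`, `inc p q ≠ 0` give `q ∈ S`, `b q = b p = β`.
So `z' = 0` for all `β`, that is `z = 0`.

`nh_map`: the chains `z'` on `φ '' S` and `z` on `S` correspond by `z p = s p * z' (φ p)` for `p ∈ S`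
(`0` outside `S`; square summable because `φ` is injective on `S`; for (→) start with `z'`, for (←)
with `z`, and put `z' (φ p) = s p * z p`). For `p ∈ S`: `∑ᶠ q, inc p q * z q =
∑ᶠ q, inc p q * s q * z' (φ q) = e * s p * ∑ᶠ q', inc' (φ p) q' * z' q'` (the support of `z'` is in
`φ '' S`, `e * e = 1`, `s p * s p = 1`). The finsum over `q'` reduces to the finsum over `S` by
injectivity: `finsum_mem_image`-like lemmas, or compare supports. Degrees: `dim p = k + a` iff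
`dim (φ p) = k + b`.

`nh_rev`: the same for the opposite incidence numbers; the two conditions are exchanged.
-/

namespace SingerCub

open SingerVS

theorem nh_empty {C : Type} (I : CellCx C) (k : ℕ) : NH I ∅ k := by
  intro z hz _ _
  apply l2_ext
  intro c
  by_contra h
  exact (hz c h).1

private theorem efil_mem {C C' : Type} {S : Set C} [DecidablePred (· ∈ S)] (φ : C → C')
    (hφ : Set.InjOn φ S) (s : C → ℤ) (hs : ∀ c, s c = 1 ∨ s c = -1) (z : L2 C') :
    Memℓp (fun c : C => if c ∈ S then (s c : ℝ) * z (φ c) else (0 : ℝ)) 2 := by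
  have h1 : Summable fun c : C' => ‖z c‖ ^ (2 : ENNReal).toReal :=
    (lp.memℓp z).summable (by norm_num)
  refine memℓp_gen ?_
  have h2 : Summable ((fun c : C' => ‖z c‖ ^ (2 : ENNReal).toReal) ∘ fun c : S => φ c) :=
    h1.comp_injective hφ.injective
  have h3 : Summable ((fun c : C => ‖z (φ c)‖ ^ (2 : ENNReal).toReal) ∘ (Subtype.val : S → C)) := h2
  rw [summable_subtype_iff_indicator] at h3
  refine h3.congr fun c => ?_
  by_cases hc : c ∈ S
  · rw [Set.indicator_of_mem hc, if_pos hc, norm_mul]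
    have h4 : ‖(s c : ℝ)‖ = 1 := by
      rcases hs c with h | h <;> rw [h] <;> simp
    rw [h4, one_mul]
  · rw [Set.indicator_of_notMem hc, if_neg hc, norm_zero]
    norm_num

private theorem efil_sum {C C' : Type} {S : Set C} (φ : C → C') (hφ : Set.InjOn φ S) (s : C → ℤ)
    (z : C → ℝ) (z' : C' → ℝ) (hz : ∀ c ∈ S, z c = (s c : ℝ) * z' (φ c)) (hz0 : ∀ c, c ∉ S → z c = 0)
    (hz' : ∀ c, z' c ≠ 0 → c ∈ φ '' S) (a : C → ℤ) (a' : C' → ℤ) (r : ℤ)
    (ha : ∀ q ∈ S, a q * s q = r * a' (φ q)) :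
    ∑ᶠ q, (a q : ℝ) * z q = (r : ℝ) * ∑ᶠ q, (a' q : ℝ) * z' q := by
  have h1 : ∑ᶠ q, (a q : ℝ) * z q = ∑ᶠ q ∈ S, (a q : ℝ) * z q := by
    rw [finsum_mem_def]
    refine finsum_congr fun q => ?_
    by_cases hq : q ∈ S
    · rw [Set.indicator_of_mem hq]
    · rw [Set.indicator_of_notMem hq, hz0 q hq, mul_zero]
  have h2 : ∑ᶠ q ∈ S, (a q : ℝ) * z q = ∑ᶠ q ∈ S, (r : ℝ) * ((a' (φ q) : ℝ) * z' (φ q)) := by
    refine finsum_mem_congr rfl fun q hq => ?_
    rw [hz q hq]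
    have h3 : (a q : ℝ) * s q = r * a' (φ q) := by exact_mod_cast ha q hq
    linear_combination z' (φ q) * h3
  have h3 : ∑ᶠ q ∈ S, (r : ℝ) * ((a' (φ q) : ℝ) * z' (φ q)) =
      ∑ᶠ q ∈ φ '' S, (r : ℝ) * ((a' q : ℝ) * z' q) :=
    (finsum_mem_image (f := fun q => (r : ℝ) * ((a' q : ℝ) * z' q)) hφ).symm
  have h4 : ∑ᶠ q ∈ φ '' S, (r : ℝ) * ((a' q : ℝ) * z' q) = ∑ᶠ q, (r : ℝ) * ((a' q : ℝ) * z' q) := by
    rw [finsum_mem_def]
    refine finsum_congr fun q => ?_
    by_cases hq : q ∈ φ '' S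
    · rw [Set.indicator_of_mem hq]
    · have hn : z' q = 0 := by
        by_contra hne
        exact hq (hz' q hne)
      rw [Set.indicator_of_notMem hq, hn, mul_zero, mul_zero]
  rw [h1, h2, h3, h4, mul_finsum]

private theorem efil_aux {C C' : Type} {S : Set C} (φ : C → C') (hφ : Set.InjOn φ S) (s : C → ℤ)
    (hs : ∀ c, s c = 1 ∨ s c = -1) (e : ℤ) (he : e = 1 ∨ e = -1) (a : C → C → ℤ) (a' : C' → C' → ℤ)
    (ha : ∀ p ∈ S, ∀ q ∈ S, a' (φ p) (φ q) = e * (s p * s q * a p q)) (D : C → Prop)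
    (D' : C' → Prop) (hD : ∀ p ∈ S, D' (φ p) → D p)
    (h : ∀ z : L2 C, (∀ c, z c ≠ 0 → c ∈ S ∧ D c) → (∀ p ∈ S, ∑ᶠ q, (a p q : ℝ) * z q = 0) →
      (∀ q ∈ S, ∑ᶠ p, (a p q : ℝ) * z p = 0) → z = 0) (z' : L2 C')
    (h1 : ∀ c, z' c ≠ 0 → c ∈ φ '' S ∧ D' c) (h2 : ∀ p ∈ φ '' S, ∑ᶠ q, (a' p q : ℝ) * z' q = 0)
    (h3 : ∀ q ∈ φ '' S, ∑ᶠ p, (a' p q : ℝ) * z' p = 0) : z' = 0 := by
  classical
  obtain ⟨z, hz⟩ : ∃ z : L2 C, ∀ c, z c = if c ∈ S then (s c : ℝ) * z' (φ c) else (0 : ℝ) :=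
    ⟨⟨_, efil_mem φ hφ s hs z'⟩, fun c => rfl⟩
  have hzS : ∀ c ∈ S, z c = (s c : ℝ) * z' (φ c) := fun c hc => by rw [hz, if_pos hc]
  have hz0 : ∀ c, c ∉ S → z c = 0 := fun c hc => by rw [hz, if_neg hc]
  have hss : ∀ c, s c * s c = 1 := fun c => by rcases hs c with h | h <;> rw [h] <;> norm_num
  have hee : e * e = 1 := by rcases he with h | h <;> rw [h] <;> norm_num
  have hsne : ∀ c, (s c : ℝ) ≠ 0 := fun c => by rcases hs c with h | h <;> rw [h] <;> norm_num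
  have hzz : z = 0 := by
    refine h z ?_ ?_ ?_
    · intro c hc
      by_cases hcS : c ∈ S
      · refine ⟨hcS, hD c hcS (h1 _ ?_).2⟩
        rw [hzS c hcS] at hc
        exact right_ne_zero_of_mul hc
      · exact absurd (hz0 c hcS) hc
    · intro p hp
      rw [efil_sum φ hφ s z z' hzS hz0 (fun c hc => (h1 c hc).1) (fun q => a p q)
        (fun q => a' (φ p) q) (e * s p) ?_, h2 _ ⟨p, hp, rfl⟩, mul_zero]
      intro q hq
      rw [ha p hp q hq]
      linear_combination (-(a p q * s q)) * hss p - (s p * s p * s q * a p q) * hee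
    · intro p hp
      rw [efil_sum φ hφ s z z' hzS hz0 (fun c hc => (h1 c hc).1) (fun q => a q p)
        (fun q => a' q (φ p)) (e * s p) ?_, h3 _ ⟨p, hp, rfl⟩, mul_zero]
      intro q hq
      rw [ha q hq p hp]
      linear_combination (-(a q p * s q)) * hss p - (s p * s p * s q * a q p) * hee
  apply l2_ext
  intro c
  show z' c = 0
  by_contra hc
  obtain ⟨⟨p, hp, rfl⟩, _⟩ := h1 c hc
  have h4 := hzS p hp
  rw [hzz] at h4
  have h5 : (s p : ℝ) * z' (φ p) = 0 := h4.symm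
  rcases mul_eq_zero.1 h5 with h6 | h6
  · exact hsne p h6
  · exact hc h6

private theorem efil_back {C C' : Type} {S : Set C} (φ : C → C') (hφ : Set.InjOn φ S) (s : C → ℤ)
    (hs : ∀ c, s c = 1 ∨ s c = -1) (e : ℤ) (he : e = 1 ∨ e = -1) (a : C → C → ℤ) (a' : C' → C' → ℤ)
    (ha : ∀ p ∈ S, ∀ q ∈ S, a' (φ p) (φ q) = e * (s p * s q * a p q)) (D : C → Prop)
    (D' : C' → Prop) (hD : ∀ p ∈ S, D p → D' (φ p))
    (h : ∀ z : L2 C', (∀ c, z c ≠ 0 → c ∈ φ '' S ∧ D' c) →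
      (∀ p ∈ φ '' S, ∑ᶠ q, (a' p q : ℝ) * z q = 0) →
      (∀ q ∈ φ '' S, ∑ᶠ p, (a' p q : ℝ) * z p = 0) → z = 0) (z : L2 C)
    (h1 : ∀ c, z c ≠ 0 → c ∈ S ∧ D c) (h2 : ∀ p ∈ S, ∑ᶠ q, (a p q : ℝ) * z q = 0)
    (h3 : ∀ q ∈ S, ∑ᶠ p, (a p q : ℝ) * z p = 0) : z = 0 := by
  classical
  rcases isEmpty_or_nonempty C with hE | hN
  · apply l2_ext
    intro c
    exact hE.elim c
  have hψ : ∀ c ∈ S, Function.invFunOn φ S (φ c) = c := fun c hc =>
    hφ.leftInvOn_invFunOn hc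
  have himg : Function.invFunOn φ S '' (φ '' S) = S := by
    ext c
    constructor
    · rintro ⟨_, ⟨p, hp, rfl⟩, rfl⟩
      rw [hψ p hp]
      exact hp
    · intro hc
      exact ⟨φ c, ⟨c, hc, rfl⟩, hψ c hc⟩
  have hss : ∀ c, s c * s c = 1 := fun c => by rcases hs c with h | h <;> rw [h] <;> norm_num
  have hee : e * e = 1 := by rcases he with h | h <;> rw [h] <;> norm_num
  refine efil_aux (S := φ '' S) (Function.invFunOn φ S) ?_ (fun c => s (Function.invFunOn φ S c))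
    (fun c => hs _) e he a' a ?_ D' D ?_ h z ?_ ?_ ?_
  · rintro _ ⟨p, hp, rfl⟩ _ ⟨q, hq, rfl⟩ hpq
    rw [hψ p hp, hψ q hq] at hpq
    rw [hpq]
  · rintro _ ⟨p, hp, rfl⟩ _ ⟨q, hq, rfl⟩
    rw [hψ p hp, hψ q hq, ha p hp q hq]
    linear_combination (-(a p q)) * hee - (e * e * a p q) * hss p -
      (e * e * s p * s p * a p q) * hss q
  · rintro _ ⟨p, hp, rfl⟩ hq
    rw [hψ p hp] at hq
    exact hD p hp hq
  · rw [himg]
    exact h1
  · rw [himg]
    exact h2
  · rw [himg]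
    exact h3

theorem nh_filtration {H C : Type} [Group H] [MulAction H C] {I : CellCx C} (hF : FC H I)
    {S : Set C} (hS : Cvx I S) (iS : ∀ (h : H), ∀ c ∈ S, h • c ∈ S) (f : C → ℕ)
    (hf : ∀ p ∈ S, ∀ q ∈ S, I.inc p q ≠ 0 → f p ≤ f q) (hfi : ∀ (h : H) c, f (h • c) = f c)
    (N : ℕ) (hN : ∀ c ∈ S, f c < N) (k : ℕ) (h : ∀ j < N, NH I {c | c ∈ S ∧ f c = j} k) :
    NH I S k := by
  induction N generalizing S with
  | zero =>
    have e : S = ∅ := by
      ext c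
      simp only [Set.mem_empty_iff_false, iff_false]
      intro hc
      exact absurd (hN c hc) (Nat.not_lt_zero _)
    rw [e]
    exact nh_empty I k
  | succ N ih =>
    have e : S = {c | c ∈ S ∧ f c < N} ∪ {c | c ∈ S ∧ f c = N} := by
      ext c
      constructor
      · intro hc
        rcases Nat.lt_succ_iff_lt_or_eq.1 (hN c hc) with h | h
        · exact Or.inl ⟨hc, h⟩
        · exact Or.inr ⟨hc, h⟩
      · rintro (h | h)
        · exact h.1
        · exact h.1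
    rw [e]
    refine nh_mid hF (S1 := {c | c ∈ S ∧ f c < N}) (S2 := {c | c ∈ S ∧ f c = N}) ?_ ?_ ?_ ?_ ?_ ?_ ?_
    · rw [Set.disjoint_left]
      rintro c ⟨_, h1⟩ ⟨_, h2⟩
      omega
    · rw [← e]
      exact hS
    · intro p hp q hq
      by_contra h0
      have h1 := hf p hp.1 q hq.1 h0
      rw [hp.2] at h1
      exact absurd hq.2 (not_lt.2 h1)
    · intro g c hc
      refine ⟨iS g c hc.1, ?_⟩
      rw [hfi]
      exact hc.2
    · intro g c hc
      refine ⟨iS g c hc.1, ?_⟩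
      rw [hfi]
      exact hc.2
    · refine ih (S := {c | c ∈ S ∧ f c < N}) ?_ ?_ ?_ ?_ ?_
      · intro p q r hp hr hpq hqr
        have hq := hS p q r hp.1 hr.1 hpq hqr
        exact ⟨hq, lt_of_le_of_lt (hf q hq r hr.1 hqr) hr.2⟩
      · intro g c hc
        refine ⟨iS g c hc.1, ?_⟩
        rw [hfi]
        exact hc.2
      · intro p hp q hq
        exact hf p hp.1 q hq.1
      · intro c hc
        exact hc.2
      · intro j hj
        have e2 : {c | c ∈ {c | c ∈ S ∧ f c < N} ∧ f c = j} = {c | c ∈ S ∧ f c = j} := by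
          ext c
          constructor
          · rintro ⟨⟨h1, _⟩, h2⟩
            exact ⟨h1, h2⟩
          · rintro ⟨h1, h2⟩
            exact ⟨⟨h1, h2 ▸ hj⟩, h2⟩
        rw [e2]
        exact h j (Nat.lt_succ_of_lt hj)
    · exact h N (Nat.lt_succ_self N)

theorem nh_block {C B : Type} {I : CellCx C} {S : Set C} (b : C → B)
    (hb : ∀ p ∈ S, ∀ q ∈ S, I.inc p q ≠ 0 → b p = b q) (k : ℕ)
    (h : ∀ β, NH I {c | c ∈ S ∧ b c = β} k) : NH I S k := by
  classical
  intro z h1 h2 h3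
  have key : ∀ β, rs {c | c ∈ S ∧ b c = β} z = 0 := by
    intro β
    have hrs : ∀ c, (rs {c | c ∈ S ∧ b c = β} z) c ≠ 0 →
        c ∈ {c | c ∈ S ∧ b c = β} ∧ (rs {c | c ∈ S ∧ b c = β} z) c = z c := by
      intro c hc
      by_cases hm : c ∈ {c | c ∈ S ∧ b c = β}
      · exact ⟨hm, rs_of_mem z hm⟩
      · exact absurd (rs_of_notMem z hm) hc
    have heq : ∀ c, (z c ≠ 0 → b c = β) → (rs {c | c ∈ S ∧ b c = β} z) c = z c := by
      intro c hc
      by_cases hz : z c = 0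
      · by_cases hm : c ∈ {c | c ∈ S ∧ b c = β}
        · exact rs_of_mem z hm
        · rw [rs_of_notMem z hm, hz]
      · exact rs_of_mem z ⟨(h1 c hz).1, hc hz⟩
    refine h β _ ?_ ?_ ?_
    · intro c hc
      obtain ⟨h4, h5⟩ := hrs c hc
      rw [h5] at hc
      exact ⟨h4, (h1 c hc).2⟩
    · intro p hp
      rw [← h2 p hp.1]
      refine finsum_congr fun q => ?_
      by_cases h0 : I.inc p q = 0
      · rw [h0]
        simp
      · rw [heq q]
        intro hz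
        rw [← hb p hp.1 q (h1 q hz).1 h0]
        exact hp.2
    · intro p hp
      rw [← h3 p hp.1]
      refine finsum_congr fun q => ?_
      by_cases h0 : I.inc q p = 0
      · rw [h0]
        simp
      · rw [heq q]
        intro hz
        rw [hb q (h1 q hz).1 p hp.1 h0]
        exact hp.2
  apply l2_ext
  intro c
  show z c = 0
  by_contra hc
  have h4 := rs_of_mem (A := {c' | c' ∈ S ∧ b c' = b c}) z (c := c) ⟨(h1 c hc).1, rfl⟩
  rw [key] at h4
  exact hc h4.symm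

/-- Transport along a map which is injective on `S`. -/
theorem nh_map {C C' : Type} {I : CellCx C} {I' : CellCx C'} {S : Set C} (φ : C → C')
    (hφ : Set.InjOn φ S) (s : C → ℤ) (hs : ∀ c, s c = 1 ∨ s c = -1) (e : ℤ)
    (he : e = 1 ∨ e = -1) (hinc : ∀ p ∈ S, ∀ q ∈ S, I'.inc (φ p) (φ q) = e * (s p * s q * I.inc p q))
    (a b : ℕ) (hdim : ∀ p ∈ S, I'.dim (φ p) + a = I.dim p + b) (k : ℕ) :
    NH I S (k + a) ↔ NH I' (φ '' S) (k + b) := by
  constructor
  · intro h z' h1 h2 h3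
    refine efil_aux φ hφ s hs e he I.inc I'.inc hinc (fun c => I.dim c = k + a)
      (fun c => I'.dim c = k + b) ?_ h z' h1 h2 h3
    intro p hp hq
    have := hdim p hp
    omega
  · intro h z h1 h2 h3
    refine efil_back φ hφ s hs e he I.inc I'.inc hinc (fun c => I.dim c = k + a)
      (fun c => I'.dim c = k + b) ?_ h z h1 h2 h3
    intro p hp hq
    have := hdim p hp
    omega

/-- The dual version. -/
theorem nh_rev {C C' : Type} {I : CellCx C} {I' : CellCx C'} {S : Set C} (φ : C → C')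
    (hφ : Set.InjOn φ S) (s : C → ℤ) (hs : ∀ c, s c = 1 ∨ s c = -1) (e : ℤ)
    (he : e = 1 ∨ e = -1) (hinc : ∀ p ∈ S, ∀ q ∈ S, I'.inc (φ p) (φ q) = e * (s p * s q * I.inc q p))
    (N : ℕ) (hdim : ∀ p ∈ S, I'.dim (φ p) + I.dim p = N) (k : ℕ) (hk : k ≤ N) :
    NH I S k ↔ NH I' (φ '' S) (N - k) := by
  have hinc' : ∀ p ∈ S, ∀ q ∈ S, I'.inc (φ q) (φ p) = e * (s p * s q * I.inc p q) := by
    intro p hp q hq
    rw [hinc q hq p hp]
    ring
  constructor
  · intro h z' h1 h2 h3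
    refine efil_aux φ hφ s hs e he I.inc (fun p q => I'.inc q p) hinc' (fun c => I.dim c = k)
      (fun c => I'.dim c = N - k) ?_ h z' h1 h3 h2
    intro p hp hq
    have := hdim p hp
    omega
  · intro h z h1 h2 h3
    refine efil_back φ hφ s hs e he I.inc (fun p q => I'.inc q p) hinc' (fun c => I.dim c = k)
      (fun c => I'.dim c = N - k) ?_ (fun z h1 h2 h3 => h z h1 h3 h2) z h1 h2 h3
    intro p hp hq
    have := hdim p hp
    omega

end SingerCub
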