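import Mathlib
import Pool.Agent.Lib_MP_394d50_cub.Defs
import Pool.Agent.Lib_MP_394d50_gt.BRank

/-!
# Piece ERANK: exactness modulo 2 gives exactness over the reals (finite sets of cells)

Proof. Let `M` be the integer matrix `inc p q`, `p q ∈ S` (index type `{c // c ∈ S}`, finite), `A` its
columns in `lev I S k`, `B` its rows in `lev I S k` (index types: `A : S × S_k`, `B : S_k × S`).
`A * B = 0`: the entry at `(p, r)` is `∑_{q ∈ S_k} inc p q * inc q r`, and `∑ᶠ q, inc p q * inc q r = 0`
(`hF.sq`), where the terms with `q ∉ S` vanish by `hS`, and those with `q ∈ S`, `dim q ≠ k`: if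
`inc p q * inc q r ≠ 0` for one `q` then `dim q = dim p + 1` for all such `q`; so either all `q` with
non-zero term have dimension `k` or none has; in both cases the sum over `S_k` is `0`.
`hex` says that over `ZMod 2` the kernel of `A` is the image of `B` (the `y` of `hex` is supported on
`lev I S (k+1)`; conversely `A * B = 0`): so `rank (A mod 2) + rank (B mod 2) = card S_k`. For an
integer matrix `rank (A mod 2) ≤ rank (A over ℝ)` (this is `rank_mod_le` in Lib_MP_394d50_gt.BRank; reason: a set of columns which is independent mod 2 is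
independent over `ℚ`).
So over `ℝ`
`rank A + rank B ≥ card S_k` and with `A * B = 0` the kernel of `A` is the range of `B`.
Let `z` be harmonic in degree `k`. `A z = 0` so `z = B y`, that is `z q = ∑_{r ∈ S} inc q r * y r` for
`q ∈ S_k`, and `∑ z q ^ 2 = ∑_q z q ∑_r inc q r * y r = ∑_r y r ∑_q inc q r * z q = 0` by the second
condition (`∑ᶠ p, inc p r * z p = 0` for `r ∈ S`).
-/

namespace SingerCub

open SingerVS

private theorem erk_sum {C R : Type} [AddCommMonoid R] (f : C → R) (T : Set C) [Fintype ↥T]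
    (h : ∀ c, f c ≠ 0 → c ∈ T) : ∑ᶠ c, f c = ∑ c : ↥T, f c := by
  classical
  rw [finsum_eq_sum_of_support_subset f (s := T.toFinset)]
  · exact (Finset.sum_set_coe T).symm
  · intro c hc
    rw [Set.coe_toFinset]
    exact h c hc

theorem nh_of_mod2 {H C : Type} [Group H] [MulAction H C] {I : CellCx C} (hF : FC H I)
    {S : Set C} (hS : Cvx I S) (hfin : S.Finite) (k : ℕ)
    (hex : ∀ x : C → ZMod 2, (∀ c, x c ≠ 0 → c ∈ S ∧ I.dim c = k) →
      (∀ p ∈ S, ∑ᶠ q, ((I.inc p q : ℤ) : ZMod 2) * x q = 0) →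
      ∃ y : C → ZMod 2, (∀ c, y c ≠ 0 → c ∈ S ∧ I.dim c = k + 1) ∧
        ∀ p ∈ S, ∑ᶠ q, ((I.inc p q : ℤ) : ZMod 2) * y q = x p) :
    NH I S k := by
  classical
  let _ : Fintype ↥S := hfin.fintype
  have hlev : (lev I S k).Finite := hfin.subset fun c hc => hc.1
  let _ : Fintype ↥(lev I S k) := hlev.fintype
  let E : Matrix ↥S ↥(lev I S k) ℤ := fun p q => I.inc p.1 q.1
  let D : Matrix ↥(lev I S k) ↥S ℤ := fun q r => I.inc q.1 r.1
  have hED : E * D = 0 := by
    ext p r
    rw [Matrix.mul_apply, Matrix.zero_apply]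
    show ∑ q : ↥(lev I S k), I.inc p.1 q.1 * I.inc q.1 r.1 = 0
    by_cases hk : I.dim p.1 + 1 = k
    · rw [← erk_sum (fun q => I.inc p.1 q * I.inc q r.1) (lev I S k), hF.sq]
      intro q hq
      have h1 : I.inc p.1 q ≠ 0 := left_ne_zero_of_mul hq
      have h2 : I.inc q r.1 ≠ 0 := right_ne_zero_of_mul hq
      exact ⟨hS p.1 q r.1 p.2 r.2 h1 h2, (hF.inc_dim _ _ h1).trans hk⟩
    · refine Finset.sum_eq_zero fun q _ => ?_
      have h1 : I.inc p.1 q.1 = 0 := by
        by_contra h1
        exact hk ((hF.inc_dim _ _ h1).symm.trans q.2.2)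
      rw [h1, zero_mul]
  have hrank : Fintype.card ↥(lev I S k) ≤
      (E.map (Int.cast : ℤ → ZMod 2)).rank + (D.map (Int.cast : ℤ → ZMod 2)).rank := by
    have h1 := LinearMap.finrank_range_add_finrank_ker
      (E.map (Int.cast : ℤ → ZMod 2)).mulVecLin
    rw [Module.finrank_fintype_fun_eq_card] at h1
    have h2 : LinearMap.ker (E.map (Int.cast : ℤ → ZMod 2)).mulVecLin ≤
        LinearMap.range (D.map (Int.cast : ℤ → ZMod 2)).mulVecLin := by
      intro x hx
      rw [LinearMap.mem_ker, Matrix.mulVecLin_apply] at hx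
      obtain ⟨x', hx'⟩ : ∃ x' : C → ZMod 2, x' = fun c =>
        if h : c ∈ lev I S k then x ⟨c, h⟩ else 0 := ⟨_, rfl⟩
      have hx1 : ∀ c : ↥(lev I S k), x' c.1 = x c := by
        intro c
        rw [hx']
        simp only
        rw [dif_pos c.2]
      have hx2 : ∀ c, x' c ≠ 0 → c ∈ lev I S k := by
        intro c hc
        by_contra hn
        apply hc
        rw [hx']
        simp only
        rw [dif_neg hn]
      obtain ⟨y, hy1, hy2⟩ := hex x' hx2 (by
        intro p hp
        rw [erk_sum (fun q => ((I.inc p q : ℤ) : ZMod 2) * x' q) (lev I S k)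
          (fun q hq => hx2 q (right_ne_zero_of_mul hq))]
        have h3 := congrFun hx ⟨p, hp⟩
        rw [Matrix.mulVec, dotProduct] at h3
        refine Eq.trans (Finset.sum_congr rfl fun q _ => ?_) h3
        rw [hx1 q]
        rfl)
      refine ⟨fun r : ↥S => y r.1, ?_⟩
      rw [Matrix.mulVecLin_apply]
      funext q
      rw [← hx1 q, ← hy2 q.1 q.2.1, Matrix.mulVec, dotProduct,
        erk_sum (fun r => ((I.inc q.1 r : ℤ) : ZMod 2) * y r) S
          (fun r hr => (hy1 r (right_ne_zero_of_mul hr)).1)]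
      rfl
    have h3 := Submodule.finrank_mono h2
    have e5 : Module.finrank (ZMod 2)
        (LinearMap.range (E.map (Int.cast : ℤ → ZMod 2)).mulVecLin) =
        (E.map (Int.cast : ℤ → ZMod 2)).rank := rfl
    have e6 : Module.finrank (ZMod 2)
        (LinearMap.range (D.map (Int.cast : ℤ → ZMod 2)).mulVecLin) =
        (D.map (Int.cast : ℤ → ZMod 2)).rank := rfl
    omega
  have hnull := SingerRA.nullity_le E D hED
  have hker : LinearMap.ker
      ((E.transpose * E + D * D.transpose).map (Int.cast : ℤ → ℝ)).mulVecLin = ⊥ := by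
    rw [← Submodule.finrank_eq_zero (R := ℝ)]
    omega
  intro z hz h1 h2
  have hx : (fun q : ↥(lev I S k) => z q.1) ∈ LinearMap.ker
      ((E.transpose * E + D * D.transpose).map (Int.cast : ℤ → ℝ)).mulVecLin := by
    rw [LinearMap.mem_ker, Matrix.mulVecLin_apply]
    have hmap : (E.transpose * E + D * D.transpose).map (Int.cast : ℤ → ℝ) =
        (E.map (Int.cast : ℤ → ℝ)).transpose * (E.map (Int.cast : ℤ → ℝ)) +
          (D.map (Int.cast : ℤ → ℝ)) * (D.map (Int.cast : ℤ → ℝ)).transpose := by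
      ext i j
      simp [Matrix.mul_apply]
    have hE0 : (E.map (Int.cast : ℤ → ℝ)).mulVec (fun q : ↥(lev I S k) => z q.1) = 0 := by
      funext p
      rw [Matrix.mulVec, dotProduct, Pi.zero_apply, ← h1 p.1 p.2,
        erk_sum (fun q => (I.inc p.1 q : ℝ) * z q) (lev I S k)
          (fun q hq => hz q (right_ne_zero_of_mul hq))]
      rfl
    have hD0 : (D.map (Int.cast : ℤ → ℝ)).transpose.mulVec
        (fun q : ↥(lev I S k) => z q.1) = 0 := by
      funext r
      rw [Matrix.mulVec, dotProduct, Pi.zero_apply, ← h2 r.1 r.2,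
        erk_sum (fun p => (I.inc p r.1 : ℝ) * z p) (lev I S k)
          (fun q hq => hz q (right_ne_zero_of_mul hq))]
      rfl
    rw [hmap, Matrix.add_mulVec, ← Matrix.mulVec_mulVec, ← Matrix.mulVec_mulVec, hE0, hD0,
      Matrix.mulVec_zero, Matrix.mulVec_zero, add_zero]
  rw [hker, Submodule.mem_bot] at hx
  apply l2_ext
  intro c
  show z c = 0
  by_contra hc
  exact hc (congrFun hx ⟨c, hz c hc⟩)

end SingerCub
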