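import Mathlib
import Pool.Agent.Lib_MP_394d50_cub.CFc
import Pool.Agent.Lib_MP_394d50_cub.EFil
import Pool.Agent.Lib_MP_394d50_cub.ERank

/-!
# Piece CROW: the rows of the double complex

`row_exact`: the set `S` of the pairs `(t, c)` with `c` in at least one `Y i` has no harmonic chains in
degree `k < J`. Use `nh_filtration` with `f (t, c) = min (dim c) (k + 1)` (so `N = k + 2`; `inc p q ≠ 0`
gives `dim p.c ≤ dim q.c`). The stratum `f = d` with `d ≤ k` is `{dim c = d}`; use `nh_block` with
`b (t, c) = c` (within the stratum `inc p q ≠ 0` implies `p.c = q.c`, because the vertical incidence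
numbers raise `dim c` by one). The stratum `f = k + 1` has no cells of degree `k` (`degree = |t| + dim c ≥ k+1`),
so `NH` is trivial there. The block of `c`: all `(t, c)` with `t` a list of length `≤ J` with entries in
the finite non-empty set `{i | c ∈ Y i}` (finite set of cells; it is convex for `Cvx` because `p.c = r.c = c`
forces `q.c = c` by dimensions, or because the vertical incidence numbers raise the dimension of `c`);
`nh_of_mod2` with the contraction: pick `i₀` with `c ∈ Y i₀`. Given `x` of degree `k` in the block with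
`∂ x = 0`, that is supported on lists of length `j = k - dim c` (if `dim c ≤ k`), `j < J`, put
`y (i₀ :: t, c) = x (t, c)` for the lists `t` of length `j`, and `0` otherwise. Mod 2 the incidence number is
`linc t t' = #{i | t'.eraseIdx i = t}`. For a list `s` of length `j`:
`(∂ y) s = ∑_{t'} linc s t' * y t' = ∑_t linc s (i₀ :: t) * x t = x s + [s = i₀ :: s'] * ∑_t linc s' t * x t`
`= x s + [s = i₀ :: s'] (∂ x) s' = x s`. (`linc s (i₀ :: t) = [s = t] + [s = i₀ :: s'] linc s' t` mod 2.)

`rest_nh`: the pairs `([], c)`, `c` in no `Y i`: `nh_map` with the map `φ (t, c) = c` from `CC Y J` to `C`,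
`S = {x | ∀ i, x.c ∉ Y i}` (then `x.t = []`), `φ '' S = {c | ∀ i, c ∉ Y i}`, `s = 1`, `e = 1`, `a = b = 0`.

`col_nh`: `nh_map` with the same `φ (t, c) = c`, `S = {x | x.t = t}`, `φ '' S = {c | ∀ i ∈ t, c ∈ Y i}`
(`t.length ≤ J`), `e = (-1) ^ t.length`, `s = 1`, `a = t.length`, `b = 0`. (`linc t t = 0`.)
-/

namespace SingerCub

open SingerVS

variable {H C ι : Type} [Group H] [MulAction H C] [MulAction H ι] {I : CellCx C}

private theorem crow_linc_len {t t' : List ι} (h : linc t t' ≠ 0) : t'.length = t.length + 1 := by
  classical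
  unfold linc at h
  obtain ⟨i, hi, h1⟩ := Finset.exists_ne_zero_of_sum_ne_zero h
  rw [Finset.mem_range] at hi
  have h2 : t'.eraseIdx i = t := by
    by_contra hne
    exact h1 (if_neg hne)
  have h3 := List.length_eraseIdx_of_lt hi
  rw [h2] at h3
  omega

private theorem crow_linc_self (t : List ι) : linc t t = 0 := by
  by_contra h
  have := crow_linc_len h
  omega

open scoped Classical in
private theorem crow_linc_cons (s t : List ι) (i₀ : ι) :
    linc s (i₀ :: t) = (if t = s then (1 : ℤ) else 0) -
      (if s.head? = some i₀ then linc s.tail t else 0) := by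
  unfold linc
  rw [List.length_cons, Finset.sum_range_succ']
  simp only [List.eraseIdx_cons_zero, List.eraseIdx_cons_succ, pow_zero]
  rw [add_comm, sub_eq_add_neg]
  congr 1
  rcases s with _ | ⟨a, s'⟩
  · simp
  · simp only [List.head?_cons, Option.some.injEq, List.tail_cons, List.cons.injEq]
    by_cases ha : a = i₀
    · subst ha
      simp only [true_and, if_true, ← Finset.sum_neg_distrib]
      apply Finset.sum_congr rfl
      intro i _
      by_cases hi : t.eraseIdx i = s'
      · simp [hi, pow_succ]
      · simp [hi]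
    · rw [if_neg ha, neg_zero]
      apply Finset.sum_eq_zero
      intro i _
      rw [if_neg]
      rintro ⟨h, _⟩
      exact ha h.symm

private theorem crow_inc_c (hF : FC H I) {Y : ι → Set C} {J : ℕ} (p q : CC Y J)
    (h : p.1.2 = q.1.2) : (cech I Y J).inc p q = linc p.1.1 q.1.1 := by
  classical
  have h0 : I.inc p.1.2 q.1.2 = 0 := by
    by_contra hne
    have := hF.inc_dim _ _ hne
    rw [h] at this
    omega
  show (if p.1.1 = q.1.1 then (-1 : ℤ) ^ p.1.1.length * I.inc p.1.2 q.1.2 else 0) +
    (if p.1.2 = q.1.2 then linc p.1.1 q.1.1 else 0) = _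
  rw [if_pos h, h0]
  simp

private theorem crow_inc_t {Y : ι → Set C} {J : ℕ} (p q : CC Y J)
    (h : p.1.1 = q.1.1) : (cech I Y J).inc p q = (-1 : ℤ) ^ p.1.1.length * I.inc p.1.2 q.1.2 := by
  classical
  show (if p.1.1 = q.1.1 then (-1 : ℤ) ^ p.1.1.length * I.inc p.1.2 q.1.2 else 0) +
    (if p.1.2 = q.1.2 then linc p.1.1 q.1.1 else 0) = _
  rw [if_pos h, ← h, crow_linc_self]
  simp

private theorem crow_inc_ne {Y : ι → Set C} {J : ℕ} {p q : CC Y J}
    (h : (cech I Y J).inc p q ≠ 0) : p.1.2 = q.1.2 ∨ I.inc p.1.2 q.1.2 ≠ 0 := by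
  classical
  by_contra hno
  push Not at hno
  apply h
  show (if p.1.1 = q.1.1 then (-1 : ℤ) ^ p.1.1.length * I.inc p.1.2 q.1.2 else 0) +
    (if p.1.2 = q.1.2 then linc p.1.1 q.1.1 else 0) = _
  rw [if_neg hno.1, hno.2]
  simp

private theorem crow_dim_le (hF : FC H I) {Y : ι → Set C} {J : ℕ} {p q : CC Y J}
    (h : (cech I Y J).inc p q ≠ 0) : I.dim p.1.2 ≤ I.dim q.1.2 := by
  rcases crow_inc_ne h with h1 | h1
  · rw [h1]
  · rw [hF.inc_dim _ _ h1]
    omega

private theorem crow_eq_of_dim (hF : FC H I) {Y : ι → Set C} {J : ℕ} {p q : CC Y J}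
    (h : (cech I Y J).inc p q ≠ 0) (hd : I.dim p.1.2 = I.dim q.1.2) : p.1.2 = q.1.2 := by
  rcases crow_inc_ne h with h1 | h1
  · exact h1
  · have := hF.inc_dim _ _ h1
    omega

private theorem crow_finite {Y : ι → Set C} {J : ℕ} (c : C) (hfin : {i | c ∈ Y i}.Finite) :
    {x : CC Y J | x.1.2 = c}.Finite := by
  have : Finite {i | c ∈ Y i} := hfin
  have h1 : ({t : List {i | c ∈ Y i} | t.length ≤ J}).Finite := List.finite_length_le _ J
  have h2 := h1.image (fun t : List {i | c ∈ Y i} => t.map Subtype.val)
  refine Set.Finite.of_finite_image (f := fun x : CC Y J => x.1.1) (h2.subset ?_) ?_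
  · rintro t ⟨x, hx, rfl⟩
    have hx' : x.1.2 = c := hx
    refine ⟨x.1.1.attach.map (fun i => ⟨i.1, ?_⟩), ?_, ?_⟩
    · show c ∈ Y i.1
      rw [← hx']
      exact x.2.2 i.1 i.2
    · show (List.map _ _).length ≤ J
      rw [List.length_map, List.length_attach]
      exact x.2.1
    · simp
  · intro x hx y hy hxy
    have hx' : x.1.2 = c := hx
    have hy' : y.1.2 = c := hy
    apply Subtype.ext
    exact Prod.ext hxy (hx'.trans hy'.symm)

theorem row_exact (hF : FC H I) {Y : ι → Set C} (hY : Fam H I Y) {J k : ℕ} (hk : k < J) :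
    NH (cech I Y J) {x | ∃ i, x.1.2 ∈ Y i} k := by
  classical
  letI : MulAction H (CC Y J) := ccAct hY.smul J
  have hF' : FC H (cech I Y J) := cech_fc hF hY J
  refine nh_filtration hF' (S := {x | ∃ i, x.1.2 ∈ Y i}) ?_ ?_
    (fun x => min (I.dim x.1.2) (k + 1)) ?_ ?_ (k + 2) ?_ k ?_
  · rintro p q r _ ⟨i, hi⟩ _ hqr
    rcases crow_inc_ne hqr with h1 | h1
    · exact ⟨i, by rw [h1]; exact hi⟩
    · exact ⟨i, hY.down i _ hi _ h1⟩
  · rintro h x ⟨i, hi⟩
    exact ⟨h • i, hY.smul h i _ hi⟩
  · intro p _ q _ hpq
    exact min_le_min_right _ (crow_dim_le hF hpq)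
  · intro h x
    show min (I.dim (h • x.1.2)) (k + 1) = _
    rw [hF.dim_smul]
  · intro x _
    have := min_le_right (I.dim x.1.2) (k + 1)
    show min (I.dim x.1.2) (k + 1) < k + 2
    omega
  · intro j hj
    by_cases hjk : j = k + 1
    · intro z hz _ _
      apply l2_ext
      intro x
      by_contra hx
      obtain ⟨⟨_, h1⟩, h2⟩ := hz x hx
      have h1' : min (I.dim x.1.2) (k + 1) = j := h1
      have h2' : x.1.1.length + I.dim x.1.2 = k := h2
      omega
    · have hjk' : j ≤ k := by omega
      refine nh_block (fun x : CC Y J => x.1.2) ?_ k ?_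
      · rintro p ⟨_, hp⟩ q ⟨_, hq⟩ hpq
        have hp' : min (I.dim p.1.2) (k + 1) = j := hp
        have hq' : min (I.dim q.1.2) (k + 1) = j := hq
        exact crow_eq_of_dim hF hpq (by omega)
      · intro c
        set Sc : Set (CC Y J) := {x | x ∈ {x : CC Y J | x ∈ {x : CC Y J | ∃ i, x.1.2 ∈ Y i} ∧
          min (I.dim x.1.2) (k + 1) = j} ∧ x.1.2 = c} with hSc
        have hmem : ∀ x : CC Y J, x ∈ Sc ↔ (∃ i, c ∈ Y i) ∧ I.dim c = j ∧ x.1.2 = c := by
          intro x
          constructor
          · rintro ⟨⟨⟨i, hi⟩, h1⟩, h2⟩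
            have hi' : x.1.2 ∈ Y i := hi
            have h1' : min (I.dim x.1.2) (k + 1) = j := h1
            have h2' : x.1.2 = c := h2
            rw [h2'] at hi' h1'
            exact ⟨⟨i, hi'⟩, by omega, h2'⟩
          · rintro ⟨⟨i, hi⟩, h1, h2⟩
            refine ⟨⟨⟨i, by rw [h2]; exact hi⟩, ?_⟩, h2⟩
            show min (I.dim x.1.2) (k + 1) = j
            rw [h2]
            omega
        have hfin : Sc.Finite := (crow_finite (J := J) c (hY.locfin c)).subset fun x hx =>
          ((hmem x).1 hx).2.2
        apply nh_of_mod2 hF' (S := Sc) ?_ hfin k ?_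
        · intro p q r hp hr hpq hqr
          rw [hmem] at hp hr ⊢
          refine ⟨hp.1, hp.2.1, ?_⟩
          have h1 := crow_dim_le hF hpq
          have h2 := crow_dim_le hF hqr
          rw [hp.2.2] at h1
          rw [hr.2.2] at h2
          have h3 := crow_eq_of_dim hF hqr (by rw [hr.2.2]; omega)
          rw [h3, hr.2.2]
        · intro x hx hdx
          by_cases hne : ∃ i, c ∈ Y i
          swap
          · refine ⟨fun _ => 0, fun q hq => absurd rfl hq, fun p hp => ?_⟩
            exact absurd ((hmem p).1 hp).1 hne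
          by_cases hdc : I.dim c = j
          swap
          · refine ⟨fun _ => 0, fun q hq => absurd rfl hq, fun p hp => ?_⟩
            exact absurd ((hmem p).1 hp).2.1 hdc
          obtain ⟨i₀, hi₀⟩ := hne
          have hmem' : ∀ x : CC Y J, x ∈ Sc ↔ x.1.2 = c := fun x => by
            rw [hmem]
            exact ⟨fun h => h.2.2, fun h => ⟨⟨i₀, hi₀⟩, hdc, h⟩⟩
          set Fx := hfin.toFinset with hFx
          have hFxm : ∀ q, q ∈ Fx ↔ q.1.2 = c := fun q => by
            rw [hFx, Set.Finite.mem_toFinset, hmem']
          set y : CC Y J → ZMod 2 := fun q => ∑ q' ∈ Fx,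
            if q.1.2 = c ∧ q.1.1 = i₀ :: q'.1.1 then x q' else 0 with hy
          have hysupp : ∀ q, y q ≠ 0 → q ∈ Sc ∧ (cech I Y J).dim q = k + 1 := by
            intro q hq
            obtain ⟨q', _, h1⟩ := Finset.exists_ne_zero_of_sum_ne_zero hq
            have h2 : q.1.2 = c ∧ q.1.1 = i₀ :: q'.1.1 := by
              by_contra hno
              exact h1 (if_neg hno)
            rw [if_pos h2] at h1
            obtain ⟨h3, h4⟩ := hx q' h1
            rw [hmem'] at h3 ⊢
            refine ⟨h2.1, ?_⟩
            have h4' : q'.1.1.length + I.dim q'.1.2 = k := h4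
            show q.1.1.length + I.dim q.1.2 = k + 1
            rw [h2.1, h2.2, List.length_cons, ← h3]
            omega
          refine ⟨y, hysupp, ?_⟩
          intro p hp
          rw [hmem'] at hp
          have hsum1 : ∀ (p : CC Y J) (w : CC Y J → ZMod 2), (∀ q, w q ≠ 0 → q ∈ Sc) →
              ∑ᶠ q, (((cech I Y J).inc p q : ℤ) : ZMod 2) * w q =
                ∑ q ∈ Fx, (((cech I Y J).inc p q : ℤ) : ZMod 2) * w q := by
            intro p w hw
            apply finsum_eq_sum_of_support_subset
            intro q hq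
            rw [Function.mem_support] at hq
            have : w q ≠ 0 := right_ne_zero_of_mul hq
            rw [hFx, Set.Finite.coe_toFinset]
            exact hw q this
          rw [hsum1 p y (fun q hq => (hysupp q hq).1)]
          have hstep : ∑ q ∈ Fx, (((cech I Y J).inc p q : ℤ) : ZMod 2) * y q =
              ∑ q' ∈ Fx, ((linc p.1.1 (i₀ :: q'.1.1) : ℤ) : ZMod 2) * x q' := by
            rw [hy]
            simp only [Finset.mul_sum]
            rw [Finset.sum_comm]
            apply Finset.sum_congr rfl
            intro q' hq'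
            by_cases hxq : x q' = 0
            · rw [hxq, mul_zero]
              apply Finset.sum_eq_zero
              intro q _
              split_ifs <;> simp
            · obtain ⟨h3, h4⟩ := hx q' hxq
              have h4' : q'.1.1.length + I.dim q'.1.2 = k := h4
              rw [hmem'] at h3
              set qq : CC Y J := ⟨(i₀ :: q'.1.1, c), by
                refine ⟨?_, ?_⟩
                · show (i₀ :: q'.1.1).length ≤ J
                  rw [List.length_cons]
                  omega
                · intro i hi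
                  show c ∈ Y i
                  have hi' : i ∈ i₀ :: q'.1.1 := hi
                  rw [List.mem_cons] at hi'
                  rcases hi' with hi' | hi'
                  · rw [hi']
                    exact hi₀
                  · rw [← h3]
                    exact q'.2.2 i hi'⟩ with hqq
              rw [Finset.sum_eq_single qq]
              · rw [if_pos ⟨rfl, rfl⟩, crow_inc_c hF p qq hp]
              · intro q _ hqne
                rw [if_neg, mul_zero]
                rintro ⟨h5, h6⟩
                apply hqne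
                apply Subtype.ext
                exact Prod.ext h6 h5
              · intro hno
                exact absurd ((hFxm qq).2 rfl) hno
          rw [hstep]
          have hcons : ∀ q' : CC Y J, ((linc p.1.1 (i₀ :: q'.1.1) : ℤ) : ZMod 2) * x q' =
              (if q'.1.1 = p.1.1 then x q' else 0) -
              (if p.1.1.head? = some i₀ then ((linc p.1.1.tail q'.1.1 : ℤ) : ZMod 2) * x q'
                else 0) := by
            intro q'
            rw [crow_linc_cons]
            push_cast
            split_ifs <;> ring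
          simp only [hcons]
          rw [Finset.sum_sub_distrib]
          have hA : ∑ q' ∈ Fx, (if q'.1.1 = p.1.1 then x q' else 0) = x p := by
            rw [Finset.sum_eq_single p]
            · rw [if_pos rfl]
            · intro q hq hqne
              rw [if_neg]
              intro h5
              apply hqne
              apply Subtype.ext
              exact Prod.ext h5 (((hFxm q).1 hq).trans hp.symm)
            · intro hno
              exact absurd ((hFxm p).2 hp) hno
          have hB : ∑ q' ∈ Fx, (if p.1.1.head? = some i₀ then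
              ((linc p.1.1.tail q'.1.1 : ℤ) : ZMod 2) * x q' else 0) = 0 := by
            by_cases hh : p.1.1.head? = some i₀
            · simp only [if_pos hh]
              set p' : CC Y J := ⟨(p.1.1.tail, c), by
                refine ⟨?_, ?_⟩
                · show p.1.1.tail.length ≤ J
                  have := p.2.1
                  rw [List.length_tail]
                  omega
                · intro i hi
                  show c ∈ Y i
                  rw [← hp]
                  exact p.2.2 i (List.mem_of_mem_tail hi)⟩ with hp'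
              have h6 := hdx p' ((hmem' p').2 rfl)
              rw [hsum1 p' x (fun q hq => (hx q hq).1)] at h6
              rw [← h6]
              apply Finset.sum_congr rfl
              intro q' hq'
              rw [crow_inc_c hF p' q' ((hFxm q').1 hq').symm]
            · simp only [if_neg hh, Finset.sum_const_zero]
          rw [hA, hB, sub_zero]

theorem rest_nh (hF : FC H I) {Y : ι → Set C} (J k : ℕ) (h : NH I {c | ∀ i, c ∉ Y i} k) :
    NH (cech I Y J) {x | ∀ i, x.1.2 ∉ Y i} k := by
  classical
  have ht : ∀ x : CC Y J, x ∈ {x : CC Y J | ∀ i, x.1.2 ∉ Y i} → x.1.1 = [] := by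
    intro x hx
    rw [List.eq_nil_iff_forall_not_mem]
    intro i hi
    exact hx i (x.2.2 i hi)
  have himg : (fun x : CC Y J => x.1.2) '' {x : CC Y J | ∀ i, x.1.2 ∉ Y i} =
      {c | ∀ i, c ∉ Y i} := by
    ext c
    constructor
    · rintro ⟨x, hx, rfl⟩
      exact hx
    · intro hc
      exact ⟨⟨([], c), by simp, by simp⟩, hc, rfl⟩
  have hm := nh_map (I := cech I Y J) (I' := I) (S := {x : CC Y J | ∀ i, x.1.2 ∉ Y i})
    (fun x => x.1.2) (fun x hx y hy hxy => Subtype.ext (Prod.ext ((ht x hx).trans (ht y hy).symm) hxy))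
    (fun _ => 1) (fun _ => Or.inl rfl) 1 (Or.inl rfl) (fun p hp q hq => by
      rw [crow_inc_t p q ((ht p hp).trans (ht q hq).symm), ht p hp]
      simp) 0 0 (fun p hp => by
      show I.dim p.1.2 + 0 = p.1.1.length + I.dim p.1.2 + 0
      rw [ht p hp]
      simp) k
  rw [himg] at hm
  exact hm.2 h

theorem col_nh (hF : FC H I) {Y : ι → Set C} (J : ℕ) (t : List ι) (ht : t.length ≤ J) (k : ℕ)
    (h : NH I {c | ∀ i ∈ t, c ∈ Y i} k) :
    NH (cech I Y J) {x | x.1.1 = t} (k + t.length) := by
  classical
  have himg : (fun x : CC Y J => x.1.2) '' {x : CC Y J | x.1.1 = t} =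
      {c | ∀ i ∈ t, c ∈ Y i} := by
    ext c
    constructor
    · rintro ⟨x, hx, rfl⟩ i hi
      have hx' : x.1.1 = t := hx
      exact x.2.2 i (by rw [hx']; exact hi)
    · intro hc
      exact ⟨⟨(t, c), ht, hc⟩, rfl, rfl⟩
  have hsign : (-1 : ℤ) ^ t.length = 1 ∨ (-1 : ℤ) ^ t.length = -1 := neg_one_pow_eq_or ℤ _
  have hm := nh_map (I := cech I Y J) (I' := I) (S := {x : CC Y J | x.1.1 = t})
    (fun x => x.1.2) (fun x hx y hy hxy => by
      have hx' : x.1.1 = t := hx
      have hy' : y.1.1 = t := hy
      exact Subtype.ext (Prod.ext (hx'.trans hy'.symm) hxy))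
    (fun _ => 1) (fun _ => Or.inl rfl) ((-1) ^ t.length) hsign (fun p hp q hq => by
      have hp' : p.1.1 = t := hp
      have hq' : q.1.1 = t := hq
      rw [crow_inc_t p q (hp'.trans hq'.symm), hp', one_mul, one_mul, ← mul_assoc, ← pow_add]
      rw [Even.neg_one_pow ⟨_, rfl⟩, one_mul]) t.length 0 (fun p hp => by
      have hp' : p.1.1 = t := hp
      show I.dim p.1.2 + t.length = p.1.1.length + I.dim p.1.2 + 0
      rw [hp']
      omega) k
  rw [himg] at hm
  exact hm.2 h

end SingerCub
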