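import Mathlib
import Pool.Agent.Lib_MP_394d50_cub.CRow

/-!
# Piece CMAIN: the reduction to the walls

Proof. `J = k + 1`. Let `Cx = cech I Y J` with the action `ccAct`, a free cell complex by `cech_fc`.
1. `NH Cx univ k`: `nh_mid` with `S1 = {x | ∃ i, x.c ∈ Y i}` and `S2 = {x | ∀ i, x.c ∉ Y i}` (then
   `x.t = []`). `inc p q = 0` for `p ∈ S2`, `q ∈ S1`: if it is non-zero then `p.c = q.c` or
   `I.inc p.c q.c ≠ 0`, and `q.c ∈ Y i` gives `p.c ∈ Y i`. Both are invariant. `row_exact` (`k < J`), `rest_nh`.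
2. `NH Cx {x | x.t ≠ []} (k + 1)`: `nh_filtration` with `f x = x.t.length` (`≤ J`), strata
   `{x | x.t.length = j}`, `1 ≤ j ≤ J`, and `nh_block` with `b x = x.t`; the block of a list `t` of length `j`
   is `col_nh` in degree `k + 1 - j` (note `j ≤ J = k + 1`). The set `{x | x.t ≠ []}` is convex: it is
   up-closed (`inc p q ≠ 0`, `p.t ≠ []` imply `q.t ≠ []`).
3. `nh_sub` with `S1 = {x | x.t = []}`, `S2 = {x | x.t ≠ []}`, `S1 ∪ S2 = univ`: `NH Cx {x | x.t = []} k`.
4. `nh_map` with `φ c = ([], c)` (`a = b = 0`): `NH I univ k`.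
-/

namespace SingerCub

open SingerVS

private theorem CMain_linc {ι : Type} {t t' : List ι} (h : linc t t' ≠ 0) :
    t'.length = t.length + 1 := by
  classical
  unfold linc at h
  obtain ⟨i, hi, h1⟩ := Finset.exists_ne_zero_of_sum_ne_zero h
  rw [Finset.mem_range] at hi
  have h2 : t'.eraseIdx i = t := by
    by_contra hc
    exact h1 (if_neg hc)
  rw [← h2, List.length_eraseIdx_of_lt hi]
  omega

private theorem CMain_inc {C ι : Type} {I : CellCx C} {Y : ι → Set C} {J : ℕ} {p q : CC Y J}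
    (h : (cech I Y J).inc p q ≠ 0) :
    (p.1.1 = q.1.1 ∧ I.inc p.1.2 q.1.2 ≠ 0) ∨
      (p.1.2 = q.1.2 ∧ q.1.1.length = p.1.1.length + 1) := by
  classical
  by_contra hc
  apply h
  have h1 : (cech I Y J).inc p q = (if p.1.1 = q.1.1 then (-1 : ℤ) ^ p.1.1.length *
    I.inc p.1.2 q.1.2 else 0) + (if p.1.2 = q.1.2 then linc p.1.1 q.1.1 else 0) := rfl
  rw [h1]
  have h2 : (if p.1.1 = q.1.1 then (-1 : ℤ) ^ p.1.1.length * I.inc p.1.2 q.1.2 else 0) = 0 := by
    split_ifs with h3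
    · by_cases h4 : I.inc p.1.2 q.1.2 = 0
      · rw [h4, mul_zero]
      · exact absurd (Or.inl ⟨h3, h4⟩) hc
    · rfl
  have h5 : (if p.1.2 = q.1.2 then linc p.1.1 q.1.1 else 0) = 0 := by
    split_ifs with h3
    · by_contra h4
      exact hc (Or.inr ⟨h3, CMain_linc h4⟩)
    · rfl
  rw [h2, h5, add_zero]

private theorem CMain_one {H C ι : Type} [Group H] [MulAction H C] [MulAction H ι] {I : CellCx C}
    (hF : FC H I) {Y : ι → Set C} (hY : Fam H I Y) (k : ℕ)
    (hrest : NH I {c | ∀ i, c ∉ Y i} k) : NH (cech I Y (k + 1)) Set.univ k := by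
  let _ : MulAction H (CC Y (k + 1)) := ccAct hY.smul (k + 1)
  have hFC : FC H (cech I Y (k + 1)) := cech_fc hF hY (k + 1)
  have hu : {x : CC Y (k + 1) | ∃ i, x.1.2 ∈ Y i} ∪ {x : CC Y (k + 1) | ∀ i, x.1.2 ∉ Y i} =
      Set.univ := by
    ext x
    simp only [Set.mem_union, Set.mem_ofPred_eq, Set.mem_univ, iff_true]
    by_cases h : ∃ i, x.1.2 ∈ Y i
    · exact Or.inl h
    · push Not at h
      exact Or.inr h
  have h0 := nh_mid hFC (S1 := {x : CC Y (k + 1) | ∃ i, x.1.2 ∈ Y i})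
    (S2 := {x : CC Y (k + 1) | ∀ i, x.1.2 ∉ Y i}) (k := k) ?_ ?_ ?_ ?_ ?_
    (row_exact hF hY (Nat.lt_succ_self k)) (rest_nh hF (k + 1) k hrest)
  · rwa [hu] at h0
  · rw [Set.disjoint_left]
    rintro x ⟨i, hi⟩ h
    exact h i hi
  · rw [hu]
    exact fun _ _ _ _ _ _ _ => Set.mem_univ _
  · rintro p hp q ⟨i, hi⟩
    by_contra hc
    rcases CMain_inc hc with ⟨_, h2⟩ | ⟨h1, _⟩
    · exact hp i (hY.down i _ hi _ h2)
    · exact hp i (h1 ▸ hi)
  · rintro h c ⟨i, hi⟩
    exact ⟨h • i, hY.smul h i _ hi⟩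
  · intro h c hc i hi
    apply hc (h⁻¹ • i)
    have h1 := hY.smul h⁻¹ i _ hi
    have h2 : (h • c).1.2 = h • c.1.2 := rfl
    rwa [h2, inv_smul_smul] at h1

private theorem CMain_two {H C ι : Type} [Group H] [MulAction H C] [MulAction H ι] {I : CellCx C}
    (hF : FC H I) {Y : ι → Set C} (hY : Fam H I Y) (k : ℕ)
    (hcol : ∀ t : List ι, t ≠ [] → t.length ≤ k + 1 →
      NH I {c | ∀ i ∈ t, c ∈ Y i} (k + 1 - t.length)) :
    NH (cech I Y (k + 1)) {x | x.1.1 ≠ []} (k + 1) := by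
  let _ : MulAction H (CC Y (k + 1)) := ccAct hY.smul (k + 1)
  have hFC : FC H (cech I Y (k + 1)) := cech_fc hF hY (k + 1)
  refine nh_filtration hFC (S := {x : CC Y (k + 1) | x.1.1 ≠ []}) ?_ ?_
    (fun x => x.1.1.length) ?_ ?_ (k + 2) ?_ (k + 1) ?_
  · intro p q r hp _ hpq _
    rcases CMain_inc hpq with ⟨h1, _⟩ | ⟨_, h2⟩
    · show q.1.1 ≠ []
      rw [← h1]
      exact hp
    · show q.1.1 ≠ []
      intro h3
      rw [h3, List.length_nil] at h2
      omega
  · intro h c hc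
    show c.1.1.map (h • ·) ≠ []
    intro h1
    exact hc (List.map_eq_nil_iff.1 h1)
  · intro p _ q _ hpq
    show p.1.1.length ≤ q.1.1.length
    rcases CMain_inc hpq with ⟨h1, _⟩ | ⟨_, h2⟩
    · rw [h1]
    · omega
  · intro h c
    show (c.1.1.map (h • ·)).length = c.1.1.length
    rw [List.length_map]
  · intro c _
    have := c.2.1
    show c.1.1.length < k + 2
    omega
  · intro j _
    refine nh_block (fun x => x.1.1) ?_ (k + 1) ?_
    · rintro p ⟨_, hp⟩ q ⟨_, hq⟩ hpq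
      show p.1.1 = q.1.1
      rcases CMain_inc hpq with ⟨h1, _⟩ | ⟨_, h2⟩
      · exact h1
      · have h3 : p.1.1.length = j := hp
        have h4 : q.1.1.length = j := hq
        omega
    · intro t
      by_cases ht : t ≠ [] ∧ t.length = j ∧ t.length ≤ k + 1
      · have h1 : {c : CC Y (k + 1) | c ∈ {c : CC Y (k + 1) | c ∈ {x : CC Y (k + 1) | x.1.1 ≠ []} ∧
            c.1.1.length = j} ∧ c.1.1 = t} = {x : CC Y (k + 1) | x.1.1 = t} := by
          ext x
          simp only [Set.mem_ofPred_eq]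
          constructor
          · exact fun h => h.2
          · intro h
            refine ⟨⟨?_, ?_⟩, h⟩
            · rw [h]; exact ht.1
            · rw [h]; exact ht.2.1
        rw [h1]
        have h2 := col_nh hF (k + 1) t ht.2.2 (k + 1 - t.length) (hcol t ht.1 ht.2.2)
        rwa [Nat.sub_add_cancel ht.2.2] at h2
      · have h1 : {c : CC Y (k + 1) | c ∈ {c : CC Y (k + 1) | c ∈ {x : CC Y (k + 1) | x.1.1 ≠ []} ∧
            c.1.1.length = j} ∧ c.1.1 = t} = ∅ := by
          rw [Set.eq_empty_iff_forall_notMem]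
          rintro x ⟨⟨hx1, hx2⟩, hx3⟩
          apply ht
          have h2 : x.1.1 ≠ [] := hx1
          have h3 := x.2.1
          rw [hx3] at h2 h3 hx2
          exact ⟨h2, hx2, h3⟩
        rw [h1]
        exact nh_empty _ _

theorem cech_reduction {H C ι : Type} [Group H] [MulAction H C] [MulAction H ι] {I : CellCx C}
    (hF : FC H I) {Y : ι → Set C} (hY : Fam H I Y) (k : ℕ)
    (hcol : ∀ t : List ι, t ≠ [] → t.length ≤ k + 1 →
      NH I {c | ∀ i ∈ t, c ∈ Y i} (k + 1 - t.length))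
    (hrest : NH I {c | ∀ i, c ∉ Y i} k) : NH I Set.univ k := by
  let _ : MulAction H (CC Y (k + 1)) := ccAct hY.smul (k + 1)
  have hFC : FC H (cech I Y (k + 1)) := cech_fc hF hY (k + 1)
  have h1 := CMain_one hF hY k hrest
  have h2 := CMain_two hF hY k hcol
  have hu : {x : CC Y (k + 1) | x.1.1 = []} ∪ {x : CC Y (k + 1) | x.1.1 ≠ []} = Set.univ := by
    ext x
    simp only [Set.mem_union, Set.mem_ofPred_eq, Set.mem_univ, iff_true]
    exact em _
  have h3 : NH (cech I Y (k + 1)) {x | x.1.1 = []} k := by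
    refine nh_sub hFC (S1 := {x : CC Y (k + 1) | x.1.1 = []})
      (S2 := {x : CC Y (k + 1) | x.1.1 ≠ []}) ?_ ?_ ?_ ?_ ?_ ?_ h2
    · rw [Set.disjoint_left]
      intro x hx h
      exact h hx
    · rw [hu]
      exact fun _ _ _ _ _ _ _ => Set.mem_univ _
    · intro p hp q hq
      by_contra hc
      have hq' : q.1.1 = [] := hq
      rcases CMain_inc hc with ⟨h4, _⟩ | ⟨_, h4⟩
      · exact hp (h4.trans hq')
      · rw [hq', List.length_nil] at h4
        omega
    · intro h c hc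
      show c.1.1.map (h • ·) = []
      have hc' : c.1.1 = [] := hc
      rw [hc', List.map_nil]
    · intro h c hc
      show c.1.1.map (h • ·) ≠ []
      intro h4
      exact hc (List.map_eq_nil_iff.1 h4)
    · rw [hu]
      exact h1
  let φ : C → CC Y (k + 1) := fun c => ⟨([], c), Nat.zero_le _, fun i hi => absurd hi List.not_mem_nil⟩
  have hφ : φ '' Set.univ = {x : CC Y (k + 1) | x.1.1 = []} := by
    ext x
    simp only [Set.image_univ, Set.mem_range, Set.mem_ofPred_eq]
    constructor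
    · rintro ⟨c, rfl⟩
      rfl
    · intro hx
      exact ⟨x.1.2, Subtype.ext (Prod.ext hx.symm rfl)⟩
  have h4 := nh_map (I := I) (I' := cech I Y (k + 1)) (S := Set.univ) φ (by
    intro c _ c' _ h
    exact congrArg (fun x : CC Y (k + 1) => x.1.2) h) (fun _ => 1) (fun _ => Or.inl rfl) 1
    (Or.inl rfl) (by
      intro p _ q _
      classical
      have e1 : (cech I Y (k + 1)).inc (φ p) (φ q) = (if (φ p).1.1 = (φ q).1.1 then
        (-1 : ℤ) ^ (φ p).1.1.length * I.inc (φ p).1.2 (φ q).1.2 else 0) +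
        (if (φ p).1.2 = (φ q).1.2 then linc (φ p).1.1 (φ q).1.1 else 0) := rfl
      have e2 : linc (φ p).1.1 (φ q).1.1 = 0 := by
        unfold linc
        have : (φ q).1.1.length = 0 := rfl
        rw [this, Finset.sum_range_zero]
      have e3 : (φ p).1.1 = (φ q).1.1 := rfl
      have e4 : (φ p).1.1.length = 0 := rfl
      rw [e1, e2, if_pos e3, e4, pow_zero, ite_self, add_zero, one_mul, one_mul, one_mul, one_mul]) 0 0 (by
      intro p _
      show ([] : List ι).length + I.dim p + 0 = I.dim p + 0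
      simp) k
  rw [hφ] at h4
  exact h4.2 h3

end SingerCub
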