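import Mathlib
import Pool.Agent.Lib_MP_394d50_cub.Defs
import Pool.Agent.Lib_MP_394d50_vs.LSim
import Pool.Agent.Lib_MP_394d50_vs.LkDefs

/-!
# Duality: definitions

`SI X I`: `I` is a cell structure on the simplices of `X` with incidence numbers `±1` for the facets.
`dualCx I ε n`: the cells are the pairs `σ ⊆ τ` (degree `n + dim τ - dim σ`), one cell `[τ]` (degree
`n + dim τ + 1`) and one cell `[σ]'` (degree `2 n + 1 - dim σ`) for each simplex. `ε` is a function on
the `n`-simplices (a fundamental cycle).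
-/

namespace SingerCub

open SingerVS
open scoped Pointwise

section

variable {P : Type} [DecidableEq P]

/-- The type of the simplices. -/
abbrev SX (X : Set (Finset P)) : Type := {σ : Finset P // σ ∈ X}

/-- `I` is a cell structure on the simplices of `X` (for some choice of orientations). -/
structure SI (X : Set (Finset P)) (I : CellCx (SX X)) : Prop where
  dim : ∀ σ : SX X, I.dim σ = σ.1.card - 1
  fac : ∀ σ τ : SX X, I.inc σ τ ≠ 0 ↔ ∃ v ∈ τ.1, σ.1 = τ.1.erase v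
  one : ∀ σ τ : SX X, I.inc σ τ = 0 ∨ I.inc σ τ = 1 ∨ I.inc σ τ = -1
  edge : ∀ v w e : SX X, v ≠ w → v.1.card = 1 → w.1.card = 1 → e.1.card = 2 → v.1 ⊆ e.1 →
    w.1 ⊆ e.1 → I.inc v e + I.inc w e = 0
  sq : ∀ p r : SX X, ∑ᶠ q, I.inc p q * I.inc q r = 0

/-- The pairs `σ ⊆ τ` of simplices. -/
abbrev PT (X : Set (Finset P)) : Type := {x : SX X × SX X // x.1.1 ⊆ x.2.1}

/-- The cells: pairs, `[τ]`, `[σ]'`. -/
abbrev TC (X : Set (Finset P)) : Type := PT X ⊕ (SX X ⊕ SX X)

open scoped Classical in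
/-- The cell complex for the duality. -/
noncomputable def dualCx {X : Set (Finset P)} (I : CellCx (SX X)) (ε : SX X → ℤ) (n : ℕ) :
    CellCx (TC X) where
  dim x := match x with
    | Sum.inl y => n + I.dim y.1.2 - I.dim y.1.1
    | Sum.inr (Sum.inl τ) => n + I.dim τ + 1
    | Sum.inr (Sum.inr σ) => 2 * n + 1 - I.dim σ
  inc x y := match x, y with
    | Sum.inl x, Sum.inl y =>
        (if x.1.1 = y.1.1 then (-1 : ℤ) ^ I.dim x.1.1 * I.inc x.1.2 y.1.2 else 0) +
          (if x.1.2 = y.1.2 then I.inc y.1.1 x.1.1 else 0)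
    | Sum.inl x, Sum.inr (Sum.inl τ) => if x.1.2 = τ ∧ I.dim x.1.1 = 0 then 1 else 0
    | Sum.inl x, Sum.inr (Sum.inr σ) => if x.1.1 = σ ∧ I.dim x.1.2 = n then ε x.1.2 else 0
    | Sum.inr (Sum.inl τ), Sum.inr (Sum.inl τ') => - I.inc τ τ'
    | Sum.inr (Sum.inr σ), Sum.inr (Sum.inr σ') => - I.inc σ' σ
    | Sum.inr _, Sum.inl _ => 0
    | Sum.inr (Sum.inl _), Sum.inr (Sum.inr _) => 0
    | Sum.inr (Sum.inr _), Sum.inr (Sum.inl _) => 0

/-- The action of `K` on the simplices. -/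
abbrev sxAct {K : Type} [Group K] [MulAction K P] {X : Set (Finset P)}
    (hinv : ∀ h : K, ∀ σ ∈ X, h • σ ∈ X) : MulAction K (SX X) := simpAct hinv

/-- The action of `K` on the pairs. -/
abbrev ptAct {K : Type} [Group K] [MulAction K P] {X : Set (Finset P)}
    (hinv : ∀ h : K, ∀ σ ∈ X, h • σ ∈ X) : MulAction K (PT X) where
  smul h x := ⟨(⟨h • x.1.1.1, hinv h _ x.1.1.2⟩, ⟨h • x.1.2.1, hinv h _ x.1.2.2⟩),
    Finset.smul_finset_subset_smul_finset x.2⟩
  one_smul x := Subtype.ext (Prod.ext (Subtype.ext (one_smul K x.1.1.1))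
    (Subtype.ext (one_smul K x.1.2.1)))
  mul_smul g h x := Subtype.ext (Prod.ext (Subtype.ext (mul_smul g h x.1.1.1))
    (Subtype.ext (mul_smul g h x.1.2.1)))

/-- The action of `K` on the cells. -/
abbrev tcAct {K : Type} [Group K] [MulAction K P] {X : Set (Finset P)}
    (hinv : ∀ h : K, ∀ σ ∈ X, h • σ ∈ X) : MulAction K (TC X) :=
  letI := sxAct (K := K) hinv
  letI := ptAct (K := K) hinv
  inferInstance

/-- The top-dimensional simplices are compatibly oriented by `ε`. -/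
structure Fund (n : ℕ) (X : Set (Finset P)) (I : CellCx (SX X)) (ε : SX X → ℤ) : Prop where
  pm : ∀ τ, ε τ = 1 ∨ ε τ = -1
  cyc : ∀ ρ : SX X, ρ.1.card = n → ∑ᶠ τ, I.inc ρ τ * ε τ = 0

end

end SingerCub
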