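import Mathlib
import Pool.Agent.Lib_MP_394d50_cub.WDefs
import Pool.Agent.Lib_MP_394d50_rn.MNR

/-!
# Piece ASTAB: the stabilisers of the walls

`virtRes_of_injective`: if `L₀ ≤ L` has finite index and `ResLOA L₀`, then `L₀.comap f ≤ K` has finite index
and embeds in `L₀` (`ResLOA.of_injective` in MNR).

`wi_freeCx`: `K` acts on `wi Y t`. `ne`, `down`, `inv`, `free` are clear (`wi Y t ⊆ X` because `t` is not
empty). `fin`: let `R` be the finite set of representatives of `hX.fin`. Consider the finite set of the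
pairs `(r, f)`, `r ∈ R` and `f` a map from `t` to the finite set `{i | r ∈ Y i}`. To `σ ∈ wi Y t`, `σ = g • r`,
associate `(r, i ↦ g⁻¹ • i)` (`σ ∈ Y i` gives `r = g⁻¹ • σ ∈ Y (g⁻¹ • i)`). If `σ = g • r` and `σ' = g' • r`
give the same pair then `g * g'⁻¹` fixes every `i ∈ t`, so it is in `fixingSubgroup Γ t ≤ K`, and maps
`σ'` to `σ`. So one representative for each pair that occurs suffices.
-/

namespace SingerCub

open SingerVS SingerRN
open scoped Pointwise

theorem virtRes_of_injective {K L : Type} [Group K] [Group L] (h : VirtRes L) (f : K →* L)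
    (hf : Function.Injective f) : VirtRes K := by
  obtain ⟨L0, hfi, hres⟩ := h
  have hfin : (L0.comap f).FiniteIndex := by
    refine ⟨?_⟩
    rw [Subgroup.index_comap]
    exact (inferInstance : (L0.subgroupOf f.range).FiniteIndex).index_ne_zero
  refine ⟨L0.comap f, hfin, ?_⟩
  have hg : Function.Injective ((f.comp (L0.comap f).subtype).codRestrict L0 fun x => x.2) := by
    intro x y hxy
    apply Subtype.ext
    apply hf
    exact congrArg Subtype.val hxy
  exact hres.of_injective _ hg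

theorem wi_freeCx {Γ P ι : Type} [Group Γ] [DecidableEq P] [MulAction Γ P] [MulAction Γ ι]
    {X : Set (Finset P)} (hX : FreeCx Γ X) {Y : ι → Set (Finset P)} {n : ℕ} {Z : Set P}
    (hW : Walls n Γ X Y Z) (t : Finset ι) (ht : t.Nonempty) (K : Subgroup Γ)
    (hK : fixingSubgroup Γ (t : Set ι) ≤ K) (hK' : ∀ g ∈ K, ∀ σ ∈ wi Y t, g • σ ∈ wi Y t) :
    FreeCx K (wi Y t) := by
  classical
  obtain ⟨i0, hi0⟩ := ht
  have hsub : ∀ σ ∈ wi Y t, σ ∈ X := fun σ hσ => hW.sub i0 (hσ i0 hi0)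
  refine ⟨fun σ hσ => hX.ne σ (hsub σ hσ), fun σ hσ τ hτ hn i hi => hW.down i σ (hσ i hi) τ hτ hn,
    fun h σ hσ => hK' h.1 h.2 σ hσ, ?_, ?_⟩
  · intro h σ hσ he
    apply Subtype.ext
    exact hX.free h.1 σ (hsub σ hσ) he
  · obtain ⟨R, hR, hcov⟩ := hX.fin
    let Rel : Finset P → Finset P × (t → ι) → Prop := fun σ c =>
      ∃ g : Γ, σ = g • c.1 ∧ ∀ i : t, c.2 i = g⁻¹ • (i : ι)
    have hC : {c : Finset P × (t → ι) | c.1 ∈ R ∧ ∀ i, c.1 ∈ Y (c.2 i)}.Finite := by
      have hfin : (⋃ r ∈ (R : Set (Finset P)), (fun f : t → ι => (r, f)) ''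
          (Set.pi Set.univ fun _ : t => {i | r ∈ Y i})).Finite := by
        refine R.finite_toSet.biUnion fun r hr => ?_
        refine Set.Finite.image _ (Set.Finite.pi fun _ => hW.locfin r (hR r hr))
      refine hfin.subset ?_
      rintro ⟨r, f⟩ ⟨h1, h2⟩
      simp only [Set.mem_iUnion, Set.mem_image]
      exact ⟨r, h1, f, fun i _ => h2 i, rfl⟩
    have hex : ∀ c, ∃ τ, (∃ σ ∈ wi Y t, Rel σ c) → τ ∈ wi Y t ∧ Rel τ c := by
      intro c
      by_cases h : ∃ σ ∈ wi Y t, Rel σ c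
      · obtain ⟨σ, h1, h2⟩ := h
        exact ⟨σ, fun _ => ⟨h1, h2⟩⟩
      · exact ⟨∅, fun h' => absurd h' h⟩
    choose pick hpick using hex
    refine ⟨(hC.toFinset.filter fun c => ∃ σ ∈ wi Y t, Rel σ c).image pick, ?_, ?_⟩
    · intro r hr
      rw [Finset.mem_image] at hr
      obtain ⟨c, hc, rfl⟩ := hr
      exact (hpick c (Finset.mem_filter.1 hc).2).1
    · intro σ hσ
      obtain ⟨g, r, hr, hσr⟩ := hcov σ (hsub σ hσ)
      have hcC : r ∈ R ∧ ∀ i : t, r ∈ Y (g⁻¹ • (i : ι)) := by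
        refine ⟨hr, fun i => ?_⟩
        have := hW.smul g⁻¹ i σ (hσ i i.2)
        rwa [hσr, inv_smul_smul] at this
      have hrel : Rel σ (r, fun i : t => g⁻¹ • (i : ι)) := ⟨g, hσr, fun i => rfl⟩
      obtain ⟨hτ, g', hτr, hg'⟩ := hpick (r, fun i : t => g⁻¹ • (i : ι)) ⟨σ, hσ, hrel⟩
      refine ⟨⟨g * g'⁻¹, hK ?_⟩, pick (r, fun i : t => g⁻¹ • (i : ι)), ?_, ?_⟩
      · rw [mem_fixingSubgroup_iff]
        intro i hi
        have := hg' ⟨i, hi⟩
        dsimp only at this
        rw [mul_smul, ← this, smul_inv_smul]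
      · rw [Finset.mem_image]
        refine ⟨(r, fun i : t => g⁻¹ • (i : ι)), ?_, rfl⟩
        rw [Finset.mem_filter]
        exact ⟨hC.mem_toFinset.2 hcC, σ, hσ, hrel⟩
      · have h1 : (g * g'⁻¹) • pick (r, fun i : t => g⁻¹ • (i : ι)) = σ := by
          rw [hτr, mul_smul, inv_smul_smul]
          exact hσr.symm
        exact h1.symm

end SingerCub
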