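import Mathlib
import Pool.Agent.Lib_MP_394d50_cub.DDefs

/-!
# Piece AINV: an invariant choice of orientations

`sgnN_cocycle`: for relations `r₁ r₂ r₃` which are total on `σ` (`TotOn`),
`sgnN r₁ r₃ σ = sgnN r₁ r₂ σ * sgnN r₂ r₃ σ`: for every pair `x ≠ y` in `σ` the number of inversions between
`r₁` and `r₃` (0 or 1 for the unordered pair) is congruent mod 2 to the sum of those between `r₁, r₂` and
`r₂, r₃`. (Symmetrise the double sum: `invN r r' σ` is the number of unordered pairs on which `r` and `r'`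
differ; see `invN_erase` in LSim for the style; induction on `σ` with `invN_erase`-like splitting works.)

`exists_inv`. Choose for every `σ ∈ X` a representative: `σ = g • ρ`, `ρ` one representative of each orbit
(`exists_rep` for the action on `SX X`), `g = g σ` unique by freeness, so `g (h • σ) = h * g σ`. Let
`r_g x y := g⁻¹ • x < g⁻¹ • y`, `s σ = sgnN (· < ·) (r_{g σ}) σ`, `I.inc p q = s p * s q * simpInc (· < ·) p q`,
`I.dim σ = card - 1`.
Invariance: for `h` let `r' x y := h • x < h • y`. `simpInc (· < ·) (h • σ) (h • τ) = simpInc r' σ τ`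
(see the proof of `locDim_smul_simp`) `= sgnN (· < ·) r' σ * sgnN (· < ·) r' τ * simpInc (· < ·) σ τ`
(`simpInc_change`). And `s (h • σ) = sgnN (· < ·) (r_{h g}) (h • σ) = sgnN r' r_g σ` (substitute `h • x`), so
`s (h • σ) * sgnN (· < ·) r' σ = sgnN (· < ·) r_g σ = s σ` by `sgnN_cocycle`.
`SI`: `fac` from `simpInc_ne`, `simpInc_erase`; `one` from `abs_simpInc_le` or `simpInc_erase`; `edge`: `s = 1` on
the vertices (`invN` of a singleton is `0` as `<` is irreflexive), and the two incidence numbers of the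
edge `{a < b}` are `s e * 1` and `s e * (-1)`; `sq`: `s q * s q = 1`, and the sum for `simpInc` vanishes as in
`freeCell_simp` (that part of its proof does not use the group; finiteness of faces is clear).
`FreeCell Γ I`: as in `freeCell_simp`, with the invariance proved above.
-/

namespace SingerCub

open SingerVS
open scoped Pointwise

theorem totOn_mono {P : Type} {r : P → P → Prop} {σ τ : Finset P} (h : TotOn r τ) (hs : σ ⊆ τ) :
    TotOn r σ :=
  ⟨fun x hx => h.1 x (hs hx), fun x hx y hy => h.2 x (hs hx) y (hs hy)⟩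

theorem invN_even {P : Type} [DecidableEq P] {r₁ r₂ r₃ : P → P → Prop} [DecidableRel r₁]
    [DecidableRel r₂] [DecidableRel r₃] (σ : Finset P) : TotOn r₁ σ → TotOn r₂ σ → TotOn r₃ σ →
      (invN r₁ r₂ σ + invN r₂ r₃ σ + invN r₁ r₃ σ) % 2 = 0 := by
  induction σ using Finset.induction_on with
  | empty =>
    intro _ _ _
    rfl
  | insert a s ha ih =>
    intro h₁ h₂ h₃
    have hsub : s ⊆ insert a s := Finset.subset_insert a s
    have hi := ih (totOn_mono h₁ hsub) (totOn_mono h₂ hsub) (totOn_mono h₃ hsub)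
    have hm := Finset.mem_insert_self a s
    obtain ⟨m1, e1⟩ := invN_erase h₁ h₂ hm
    obtain ⟨m2, e2⟩ := invN_erase h₂ h₃ hm
    obtain ⟨m3, e3⟩ := invN_erase h₁ h₃ hm
    rw [Finset.erase_insert ha] at e1 e2 e3
    omega

theorem sgnN_cocycle {P : Type} [DecidableEq P] {r₁ r₂ r₃ : P → P → Prop} [DecidableRel r₁]
    [DecidableRel r₂] [DecidableRel r₃] {σ : Finset P} (h₁ : TotOn r₁ σ) (h₂ : TotOn r₂ σ)
    (h₃ : TotOn r₃ σ) : sgnN r₁ r₃ σ = sgnN r₁ r₂ σ * sgnN r₂ r₃ σ := by
  have h := invN_even (r₁ := r₁) (r₂ := r₂) (r₃ := r₃) σ h₁ h₂ h₃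
  unfold sgnN
  rw [← pow_add]
  refine neg_one_pow_congr ?_
  rw [Nat.even_iff, Nat.even_iff]
  omega

theorem posR_singleton {P : Type} {r : P → P → Prop} {b : P} (h : ¬ r b b) :
    posR r {b} b = 0 := by
  classical
  unfold posR
  refine Finset.card_eq_zero.mpr (Finset.eq_empty_of_forall_notMem fun x hx => ?_)
  have h1 := Finset.mem_filter.mp hx
  have h2 := Finset.mem_singleton.mp h1.1
  have h3 : r x b := h1.2
  rw [h2] at h3
  exact h h3

theorem totOn_lt {P : Type} [LinearOrder P] (σ : Finset P) : TotOn (fun x y : P => x < y) σ :=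
  ⟨fun x _ => lt_irrefl x, fun x _ y _ hxy => ⟨fun h => not_lt.mpr h.le, fun h =>
    lt_of_le_of_ne (not_lt.mp h) hxy⟩⟩

theorem invN_smul {Γ P : Type} [Group Γ] [DecidableEq P] [MulAction Γ P] (r r' : P → P → Prop)
    [DecidableRel r] [DecidableRel r'] (h : Γ) (σ : Finset P) :
    invN r r' (h • σ) = invN (fun x y => r (h • x) (h • y)) (fun x y => r' (h • x) (h • y)) σ := by
  unfold invN
  have e : h • σ = σ.image (fun x => h • x) := rfl
  have hinj : Set.InjOn (fun x : P => h • x) σ := (MulAction.injective h).injOn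
  rw [e, Finset.sum_image hinj]
  refine Finset.sum_congr rfl fun x _ => ?_
  rw [Finset.sum_image hinj]

theorem simpInc_smul' {Γ P : Type} [Group Γ] [DecidableEq P] [MulAction Γ P] (r : P → P → Prop)
    (h : Γ) (σ τ : Finset P) :
    simpInc r (h • σ) (h • τ) = simpInc (fun x y => r (h • x) (h • y)) σ τ := by
  classical
  by_cases h1 : ∃ v ∈ τ, σ = τ.erase v
  · obtain ⟨v, hv, e⟩ := h1
    rw [e, smul_erase, simpInc_erase _ hv, simpInc_erase _ (Finset.smul_mem_smul_finset hv)]
    congr 1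
    unfold posR
    symm
    refine Finset.card_bij (fun u _ => h • u) ?_ ?_ ?_
    · intro u hu
      obtain ⟨hu, hu'⟩ := Finset.mem_filter.mp hu
      exact Finset.mem_filter.mpr ⟨Finset.smul_mem_smul_finset hu, hu'⟩
    · intro u _ w _ e
      exact MulAction.injective h e
    · intro u hu
      obtain ⟨hu, hu'⟩ := Finset.mem_filter.mp hu
      obtain ⟨w, hw, rfl⟩ := Finset.mem_smul_finset.mp hu
      exact ⟨w, Finset.mem_filter.mpr ⟨hw, hu'⟩, rfl⟩
  · push Not at h1
    rw [simpInc_zero _ h1, simpInc_zero]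
    intro v hv e
    obtain ⟨w, hw, rfl⟩ := Finset.mem_smul_finset.mp hv
    rw [← smul_erase] at e
    exact h1 w hw (MulAction.injective h e)

/-- The sum of `freeCell_simp` (no group). -/
theorem simpInc_finsum_sq {P : Type} [DecidableEq P] {X : Set (Finset P)}
    (hne : ∀ σ ∈ X, σ.Nonempty) (hdown : ∀ σ ∈ X, ∀ τ, τ ⊆ σ → τ.Nonempty → τ ∈ X)
    {r : P → P → Prop} (hr : ∀ σ ∈ X, TotOn r σ) (p t : SX X) :
    ∑ᶠ q : SX X, simpInc r p.1 q.1 * simpInc r q.1 t.1 = 0 := by
  classical
  by_cases h1 : ∃ v ∈ t.1, ∃ w ∈ t.1, v ≠ w ∧ p.1 = (t.1.erase v).erase w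
  · obtain ⟨v, hv, w, hw, hvw, hp⟩ := h1
    have hpne := hne _ p.2
    have m1 : t.1.erase v ∈ X := by
      refine hdown _ t.2 _ (Finset.erase_subset v _) ?_
      refine hpne.mono ?_
      rw [hp]
      exact Finset.erase_subset w _
    have m2 : t.1.erase w ∈ X := by
      refine hdown _ t.2 _ (Finset.erase_subset w _) ?_
      refine hpne.mono ?_
      rw [hp, Finset.erase_right_comm]
      exact Finset.erase_subset v _
    have hne' : (⟨t.1.erase v, m1⟩ : SX X) ≠ ⟨t.1.erase w, m2⟩ := by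
      intro e
      have e1 : t.1.erase v = t.1.erase w := congrArg Subtype.val e
      have h2 : v ∈ t.1.erase w := Finset.mem_erase.mpr ⟨hvw, hv⟩
      rw [← e1] at h2
      exact (Finset.mem_erase.mp h2).1 rfl
    rw [finsum_eq_sum_of_support_subset (s := {⟨t.1.erase v, m1⟩, ⟨t.1.erase w, m2⟩}),
      Finset.sum_pair hne']
    · show simpInc r p.1 (t.1.erase v) * simpInc r (t.1.erase v) t.1 +
        simpInc r p.1 (t.1.erase w) * simpInc r (t.1.erase w) t.1 = 0
      rw [hp]
      exact simpInc_sq (hr _ t.2) hv hw hvw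
    · intro q hq
      have hq' : simpInc r p.1 q.1 * simpInc r q.1 t.1 ≠ 0 := hq
      obtain ⟨x, hx, ex⟩ := simpInc_ne (right_ne_zero_of_mul hq')
      obtain ⟨y, hy, ey⟩ := simpInc_ne (left_ne_zero_of_mul hq')
      have h3 : x ∉ p.1 := by
        rw [ey, ex]
        intro h4
        exact (Finset.mem_erase.mp (Finset.mem_erase.mp h4).2).1 rfl
      have h5 : x = v ∨ x = w := by
        by_contra h6
        push Not at h6
        apply h3
        rw [hp]
        exact Finset.mem_erase.mpr ⟨h6.2, Finset.mem_erase.mpr ⟨h6.1, hx⟩⟩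
      rw [Finset.coe_insert, Finset.coe_singleton]
      rcases h5 with h5 | h5
      · left
        exact Subtype.ext (by rw [ex, h5])
      · right
        exact Subtype.ext (by rw [ex, h5])
  · refine finsum_eq_zero_of_forall_eq_zero fun q => ?_
    by_contra hq
    have hq' : simpInc r p.1 q.1 * simpInc r q.1 t.1 ≠ 0 := hq
    obtain ⟨x, hx, ex⟩ := simpInc_ne (right_ne_zero_of_mul hq')
    obtain ⟨y, hy, ey⟩ := simpInc_ne (left_ne_zero_of_mul hq')
    rw [ex] at hy ey
    exact h1 ⟨x, hx, y, (Finset.mem_erase.mp hy).2, (Finset.mem_erase.mp hy).1.symm, ey⟩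

/-- An equivariant map to the group. -/
theorem exists_G {Γ P : Type} [Group Γ] [DecidableEq P] [MulAction Γ P] {X : Set (Finset P)}
    (hX : FreeCx Γ X) : letI := sxAct (K := Γ) hX.inv;
      ∃ G : SX X → Γ, ∀ (h : Γ) (c : SX X), G (h • c) = h * G c := by
  let _ := sxAct (K := Γ) hX.inv
  have h1 : ∀ c : SX X, ∃ g : Γ, g • (Quotient.mk'' c : Orb Γ (SX X)).out = c := by
    intro c
    have h2 : (Quotient.mk'' (Quotient.mk'' c : Orb Γ (SX X)).out : Orb Γ (SX X)) =
        Quotient.mk'' c := Quotient.out_eq' _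
    have h3 := Quotient.exact' h2.symm
    obtain ⟨g, hg⟩ := h3
    exact ⟨g, hg⟩
  choose G hG using h1
  refine ⟨G, fun h c => ?_⟩
  have e1 : (Quotient.mk'' (h • c) : Orb Γ (SX X)) = Quotient.mk'' c :=
    Quotient.sound' ⟨h, rfl⟩
  have e2 := hG (h • c)
  rw [e1] at e2
  have e3 : (h * G c) • (Quotient.mk'' c : Orb Γ (SX X)).out = h • c := by
    rw [mul_smul, hG c]
  have e4 : ((h * G c)⁻¹ * G (h • c)) • (Quotient.mk'' c : Orb Γ (SX X)).out =
      (Quotient.mk'' c : Orb Γ (SX X)).out := by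
    rw [mul_smul, e2, ← e3, inv_smul_smul]
  have e5 := hX.free _ _ (Quotient.mk'' c : Orb Γ (SX X)).out.2 (congrArg Subtype.val e4)
  exact (inv_mul_eq_one.mp e5).symm

theorem exists_inv {Γ P : Type} [Group Γ] [LinearOrder P] [MulAction Γ P] {X : Set (Finset P)}
    (hX : FreeCx Γ X) : ∃ (I : CellCx (SX X)) (s : SX X → ℤ), (∀ c, s c = 1 ∨ s c = -1) ∧ SI X I ∧
      (∀ c, I.dim c = (simpCx X (fun x y : P => x < y)).dim c) ∧
      (∀ p q, I.inc p q = s p * s q * (simpCx X (fun x y : P => x < y)).inc p q) ∧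
      (letI := sxAct (K := Γ) hX.inv; FreeCell Γ I) := by
  let inst := sxAct (K := Γ) hX.inv
  obtain ⟨G, hG⟩ := exists_G hX
  have hlt : ∀ σ : Finset P, TotOn (fun x y : P => x < y) σ := totOn_lt
  have hcomp : ∀ (g : Γ) (σ : Finset P), TotOn (fun x y : P => g • x < g • y) σ := fun g σ =>
    (hlt (g • σ)).comp (MulAction.injective g) (fun x hx => Finset.smul_mem_smul_finset hx)
  let s : SX X → ℤ := fun c =>
    sgnN (fun x y : P => x < y) (fun x y : P => (G c)⁻¹ • x < (G c)⁻¹ • y) c.1
  have hs : ∀ c, s c = 1 ∨ s c = -1 := fun c => sgnN_pm _ _ _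
  have hss : ∀ c, s c * s c = 1 := fun c => by
    rcases hs c with h | h <;> rw [h] <;> norm_num
  have hs0 : ∀ c, s c ≠ 0 := fun c h => by
    have := hss c
    rw [h, mul_zero] at this
    exact absurd this (by norm_num)
  let I : CellCx (SX X) := ⟨fun c => c.1.card - 1, fun p q =>
    s p * s q * simpInc (fun x y : P => x < y) p.1 q.1⟩
  have hI : ∀ p q, I.inc p q = s p * s q * simpInc (fun x y : P => x < y) p.1 q.1 :=
    fun _ _ => rfl
  have hsm : ∀ (h : Γ) (c : SX X), (h • c).1 = h • c.1 := fun _ _ => rfl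
  -- invariance of the signs
  have key : ∀ (h : Γ) (c : SX X),
      s (h • c) * sgnN (fun x y : P => x < y) (fun x y : P => h • x < h • y) c.1 = s c := by
    intro h c
    have e1 : s (h • c) = sgnN (fun x y : P => h • x < h • y)
        (fun x y : P => (G c)⁻¹ • x < (G c)⁻¹ • y) c.1 := by
      show (-1 : ℤ) ^ invN (fun x y : P => x < y)
        (fun x y : P => (G (h • c))⁻¹ • x < (G (h • c))⁻¹ • y) (h • c.1) =
        (-1 : ℤ) ^ invN (fun x y : P => h • x < h • y)
        (fun x y : P => (G c)⁻¹ • x < (G c)⁻¹ • y) c.1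
      rw [invN_smul]
      have e2 : ∀ x : P, (G (h • c))⁻¹ • h • x = (G c)⁻¹ • x := by
        intro x
        rw [hG, mul_inv_rev, mul_smul, inv_smul_smul]
      unfold invN
      simp only [e2]
    have e3 := sgnN_cocycle (r₁ := fun x y : P => x < y) (r₂ := fun x y : P => h • x < h • y)
      (r₃ := fun x y : P => (G c)⁻¹ • x < (G c)⁻¹ • y) (hlt c.1) (hcomp h c.1)
      (hcomp (G c)⁻¹ c.1)
    rw [e1, mul_comm]
    exact e3.symm
  have hinv : ∀ (h : Γ) (p q : SX X), I.inc (h • p) (h • q) = I.inc p q := by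
    intro h p q
    rw [hI, hI, hsm, hsm, simpInc_smul',
      simpInc_change (hlt q.1) (hcomp h q.1) p.1, ← key h p, ← key h q]
    ring
  have hfac : ∀ σ τ : SX X, I.inc σ τ ≠ 0 ↔ ∃ v ∈ τ.1, σ.1 = τ.1.erase v := by
    intro σ τ
    rw [hI]
    constructor
    · intro h
      exact simpInc_ne (right_ne_zero_of_mul h)
    · rintro ⟨v, hv, e⟩
      refine mul_ne_zero (mul_ne_zero (hs0 _) (hs0 _)) ?_
      rw [e, simpInc_erase _ hv]
      exact pow_ne_zero _ (by norm_num)
  have habs : ∀ p q : SX X, |I.inc p q| ≤ 1 := by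
    intro p q
    rw [hI, abs_mul, abs_mul]
    have h1 : ∀ c, |s c| = 1 := fun c => by
      rcases hs c with h | h <;> rw [h] <;> norm_num
    rw [h1, h1, one_mul, one_mul]
    exact abs_simpInc_le _ _ _
  have hsq : ∀ p r : SX X, ∑ᶠ q, I.inc p q * I.inc q r = 0 := by
    intro p r
    have e1 : (fun q => I.inc p q * I.inc q r) = fun q => (s p * s r) •
        (simpInc (fun x y : P => x < y) p.1 q.1 * simpInc (fun x y : P => x < y) q.1 r.1) := by
      funext q
      rw [hI, hI, smul_eq_mul]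
      have := hss q
      linear_combination (s p * s r * simpInc (fun x y : P => x < y) p.1 q.1 *
        simpInc (fun x y : P => x < y) q.1 r.1) * this
    rw [e1, ← smul_finsum, simpInc_finsum_sq hX.ne hX.down (fun σ _ => hlt σ) p r, smul_zero]
  have hs1 : ∀ c : SX X, c.1.card = 1 → s c = 1 := by
    intro c hc
    obtain ⟨a, ha⟩ := Finset.card_eq_one.mp hc
    show (-1 : ℤ) ^ invN (fun x y : P => x < y)
        (fun x y : P => (G c)⁻¹ • x < (G c)⁻¹ • y) c.1 = 1
    have e1 : invN (fun x y : P => x < y)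
        (fun x y : P => (G c)⁻¹ • x < (G c)⁻¹ • y) c.1 = 0 := by
      rw [ha]
      unfold invN
      rw [Finset.sum_singleton, Finset.sum_singleton, if_neg (fun h => lt_irrefl a h.1)]
    rw [e1, pow_zero]
  refine ⟨I, s, hs, ⟨fun _ => rfl, hfac, fun σ τ => ?_, ?_, hsq⟩, fun _ => rfl, fun _ _ => rfl,
    ⟨?_, hinv, ?_, habs, ?_, ?_, hsq, ?_, ?_⟩⟩
  · have h1 := habs σ τ
    rw [Int.abs_le_one_iff] at h1
    exact h1
  · intro v w e hvw hv hw he hve hwe
    obtain ⟨a, ha⟩ := Finset.card_eq_one.mp hv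
    obtain ⟨b, hb⟩ := Finset.card_eq_one.mp hw
    have hab : a ≠ b := by
      rintro rfl
      exact hvw (Subtype.ext (ha.trans hb.symm))
    have hae : a ∈ e.1 := hve (by rw [ha]; exact Finset.mem_singleton_self a)
    have hbe : b ∈ e.1 := hwe (by rw [hb]; exact Finset.mem_singleton_self b)
    have hee : e.1 = {a, b} := by
      symm
      refine Finset.eq_of_subset_of_card_le ?_ ?_
      · intro x hx
        rw [Finset.mem_insert, Finset.mem_singleton] at hx
        rcases hx with rfl | rfl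
        · exact hae
        · exact hbe
      · rw [he, Finset.card_pair hab]
    have e1 : v.1 = e.1.erase b := by
      rw [ha, hee, Finset.pair_comm, Finset.erase_insert]
      rw [Finset.mem_singleton]
      exact hab.symm
    have e2 : w.1 = e.1.erase a := by
      rw [hb, hee, Finset.erase_insert]
      rw [Finset.mem_singleton]
      exact hab
    have p1 : posR (fun x y : P => x < y) e.1 b = if a < b then 1 else 0 := by
      rw [posR_erase _ hae, ← e2, hb]
      have : posR (fun x y : P => x < y) {b} b = 0 := posR_singleton (lt_irrefl b)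
      rw [this, zero_add]
    have p2 : posR (fun x y : P => x < y) e.1 a = if b < a then 1 else 0 := by
      rw [posR_erase _ hbe, ← e1, ha]
      have : posR (fun x y : P => x < y) {a} a = 0 := posR_singleton (lt_irrefl a)
      rw [this, zero_add]
    rw [hI, hI, hs1 v hv, hs1 w hw, e1, e2, simpInc_erase _ hbe, simpInc_erase _ hae, p1, p2]
    rcases lt_or_gt_of_ne hab with h | h
    · rw [if_pos h, if_neg (not_lt.mpr h.le)]
      ring
    · rw [if_neg (not_lt.mpr h.le), if_pos h]
      ring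
  · intro h c
    show (h • c).1.card - 1 = c.1.card - 1
    rw [hsm, card_smul]
  · intro p q h
    obtain ⟨v, hv, e⟩ := (hfac p q).1 h
    show q.1.card - 1 = p.1.card - 1 + 1
    have h1 := Finset.card_pos.mpr (hX.ne _ p.2)
    have h2 : p.1.card = q.1.card - 1 := by rw [e, Finset.card_erase_of_mem hv]
    omega
  · intro q
    refine Set.Finite.of_finite_image (f := Subtype.val) ?_ Subtype.val_injective.injOn
    refine (q.1.image (fun v => q.1.erase v)).finite_toSet.subset ?_
    rintro _ ⟨p, hp, rfl⟩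
    obtain ⟨v, hv, e⟩ := (hfac p q).1 hp
    exact Finset.mem_coe.mpr (Finset.mem_image.mpr ⟨v, hv, e.symm⟩)
  · intro p
    refine Set.Finite.of_finite_image (f := Subtype.val) ?_ Subtype.val_injective.injOn
    refine (hX.cof_finite p.2).subset ?_
    rintro _ ⟨q, hq, rfl⟩
    obtain ⟨v, hv, e⟩ := (hfac p q).1 hq
    exact ⟨q.2, by rw [e]; exact Finset.erase_subset v q.1⟩
  · intro h c e
    refine hX.free h c.1 c.2 ?_
    rw [← hsm, e]
  · obtain ⟨R, hR, hR'⟩ := hX.fin
    have hfin : Finite {r // r ∈ R} := inferInstance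
    refine Finite.of_surjective (fun z : {r // r ∈ R} =>
      (Quotient.mk'' ⟨z.1, hR z.1 z.2⟩ : MulAction.orbitRel.Quotient Γ (SX X))) ?_
    intro o
    induction o using Quotient.inductionOn' with
    | h c =>
      obtain ⟨h, z, hz, e⟩ := hR' c.1 c.2
      refine ⟨⟨z, hz⟩, ?_⟩
      refine (Quotient.sound' ?_ : Quotient.mk'' c = Quotient.mk'' _).symm
      refine ⟨h, ?_⟩
      apply Subtype.ext
      show (h • (⟨z, hR z hz⟩ : SX X)).1 = c.1
      rw [hsm, e]

end SingerCub
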