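import Mathlib
import Pool.Agent.Lib_MP_394d50_cub.WDefs
import Pool.Agent.Lib_MP_394d50_cub.DDefs
import Pool.Agent.Lib_MP_394d50_cub.EFil
import Pool.Agent.Lib_MP_394d50_cub.ERank

/-!
# Piece ASTAR: the complement of the walls

Proof. Let `S = {σ : SX X | ∀ i, σ ∉ Y i}`. By `hW.cell` and `hW.uniq` every `σ ∈ S` contains exactly one vertex
`z ∈ Z`; let `b σ` be this vertex (`b : SX X → Option P`, or use `P` with a default). If `p, q ∈ S`,
`I.inc p q ≠ 0`, then `p ⊆ q`, so `b p = b q`. `nh_block`: the block of `z ∈ Z` is the set of the `σ ∈ X` with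
`z ∈ σ` (these are in `S` by `hW.cell`). It is finite (`hX.star_finite`), and convex. `nh_of_mod2`: mod 2 the
incidence number is `1` for facets, `0` otherwise (`hs.fac`, `hs.one`). Let `x` be a cycle of degree `k`
(supported on simplices with `k + 1` vertices which contain `z`). `x' ρ = x (insert z ρ)` for
`ρ ∈ lk X {z}`, is in `Ch (ZMod 2) (lk X {z}) k`, and `bd (lk X {z}) x' = 0`. `hM.link {z}` is
`SphF2 n (lk X {z})` and `k < n`, so there is `w ∈ Ch (ZMod 2) (lk X {z}) (k + 1)` with `bd w = x'`; put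
`y σ = w (σ.erase z)` for `z ∈ σ`. (`{z} ∈ X` because `z ∈ σ ∈ X`.) For `z ∉ Z` the block is empty
(`nh_empty`).
-/

namespace SingerCub

open SingerVS
open scoped Pointwise

section aux

variable {Γ P : Type} [Group Γ] [DecidableEq P] [MulAction Γ P] {X : Set (Finset P)}

private theorem ast_mem_lk {z : P} {ρ : Finset P} :
    ρ ∈ lk X {z} ↔ z ∉ ρ ∧ insert z ρ ∈ X := by
  show (Disjoint ρ {z} ∧ ρ ∪ {z} ∈ X) ↔ _
  rw [Finset.disjoint_singleton_right, Finset.union_comm, ← Finset.insert_eq]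

private theorem ast_mem_nb (hX : FreeCx Γ X) {z : P} {ρ : Finset P} (hρ : insert z ρ ∈ X) {p : P} :
    p ∈ nb (lk X {z}) ρ ↔ p ∉ ρ ∧ insert p ρ ∈ lk X {z} := by
  have hf : {p | p ∉ ρ ∧ insert p ρ ∈ lk X {z}}.Finite := by
    refine (hX.nb_finite hρ).subset ?_
    rintro q ⟨h1, h2⟩
    obtain ⟨h3, h4⟩ := ast_mem_lk.1 h2
    refine ⟨?_, ?_⟩
    · intro h
      rcases Finset.mem_insert.1 h with h | h
      · exact h3 (h ▸ Finset.mem_insert_self q ρ)
      · exact h1 h
    · rw [Finset.insert_comm]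
      exact h4
  unfold nb
  rw [dif_pos hf, Set.Finite.mem_toFinset]
  exact Iff.rfl

private theorem ast_mod {I : CellCx (SX X)} (hs : SI X I) {p q : SX X}
    (h : ∃ v ∈ q.1, p.1 = q.1.erase v) : ((I.inc p q : ℤ) : ZMod 2) = 1 := by
  have h1 : I.inc p q ≠ 0 := (hs.fac p q).2 h
  rcases hs.one p q with h2 | h2 | h2
  · exact absurd h2 h1
  · rw [h2]
    rfl
  · rw [h2]
    rfl

private theorem ast_bridge (hX : FreeCx Γ X) {I : CellCx (SX X)} (hs : SI X I) {z : P}
    {ρ : Finset P} (hρ : ρ ∈ lk X {z}) (hσ : insert z ρ ∈ X) (y : SX X → ZMod 2)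
    (y' : Finset P → ZMod 2)
    (hy : ∀ τ ∈ lk X {z}, ∀ h : insert z τ ∈ X, y' τ = y ⟨insert z τ, h⟩) :
    ∑ᶠ q, ((I.inc ⟨insert z ρ, hσ⟩ q : ℤ) : ZMod 2) * y q = bd (lk X {z}) y' ρ := by
  classical
  rw [bd_apply hρ]
  have hz : z ∉ ρ := (ast_mem_lk.1 hρ).1
  -- the finite set of the cells which contribute
  let e : P → SX X := fun p => if h : insert z (insert p ρ) ∈ X then ⟨insert z (insert p ρ), h⟩
    else ⟨insert z ρ, hσ⟩
  have he : ∀ p ∈ nb (lk X {z}) ρ, (e p).1 = insert z (insert p ρ) ∧ p ∉ insert z ρ := by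
    intro p hp
    obtain ⟨h1, h2⟩ := (ast_mem_nb hX hσ).1 hp
    obtain ⟨h3, h4⟩ := ast_mem_lk.1 h2
    refine ⟨?_, ?_⟩
    · show (if h : insert z (insert p ρ) ∈ X then (⟨insert z (insert p ρ), h⟩ : SX X)
        else ⟨insert z ρ, hσ⟩).1 = _
      rw [dif_pos h4]
    · intro h
      rcases Finset.mem_insert.1 h with h | h
      · exact h3 (h ▸ Finset.mem_insert_self p ρ)
      · exact h1 h
  have hinj : ∀ p ∈ nb (lk X {z}) ρ, ∀ q ∈ nb (lk X {z}) ρ, e p = e q → p = q := by
    intro p hp q hq h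
    have h1 : (e p).1 = (e q).1 := congrArg Subtype.val h
    rw [(he p hp).1, (he q hq).1] at h1
    have h2 : p ∈ insert z (insert q ρ) := by
      rw [← h1]
      exact Finset.mem_insert_of_mem (Finset.mem_insert_self p ρ)
    have h3 := (he p hp).2
    rw [Finset.mem_insert, Finset.mem_insert] at h2
    rcases h2 with h2 | h2 | h2
    · exact absurd (h2 ▸ Finset.mem_insert_self z ρ) h3
    · exact h2
    · exact absurd (Finset.mem_insert_of_mem h2) h3
  rw [finsum_eq_sum_of_support_subset (s := (nb (lk X {z}) ρ).image e), Finset.sum_image hinj]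
  · refine Finset.sum_congr rfl fun p hp => ?_
    obtain ⟨h1, h2⟩ := he p hp
    have h3 := ((ast_mem_nb hX hσ).1 hp).2
    have h4 : insert z (insert p ρ) ∈ X := (ast_mem_lk.1 h3).2
    have h5 : e p = ⟨insert z (insert p ρ), h4⟩ := Subtype.ext h1
    rw [ast_mod hs, one_mul, hy _ h3 h4, h5]
    refine ⟨p, ?_, ?_⟩
    · rw [h1]
      exact Finset.mem_insert_of_mem (Finset.mem_insert_self p ρ)
    · rw [h1, Finset.insert_comm, Finset.erase_insert h2]
  · intro q hq
    have hq' : ((I.inc ⟨insert z ρ, hσ⟩ q : ℤ) : ZMod 2) * y q ≠ 0 := hq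
    have h1 : I.inc ⟨insert z ρ, hσ⟩ q ≠ 0 := by
      intro h
      rw [h] at hq'
      exact hq' (by rw [Int.cast_zero, zero_mul])
    obtain ⟨v, hv, hv'⟩ := (hs.fac _ _).1 h1
    have hv1 : insert z ρ = q.1.erase v := hv'
    have hv2 : v ∉ insert z ρ := by
      rw [hv1]
      exact Finset.notMem_erase v _
    have hv3 : q.1 = insert z (insert v ρ) := by
      rw [Finset.insert_comm, hv1, Finset.insert_erase hv]
    have hvz : z ∉ insert v ρ := by
      intro h
      rcases Finset.mem_insert.1 h with h | h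
      · exact hv2 (h ▸ Finset.mem_insert_self z ρ)
      · exact hz h
    have hnb : v ∈ nb (lk X {z}) ρ := by
      rw [ast_mem_nb hX hσ]
      refine ⟨fun h => hv2 (Finset.mem_insert_of_mem h), ast_mem_lk.2 ⟨hvz, ?_⟩⟩
      rw [← hv3]
      exact q.2
    rw [Finset.mem_coe, Finset.mem_image]
    exact ⟨v, hnb, Subtype.ext ((he v hnb).1.trans hv3.symm)⟩

private theorem ast_star (hX : FreeCx Γ X) {n : ℕ} (hM : HomMfd n X) {I : CellCx (SX X)}
    (hs : SI X I) (hI : letI := sxAct (K := Γ) hX.inv; FC Γ I) (k : ℕ) (hk : k < n) {z : P}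
    (hz : {z} ∈ X) : NH I {c : SX X | z ∈ c.1} k := by
  classical
  let _ := sxAct (K := Γ) hX.inv
  refine nh_of_mod2 (H := Γ) hI ?_ ?_ k ?_
  · intro p q r hp _ hpq _
    obtain ⟨v, _, hv⟩ := (hs.fac p q).1 hpq
    have hp' : z ∈ p.1 := hp
    rw [hv] at hp'
    exact Finset.mem_of_mem_erase hp'
  · refine Set.Finite.subset ((hX.star_finite z).preimage Subtype.val_injective.injOn) ?_
    intro c hc
    exact ⟨c.2, hc⟩
  · intro x hx hbx
    have hcard : ∀ c : SX X, ∀ j, I.dim c = j ↔ c.1.card = j + 1 := by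
      intro c j
      rw [hs.dim c]
      have := (hX.ne c.1 c.2).card_pos
      omega
    let x' : Finset P → ZMod 2 := fun ρ =>
      if h : ρ ∈ lk X {z} then x ⟨insert z ρ, (ast_mem_lk.1 h).2⟩ else 0
    have hx'1 : ∀ ρ ∈ lk X {z}, ∀ h : insert z ρ ∈ X, x' ρ = x ⟨insert z ρ, h⟩ := by
      intro ρ hρ h
      show (if h : ρ ∈ lk X {z} then x ⟨insert z ρ, (ast_mem_lk.1 h).2⟩ else 0) = _
      rw [dif_pos hρ]
    have hx'2 : ∀ ρ, ρ ∉ lk X {z} → x' ρ = 0 := by
      intro ρ hρ
      show (if h : ρ ∈ lk X {z} then x ⟨insert z ρ, (ast_mem_lk.1 h).2⟩ else 0) = _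
      rw [dif_neg hρ]
    have hxCh : x' ∈ Ch (ZMod 2) (lk X {z}) k := by
      intro ρ hρ
      by_contra hne
      have hmem : ρ ∈ lk X {z} := by
        by_contra h
        exact hne (hx'2 ρ h)
      refine hρ ⟨hmem, ?_⟩
      obtain ⟨h1, h2⟩ := ast_mem_lk.1 hmem
      rw [hx'1 ρ hmem h2] at hne
      have h3 := (hcard _ _).1 (hx _ hne).2
      have h4 : (insert z ρ).card = k + 1 := h3
      rw [Finset.card_insert_of_notMem h1] at h4
      omega
    have hbd : bd (lk X {z}) x' = 0 := by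
      funext ρ
      by_cases hρ : ρ ∈ lk X {z}
      · have h2 := (ast_mem_lk.1 hρ).2
        rw [← ast_bridge hX hs hρ h2 x x' hx'1]
        exact hbx ⟨insert z ρ, h2⟩ (Finset.mem_insert_self z ρ)
      · exact bd_apply_not hρ
    have hlink := (hM.link {z} hz).1 k (by rw [Finset.card_singleton]; omega) x' hxCh hbd
    obtain ⟨w, hw, hbw⟩ := hlink
    refine ⟨fun c => if z ∈ c.1 then w (c.1.erase z) else 0, ?_, ?_⟩
    · intro c hc
      have hc1 : z ∈ c.1 := by
        by_contra h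
        exact hc (if_neg h)
      have hc2 : w (c.1.erase z) ≠ 0 := by
        intro h
        exact hc ((if_pos hc1).trans h)
      refine ⟨hc1, (hcard _ _).2 ?_⟩
      have h3 : (c.1.erase z).card = k + 1 := by
        by_contra h
        exact hc2 (hw _ fun h' => h h'.2)
      rw [Finset.card_erase_of_mem hc1] at h3
      have := (hX.ne c.1 c.2).card_pos
      omega
    · intro p hp
      have hp' : z ∈ p.1 := hp
      have hins : insert z (p.1.erase z) = p.1 := Finset.insert_erase hp'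
      have hmX : insert z (p.1.erase z) ∈ X := by
        rw [hins]
        exact p.2
      have hmem : p.1.erase z ∈ lk X {z} := ast_mem_lk.2 ⟨Finset.notMem_erase z _, hmX⟩
      have h1 := ast_bridge hX hs hmem hmX
        (fun c => if z ∈ c.1 then w (c.1.erase z) else 0) w (by
          intro τ hτ h
          show w τ = if z ∈ insert z τ then w ((insert z τ).erase z) else 0
          rw [if_pos (Finset.mem_insert_self z τ), Finset.erase_insert (ast_mem_lk.1 hτ).1])
      have h2 : (⟨insert z (p.1.erase z), hmX⟩ : SX X) = p := Subtype.ext hins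
      rw [h2] at h1
      rw [h1, hbw, hx'1 _ hmem hmX, h2]

end aux

theorem rest_walls {Γ P ι : Type} [Group Γ] [DecidableEq P] [MulAction Γ P] [MulAction Γ ι]
    {X : Set (Finset P)} (hX : FreeCx Γ X) {n : ℕ} (hM : HomMfd n X)
    {Y : ι → Set (Finset P)} {Z : Set P} (hW : Walls n Γ X Y Z) {I : CellCx (SX X)} (hs : SI X I)
    (hI : letI := sxAct (K := Γ) hX.inv; FC Γ I) (k : ℕ) (hk : k < n) :
    NH I {c | ∀ i, c.1 ∉ Y i} k := by
  classical
  let b : SX X → Option P := fun c => if h : ∃ z ∈ Z, z ∈ c.1 then some h.choose else none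
  have hb1 : ∀ c : SX X, (∀ i, c.1 ∉ Y i) → ∃ z ∈ Z, z ∈ c.1 ∧ b c = some z := by
    intro c hc
    have h := (hW.cell c.1 c.2).1 hc
    refine ⟨h.choose, h.choose_spec.1, h.choose_spec.2, ?_⟩
    show (if h : ∃ z ∈ Z, z ∈ c.1 then some h.choose else none) = _
    rw [dif_pos h]
  refine nh_block b ?_ k ?_
  · intro p hp q hq hpq
    obtain ⟨v, _, hv⟩ := (hs.fac p q).1 hpq
    obtain ⟨z, hz, hzp, hbz⟩ := hb1 p hp
    obtain ⟨z', hz', hzq, hbz'⟩ := hb1 q hq
    rw [hbz, hbz']
    rw [hv] at hzp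
    exact congrArg some (hW.uniq q.1 q.2 z hz z' hz' (Finset.mem_of_mem_erase hzp) hzq)
  · intro β
    by_cases hne : ∃ z ∈ Z, {z} ∈ X ∧ β = some z
    · obtain ⟨z, hz, hzX, rfl⟩ := hne
      have hset : {c | c ∈ {c : SX X | ∀ i, c.1 ∉ Y i} ∧ b c = some z} = {c : SX X | z ∈ c.1} := by
        ext c
        constructor
        · rintro ⟨h1, h2⟩
          obtain ⟨z', _, hz'c, hb'⟩ := hb1 c h1
          rw [h2] at hb'
          rw [Option.some_inj.1 hb']
          exact hz'c
        · intro h1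
          have h1' : z ∈ c.1 := h1
          have h3 : ∀ i, c.1 ∉ Y i := (hW.cell c.1 c.2).2 ⟨z, hz, h1'⟩
          refine ⟨h3, ?_⟩
          obtain ⟨z', hz', hz'c, hb'⟩ := hb1 c h3
          rw [hb', hW.uniq c.1 c.2 z' hz' z hz hz'c h1']
      rw [hset]
      exact ast_star hX hM hs hI k hk hzX
    · have hset : {c | c ∈ {c : SX X | ∀ i, c.1 ∉ Y i} ∧ b c = β} = ∅ := by
        rw [Set.eq_empty_iff_forall_notMem]
        rintro c ⟨h1, h2⟩
        obtain ⟨z, hz, hzc, hb'⟩ := hb1 c h1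
        exact hne ⟨z, hz, hX.single_mem c.2 hzc, by rw [← h2, hb']⟩
      rw [hset]
      exact nh_empty I k

end SingerCub
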