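import Mathlib
import Pool.Agent.Lib_MP_394d50_cub.DDefs
import Pool.Agent.Lib_MP_394d50_vs.LkTop
import Pool.Agent.Lib_MP_394d50_vs.LkZig

/-!
# Piece DORI: the fundamental cycle

`hL : LfR n X := HomMfd.lfR hX hA hM` (LkZig). For `n = 0`: `ε = 1`, `K = ⊤`, and `cyc` is vacuous (no
simplex of `X` has `0` vertices). But the invariance is clear. Let `n ≥ 1`.

Existence. For `τ ∈ X` with `n` vertices there are exactly two cofaces `τ ∪ p`, `τ ∪ q`
(`HomMfd.nb_two`). Let `a τ : ZMod 2` be `1` if `I.inc τ (τ ∪ p) * I.inc τ (τ ∪ q) = 1` and `0` if it is `-1`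
(`hs.one`, `hs.fac`: both are `±1`); `a = 0` outside. So `(-1)^{a τ} = - I.inc τ (τ ∪ p) * I.inc τ (τ ∪ q)`.
Claim `bd X a = 0`. Let `ρ ∈ X` have `n - 1 ≥ 1` vertices (for other simplices clear). The claim is
`∏_{τ} (- ∏_{σ ⊃ τ} I.inc τ σ) = 1`, product over the `τ ⊃ ρ` with `n` vertices and the `σ` with `n + 1`
vertices. Every `σ ⊃ ρ` with `n + 1` vertices contains exactly two `τ, τ'` between (`σ = ρ ∪ {p, q}`), and
`hs.sq ρ σ` gives `I.inc ρ τ * I.inc τ σ + I.inc ρ τ' * I.inc τ' σ = 0`, so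
`I.inc τ σ * I.inc τ' σ = - I.inc ρ τ * I.inc ρ τ'`. So the product is
`(-1)^{#τ} ∏_σ (- I.inc ρ τ * I.inc ρ τ') = (-1)^{#τ + #σ} ∏_τ (I.inc ρ τ)^2 = (-1)^{#τ + #σ}` (each `τ` is in
two `σ`), and counting the pairs `τ ⊂ σ` gives `2 #τ = 2 #σ`, so `#τ = #σ`.
`hL.low n`: there is `e ∈ Ch (ZMod 2) X (n + 1)` with `bd X e = a`. Put `ε σ = (-1)^{e σ}`, i.e. `1` if
`e σ = 0` and `-1` otherwise. For `τ` with `n` vertices, `e (τ ∪ p) + e (τ ∪ q) = a τ`, so
`ε (τ ∪ p) * ε (τ ∪ q) = - I.inc τ (τ ∪ p) * I.inc τ (τ ∪ q)`, and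
`I.inc τ (τ ∪ p) * ε (τ ∪ p) + I.inc τ (τ ∪ q) * ε (τ ∪ q) = 0`: this is `cyc`.

The group. Let `K = {g | ∀ σ, σ.card = n + 1 → ε (g • σ) = ε σ}`, a subgroup of `Γ`. For `g ∈ Γ` the function
`σ ↦ ε (g • σ)` satisfies `cyc` too (`hI`), so for `τ` with `n` vertices and cofaces `σ, σ'`:
`ε (g • σ) = ε σ` iff `ε (g • σ') = ε σ'`. So the indicator function of
`{σ ∈ X | σ.card = n + 1 ∧ ε (g • σ) = ε σ}` is a cycle in `Ch (ZMod 2) X (n + 1)`, and so is the function
`onesT X n` (`HomMfd.ones_cycle`), which is not zero (`HomMfd.pure`). By `hL.top` the indicator is `0` or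
`onesT`: `ε (g • σ) = ε σ` for all `σ`, or `ε (g • σ) = - ε σ` for all `σ`. Hence `g, g' ∉ K` implies
`g⁻¹ * g' ∈ K`: `K` has index at most two.
-/

namespace SingerCub

open SingerVS
open scoped Pointwise

/-- the sign as an element of `ZMod 2` -/
private def dorSg (x : ℤ) : ZMod 2 := if x = 1 then 0 else 1

private theorem dorSg_mul {x y : ℤ} (hx : x = 1 ∨ x = -1) (hy : y = 1 ∨ y = -1) :
    dorSg (x * y) = dorSg x + dorSg y := by
  rcases hx with rfl | rfl <;> rcases hy with rfl | rfl <;> decide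

private theorem dor_opp {x y : ℤ} (hx : x = 1 ∨ x = -1) (hy : y = 1 ∨ y = -1) :
    x + y = 0 ↔ dorSg x + dorSg y = 1 := by
  rcases hx with rfl | rfl <;> rcases hy with rfl | rfl <;> decide

private theorem dor_pm_mul {x y : ℤ} (hx : x = 1 ∨ x = -1) (hy : y = 1 ∨ y = -1) :
    x * y = 1 ∨ x * y = -1 := by
  rcases hx with rfl | rfl <;> rcases hy with rfl | rfl <;> decide

private theorem dor_two (x : ZMod 2) : x + x = 0 := ZModModule.add_self x

private theorem dor_pairs {ι : Type} [DecidableEq ι] (s : Finset ι) (t : ι → Finset ι)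
    (f : ι → ι → ZMod 2) (g : ι → ZMod 2) (h1 : ∀ p ∈ s, ∀ q ∈ t p, q ∈ s ∧ p ∈ t q)
    (h2 : ∀ p ∈ s, (t p).card = 2)
    (h3 : ∀ p ∈ s, ∀ q ∈ t p, f p q + f q p = 1 + g p + g q) :
    ∑ p ∈ s, (1 + ∑ q ∈ t p, f p q) = 0 := by
  have h01 : ∀ x : ZMod 2, x = 0 ∨ x = 1 := by decide
  have e1 : ∑ p ∈ s, (1 + ∑ q ∈ t p, f p q) =
      (s.card : ZMod 2) + ∑ p ∈ s, ∑ q ∈ t p, (f p q + g p) := by
    rw [Finset.sum_add_distrib]
    congr 1
    · rw [Finset.sum_const, nsmul_eq_mul, mul_one]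
    · refine Finset.sum_congr rfl fun p hp => ?_
      rw [Finset.sum_add_distrib, Finset.sum_const, h2 p hp, two_smul, dor_two, add_zero]
  rw [e1, Finset.sum_sigma']
  have hE : (s.sigma t).card = 2 * s.card := by
    rw [Finset.card_sigma, Finset.sum_congr rfl h2, Finset.sum_const, smul_eq_mul, mul_comm]
  have hsum : ∑ x ∈ s.sigma t, (f x.1 x.2 + g x.1) =
      (((s.sigma t).filter (fun x => f x.1 x.2 + g x.1 = 1)).card : ZMod 2) := by
    rw [Finset.card_filter, Nat.cast_sum]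
    refine Finset.sum_congr rfl fun x _ => ?_
    rcases h01 (f x.1 x.2 + g x.1) with h | h
    · rw [h, if_neg zero_ne_one, Nat.cast_zero]
    · rw [h, if_pos rfl, Nat.cast_one]
  have hsw : ∀ x ∈ s.sigma t, (f x.1 x.2 + g x.1) + (f x.2 x.1 + g x.2) = 1 := by
    intro x hx
    obtain ⟨hp, hq⟩ := Finset.mem_sigma.mp hx
    have h4 := h3 x.1 hp x.2 hq
    calc (f x.1 x.2 + g x.1) + (f x.2 x.1 + g x.2)
        = (f x.1 x.2 + f x.2 x.1) + (g x.1 + g x.2) := by ring
      _ = 1 + (g x.1 + g x.1) + (g x.2 + g x.2) := by rw [h4]; ring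
      _ = 1 := by rw [dor_two, dor_two, add_zero, add_zero]
  have hmem : ∀ x ∈ s.sigma t, (⟨x.2, x.1⟩ : (_ : ι) × ι) ∈ s.sigma t := by
    intro x hx
    obtain ⟨hp, hq⟩ := Finset.mem_sigma.mp hx
    exact Finset.mem_sigma.mpr ⟨(h1 x.1 hp x.2 hq).1, (h1 x.1 hp x.2 hq).2⟩
  have hcard : ((s.sigma t).filter (fun x => f x.1 x.2 + g x.1 = 1)).card =
      ((s.sigma t).filter (fun x => ¬ f x.1 x.2 + g x.1 = 1)).card := by
    refine Finset.card_bij' (fun x _ => (⟨x.2, x.1⟩ : (_ : ι) × ι))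
      (fun x _ => (⟨x.2, x.1⟩ : (_ : ι) × ι)) ?_ ?_ ?_ ?_
    · intro x hx
      obtain ⟨hx1, hx2⟩ := Finset.mem_filter.mp hx
      refine Finset.mem_filter.mpr ⟨hmem x hx1, ?_⟩
      intro h
      have h5 := hsw x hx1
      rw [hx2] at h5
      have h6 : f x.2 x.1 + g x.2 = 1 := h
      rw [h6, dor_two] at h5
      exact zero_ne_one h5
    · intro x hx
      obtain ⟨hx1, hx2⟩ := Finset.mem_filter.mp hx
      refine Finset.mem_filter.mpr ⟨hmem x hx1, ?_⟩
      have h5 := hsw x hx1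
      have h6 : f x.1 x.2 + g x.1 = 0 := (h01 _).resolve_right hx2
      rw [h6, zero_add] at h5
      exact h5
    · intro x _
      rfl
    · intro x _
      rfl
  have hpart := Finset.card_filter_add_card_filter_not (s := s.sigma t)
    (fun x => f x.1 x.2 + g x.1 = 1)
  rw [hE, ← hcard] at hpart
  have hN : ((s.sigma t).filter (fun x => f x.1 x.2 + g x.1 = 1)).card = s.card := by omega
  rw [hsum, hN, dor_two]

section

variable {P : Type} [DecidableEq P] {X : Set (Finset P)}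

open scoped Classical in
private noncomputable def dorJ (I : CellCx (SX X)) (σ τ : Finset P) : ℤ :=
  if h : σ ∈ X ∧ τ ∈ X then I.inc ⟨σ, h.1⟩ ⟨τ, h.2⟩ else 0

omit [DecidableEq P] in
private theorem dorJ_eq (I : CellCx (SX X)) (σ τ : SX X) : dorJ I σ.1 τ.1 = I.inc σ τ :=
  dif_pos ⟨σ.2, τ.2⟩

private theorem dorJ_pm {I : CellCx (SX X)} (hs : SI X I) {σ : Finset P} {p : P} (hσ : σ ∈ X)
    (hp : p ∉ σ) (hτ : insert p σ ∈ X) :
    dorJ I σ (insert p σ) = 1 ∨ dorJ I σ (insert p σ) = -1 := by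
  have h := hs.fac ⟨σ, hσ⟩ ⟨insert p σ, hτ⟩
  have h1 : I.inc ⟨σ, hσ⟩ ⟨insert p σ, hτ⟩ ≠ 0 :=
    h.2 ⟨p, Finset.mem_insert_self _ _, (Finset.erase_insert hp).symm⟩
  have h2 : dorJ I σ (insert p σ) = I.inc ⟨σ, hσ⟩ ⟨insert p σ, hτ⟩ :=
    dorJ_eq I ⟨σ, hσ⟩ ⟨insert p σ, hτ⟩
  rw [h2]
  exact (hs.one _ _).resolve_left h1

private theorem dorJ_ne {I : CellCx (SX X)} (hs : SI X I) {σ τ : Finset P} (h : dorJ I σ τ ≠ 0) :
    ∃ v ∈ τ, σ = τ.erase v := by
  unfold dorJ at h
  split_ifs at h with h1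
  · exact (hs.fac ⟨σ, h1.1⟩ ⟨τ, h1.2⟩).1 h
  · exact absurd rfl h

variable {Γ : Type} [Group Γ] [MulAction Γ P]

private theorem dor_finsum (hX : FreeCx Γ X) {I : CellCx (SX X)} (hs : SI X I) (ρ : SX X)
    (f : Finset P → ℤ) :
    ∑ᶠ τ : SX X, I.inc ρ τ * f τ.1 =
      ∑ p ∈ nb X ρ.1, dorJ I ρ.1 (insert p ρ.1) * f (insert p ρ.1) := by
  classical
  have hsup : Function.support (fun τ : SX X => I.inc ρ τ * f τ.1) ⊆
      (((nb X ρ.1).attach.image (fun p => (⟨insert p.1 ρ.1, ((hX.mem_nb ρ.2).mp p.2).2⟩ : SX X)) :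
        Finset (SX X)) : Set (SX X)) := by
    intro τ hτ
    have h1 : I.inc ρ τ ≠ 0 := left_ne_zero_of_mul hτ
    obtain ⟨v, hv, he⟩ := (hs.fac ρ τ).1 h1
    have h2 : insert v ρ.1 = τ.1 := by rw [he, Finset.insert_erase hv]
    have h3 : v ∈ nb X ρ.1 := by
      rw [hX.mem_nb ρ.2]
      refine ⟨?_, by rw [h2]; exact τ.2⟩
      rw [he]
      exact Finset.notMem_erase v τ.1
    refine Finset.mem_coe.2 (Finset.mem_image.2 ⟨⟨v, h3⟩, Finset.mem_attach _ _, ?_⟩)
    exact Subtype.ext h2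
  rw [finsum_eq_sum_of_support_subset _ hsup, Finset.sum_image]
  · rw [← Finset.sum_attach (nb X ρ.1)]
    refine Finset.sum_congr rfl fun p _ => ?_
    rw [← dorJ_eq]
  · intro p _ q _ e
    have h1 : insert p.1 ρ.1 = insert q.1 ρ.1 := congrArg Subtype.val e
    have h2 : p.1 ∈ insert q.1 ρ.1 := by
      rw [← h1]
      exact Finset.mem_insert_self _ _
    exact Subtype.ext ((Finset.mem_insert.1 h2).resolve_right ((hX.mem_nb ρ.2).mp p.2).1)

private theorem dor_sq (hX : FreeCx Γ X) {I : CellCx (SX X)} (hs : SI X I) {ρ : Finset P}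
    (hρ : ρ ∈ X) {a b : P} (ha : a ∈ nb X ρ) (hb : b ∈ nb X ρ) (hab : b ≠ a)
    (hσ : insert b (insert a ρ) ∈ X) :
    dorJ I ρ (insert a ρ) * dorJ I (insert a ρ) (insert b (insert a ρ)) +
      dorJ I ρ (insert b ρ) * dorJ I (insert b ρ) (insert b (insert a ρ)) = 0 := by
  have h1 := hs.sq ⟨ρ, hρ⟩ ⟨insert b (insert a ρ), hσ⟩
  have h2 := dor_finsum hX hs ⟨ρ, hρ⟩ (fun τ => dorJ I τ (insert b (insert a ρ)))
  have h3 : ∀ τ : SX X, dorJ I τ.1 (insert b (insert a ρ)) =
      I.inc τ ⟨insert b (insert a ρ), hσ⟩ := fun τ =>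
    dorJ_eq I τ ⟨insert b (insert a ρ), hσ⟩
  simp only [h3] at h2
  rw [h1] at h2
  have h4 : ∑ p ∈ ({a, b} : Finset P), dorJ I ρ (insert p ρ) *
      dorJ I (insert p ρ) (insert b (insert a ρ)) = ∑ p ∈ nb X ρ, dorJ I ρ (insert p ρ) *
      dorJ I (insert p ρ) (insert b (insert a ρ)) := by
    refine Finset.sum_subset ?_ ?_
    · intro p hp
      rcases Finset.mem_insert.1 hp with rfl | hp
      · exact ha
      · rw [Finset.mem_singleton.1 hp]
        exact hb
    · intro p hp hp'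
      by_contra h5
      obtain ⟨v, hv, he⟩ := dorJ_ne hs (right_ne_zero_of_mul h5)
      have h6 : p ∈ insert b (insert a ρ) := by
        refine Finset.mem_of_mem_erase (a := v) ?_
        rw [← he]
        exact Finset.mem_insert_self _ _
      have h7 := ((hX.mem_nb hρ).mp hp).1
      simp only [Finset.mem_insert, Finset.mem_singleton, not_or] at h6 hp'
      rcases h6 with h6 | h6 | h6
      · exact hp'.2 h6
      · exact hp'.1 h6
      · exact h7 h6
  rw [← h4, Finset.sum_pair hab.symm] at h2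
  exact h2.symm

open scoped Classical in
/-- the obstruction -/
private noncomputable def dorA (n : ℕ) (I : CellCx (SX X)) (τ : Finset P) : ZMod 2 :=
  if τ ∈ X ∧ τ.card = n then 1 + ∑ p ∈ nb X τ, dorSg (dorJ I τ (insert p τ)) else 0

private theorem dorA_bd (hX : FreeCx Γ X) {n : ℕ} (hM : HomMfd n X) {I : CellCx (SX X)}
    (hs : SI X I) : bd X (dorA n I) = 0 := by
  funext ρ
  by_cases hρ : ρ ∈ X
  · rw [bd_apply hρ]
    show _ = (0 : ZMod 2)
    by_cases hc : ρ.card + 1 = n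
    · have h1 : ∀ p ∈ nb X ρ, dorA n I (insert p ρ) =
          1 + ∑ q ∈ nb X (insert p ρ), dorSg (dorJ I (insert p ρ) (insert q (insert p ρ))) := by
        intro p hp
        obtain ⟨hp1, hp2⟩ := (hX.mem_nb hρ).mp hp
        exact if_pos ⟨hp2, by rw [Finset.card_insert_of_notMem hp1]; exact hc⟩
      rw [Finset.sum_congr rfl h1]
      refine dor_pairs (nb X ρ) (fun p => nb X (insert p ρ))
        (fun p q => dorSg (dorJ I (insert p ρ) (insert q (insert p ρ))))
        (fun p => dorSg (dorJ I ρ (insert p ρ))) ?_ ?_ ?_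
      · intro p hp q hq
        obtain ⟨hp1, hp2⟩ := (hX.mem_nb hρ).mp hp
        obtain ⟨hq1, hq2⟩ := (hX.mem_nb hp2).mp hq
        rw [Finset.mem_insert, not_or] at hq1
        have e : insert q ρ ∈ X := hX.down _ hq2 _ (Finset.insert_subset_insert q
          (Finset.subset_insert p ρ)) (Finset.insert_nonempty q ρ)
        refine ⟨(hX.mem_nb hρ).mpr ⟨hq1.2, e⟩, (hX.mem_nb e).mpr ⟨?_, ?_⟩⟩
        · rw [Finset.mem_insert, not_or]
          exact ⟨Ne.symm hq1.1, hp1⟩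
        · rw [Finset.insert_comm]
          exact hq2
      · intro p hp
        obtain ⟨hp1, hp2⟩ := (hX.mem_nb hρ).mp hp
        exact hM.nb_two hX hp2 (by rw [Finset.card_insert_of_notMem hp1]; exact hc)
      · intro p hp q hq
        obtain ⟨hp1, hp2⟩ := (hX.mem_nb hρ).mp hp
        obtain ⟨hq1, hq2⟩ := (hX.mem_nb hp2).mp hq
        have hq1' := hq1
        rw [Finset.mem_insert, not_or] at hq1'
        have e : insert q ρ ∈ X := hX.down _ hq2 _ (Finset.insert_subset_insert q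
          (Finset.subset_insert p ρ)) (Finset.insert_nonempty q ρ)
        have hq3 : q ∈ nb X ρ := (hX.mem_nb hρ).mpr ⟨hq1'.2, e⟩
        have hp3 : p ∉ insert q ρ := by
          rw [Finset.mem_insert, not_or]
          exact ⟨Ne.symm hq1'.1, hp1⟩
        have hcm : insert p (insert q ρ) = insert q (insert p ρ) := Finset.insert_comm p q ρ
        have h5 := dor_sq hX hs hρ hp hq3 hq1'.1 hq2
        have j1 := dorJ_pm hs hρ hp1 hp2
        have j2 := dorJ_pm hs hp2 hq1 hq2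
        have j3 := dorJ_pm hs hρ hq1'.2 e
        have j4 := dorJ_pm hs e hp3 (by rw [hcm]; exact hq2)
        show dorSg (dorJ I (insert p ρ) (insert q (insert p ρ))) +
          dorSg (dorJ I (insert q ρ) (insert p (insert q ρ))) =
          1 + dorSg (dorJ I ρ (insert p ρ)) + dorSg (dorJ I ρ (insert q ρ))
        rw [hcm] at j4 ⊢
        rw [dor_opp (dor_pm_mul j1 j2) (dor_pm_mul j3 j4), dorSg_mul j1 j2, dorSg_mul j3 j4] at h5
        rw [← h5]
        have t1 := dor_two (dorSg (dorJ I ρ (insert p ρ)))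
        have t2 := dor_two (dorSg (dorJ I ρ (insert q ρ)))
        linear_combination (-1 : ZMod 2) * t1 - t2
    · refine Finset.sum_eq_zero fun p hp => if_neg ?_
      rintro ⟨_, h2⟩
      rw [Finset.card_insert_of_notMem ((hX.mem_nb hρ).mp hp).1] at h2
      exact hc h2
  · exact bd_apply_not hρ

end

theorem exists_fund {Γ P : Type} [Group Γ] [DecidableEq P] [MulAction Γ P] {X : Set (Finset P)}
    (hX : FreeCx Γ X) (hA : Acyc X) {n : ℕ} (hM : HomMfd n X) {I : CellCx (SX X)} (hs : SI X I)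
    (hI : letI := sxAct (K := Γ) hX.inv; ∀ (h : Γ) (p q : SX X), I.inc (h • p) (h • q) = I.inc p q) :
    ∃ (K : Subgroup Γ) (ε : SX X → ℤ), K.FiniteIndex ∧ Fund n X I ε ∧
      (letI := sxAct (K := Γ) hX.inv; ∀ (h : Γ), h ∈ K → ∀ p : SX X, p.1.card = n + 1 →
        ε (h • p) = ε p) := by
  classical
  letI iA : MulAction Γ (SX X) := sxAct (K := Γ) hX.inv
  have hL : LfR n X := HomMfd.lfR hX hA hM
  rcases Nat.eq_zero_or_pos n with hn | hn
  · subst hn
    refine ⟨⊤, fun _ => 1, inferInstance, ⟨fun _ => Or.inl rfl, ?_⟩, fun _ _ _ _ => rfl⟩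
    intro ρ hρ
    have h1 := hX.ne ρ.1 ρ.2
    rw [← Finset.card_pos, hρ] at h1
    exact absurd h1 (lt_irrefl 0)
  have hAch : dorA n I ∈ Ch (ZMod 2) X n := fun σ hσ => if_neg hσ
  obtain ⟨e, he, hea⟩ := hL.low n hn le_rfl _ hAch (dorA_bd hX hM hs)
  set ε' : Finset P → ℤ := fun σ => if e σ = 0 then 1 else -1 with hε'
  have hpm : ∀ σ, ε' σ = 1 ∨ ε' σ = -1 := by
    intro σ
    rw [hε']
    show (if e σ = 0 then (1 : ℤ) else -1) = 1 ∨ (if e σ = 0 then (1 : ℤ) else -1) = -1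
    split_ifs
    · exact Or.inl rfl
    · exact Or.inr rfl
  have h01 : ∀ x : ZMod 2, x = 0 ∨ x = 1 := by decide
  have hsg : ∀ σ, dorSg (ε' σ) = e σ := by
    intro σ
    show dorSg (if e σ = 0 then (1 : ℤ) else -1) = e σ
    rcases h01 (e σ) with h | h
    · rw [if_pos h, h]
      rfl
    · rw [if_neg (by rw [h]; exact one_ne_zero), h]
      rfl
  have hcyc : ∀ τ ∈ X, τ.card = n →
      ∑ p ∈ nb X τ, dorJ I τ (insert p τ) * ε' (insert p τ) = 0 := by
    intro τ hτ hc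
    obtain ⟨p, q, hpq, hnb⟩ := Finset.card_eq_two.mp (hM.nb_two hX hτ hc)
    have h1 := congrFun hea τ
    rw [bd_apply hτ] at h1
    have h2 : dorA n I τ = 1 + ∑ p ∈ nb X τ, dorSg (dorJ I τ (insert p τ)) := if_pos ⟨hτ, hc⟩
    rw [h2, hnb, Finset.sum_pair hpq, Finset.sum_pair hpq, ← hsg, ← hsg] at h1
    have hp : p ∈ nb X τ := by rw [hnb]; exact Finset.mem_insert_self _ _
    have hq : q ∈ nb X τ := by
      rw [hnb]; exact Finset.mem_insert_of_mem (Finset.mem_singleton_self _)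
    obtain ⟨hp1, hp2⟩ := (hX.mem_nb hτ).mp hp
    obtain ⟨hq1, hq2⟩ := (hX.mem_nb hτ).mp hq
    have j1 := dorJ_pm hs hτ hp1 hp2
    have j2 := dorJ_pm hs hτ hq1 hq2
    rw [hnb, Finset.sum_pair hpq, dor_opp (dor_pm_mul j1 (hpm _)) (dor_pm_mul j2 (hpm _)),
      dorSg_mul j1 (hpm _), dorSg_mul j2 (hpm _)]
    have t1 := dor_two (dorSg (dorJ I τ (insert p τ)))
    have t2 := dor_two (dorSg (dorJ I τ (insert q τ)))
    linear_combination h1 + t1 + t2
  have hF : Fund n X I (fun σ => ε' σ.1) := by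
    refine ⟨fun τ => hpm τ.1, fun ρ hρ => ?_⟩
    rw [dor_finsum hX hs ρ ε']
    exact hcyc ρ.1 ρ.2 hρ
  have hgcyc : ∀ (g : Γ) (τ : Finset P), τ ∈ X → τ.card = n →
      ∑ p ∈ nb X τ, dorJ I τ (insert p τ) * ε' (g • insert p τ) = 0 := by
    intro g τ hτ hc
    have h1 := hF.cyc (g • (⟨τ, hτ⟩ : SX X)) ((card_smul g τ).trans hc)
    rw [← finsum_comp_equiv (MulAction.toPerm g : Equiv.Perm (SX X))] at h1
    have h2 : ∀ σ : SX X, I.inc (g • (⟨τ, hτ⟩ : SX X)) (MulAction.toPerm g σ) *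
        ε' (MulAction.toPerm g σ : SX X).1 = I.inc ⟨τ, hτ⟩ σ * ε' (g • σ.1) := by
      intro σ
      rw [MulAction.toPerm_apply, hI g ⟨τ, hτ⟩ σ]
      rfl
    rw [finsum_congr h2] at h1
    rw [dor_finsum hX hs ⟨τ, hτ⟩ (fun σ => ε' (g • σ))] at h1
    exact h1
  -- the dichotomy
  have hdich : ∀ g : Γ, (∀ σ ∈ X, σ.card = n + 1 → ε' (g • σ) = ε' σ) ∨
      (∀ σ ∈ X, σ.card = n + 1 → ε' (g • σ) = - ε' σ) := by
    intro g
    obtain ⟨ξ, _, _, _, hξ⟩ := hL.top
    have honesch : onesT X n ∈ Ch (ZMod 2) X (n + 1) := fun σ hσ => if_neg hσ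
    obtain ⟨v₀, hv₀⟩ := hA.pt
    obtain ⟨τ₀, hτ₀, _, hτc⟩ := hM.pure hX hv₀
    have hone : onesT X n = ξ := by
      rcases hξ _ honesch (hM.ones_cycle hX) with h | h
      · exfalso
        have h1 := congrFun h τ₀
        have h2 : onesT X n τ₀ = 1 := if_pos ⟨hτ₀, hτc⟩
        rw [h2] at h1
        exact one_ne_zero h1
      · exact h
    have hcch : (fun σ => if σ ∈ X ∧ σ.card = n + 1 ∧ ε' (g • σ) = ε' σ then (1 : ZMod 2) else 0) ∈
        Ch (ZMod 2) X (n + 1) := fun σ hσ => if_neg (fun h => hσ ⟨h.1, h.2.1⟩)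
    have hcbd : bd X (fun σ => if σ ∈ X ∧ σ.card = n + 1 ∧ ε' (g • σ) = ε' σ then (1 : ZMod 2)
        else 0) = 0 := by
      funext τ
      by_cases hτ : τ ∈ X
      · rw [bd_apply hτ]
        show _ = (0 : ZMod 2)
        by_cases hc : τ.card = n
        · obtain ⟨p, q, hpq, hnb⟩ := Finset.card_eq_two.mp (hM.nb_two hX hτ hc)
          have hp : p ∈ nb X τ := by rw [hnb]; exact Finset.mem_insert_self _ _
          have hq : q ∈ nb X τ := by
            rw [hnb]; exact Finset.mem_insert_of_mem (Finset.mem_singleton_self _)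
          obtain ⟨hp1, hp2⟩ := (hX.mem_nb hτ).mp hp
          obtain ⟨hq1, hq2⟩ := (hX.mem_nb hτ).mp hq
          have j1 := dorJ_pm hs hτ hp1 hp2
          have j2 := dorJ_pm hs hτ hq1 hq2
          have k1 := hcyc τ hτ hc
          have k2 := hgcyc g τ hτ hc
          rw [hnb, Finset.sum_pair hpq] at k1 k2
          have hiff : ε' (g • insert p τ) = ε' (insert p τ) ↔
              ε' (g • insert q τ) = ε' (insert q τ) := by
            constructor
            · intro h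
              rw [h] at k2
              have h3 : dorJ I τ (insert q τ) * ε' (g • insert q τ) =
                  dorJ I τ (insert q τ) * ε' (insert q τ) := by linear_combination k2 - k1
              refine mul_left_cancel₀ ?_ h3
              rcases j2 with j | j <;> rw [j] <;> decide
            · intro h
              rw [h] at k2
              have h3 : dorJ I τ (insert p τ) * ε' (g • insert p τ) =
                  dorJ I τ (insert p τ) * ε' (insert p τ) := by linear_combination k2 - k1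
              refine mul_left_cancel₀ ?_ h3
              rcases j1 with j | j <;> rw [j] <;> decide
          rw [hnb, Finset.sum_pair hpq]
          have c1 : (insert p τ).card = n + 1 := by rw [Finset.card_insert_of_notMem hp1, hc]
          have c2 : (insert q τ).card = n + 1 := by rw [Finset.card_insert_of_notMem hq1, hc]
          by_cases h : ε' (g • insert p τ) = ε' (insert p τ)
          · rw [if_pos ⟨hp2, c1, h⟩, if_pos ⟨hq2, c2, hiff.1 h⟩]
            exact dor_two 1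
          · rw [if_neg (fun h' => h h'.2.2), if_neg (fun h' => h (hiff.2 h'.2.2)), add_zero]
        · refine Finset.sum_eq_zero fun p hp => if_neg ?_
          rintro ⟨_, h2, _⟩
          rw [Finset.card_insert_of_notMem ((hX.mem_nb hτ).mp hp).1] at h2
          omega
      · exact bd_apply_not hτ
    rcases hξ _ hcch hcbd with h | h
    · right
      intro σ hσ hc
      have h1 := congrFun h σ
      have h2 : ¬ ε' (g • σ) = ε' σ := by
        intro h3
        have h4 : (if σ ∈ X ∧ σ.card = n + 1 ∧ ε' (g • σ) = ε' σ then (1 : ZMod 2) else 0) = 0 := h1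
        rw [if_pos ⟨hσ, hc, h3⟩] at h4
        exact one_ne_zero h4
      rcases hpm (g • σ) with h3 | h3 <;> rcases hpm σ with h4 | h4 <;> rw [h3, h4] at h2 ⊢
      · exact absurd rfl h2
      · rw [neg_neg]
      · exact absurd rfl h2
    · left
      intro σ hσ hc
      rw [← hone] at h
      have h1 := congrFun h σ
      have h2 : onesT X n σ = 1 := if_pos ⟨hσ, hc⟩
      rw [h2] at h1
      by_contra h3
      have h4 : (if σ ∈ X ∧ σ.card = n + 1 ∧ ε' (g • σ) = ε' σ then (1 : ZMod 2) else 0) = 1 := h1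
      rw [if_neg (fun h' => h3 h'.2.2)] at h4
      exact zero_ne_one h4
  -- the subgroup
  have hmul : ∀ (g h : Γ), (∀ σ ∈ X, σ.card = n + 1 → ε' (g • σ) = ε' σ) →
      (∀ σ ∈ X, σ.card = n + 1 → ε' (h • σ) = ε' σ) →
      ∀ σ ∈ X, σ.card = n + 1 → ε' ((g * h) • σ) = ε' σ := by
    intro g h hg hh σ hσ hc
    rw [mul_smul, hg _ (hX.inv h σ hσ) ((card_smul h σ).trans hc), hh σ hσ hc]
  have hinv : ∀ (g : Γ), (∀ σ ∈ X, σ.card = n + 1 → ε' (g • σ) = ε' σ) →
      ∀ σ ∈ X, σ.card = n + 1 → ε' (g⁻¹ • σ) = ε' σ := by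
    intro g hg σ hσ hc
    have h1 := hg _ (hX.inv g⁻¹ σ hσ) ((card_smul g⁻¹ σ).trans hc)
    rw [smul_inv_smul] at h1
    exact h1.symm
  let K : Subgroup Γ :=
    { carrier := {g | ∀ σ ∈ X, σ.card = n + 1 → ε' (g • σ) = ε' σ}
      mul_mem' := fun {g h} hg hh => hmul g h hg hh
      one_mem' := fun σ _ _ => by rw [one_smul]
      inv_mem' := fun {g} hg => hinv g hg }
  have hKmem : ∀ g, g ∈ K ↔ ∀ σ ∈ X, σ.card = n + 1 → ε' (g • σ) = ε' σ := fun g => Iff.rfl
  have hKK : ∀ g h : Γ, g ∉ K → h ∉ K → g⁻¹ * h ∈ K := by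
    intro g h hg hh
    have h1 := (hdich g).resolve_left hg
    have h2 := (hdich h).resolve_left hh
    rw [hKmem]
    intro σ hσ hc
    have h3 := hX.inv h σ hσ
    have h4 := hX.inv g⁻¹ _ h3
    have h5 := h1 (g⁻¹ • h • σ) h4 (by rw [card_smul, card_smul, hc])
    rw [smul_inv_smul, h2 σ hσ hc] at h5
    rw [mul_smul]
    linear_combination h5
  refine ⟨K, fun σ => ε' σ.1, ?_, hF, ?_⟩
  · by_cases hK : ∃ g, g ∉ K
    · obtain ⟨g0, hg0⟩ := hK
      have hfin : Finite (Γ ⧸ K) := by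
        refine Finite.of_surjective (fun b : Bool => if b then ((1 : Γ) : Γ ⧸ K)
          else ((g0 : Γ) : Γ ⧸ K)) ?_
        intro x
        obtain ⟨g, rfl⟩ := QuotientGroup.mk_surjective x
        by_cases hg : g ∈ K
        · refine ⟨true, ?_⟩
          show ((1 : Γ) : Γ ⧸ K) = ((g : Γ) : Γ ⧸ K)
          rw [QuotientGroup.eq, inv_one, one_mul]
          exact hg
        · refine ⟨false, ?_⟩
          show ((g0 : Γ) : Γ ⧸ K) = ((g : Γ) : Γ ⧸ K)
          rw [QuotientGroup.eq]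
          exact hKK g0 g hg0 hg
      exact Subgroup.finiteIndex_of_finite_quotient
    · push Not at hK
      have : K = ⊤ := (Subgroup.eq_top_iff' K).2 hK
      rw [this]
      infer_instance
  · intro h hh p hp
    exact hh p.1 p.2 hp

end SingerCub
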