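import Mathlib
import Pool.Agent.Lib_MP_394d50_cub.DDefs

/-!
# Piece DFC: the complex for the duality is a free cell complex

Facts: `X` is locally finite (`hX.cof_finite` in `VBase`, used in `SingerVS.freeCell_simp`); every simplex
has `card ≤ n + 1`, so `dim σ ≤ n` (`hdim`), and `dim σ ≤ dim τ` for `σ ⊆ τ`.
* `dim_smul`, `inc_smul`: from the invariance of `I` (`hI`) and of `ε` (`hε`).
* `inc_dim`: `inl x, inl y`: either `x.1 = y.1` and `I.inc x.2 y.2 ≠ 0`, so `dim y.2 = dim x.2 + 1`; or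
  `x.2 = y.2` and `dim x.1 = dim y.1 + 1` (natural subtractions are harmless as `dim σ ≤ dim τ`).
  (Both summands cannot be non-zero: `I.inc c c = 0`.) `inl x, [τ]`: `dim x.1 = 0`. `inl x, [σ]'`:
  `n + n - dim σ + 1 = 2 n + 1 - dim σ`. `[σ]', [σ']'`: `dim σ = dim σ' + 1`.
* `cvx_tau`, `cvx_sig`: if `q` is of the missing kind, `inc q r ≠ 0` forces `r` to be of that kind.
* `faces`, `cofaces` finite; `free` because `K` acts freely on the simplices; finitely many orbits: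
  every cell is in the orbit of one with first simplex a representative `r`, and there are finitely
  many `τ ⊇ r`.
* `sq p r`. (i) `p = (σ, τ)`, `r = (σ'', τ'')`: `q = (σ', τ')`. With `σ = σ' = σ''`: `∑ I.inc τ τ' I.inc τ' τ''`
  over `τ' ⊇ σ`; all `τ'` with non-zero term contain `τ ⊇ σ`; zero by `hs.sq`. With `τ = τ' = τ''`:
  `∑ I.inc σ' σ * I.inc σ'' σ'` over `σ' ⊆ τ`, automatic since `σ' ⊆ σ`; zero by `hs.sq σ'' σ`. Mixed:
  via `(σ, τ'')`: `(-1)^{dim σ} I.inc τ τ'' * I.inc σ'' σ`; via `(σ'', τ)`: `I.inc σ'' σ * (-1)^{dim σ''} I.inc τ τ''`;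
  the sum is zero as `dim σ = dim σ'' + 1` (when `I.inc σ'' σ ≠ 0`); both pairs exist when
  `I.inc τ τ'' ≠ 0` (`σ ⊆ τ ⊆ τ''`) and `I.inc σ'' σ ≠ 0` (`σ'' ⊆ σ ⊆ τ`).
  (ii) `p = (σ, τ)`, `r = [τ'']`: `q = (σ', τ'')` or `q = [τ']`. If `dim σ = 0`: via `[τ]`: `1 * (- I.inc τ τ'')`;
  via `(σ, τ'')`: `(-1)^0 * I.inc τ τ'' * 1`; sum zero (if `τ = τ''` both vanish). If `dim σ = 1`: only
  `τ = τ''` contributes: `∑_{σ'} I.inc σ' σ * 1` over the `σ'` with `dim σ' = 0`: the two vertices of the edge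
  `σ`; zero by `hs.edge`. If `dim σ ≥ 2`: zero.
  (iii) `p = (σ, τ)`, `r = [σ'']'`: `q = (σ', τ')` with `σ' = σ''`, `dim τ' = n`, or `q = [σ']'`. If `dim τ = n`: via
  `[σ]'`: `ε τ * (- I.inc σ'' σ)`; via `(σ'', τ)`: `I.inc σ'' σ * ε τ`; sum zero. If `dim τ + 1 = n`: only
  `σ = σ''` contributes: `∑_{τ'} (-1)^{dim σ} I.inc τ τ' * ε τ'`, zero by `hf.cyc τ` (`τ.card = n`).
  (iv) `p, r` both `[·]` or both `[·]'`: zero by `hs.sq`. All other cases: each term is zero.
-/

namespace SingerCub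

open SingerVS
open scoped Pointwise

section Aux

private theorem fsum_reindex {A B : Type} (f : A → ℤ) (g : B → ℤ) (φ : A → B)
    (h1 : ∀ a, f a ≠ 0 → f a = g (φ a)) (inj : ∀ a a', f a ≠ 0 → f a' ≠ 0 → φ a = φ a' → a = a')
    (surj : ∀ b, g b ≠ 0 → ∃ a, f a ≠ 0 ∧ φ a = b) : ∑ᶠ a, f a = ∑ᶠ b, g b := by
  rw [← finsum_mem_support f, ← finsum_mem_support g]
  refine finsum_mem_eq_of_bijOn φ ⟨?_, ?_, ?_⟩ ?_
  · intro a ha
    have ha' : f a ≠ 0 := ha
    show g (φ a) ≠ 0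
    rw [← h1 a ha']
    exact ha'
  · intro a ha a' ha' e
    exact inj a a' ha ha' e
  · intro b hb
    obtain ⟨a, ha, e⟩ := surj b hb
    exact ⟨a, ha, e⟩
  · intro a ha
    exact h1 a ha

private theorem fsum_sum {A B : Type} (f : A ⊕ B → ℤ) (hf : (Function.support f).Finite) :
    ∑ᶠ q, f q = (∑ᶠ a, f (Sum.inl a)) + ∑ᶠ b, f (Sum.inr b) := by
  classical
  have ha : (Function.support fun a => f (Sum.inl a)).Finite :=
    hf.preimage Sum.inl_injective.injOn
  have hb : (Function.support fun b => f (Sum.inr b)).Finite :=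
    hf.preimage Sum.inr_injective.injOn
  rw [finsum_eq_sum_of_support_subset (s := ha.toFinset.disjSum hb.toFinset) f ?_,
    Finset.sum_disjSum, finsum_eq_sum_of_support_subset (s := ha.toFinset) _ ?_,
    finsum_eq_sum_of_support_subset (s := hb.toFinset) _ ?_]
  · rw [Set.Finite.coe_toFinset]
  · rw [Set.Finite.coe_toFinset]
  · intro q hq
    rcases q with a | b
    · exact Finset.mem_coe.mpr (Finset.inl_mem_disjSum.mpr (ha.mem_toFinset.mpr hq))
    · exact Finset.mem_coe.mpr (Finset.inr_mem_disjSum.mpr (hb.mem_toFinset.mpr hq))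

private theorem fsum_single {A : Type} (f : A → ℤ) (a : A) (h : ∀ b, b ≠ a → f b = 0) :
    ∑ᶠ b, f b = f a := finsum_eq_single f a h

private theorem fsum_zero {A : Type} {f : A → ℤ} (h : ∀ b, f b = 0) :
    ∑ᶠ b, f b = 0 := by
  rw [finsum_congr h, finsum_zero]

end Aux

section Inc

variable {P : Type} [DecidableEq P] {X : Set (Finset P)} (I : CellCx (SX X)) (ε : SX X → ℤ) (n : ℕ)

open scoped Classical in
private theorem i_ll (x y : PT X) : (dualCx I ε n).inc (Sum.inl x) (Sum.inl y) =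
    (if x.1.1 = y.1.1 then (-1 : ℤ) ^ I.dim x.1.1 * I.inc x.1.2 y.1.2 else 0) +
          (if x.1.2 = y.1.2 then I.inc y.1.1 x.1.1 else 0) := rfl

open scoped Classical in
private theorem i_lt (x : PT X) (τ : SX X) :
    (dualCx I ε n).inc (Sum.inl x) (Sum.inr (Sum.inl τ)) =
      if x.1.2 = τ ∧ I.dim x.1.1 = 0 then 1 else 0 := rfl

open scoped Classical in
private theorem i_ls (x : PT X) (σ : SX X) :
    (dualCx I ε n).inc (Sum.inl x) (Sum.inr (Sum.inr σ)) =
      if x.1.1 = σ ∧ I.dim x.1.2 = n then ε x.1.2 else 0 := rfl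

private theorem i_tt (τ τ' : SX X) :
    (dualCx I ε n).inc (Sum.inr (Sum.inl τ)) (Sum.inr (Sum.inl τ')) = - I.inc τ τ' := rfl

private theorem i_ss (σ σ' : SX X) :
    (dualCx I ε n).inc (Sum.inr (Sum.inr σ)) (Sum.inr (Sum.inr σ')) = - I.inc σ' σ := rfl

private theorem i_rl (a : SX X ⊕ SX X) (y : PT X) :
    (dualCx I ε n).inc (Sum.inr a) (Sum.inl y) = 0 := by
  rcases a with a | a <;> rfl

private theorem i_ts (τ σ : SX X) :
    (dualCx I ε n).inc (Sum.inr (Sum.inl τ)) (Sum.inr (Sum.inr σ)) = 0 := rfl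

private theorem i_st (τ σ : SX X) :
    (dualCx I ε n).inc (Sum.inr (Sum.inr σ)) (Sum.inr (Sum.inl τ)) = 0 := rfl

end Inc

theorem cvx_tau {P : Type} [DecidableEq P] {X : Set (Finset P)} (I : CellCx (SX X))
    (ε : SX X → ℤ) (n : ℕ) : Cvx (dualCx I ε n) {x | ∀ σ, x ≠ Sum.inr (Sum.inr σ)} := by
  intro p q r _ hr _ hqr σ hσ
  subst hσ
  rcases r with r | r | r
  · exact hqr (i_rl I ε n _ _)
  · exact hqr (i_st I ε n _ _)
  · exact hr r rfl

theorem cvx_sig {P : Type} [DecidableEq P] {X : Set (Finset P)} (I : CellCx (SX X))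
    (ε : SX X → ℤ) (n : ℕ) : Cvx (dualCx I ε n) {x | ∀ τ, x ≠ Sum.inr (Sum.inl τ)} := by
  intro p q r _ hr _ hqr τ hτ
  subst hτ
  rcases r with r | r | r
  · exact hqr (i_rl I ε n _ _)
  · exact hr r rfl
  · exact hqr (i_ts I ε n _ _)

section Main

variable {K P : Type} [Group K] [DecidableEq P] [MulAction K P] {X : Set (Finset P)}

/-- The first simplex. -/
private def c1 : TC X → SX X
  | Sum.inl y => y.1.1
  | Sum.inr (Sum.inl τ) => τ
  | Sum.inr (Sum.inr σ) => σ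

/-- The second simplex. -/
private def c2 : TC X → SX X
  | Sum.inl y => y.1.2
  | Sum.inr (Sum.inl τ) => τ
  | Sum.inr (Sum.inr σ) => σ

/-- The kind of the cell. -/
private def kd : TC X → Fin 3
  | Sum.inl _ => 0
  | Sum.inr (Sum.inl _) => 1
  | Sum.inr (Sum.inr _) => 2

omit [DecidableEq P] in
private theorem c_inj : Function.Injective
    (fun x : TC X => ((c1 x, c2 x, kd x) : SX X × SX X × Fin 3)) := by
  intro x y h
  have h1 : c1 x = c1 y := congrArg (fun z => z.1) h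
  have h2 : c2 x = c2 y := congrArg (fun z => z.2.1) h
  have h3 : kd x = kd y := congrArg (fun z => z.2.2) h
  rcases x with x | x | x <;> rcases y with y | y | y
  · exact congrArg Sum.inl (Subtype.ext (Prod.ext h1 h2))
  · exact absurd h3 (show (0 : Fin 3) ≠ 1 by decide)
  · exact absurd h3 (show (0 : Fin 3) ≠ 2 by decide)
  · exact absurd h3 (show (1 : Fin 3) ≠ 0 by decide)
  · exact congrArg (fun z => Sum.inr (Sum.inl z)) h1
  · exact absurd h3 (show (1 : Fin 3) ≠ 2 by decide)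
  · exact absurd h3 (show (2 : Fin 3) ≠ 0 by decide)
  · exact absurd h3 (show (2 : Fin 3) ≠ 1 by decide)
  · exact congrArg (fun z => Sum.inr (Sum.inr z)) h1

omit [DecidableEq P] in
private theorem c_sub (x : TC X) : (c1 x).1 ⊆ (c2 x).1 := by
  rcases x with x | x | x
  · exact x.2
  · exact Finset.Subset.refl _
  · exact Finset.Subset.refl _

private def Nr (σ : SX X) : Set (SX X) := {τ | τ.1 ⊆ σ.1 ∨ σ.1 ⊆ τ.1}

omit [DecidableEq P] in
private theorem nr_symm {σ τ : SX X} (h : σ ∈ Nr τ) : τ ∈ Nr σ := Or.symm h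

omit [DecidableEq P] in
private theorem nr_refl (σ : SX X) : σ ∈ Nr σ := Or.inl (Finset.Subset.refl _)

private theorem up_fin (hX : FreeCx K X) (σ : SX X) : {τ : SX X | σ.1 ⊆ τ.1}.Finite := by
  refine Set.Finite.of_finite_image (f := Subtype.val) ?_ Subtype.val_injective.injOn
  refine (hX.cof_finite σ.2).subset ?_
  rintro _ ⟨q, hq, rfl⟩
  exact ⟨q.2, hq⟩

private theorem nr_fin (hX : FreeCx K X) (σ : SX X) : (Nr σ).Finite := by
  have h1 : {τ : SX X | τ.1 ⊆ σ.1}.Finite := by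
    refine Set.Finite.of_finite_image (f := Subtype.val) ?_ Subtype.val_injective.injOn
    refine (σ.1.powerset).finite_toSet.subset ?_
    rintro _ ⟨q, hq, rfl⟩
    exact Finset.mem_coe.mpr (Finset.mem_powerset.mpr hq)
  exact h1.union (up_fin hX σ)

variable {n : ℕ} {I : CellCx (SX X)} {ε : SX X → ℤ}

private theorem inc_sub (hs : SI X I) {σ τ : SX X} (h : I.inc σ τ ≠ 0) : σ.1 ⊆ τ.1 := by
  obtain ⟨v, _, e⟩ := (hs.fac σ τ).mp h
  rw [e]
  exact Finset.erase_subset v _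

private theorem inc_card (hs : SI X I) {σ τ : SX X} (h : I.inc σ τ ≠ 0) :
    σ.1.card + 1 = τ.1.card := by
  obtain ⟨v, hv, e⟩ := (hs.fac σ τ).mp h
  rw [e]
  exact Finset.card_erase_add_one hv

private theorem pos (hX : FreeCx K X) (σ : SX X) : 0 < σ.1.card :=
  Finset.card_pos.mpr (hX.ne _ σ.2)

private theorem inc_self (hs : SI X I) (σ : SX X) : I.inc σ σ = 0 := by
  by_contra h
  have := inc_card hs h
  omega

private theorem inc_dim' (hX : FreeCx K X) (hs : SI X I) {σ τ : SX X} (h : I.inc σ τ ≠ 0) :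
    I.dim τ = I.dim σ + 1 := by
  have h1 := inc_card hs h
  have h2 := pos hX σ
  rw [hs.dim, hs.dim]
  omega

private theorem dim_le (hs : SI X I) {σ τ : SX X} (h : σ.1 ⊆ τ.1) : I.dim σ ≤ I.dim τ := by
  rw [hs.dim, hs.dim]
  have := Finset.card_le_card h
  omega

private theorem rel (hs : SI X I) {p q : TC X} (h : (dualCx I ε n).inc p q ≠ 0) :
    c1 p ∈ Nr (c1 q) ∧ c2 p ∈ Nr (c2 q) := by
  classical
  rcases p with x | x | x <;> rcases q with y | y | y
  · rw [i_ll] at h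
    by_cases h1 : x.1.1 = y.1.1 ∧ I.inc x.1.2 y.1.2 ≠ 0
    · refine ⟨?_, Or.inl (inc_sub hs h1.2)⟩
      show x.1.1 ∈ Nr y.1.1
      rw [h1.1]
      exact nr_refl _
    · by_cases h2 : x.1.2 = y.1.2 ∧ I.inc y.1.1 x.1.1 ≠ 0
      · refine ⟨Or.inr (inc_sub hs h2.2), ?_⟩
        show x.1.2 ∈ Nr y.1.2
        rw [h2.1]
        exact nr_refl _
      · exfalso
        apply h
        have e1 : (if x.1.1 = y.1.1 then (-1 : ℤ) ^ I.dim x.1.1 * I.inc x.1.2 y.1.2 else 0) = 0 := by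
          split_ifs with h3
          · have : I.inc x.1.2 y.1.2 = 0 := by
              by_contra h4
              exact h1 ⟨h3, h4⟩
            rw [this, mul_zero]
          · rfl
        have e2 : (if x.1.2 = y.1.2 then I.inc y.1.1 x.1.1 else 0) = 0 := by
          split_ifs with h3
          · by_contra h4
            exact h2 ⟨h3, h4⟩
          · rfl
        rw [e1, e2, add_zero]
  · rw [i_lt] at h
    split_ifs at h with h1
    · refine ⟨Or.inl ?_, ?_⟩
      · show x.1.1.1 ⊆ y.1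
        rw [← h1.1]
        exact x.2
      · show x.1.2 ∈ Nr y
        rw [h1.1]
        exact nr_refl _
    · exact absurd rfl h
  · rw [i_ls] at h
    split_ifs at h with h1
    · refine ⟨?_, Or.inr ?_⟩
      · show x.1.1 ∈ Nr y
        rw [h1.1]
        exact nr_refl _
      · show y.1 ⊆ x.1.2.1
        rw [← h1.1]
        exact x.2
    · exact absurd rfl h
  · exact absurd (i_rl I ε n _ _) h
  · rw [i_tt] at h
    have h1 : I.inc x y ≠ 0 := fun e => h (by rw [e, neg_zero])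
    exact ⟨Or.inl (inc_sub hs h1), Or.inl (inc_sub hs h1)⟩
  · exact absurd (i_ts I ε n _ _) h
  · exact absurd (i_rl I ε n _ _) h
  · exact absurd (i_st I ε n _ _) h
  · rw [i_ss] at h
    have h1 : I.inc y x ≠ 0 := fun e => h (by rw [e, neg_zero])
    exact ⟨Or.inr (inc_sub hs h1), Or.inr (inc_sub hs h1)⟩

private theorem nr_set_fin (hX : FreeCx K X) (a b : SX X) :
    {p : TC X | c1 p ∈ Nr a ∧ c2 p ∈ Nr b}.Finite := by
  refine Set.Finite.of_finite_image
    (f := fun x : TC X => ((c1 x, c2 x, kd x) : SX X × SX X × Fin 3)) ?_ c_inj.injOn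
  refine ((nr_fin hX a).prod ((nr_fin hX b).prod (Set.finite_univ (α := Fin 3)))).subset ?_
  rintro _ ⟨p, hp, rfl⟩
  exact ⟨hp.1, hp.2, Set.mem_univ _⟩

private theorem faces' (hX : FreeCx K X) (hs : SI X I) (q : TC X) :
    {p | (dualCx I ε n).inc p q ≠ 0}.Finite :=
  (nr_set_fin hX (c1 q) (c2 q)).subset fun _ hp => rel hs hp

private theorem cofaces' (hX : FreeCx K X) (hs : SI X I) (p : TC X) :
    {q | (dualCx I ε n).inc p q ≠ 0}.Finite :=
  (nr_set_fin hX (c1 p) (c2 p)).subset fun _ hq =>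
    ⟨nr_symm (rel hs hq).1, nr_symm (rel hs hq).2⟩

private theorem supp_fin (hX : FreeCx K X) (hs : SI X I) (p r : TC X) :
    (Function.support fun q => (dualCx I ε n).inc p q * (dualCx I ε n).inc q r).Finite :=
  (cofaces' hX hs p).subset fun _ hq => left_ne_zero_of_mul hq

private theorem inc_dim'' (hX : FreeCx K X) (hdim : ∀ σ ∈ X, σ.card ≤ n + 1) (hs : SI X I)
    (p q : TC X) (h : (dualCx I ε n).inc p q ≠ 0) :
    (dualCx I ε n).dim q = (dualCx I ε n).dim p + 1 := by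
  classical
  have hdn : ∀ σ : SX X, I.dim σ ≤ n := by
    intro σ
    rw [hs.dim]
    have := hdim _ σ.2
    omega
  rcases p with x | x | x <;> rcases q with y | y | y
  · rw [i_ll] at h
    show n + I.dim y.1.2 - I.dim y.1.1 = n + I.dim x.1.2 - I.dim x.1.1 + 1
    have h1 := dim_le hs x.2
    have h2 := dim_le hs y.2
    by_cases h3 : x.1.1 = y.1.1 ∧ I.inc x.1.2 y.1.2 ≠ 0
    · have h4 := inc_dim' hX hs h3.2
      rw [← h3.1] at h2 ⊢
      omega
    · by_cases h5 : x.1.2 = y.1.2 ∧ I.inc y.1.1 x.1.1 ≠ 0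
      · have h4 := inc_dim' hX hs h5.2
        rw [← h5.1] at h2 ⊢
        omega
      · exfalso
        apply h
        have e1 : (if x.1.1 = y.1.1 then (-1 : ℤ) ^ I.dim x.1.1 * I.inc x.1.2 y.1.2 else 0) = 0 := by
          split_ifs with h6
          · have : I.inc x.1.2 y.1.2 = 0 := by
              by_contra h4
              exact h3 ⟨h6, h4⟩
            rw [this, mul_zero]
          · rfl
        have e2 : (if x.1.2 = y.1.2 then I.inc y.1.1 x.1.1 else 0) = 0 := by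
          split_ifs with h6
          · by_contra h4
            exact h5 ⟨h6, h4⟩
          · rfl
        rw [e1, e2, add_zero]
  · rw [i_lt] at h
    split_ifs at h with h1
    · show n + I.dim y + 1 = n + I.dim x.1.2 - I.dim x.1.1 + 1
      rw [h1.1, h1.2]
      omega
    · exact absurd rfl h
  · rw [i_ls] at h
    split_ifs at h with h1
    · show 2 * n + 1 - I.dim y = n + I.dim x.1.2 - I.dim x.1.1 + 1
      rw [← h1.1, h1.2]
      have := hdn x.1.1
      omega
    · exact absurd rfl h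
  · exact absurd (i_rl I ε n _ _) h
  · rw [i_tt] at h
    have h1 : I.inc x y ≠ 0 := fun e => h (by rw [e, neg_zero])
    show n + I.dim y + 1 = n + I.dim x + 1 + 1
    rw [inc_dim' hX hs h1]
    omega
  · exact absurd (i_ts I ε n _ _) h
  · exact absurd (i_rl I ε n _ _) h
  · exact absurd (i_st I ε n _ _) h
  · rw [i_ss] at h
    have h1 : I.inc y x ≠ 0 := fun e => h (by rw [e, neg_zero])
    show 2 * n + 1 - I.dim y = 2 * n + 1 - I.dim x + 1
    have h2 := inc_dim' hX hs h1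
    have h3 := hdn x
    omega

/-! ### The square -/

/-- The two parts of the incidence number of pairs. -/
private noncomputable def pA (I : CellCx (SX X)) (x y : PT X) : ℤ :=
  open scoped Classical in
  if x.1.1 = y.1.1 then (-1 : ℤ) ^ I.dim x.1.1 * I.inc x.1.2 y.1.2 else 0

private noncomputable def pB (I : CellCx (SX X)) (x y : PT X) : ℤ :=
  open scoped Classical in
  if x.1.2 = y.1.2 then I.inc y.1.1 x.1.1 else 0

private theorem i_ll' (x y : PT X) : (dualCx I ε n).inc (Sum.inl x) (Sum.inl y) =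
    pA I x y + pB I x y := rfl

private theorem pA_ne {x y : PT X} (h : pA I x y ≠ 0) :
    x.1.1 = y.1.1 ∧ I.inc x.1.2 y.1.2 ≠ 0 ∧ pA I x y = (-1 : ℤ) ^ I.dim x.1.1 * I.inc x.1.2 y.1.2 := by
  unfold pA at h ⊢
  split_ifs at h ⊢ with h1
  · exact ⟨h1, right_ne_zero_of_mul h, rfl⟩
  · exact absurd rfl h

private theorem pB_ne {x y : PT X} (h : pB I x y ≠ 0) :
    x.1.2 = y.1.2 ∧ I.inc y.1.1 x.1.1 ≠ 0 ∧ pB I x y = I.inc y.1.1 x.1.1 := by
  unfold pB at h ⊢
  split_ifs at h ⊢ with h1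
  · exact ⟨h1, h, rfl⟩
  · exact absurd rfl h

private theorem pA_eq {x y : PT X} (h : x.1.1 = y.1.1) :
    pA I x y = (-1 : ℤ) ^ I.dim x.1.1 * I.inc x.1.2 y.1.2 := if_pos h

private theorem pB_eq {x y : PT X} (h : x.1.2 = y.1.2) :
    pB I x y = I.inc y.1.1 x.1.1 := if_pos h

private theorem pA_fin (hX : FreeCx K X) (hs : SI X I) (x : PT X) :
    {y | pA I x y ≠ 0}.Finite := by
  have h1 := (nr_set_fin hX x.1.1 x.1.2).preimage (f := (Sum.inl : PT X → TC X))
    Sum.inl_injective.injOn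
  refine h1.subset fun y hy => ?_
  obtain ⟨e, h2, _⟩ := pA_ne hy
  refine ⟨?_, Or.inr (inc_sub hs h2)⟩
  show y.1.1 ∈ Nr x.1.1
  rw [e]
  exact nr_refl _

private theorem pB_fin (hX : FreeCx K X) (hs : SI X I) (x : PT X) :
    {y | pB I x y ≠ 0}.Finite := by
  have h1 := (nr_set_fin hX x.1.1 x.1.2).preimage (f := (Sum.inl : PT X → TC X))
    Sum.inl_injective.injOn
  refine h1.subset fun y hy => ?_
  obtain ⟨e, h2, _⟩ := pB_ne hy
  refine ⟨Or.inl (inc_sub hs h2), ?_⟩
  show y.1.2 ∈ Nr x.1.2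
  rw [e]
  exact nr_refl _

/-- Splitting the sum. -/
private theorem split_AB (hX : FreeCx K X) (hs : SI X I) (x : PT X) (f : PT X → ℤ) :
    ∑ᶠ y, (pA I x y + pB I x y) * f y = (∑ᶠ y, pA I x y * f y) + ∑ᶠ y, pB I x y * f y := by
  rw [← finsum_add_distrib]
  · exact finsum_congr fun y => add_mul _ _ _
  · exact (pA_fin hX hs x).subset fun y hy => left_ne_zero_of_mul hy
  · exact (pB_fin hX hs x).subset fun y hy => left_ne_zero_of_mul hy

private theorem sum_AA (hs : SI X I) (x z : PT X) : ∑ᶠ y, pA I x y * pA I y z = 0 := by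
  by_cases h : x.1.1 = z.1.1
  · rw [← hs.sq x.1.2 z.1.2]
    refine fsum_reindex _ _ (fun y => y.1.2) ?_ ?_ ?_
    · intro y hy
      obtain ⟨e1, h1, h2⟩ := pA_ne (left_ne_zero_of_mul hy)
      obtain ⟨e3, h3, h4⟩ := pA_ne (right_ne_zero_of_mul hy)
      rw [h2, h4, ← e1]
      have h5 : ((-1 : ℤ) ^ I.dim x.1.1) * ((-1 : ℤ) ^ I.dim x.1.1) = 1 := by
        rw [← mul_pow]
        norm_num
      calc (-1 : ℤ) ^ I.dim x.1.1 * I.inc x.1.2 y.1.2 * ((-1) ^ I.dim x.1.1 * I.inc y.1.2 z.1.2)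
          = ((-1 : ℤ) ^ I.dim x.1.1) * ((-1 : ℤ) ^ I.dim x.1.1) *
            (I.inc x.1.2 y.1.2 * I.inc y.1.2 z.1.2) := by ring
        _ = _ := by rw [h5, one_mul]
    · intro y y' hy hy' e
      obtain ⟨e1, _⟩ := pA_ne (left_ne_zero_of_mul hy)
      obtain ⟨e2, _⟩ := pA_ne (left_ne_zero_of_mul hy')
      exact Subtype.ext (Prod.ext (e1.symm.trans e2) e)
    · intro b hb
      have h1 := left_ne_zero_of_mul hb
      have h2 := right_ne_zero_of_mul hb
      have h3 : x.1.1.1 ⊆ b.1 := x.2.trans (inc_sub hs h1)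
      refine ⟨⟨(x.1.1, b), h3⟩, ?_, rfl⟩
      rw [pA_eq (x := x) (y := ⟨(x.1.1, b), h3⟩) rfl,
        pA_eq (x := ⟨(x.1.1, b), h3⟩) (y := z) h]
      exact mul_ne_zero (mul_ne_zero (pow_ne_zero _ (by norm_num)) h1)
        (mul_ne_zero (pow_ne_zero _ (by norm_num)) h2)
  · refine fsum_zero fun y => ?_
    by_contra hy
    obtain ⟨e1, h1, h2⟩ := pA_ne (left_ne_zero_of_mul hy)
    obtain ⟨e3, h3, h4⟩ := pA_ne (right_ne_zero_of_mul hy)
    exact h (e1.trans e3)

private theorem sum_BB (hs : SI X I) (x z : PT X) :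
    ∑ᶠ y, pB I x y * pB I y z = 0 := by
  by_cases h : x.1.2 = z.1.2
  · rw [← hs.sq z.1.1 x.1.1]
    refine fsum_reindex _ _ (fun y => y.1.1) ?_ ?_ ?_
    · intro y hy
      obtain ⟨e1, h1, h2⟩ := pB_ne (left_ne_zero_of_mul hy)
      obtain ⟨e3, h3, h4⟩ := pB_ne (right_ne_zero_of_mul hy)
      rw [h2, h4, mul_comm]
    · intro y y' hy hy' e
      obtain ⟨e1, _⟩ := pB_ne (left_ne_zero_of_mul hy)
      obtain ⟨e2, _⟩ := pB_ne (left_ne_zero_of_mul hy')
      exact Subtype.ext (Prod.ext e (e1.symm.trans e2))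
    · intro b hb
      have h1 := left_ne_zero_of_mul hb
      have h2 := right_ne_zero_of_mul hb
      have h3 : b.1 ⊆ x.1.2.1 := (inc_sub hs h2).trans x.2
      refine ⟨⟨(b, x.1.2), h3⟩, ?_, rfl⟩
      rw [pB_eq (x := x) (y := ⟨(b, x.1.2), h3⟩) rfl,
        pB_eq (x := ⟨(b, x.1.2), h3⟩) (y := z) h]
      exact mul_ne_zero h2 h1
  · refine fsum_zero fun y => ?_
    by_contra hy
    obtain ⟨e1, h1, h2⟩ := pB_ne (left_ne_zero_of_mul hy)
    obtain ⟨e3, h3, h4⟩ := pB_ne (right_ne_zero_of_mul hy)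
    exact h (e1.trans e3)

private theorem sum_AB (hs : SI X I) (x z : PT X) : ∑ᶠ y, pA I x y * pB I y z =
    (-1 : ℤ) ^ I.dim x.1.1 * (I.inc x.1.2 z.1.2 * I.inc z.1.1 x.1.1) := by
  by_cases h : I.inc x.1.2 z.1.2 * I.inc z.1.1 x.1.1 = 0
  · rw [h, mul_zero]
    refine fsum_zero fun y => ?_
    by_contra hy
    obtain ⟨e1, h1, h2⟩ := pA_ne (left_ne_zero_of_mul hy)
    obtain ⟨e3, h3, h4⟩ := pB_ne (right_ne_zero_of_mul hy)
    rw [e3] at h1
    rw [← e1] at h3
    exact mul_ne_zero h1 h3 h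
  · have h1 := left_ne_zero_of_mul h
    have h2 := right_ne_zero_of_mul h
    have h3 : x.1.1.1 ⊆ z.1.2.1 := x.2.trans (inc_sub hs h1)
    rw [fsum_single _ (⟨(x.1.1, z.1.2), h3⟩ : PT X)]
    · rw [pA_eq (x := x) (y := ⟨(x.1.1, z.1.2), h3⟩) rfl,
        pB_eq (x := ⟨(x.1.1, z.1.2), h3⟩) (y := z) rfl, mul_assoc]
    · intro y hne
      by_contra hy
      obtain ⟨e1, _⟩ := pA_ne (left_ne_zero_of_mul hy)
      obtain ⟨e3, _⟩ := pB_ne (right_ne_zero_of_mul hy)
      exact hne (Subtype.ext (Prod.ext e1.symm e3))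

private theorem sum_BA (hs : SI X I) (x z : PT X) : ∑ᶠ y, pB I x y * pA I y z =
    (-1 : ℤ) ^ I.dim z.1.1 * (I.inc x.1.2 z.1.2 * I.inc z.1.1 x.1.1) := by
  by_cases h : I.inc x.1.2 z.1.2 * I.inc z.1.1 x.1.1 = 0
  · rw [h, mul_zero]
    refine fsum_zero fun y => ?_
    by_contra hy
    obtain ⟨e1, h1, h2⟩ := pB_ne (left_ne_zero_of_mul hy)
    obtain ⟨e3, h3, h4⟩ := pA_ne (right_ne_zero_of_mul hy)
    rw [e3] at h1
    rw [← e1] at h3
    exact mul_ne_zero h3 h1 h
  · have h1 := left_ne_zero_of_mul h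
    have h2 := right_ne_zero_of_mul h
    have h3 : z.1.1.1 ⊆ x.1.2.1 := (inc_sub hs h2).trans x.2
    rw [fsum_single _ (⟨(z.1.1, x.1.2), h3⟩ : PT X)]
    · rw [pB_eq (x := x) (y := ⟨(z.1.1, x.1.2), h3⟩) rfl,
        pA_eq (x := ⟨(z.1.1, x.1.2), h3⟩) (y := z) rfl]
      ring
    · intro y hne
      by_contra hy
      obtain ⟨e1, _⟩ := pB_ne (left_ne_zero_of_mul hy)
      obtain ⟨e3, _⟩ := pA_ne (right_ne_zero_of_mul hy)
      exact hne (Subtype.ext (Prod.ext e3 e1.symm))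

private theorem sq_ll (hX : FreeCx K X) (hs : SI X I) (x z : PT X) :
    ∑ᶠ y, (pA I x y + pB I x y) * (pA I y z + pB I y z) = 0 := by
  rw [split_AB hX hs]
  have e1 : ∑ᶠ y, pA I x y * (pA I y z + pB I y z) =
      (∑ᶠ y, pA I x y * pA I y z) + ∑ᶠ y, pA I x y * pB I y z := by
    rw [← finsum_add_distrib]
    · exact finsum_congr fun y => mul_add _ _ _
    · exact (pA_fin hX hs x).subset fun y hy => left_ne_zero_of_mul hy
    · exact (pA_fin hX hs x).subset fun y hy => left_ne_zero_of_mul hy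
  have e2 : ∑ᶠ y, pB I x y * (pA I y z + pB I y z) =
      (∑ᶠ y, pB I x y * pA I y z) + ∑ᶠ y, pB I x y * pB I y z := by
    rw [← finsum_add_distrib]
    · exact finsum_congr fun y => mul_add _ _ _
    · exact (pB_fin hX hs x).subset fun y hy => left_ne_zero_of_mul hy
    · exact (pB_fin hX hs x).subset fun y hy => left_ne_zero_of_mul hy
  rw [e1, e2, sum_AA hs, sum_AB hs, sum_BA hs, sum_BB hs, zero_add, add_zero]
  by_cases h : I.inc x.1.2 z.1.2 * I.inc z.1.1 x.1.1 = 0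
  · rw [h, mul_zero, mul_zero, add_zero]
  · rw [inc_dim' hX hs (right_ne_zero_of_mul h), pow_succ]
    ring

open scoped Classical in
private theorem sq_lt (hX : FreeCx K X) (hs : SI X I) (x : PT X) (τ : SX X) :
    (∑ᶠ y : PT X, (pA I x y + pB I x y) * (if y.1.2 = τ ∧ I.dim y.1.1 = 0 then 1 else 0)) +
      ∑ᶠ τ' : SX X, (if x.1.2 = τ' ∧ I.dim x.1.1 = 0 then 1 else 0) * (- I.inc τ' τ) = 0 := by
  rw [split_AB hX hs]
  have e1 : ∑ᶠ y : PT X, pA I x y * (if y.1.2 = τ ∧ I.dim y.1.1 = 0 then 1 else 0) =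
      if I.dim x.1.1 = 0 then I.inc x.1.2 τ else 0 := by
    by_cases h : I.dim x.1.1 = 0 ∧ I.inc x.1.2 τ ≠ 0
    · rw [if_pos h.1]
      have h3 : x.1.1.1 ⊆ τ.1 := x.2.trans (inc_sub hs h.2)
      rw [fsum_single _ (⟨(x.1.1, τ), h3⟩ : PT X)]
      · rw [pA_eq (x := x) (y := ⟨(x.1.1, τ), h3⟩) rfl, if_pos ⟨rfl, h.1⟩, h.1, pow_zero, one_mul,
          mul_one]
      · intro y hne
        by_contra hy
        obtain ⟨e1, _⟩ := pA_ne (left_ne_zero_of_mul hy)
        have h4 := right_ne_zero_of_mul hy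
        split_ifs at h4 with h5
        · exact hne (Subtype.ext (Prod.ext e1.symm h5.1))
        · exact h4 rfl
    · have e0 : (if I.dim x.1.1 = 0 then I.inc x.1.2 τ else 0) = 0 := by
        split_ifs with h1
        · by_contra h2
          exact h ⟨h1, h2⟩
        · rfl
      rw [e0]
      refine fsum_zero fun y => ?_
      by_contra hy
      obtain ⟨e1, h1, _⟩ := pA_ne (left_ne_zero_of_mul hy)
      have h4 := right_ne_zero_of_mul hy
      split_ifs at h4 with h5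
      · rw [h5.1] at h1
        rw [← e1] at h5
        exact h ⟨h5.2, h1⟩
      · exact h4 rfl
  have e2 : ∑ᶠ y : PT X, pB I x y * (if y.1.2 = τ ∧ I.dim y.1.1 = 0 then 1 else 0) = 0 := by
    by_cases h : x.1.2 = τ ∧ x.1.1.1.card = 2
    · obtain ⟨v, w, hvw, hxe⟩ := Finset.card_eq_two.mp h.2
      have hv : ({v} : Finset P) ⊆ x.1.1.1 := by
        rw [hxe]
        exact Finset.singleton_subset_iff.mpr (Finset.mem_insert_self v _)
      have hw : ({w} : Finset P) ⊆ x.1.1.1 := by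
        rw [hxe]
        exact Finset.singleton_subset_iff.mpr
          (Finset.mem_insert_of_mem (Finset.mem_singleton_self w))
      have mv : ({v} : Finset P) ∈ X := hX.down _ x.1.1.2 _ hv (Finset.singleton_nonempty v)
      have mw : ({w} : Finset P) ∈ X := hX.down _ x.1.1.2 _ hw (Finset.singleton_nonempty w)
      have hne : (⟨((⟨{v}, mv⟩ : SX X), x.1.2), hv.trans x.2⟩ : PT X) ≠
          ⟨((⟨{w}, mw⟩ : SX X), x.1.2), hw.trans x.2⟩ := by
        intro e
        have e1 : ({v} : Finset P) = {w} := congrArg (fun z : PT X => z.1.1.1) e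
        exact hvw (Finset.singleton_injective e1)
      rw [finsum_eq_sum_of_support_subset
        (s := {(⟨((⟨{v}, mv⟩ : SX X), x.1.2), hv.trans x.2⟩ : PT X),
          ⟨((⟨{w}, mw⟩ : SX X), x.1.2), hw.trans x.2⟩}), Finset.sum_pair hne]
      · have d1 : I.dim (⟨{v}, mv⟩ : SX X) = 0 := by
          rw [hs.dim]
          rfl
        have d2 : I.dim (⟨{w}, mw⟩ : SX X) = 0 := by
          rw [hs.dim]
          rfl
        rw [if_pos ⟨h.1, d1⟩, if_pos ⟨h.1, d2⟩, mul_one, mul_one,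
          pB_eq (x := x) (y := ⟨((⟨{v}, mv⟩ : SX X), x.1.2), hv.trans x.2⟩) rfl,
          pB_eq (x := x) (y := ⟨((⟨{w}, mw⟩ : SX X), x.1.2), hw.trans x.2⟩) rfl]
        refine hs.edge ⟨{v}, mv⟩ ⟨{w}, mw⟩ x.1.1 ?_ rfl rfl h.2 hv hw
        intro e
        exact hvw (Finset.singleton_injective (congrArg Subtype.val e))
      · intro y hy
        obtain ⟨e1, h1, _⟩ := pB_ne (left_ne_zero_of_mul hy)
        obtain ⟨u, hu, e⟩ := (hs.fac _ _).mp h1
        rw [Finset.coe_insert, Finset.coe_singleton]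
        have hu' : u = v ∨ u = w := by
          rw [hxe] at hu
          exact (Finset.mem_insert.mp hu).imp id Finset.mem_singleton.mp
        rcases hu' with rfl | rfl
        · right
          refine Subtype.ext (Prod.ext (Subtype.ext ?_) e1.symm)
          show y.1.1.1 = {w}
          rw [e, hxe, Finset.erase_insert (Finset.notMem_singleton.mpr hvw)]
        · left
          refine Subtype.ext (Prod.ext (Subtype.ext ?_) e1.symm)
          show y.1.1.1 = {v}
          rw [e, hxe, Finset.pair_comm, Finset.erase_insert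
            (Finset.notMem_singleton.mpr (Ne.symm hvw))]
    · refine fsum_zero fun y => ?_
      by_contra hy
      obtain ⟨e1, h1, _⟩ := pB_ne (left_ne_zero_of_mul hy)
      have h4 := right_ne_zero_of_mul hy
      split_ifs at h4 with h5
      · refine h ⟨e1.trans h5.1, ?_⟩
        have h6 := inc_card hs h1
        have h7 := pos hX y.1.1
        have h8 := h5.2
        rw [hs.dim] at h8
        omega
      · exact h4 rfl
  have e3 : ∑ᶠ τ' : SX X, (if x.1.2 = τ' ∧ I.dim x.1.1 = 0 then 1 else 0) * (- I.inc τ' τ) =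
      - if I.dim x.1.1 = 0 then I.inc x.1.2 τ else 0 := by
    rw [fsum_single _ x.1.2]
    · split_ifs with h1 h2 h2
      · rw [one_mul]
      · exact absurd h1.2 h2
      · exact absurd ⟨rfl, h2⟩ h1
      · rw [zero_mul, neg_zero]
    · intro τ' hne
      rw [if_neg (fun h => hne h.1.symm), zero_mul]
  rw [e1, e2, e3, add_zero, add_neg_cancel]

open scoped Classical in
private theorem sq_ls (hX : FreeCx K X) (hs : SI X I) (hf : Fund n X I ε) (x : PT X) (σ : SX X) :
    (∑ᶠ y : PT X, (pA I x y + pB I x y) *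
        (if y.1.1 = σ ∧ I.dim y.1.2 = n then ε y.1.2 else 0)) +
      ∑ᶠ σ' : SX X, (if x.1.1 = σ' ∧ I.dim x.1.2 = n then ε x.1.2 else 0) * (- I.inc σ σ') = 0 := by
  rw [split_AB hX hs]
  have e1 : ∑ᶠ y : PT X, pA I x y * (if y.1.1 = σ ∧ I.dim y.1.2 = n then ε y.1.2 else 0) = 0 := by
    by_cases h : x.1.1 = σ ∧ x.1.2.1.card = n
    · have h0 : ∑ᶠ τ', (-1 : ℤ) ^ I.dim x.1.1 * (I.inc x.1.2 τ' * ε τ') = 0 := by
        rw [← mul_finsum, hf.cyc x.1.2 h.2, mul_zero]
      rw [← h0]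
      have hd : ∀ τ', I.inc x.1.2 τ' ≠ 0 → I.dim τ' = n := by
        intro τ' hτ'
        have h1 := inc_card hs hτ'
        rw [hs.dim]
        omega
      refine fsum_reindex _ _ (fun y => y.1.2) ?_ ?_ ?_
      · intro y hy
        obtain ⟨e1, h1, h2⟩ := pA_ne (left_ne_zero_of_mul hy)
        rw [h2, if_pos ⟨e1.symm.trans h.1, hd _ h1⟩, mul_assoc]
      · intro y y' hy hy' e
        obtain ⟨e1, _⟩ := pA_ne (left_ne_zero_of_mul hy)
        obtain ⟨e2, _⟩ := pA_ne (left_ne_zero_of_mul hy')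
        exact Subtype.ext (Prod.ext (e1.symm.trans e2) e)
      · intro b hb
        have h1 := left_ne_zero_of_mul (right_ne_zero_of_mul hb)
        have h2 := right_ne_zero_of_mul (right_ne_zero_of_mul hb)
        have h3 : x.1.1.1 ⊆ b.1 := x.2.trans (inc_sub hs h1)
        refine ⟨⟨(x.1.1, b), h3⟩, ?_, rfl⟩
        rw [pA_eq (x := x) (y := ⟨(x.1.1, b), h3⟩) rfl, if_pos ⟨h.1, hd _ h1⟩]
        exact mul_ne_zero (mul_ne_zero (pow_ne_zero _ (by norm_num)) h1) h2
    · refine fsum_zero fun y => ?_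
      by_contra hy
      obtain ⟨e1, h1, _⟩ := pA_ne (left_ne_zero_of_mul hy)
      have h4 := right_ne_zero_of_mul hy
      split_ifs at h4 with h5
      · refine h ⟨e1.trans h5.1, ?_⟩
        have h6 := inc_card hs h1
        have h8 := h5.2
        rw [hs.dim] at h8
        omega
      · exact h4 rfl
  have e2 : ∑ᶠ y : PT X, pB I x y * (if y.1.1 = σ ∧ I.dim y.1.2 = n then ε y.1.2 else 0) =
      if I.dim x.1.2 = n then I.inc σ x.1.1 * ε x.1.2 else 0 := by
    by_cases h : I.dim x.1.2 = n ∧ I.inc σ x.1.1 ≠ 0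
    · rw [if_pos h.1]
      have h3 : σ.1 ⊆ x.1.2.1 := (inc_sub hs h.2).trans x.2
      rw [fsum_single _ (⟨(σ, x.1.2), h3⟩ : PT X)]
      · rw [pB_eq (x := x) (y := ⟨(σ, x.1.2), h3⟩) rfl, if_pos ⟨rfl, h.1⟩]
      · intro y hne
        by_contra hy
        obtain ⟨e1, _⟩ := pB_ne (left_ne_zero_of_mul hy)
        have h4 := right_ne_zero_of_mul hy
        split_ifs at h4 with h5
        · exact hne (Subtype.ext (Prod.ext h5.1 e1.symm))
        · exact h4 rfl
    · have e0 : (if I.dim x.1.2 = n then I.inc σ x.1.1 * ε x.1.2 else 0) = 0 := by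
        split_ifs with h1
        · have h2 : I.inc σ x.1.1 = 0 := by
            by_contra h2
            exact h ⟨h1, h2⟩
          rw [h2, zero_mul]
        · rfl
      rw [e0]
      refine fsum_zero fun y => ?_
      by_contra hy
      obtain ⟨e1, h1, _⟩ := pB_ne (left_ne_zero_of_mul hy)
      have h4 := right_ne_zero_of_mul hy
      split_ifs at h4 with h5
      · rw [h5.1] at h1
        rw [← e1] at h5
        exact h ⟨h5.2, h1⟩
      · exact h4 rfl
  have e3 : ∑ᶠ σ' : SX X, (if x.1.1 = σ' ∧ I.dim x.1.2 = n then ε x.1.2 else 0) *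
      (- I.inc σ σ') = - if I.dim x.1.2 = n then I.inc σ x.1.1 * ε x.1.2 else 0 := by
    rw [fsum_single _ x.1.1]
    · split_ifs with h1 h2 h2
      · ring
      · exact absurd h1.2 h2
      · exact absurd ⟨rfl, h2⟩ h1
      · rw [zero_mul, neg_zero]
    · intro τ' hne
      rw [if_neg (fun h => hne h.1.symm), zero_mul]
  rw [e1, e2, e3, zero_add, add_neg_cancel]

private theorem sq' (hX : FreeCx K X) (hs : SI X I) (hf : Fund n X I ε) (p r : TC X) :
    ∑ᶠ q, (dualCx I ε n).inc p q * (dualCx I ε n).inc q r = 0 := by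
  classical
  have hfin := supp_fin (ε := ε) (n := n) hX hs p r
  have hfin2 : (Function.support fun q => (dualCx I ε n).inc p (Sum.inr q) *
      (dualCx I ε n).inc (Sum.inr q) r).Finite := hfin.preimage Sum.inr_injective.injOn
  rw [fsum_sum _ hfin, fsum_sum _ hfin2]
  rcases p with x | x | x <;> rcases r with z | z | z
  · have h1 : ∑ᶠ a : SX X, (dualCx I ε n).inc (Sum.inl x) (Sum.inr (Sum.inl a)) *
        (dualCx I ε n).inc (Sum.inr (Sum.inl a)) (Sum.inl z) = 0 :=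
      fsum_zero fun a => by rw [i_rl, mul_zero]
    have h2 : ∑ᶠ a : SX X, (dualCx I ε n).inc (Sum.inl x) (Sum.inr (Sum.inr a)) *
        (dualCx I ε n).inc (Sum.inr (Sum.inr a)) (Sum.inl z) = 0 :=
      fsum_zero fun a => by rw [i_rl, mul_zero]
    rw [h1, h2, add_zero, add_zero]
    exact sq_ll hX hs x z
  · have h2 : ∑ᶠ a : SX X, (dualCx I ε n).inc (Sum.inl x) (Sum.inr (Sum.inr a)) *
        (dualCx I ε n).inc (Sum.inr (Sum.inr a)) (Sum.inr (Sum.inl z)) = 0 :=
      fsum_zero fun a => by rw [i_st, mul_zero]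
    rw [h2, add_zero]
    exact sq_lt hX hs x z
  · have h1 : ∑ᶠ a : SX X, (dualCx I ε n).inc (Sum.inl x) (Sum.inr (Sum.inl a)) *
        (dualCx I ε n).inc (Sum.inr (Sum.inl a)) (Sum.inr (Sum.inr z)) = 0 :=
      fsum_zero fun a => by rw [i_ts, mul_zero]
    rw [h1, zero_add]
    exact sq_ls hX hs hf x z
  · have h0 : ∑ᶠ a : PT X, (dualCx I ε n).inc (Sum.inr (Sum.inl x)) (Sum.inl a) *
        (dualCx I ε n).inc (Sum.inl a) (Sum.inl z) = 0 :=
      fsum_zero fun a => by rw [i_rl, zero_mul]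
    have h1 : ∑ᶠ a : SX X, (dualCx I ε n).inc (Sum.inr (Sum.inl x)) (Sum.inr (Sum.inl a)) *
        (dualCx I ε n).inc (Sum.inr (Sum.inl a)) (Sum.inl z) = 0 :=
      fsum_zero fun a => by rw [i_rl, mul_zero]
    have h2 : ∑ᶠ a : SX X, (dualCx I ε n).inc (Sum.inr (Sum.inl x)) (Sum.inr (Sum.inr a)) *
        (dualCx I ε n).inc (Sum.inr (Sum.inr a)) (Sum.inl z) = 0 :=
      fsum_zero fun a => by rw [i_rl, mul_zero]
    rw [h0, h1, h2]
    rfl
  · have h0 : ∑ᶠ a : PT X, (dualCx I ε n).inc (Sum.inr (Sum.inl x)) (Sum.inl a) *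
        (dualCx I ε n).inc (Sum.inl a) (Sum.inr (Sum.inl z)) = 0 :=
      fsum_zero fun a => by rw [i_rl, zero_mul]
    have h1 : ∑ᶠ a : SX X, (dualCx I ε n).inc (Sum.inr (Sum.inl x)) (Sum.inr (Sum.inl a)) *
        (dualCx I ε n).inc (Sum.inr (Sum.inl a)) (Sum.inr (Sum.inl z)) = 0 := by
      rw [← hs.sq x z]
      exact finsum_congr fun a => by rw [i_tt, i_tt, neg_mul_neg]
    have h2 : ∑ᶠ a : SX X, (dualCx I ε n).inc (Sum.inr (Sum.inl x)) (Sum.inr (Sum.inr a)) *
        (dualCx I ε n).inc (Sum.inr (Sum.inr a)) (Sum.inr (Sum.inl z)) = 0 :=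
      fsum_zero fun a => by rw [i_st, mul_zero]
    rw [h0, h1, h2]
    rfl
  · have h0 : ∑ᶠ a : PT X, (dualCx I ε n).inc (Sum.inr (Sum.inl x)) (Sum.inl a) *
        (dualCx I ε n).inc (Sum.inl a) (Sum.inr (Sum.inr z)) = 0 :=
      fsum_zero fun a => by rw [i_rl, zero_mul]
    have h1 : ∑ᶠ a : SX X, (dualCx I ε n).inc (Sum.inr (Sum.inl x)) (Sum.inr (Sum.inl a)) *
        (dualCx I ε n).inc (Sum.inr (Sum.inl a)) (Sum.inr (Sum.inr z)) = 0 :=
      fsum_zero fun a => by rw [i_ts, mul_zero]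
    have h2 : ∑ᶠ a : SX X, (dualCx I ε n).inc (Sum.inr (Sum.inl x)) (Sum.inr (Sum.inr a)) *
        (dualCx I ε n).inc (Sum.inr (Sum.inr a)) (Sum.inr (Sum.inr z)) = 0 :=
      fsum_zero fun a => by rw [i_ts, zero_mul]
    rw [h0, h1, h2]
    rfl
  · have h0 : ∑ᶠ a : PT X, (dualCx I ε n).inc (Sum.inr (Sum.inr x)) (Sum.inl a) *
        (dualCx I ε n).inc (Sum.inl a) (Sum.inl z) = 0 :=
      fsum_zero fun a => by rw [i_rl, zero_mul]
    have h1 : ∑ᶠ a : SX X, (dualCx I ε n).inc (Sum.inr (Sum.inr x)) (Sum.inr (Sum.inl a)) *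
        (dualCx I ε n).inc (Sum.inr (Sum.inl a)) (Sum.inl z) = 0 :=
      fsum_zero fun a => by rw [i_rl, mul_zero]
    have h2 : ∑ᶠ a : SX X, (dualCx I ε n).inc (Sum.inr (Sum.inr x)) (Sum.inr (Sum.inr a)) *
        (dualCx I ε n).inc (Sum.inr (Sum.inr a)) (Sum.inl z) = 0 :=
      fsum_zero fun a => by rw [i_rl, mul_zero]
    rw [h0, h1, h2]
    rfl
  · have h0 : ∑ᶠ a : PT X, (dualCx I ε n).inc (Sum.inr (Sum.inr x)) (Sum.inl a) *
        (dualCx I ε n).inc (Sum.inl a) (Sum.inr (Sum.inl z)) = 0 :=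
      fsum_zero fun a => by rw [i_rl, zero_mul]
    have h1 : ∑ᶠ a : SX X, (dualCx I ε n).inc (Sum.inr (Sum.inr x)) (Sum.inr (Sum.inl a)) *
        (dualCx I ε n).inc (Sum.inr (Sum.inl a)) (Sum.inr (Sum.inl z)) = 0 :=
      fsum_zero fun a => by rw [i_st, zero_mul]
    have h2 : ∑ᶠ a : SX X, (dualCx I ε n).inc (Sum.inr (Sum.inr x)) (Sum.inr (Sum.inr a)) *
        (dualCx I ε n).inc (Sum.inr (Sum.inr a)) (Sum.inr (Sum.inl z)) = 0 :=
      fsum_zero fun a => by rw [i_st, mul_zero]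
    rw [h0, h1, h2]
    rfl
  · have h0 : ∑ᶠ a : PT X, (dualCx I ε n).inc (Sum.inr (Sum.inr x)) (Sum.inl a) *
        (dualCx I ε n).inc (Sum.inl a) (Sum.inr (Sum.inr z)) = 0 :=
      fsum_zero fun a => by rw [i_rl, zero_mul]
    have h1 : ∑ᶠ a : SX X, (dualCx I ε n).inc (Sum.inr (Sum.inr x)) (Sum.inr (Sum.inl a)) *
        (dualCx I ε n).inc (Sum.inr (Sum.inl a)) (Sum.inr (Sum.inr z)) = 0 :=
      fsum_zero fun a => by rw [i_ts, mul_zero]
    have h2 : ∑ᶠ a : SX X, (dualCx I ε n).inc (Sum.inr (Sum.inr x)) (Sum.inr (Sum.inr a)) *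
        (dualCx I ε n).inc (Sum.inr (Sum.inr a)) (Sum.inr (Sum.inr z)) = 0 := by
      rw [← hs.sq z x]
      exact finsum_congr fun a => by rw [i_ss, i_ss, neg_mul_neg, mul_comm]
    rw [h0, h1, h2]
    rfl

end Main

theorem dual_fc {K P : Type} [Group K] [DecidableEq P] [MulAction K P] {X : Set (Finset P)}
    (hX : FreeCx K X) {n : ℕ} (hdim : ∀ σ ∈ X, σ.card ≤ n + 1) {I : CellCx (SX X)} (hs : SI X I)
    (hI : letI := sxAct (K := K) hX.inv; ∀ (h : K) (p q : SX X), I.inc (h • p) (h • q) = I.inc p q)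
    {ε : SX X → ℤ} (hf : Fund n X I ε)
    (hε : letI := sxAct (K := K) hX.inv; ∀ (h : K) (p : SX X), p.1.card = n + 1 →
      ε (h • p) = ε p) :
    letI : MulAction K (TC X) := tcAct (K := K) hX.inv
    FC K (dualCx I ε n) := by
  classical
  let _ : MulAction K (SX X) := sxAct (K := K) hX.inv
  let _ : MulAction K (TC X) := tcAct (K := K) hX.inv
  have hd : ∀ (h : K) (σ : SX X), I.dim (h • σ) = I.dim σ := by
    intro h σ
    rw [hs.dim, hs.dim]
    show (h • σ.1).card - 1 = σ.1.card - 1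
    rw [card_smul]
  have hinj : ∀ (h : K) (σ τ : SX X), h • σ = h • τ ↔ σ = τ := fun h σ τ =>
    ⟨fun e => MulAction.injective h e, fun e => by rw [e]⟩
  have hc1 : ∀ (h : K) (x : TC X), c1 (h • x) = h • c1 x := by
    intro h x
    rcases x with x | x | x <;> rfl
  refine ⟨?_, ?_, inc_dim'' hX hdim hs, faces' hX hs, cofaces' hX hs, sq' hX hs hf, ?_, ?_⟩
  · intro h c
    rcases c with y | τ | σ
    · show n + I.dim (h • y.1.2) - I.dim (h • y.1.1) = n + I.dim y.1.2 - I.dim y.1.1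
      rw [hd, hd]
    · show n + I.dim (h • τ) + 1 = n + I.dim τ + 1
      rw [hd]
    · show 2 * n + 1 - I.dim (h • σ) = 2 * n + 1 - I.dim σ
      rw [hd]
  · intro h p q
    rcases p with x | x | x <;> rcases q with y | y | y
    · show (if h • x.1.1 = h • y.1.1 then (-1 : ℤ) ^ I.dim (h • x.1.1) *
          I.inc (h • x.1.2) (h • y.1.2) else 0) +
          (if h • x.1.2 = h • y.1.2 then I.inc (h • y.1.1) (h • x.1.1) else 0) = _
      rw [i_ll, hd, hI, hI]
      simp only [hinj]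
    · show (if h • x.1.2 = h • y ∧ I.dim (h • x.1.1) = 0 then (1 : ℤ) else 0) = _
      rw [i_lt, hd]
      simp only [hinj]
    · show (if h • x.1.1 = h • y ∧ I.dim (h • x.1.2) = n then ε (h • x.1.2) else 0) = _
      rw [i_ls, hd]
      simp only [hinj]
      split_ifs with h1
      · refine hε h _ ?_
        have h2 := h1.2
        have h3 := pos hX x.1.2
        rw [hs.dim] at h2
        omega
      · rfl
    · rfl
    · show - I.inc (h • x) (h • y) = - I.inc x y
      rw [hI]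
    · rfl
    · rfl
    · rfl
    · show - I.inc (h • y) (h • x) = - I.inc y x
      rw [hI]
  · intro h c e
    have h1 := congrArg c1 e
    rw [hc1] at h1
    exact hX.free h _ (c1 c).2 (congrArg Subtype.val h1)
  · obtain ⟨R, hR, hRX⟩ := hX.fin
    have hfin : {c : TC X | (c1 c).1 ∈ R}.Finite := by
      have h1 : {σ : SX X | σ.1 ∈ R}.Finite := by
        refine Set.Finite.of_finite_image (f := Subtype.val) ?_ Subtype.val_injective.injOn
        refine R.finite_toSet.subset ?_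
        rintro _ ⟨q, hq, rfl⟩
        exact hq
      have h2 : (⋃ σ ∈ {σ : SX X | σ.1 ∈ R}, {c : TC X | c1 c ∈ Nr σ ∧ c2 c ∈ Nr σ}).Finite :=
        h1.biUnion fun σ _ => nr_set_fin hX σ σ
      refine h2.subset fun c hc => ?_
      rw [Set.mem_iUnion₂]
      exact ⟨c1 c, hc, nr_refl _, Or.inr (c_sub c)⟩
    have : Finite {c : TC X | (c1 c).1 ∈ R} := hfin.to_subtype
    refine Finite.of_surjective
      (fun s : {c : TC X | (c1 c).1 ∈ R} => (Quotient.mk (MulAction.orbitRel K (TC X)) s.1)) ?_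
    intro o
    induction o using Quotient.inductionOn with
    | h c =>
      obtain ⟨g, r, hr, e⟩ := hRX _ (c1 c).2
      refine ⟨⟨g⁻¹ • c, ?_⟩, ?_⟩
      · show (c1 (g⁻¹ • c)).1 ∈ R
        rw [hc1]
        show g⁻¹ • (c1 c).1 ∈ R
        rw [e, inv_smul_smul]
        exact hr
      · exact Quotient.sound (MulAction.orbitRel_apply.mpr ⟨g⁻¹, rfl⟩)

end SingerCub
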