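import Mathlib
import Pool.Agent.Lib_MP_394d50_cub.DFc
import Pool.Agent.Lib_MP_394d50_cub.EFil
import Pool.Agent.Lib_MP_394d50_cub.ERank
import Pool.Agent.Lib_MP_394d50_vs.LkTop

/-!
# Piece DSIG: the pairs together with the cells `[σ]'` are exact

`S` = the set of all cells `inl _` and `inr (inr _)`. Convex and invariant. `nh_filtration` with
`f = n - dim σ` for `(σ, τ)` and for `[σ]'` (`inc p q ≠ 0` implies that the dimension of the first simplex
of `q` is at most that of `p`), `N = n + 1`; then `nh_block` with `b` = the first simplex. The block of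
`σ`: the pairs `(σ, τ)`, `τ ⊇ σ`, and `[σ]'`: finite (local finiteness), convex. `nh_of_mod2`: mod 2,
`inc (σ, τ) (σ, τ') = 1` iff `τ` is a facet of `τ'`, `inc (σ, τ) [σ]' = 1` iff `dim τ = n` (`ε = ±1`).
Let `x` be a cycle of degree `k` in the block.
* `x` supported on `[σ]'` (`k = 2 n + 1 - dim σ`): there is `τ ⊇ σ` with `dim τ = n` (`HomMfd.pure` in LkTop),
  and the cycle condition at `(σ, τ)` gives `x [σ]' = 0`.
* `x` supported on the pairs with `dim τ = k - n + dim σ`, i.e. `ρ = τ \ σ` has `j = k - n` elements: put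
  `x' ρ = x (σ, σ ∪ ρ)` for `ρ ∈ lk X σ`. Then `x' ∈ Ch (ZMod 2) (lk X σ) j` and `bd (lk X σ) x' = 0`. By
  `hM.link σ`: `SphF2 m (lk X σ)` with `m = n + 1 - σ.card = n - dim σ`. If `j ≠ m` there is
  `w ∈ Ch (ZMod 2) (lk X σ) (j + 1)` with `bd w = x'`; put `y (σ, τ) = w (τ \ σ)`. If `j = m`: there are no
  simplices with `m + 1` elements in the link (`hM.dim`), so the second part of `SphF2` says that the
  cycles in degree `m` are `0` and `z₀` only. The function `1` on all `ρ ∈ lk X σ` with `m` elements is a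
  cycle (every `(n-1)`-simplex `τ ⊇ σ` has exactly two cofaces: `HomMfd.nb_two`, `ones_cycle` in LkTop) and
  is not zero (`HomMfd.pure`). So `x' = 0` or `x'` is the function `1` and then `x = ∂ [σ]'`.
-/

namespace SingerCub

open SingerVS
open scoped Pointwise

section dsig

variable {P : Type} [DecidableEq P] {X : Set (Finset P)}

/-- the first simplex of a cell -/
def DSIG_b : TC X → SX X
  | Sum.inl y => y.1.1
  | Sum.inr (Sum.inl τ) => τ
  | Sum.inr (Sum.inr σ) => σ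

/-- the block of `σ` -/
def DSIG_T (σ : SX X) : Set (TC X) := {c | (∀ τ, c ≠ Sum.inr (Sum.inl τ)) ∧ DSIG_b c = σ}

/-- the pair `(σ, σ ∪ ρ)` -/
def DSIG_pc (σ : SX X) {ρ : Finset P} (h : ρ ∈ lk X σ.1) : TC X :=
  Sum.inl ⟨(σ, ⟨ρ ∪ σ.1, h.2⟩), Finset.subset_union_right⟩

theorem DSIG_pc_mem (σ : SX X) {ρ : Finset P} (h : ρ ∈ lk X σ.1) : DSIG_pc σ h ∈ DSIG_T σ :=
  ⟨fun τ => by unfold DSIG_pc; exact Sum.inl_ne_inr, rfl⟩

omit [DecidableEq P] in
theorem DSIG_sg_mem (σ : SX X) : (Sum.inr (Sum.inr σ) : TC X) ∈ DSIG_T σ :=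
  ⟨fun τ h => by
    have h1 := Sum.inr.inj h
    exact Sum.inr_ne_inl h1, rfl⟩

theorem DSIG_T_cases {σ : SX X} {c : TC X} (hc : c ∈ DSIG_T σ) :
    (∃ (ρ : Finset P) (h : ρ ∈ lk X σ.1), c = DSIG_pc σ h) ∨ c = Sum.inr (Sum.inr σ) := by
  obtain ⟨h1, h2⟩ := hc
  rcases c with ⟨⟨σ', τ⟩, hst⟩ | τ | σ'
  · left
    have h3 : σ' = σ := h2
    subst h3
    have h4 : τ.1 \ σ'.1 ∪ σ'.1 = τ.1 := Finset.sdiff_union_of_subset hst
    have h5 : τ.1 \ σ'.1 ∈ lk X σ'.1 := ⟨Finset.sdiff_disjoint, by rw [h4]; exact τ.2⟩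
    refine ⟨τ.1 \ σ'.1, h5, ?_⟩
    unfold DSIG_pc
    congr 1
    apply Subtype.ext
    exact Prod.ext rfl (Subtype.ext h4.symm)
  · exact absurd rfl (h1 τ)
  · right
    have h3 : σ' = σ := h2
    rw [h3]

theorem DSIG_inc_self {I : CellCx (SX X)} (hs : SI X I) (σ : SX X) : I.inc σ σ = 0 := by
  by_contra h
  obtain ⟨v, hv, h1⟩ := (hs.fac σ σ).1 h
  have h2 := Finset.notMem_erase v σ.1
  rw [← h1] at h2
  exact h2 hv

theorem DSIG_fac_card {I : CellCx (SX X)} (hs : SI X I) {σ τ : SX X} (h : I.inc σ τ ≠ 0) :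
    σ.1.card + 1 = τ.1.card := by
  obtain ⟨v, hv, h1⟩ := (hs.fac σ τ).1 h
  rw [h1]
  exact Finset.card_erase_add_one hv

theorem DSIG_step {I : CellCx (SX X)} (hs : SI X I) {ε : SX X → ℤ} {n : ℕ} {p q : TC X}
    (hp : ∀ τ, p ≠ Sum.inr (Sum.inl τ)) (hq : ∀ τ, q ≠ Sum.inr (Sum.inl τ))
    (h : (dualCx I ε n).inc p q ≠ 0) :
    DSIG_b p = DSIG_b q ∨ (DSIG_b q).1.card + 1 = (DSIG_b p).1.card := by
  rcases p with x | τ | σ
  · rcases q with y | τ' | σ'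
    · by_cases h1 : x.1.1 = y.1.1
      · exact Or.inl h1
      · right
        have h2 : (if x.1.1 = y.1.1 then (-1 : ℤ) ^ I.dim x.1.1 * I.inc x.1.2 y.1.2 else 0) +
            (if x.1.2 = y.1.2 then I.inc y.1.1 x.1.1 else 0) ≠ 0 := h
        rw [if_neg h1, zero_add] at h2
        by_cases h3 : x.1.2 = y.1.2
        · rw [if_pos h3] at h2
          exact DSIG_fac_card hs h2
        · rw [if_neg h3] at h2
          exact absurd rfl h2
    · exact absurd rfl (hq τ')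
    · have h2 : (if x.1.1 = σ' ∧ I.dim x.1.2 = n then ε x.1.2 else 0) ≠ 0 := h
      left
      by_contra h3
      exact h2 (if_neg (fun h4 => h3 h4.1))
  · exact absurd rfl (hp τ)
  · rcases q with y | τ' | σ'
    · exact absurd rfl h
    · exact absurd rfl (hq τ')
    · right
      have h2 : - I.inc σ' σ ≠ 0 := h
      exact DSIG_fac_card hs (σ := σ') (τ := σ) (fun h3 => h2 (by rw [h3, neg_zero]))

theorem DSIG_cast {a : ℤ} (h0 : a ≠ 0) (h1 : a = 0 ∨ a = 1 ∨ a = -1) (d : ℕ) :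
    ((((-1) ^ d * a : ℤ)) : ZMod 2) = 1 := by
  have h2 : ((-1 : ℤ) : ZMod 2) = 1 := by decide
  rcases h1 with h1 | h1 | h1
  · exact absurd h1 h0
  · rw [h1, mul_one, Int.cast_pow, h2, one_pow]
  · rw [h1, Int.cast_mul, Int.cast_pow, h2, one_pow, one_mul]

theorem DSIG_cast_eps {a : ℤ} (h1 : a = 1 ∨ a = -1) : ((a : ℤ) : ZMod 2) = 1 := by
  rcases h1 with h1 | h1
  · rw [h1, Int.cast_one]
  · rw [h1]
    decide

/-- the pull back of a chain to the link -/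
noncomputable def DSIG_x (σ : SX X) (x : TC X → ZMod 2) : Finset P → ZMod 2 :=
  open scoped Classical in fun ρ => if h : ρ ∈ lk X σ.1 then x (DSIG_pc σ h) else 0

theorem DSIG_x_pos {σ : SX X} {x : TC X → ZMod 2} {ρ : Finset P} (h : ρ ∈ lk X σ.1) :
    DSIG_x σ x ρ = x (DSIG_pc σ h) := by
  unfold DSIG_x
  exact dif_pos h

theorem DSIG_x_neg {σ : SX X} {x : TC X → ZMod 2} {ρ : Finset P} (h : ρ ∉ lk X σ.1) :
    DSIG_x σ x ρ = 0 := by
  unfold DSIG_x
  exact dif_neg h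

theorem DSIG_L2 {I : CellCx (SX X)} (hs : SI X I) {ε : SX X → ℤ} {n : ℕ} (σ : SX X)
    {x : TC X → ZMod 2} (hx : ∀ c, x c ≠ 0 → c ∈ DSIG_T σ) :
    ∑ᶠ q, (((dualCx I ε n).inc (Sum.inr (Sum.inr σ)) q : ℤ) : ZMod 2) * x q = 0 := by
  rw [show (fun q => (((dualCx I ε n).inc (Sum.inr (Sum.inr σ)) q : ℤ) : ZMod 2) * x q) =
    fun _ => 0 from ?_, finsum_zero]
  funext q
  by_cases h : x q = 0
  · rw [h, mul_zero]
  · rcases DSIG_T_cases (hx q h) with ⟨ρ, hρ, rfl⟩ | rfl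
    · have h1 : (dualCx I ε n).inc (Sum.inr (Sum.inr σ)) (DSIG_pc σ hρ) = 0 := rfl
      rw [h1, Int.cast_zero, zero_mul]
    · have h1 : (dualCx I ε n).inc (Sum.inr (Sum.inr σ)) (Sum.inr (Sum.inr σ)) =
        - I.inc σ σ := rfl
      rw [h1, DSIG_inc_self hs, neg_zero, Int.cast_zero, zero_mul]

variable {K : Type} [Group K] [MulAction K P]

theorem DSIG_inc_pc {I : CellCx (SX X)} {ε : SX X → ℤ} {n : ℕ} (σ : SX X)
    (hs : SI X I) {ρ ρ' : Finset P} (h : ρ ∈ lk X σ.1) (h' : ρ' ∈ lk X σ.1) :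
    (dualCx I ε n).inc (DSIG_pc σ h) (DSIG_pc σ h') =
      (-1 : ℤ) ^ I.dim σ * I.inc ⟨ρ ∪ σ.1, h.2⟩ ⟨ρ' ∪ σ.1, h'.2⟩ := by
  have h1 : (dualCx I ε n).inc (DSIG_pc σ h) (DSIG_pc σ h') =
      (if σ = σ then (-1 : ℤ) ^ I.dim σ * I.inc ⟨ρ ∪ σ.1, h.2⟩ ⟨ρ' ∪ σ.1, h'.2⟩ else 0) +
        (if (⟨ρ ∪ σ.1, h.2⟩ : SX X) = ⟨ρ' ∪ σ.1, h'.2⟩ then I.inc σ σ else 0) := rfl
  rw [h1, if_pos rfl, DSIG_inc_self hs, ite_self, add_zero]

theorem DSIG_L1 (hX : FreeCx K X) {I : CellCx (SX X)} (hs : SI X I) {ε : SX X → ℤ}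
    (hε : ∀ τ, ε τ = 1 ∨ ε τ = -1) {n : ℕ} (σ : SX X)
    {x : TC X → ZMod 2} (hx : ∀ c, x c ≠ 0 → c ∈ DSIG_T σ) {ρ : Finset P}
    (hρ : ρ ∈ lk X σ.1) :
    ∑ᶠ q, (((dualCx I ε n).inc (DSIG_pc σ hρ) q : ℤ) : ZMod 2) * x q =
      bd (lk X σ.1) (DSIG_x σ x) ρ +
        (if I.dim ⟨ρ ∪ σ.1, hρ.2⟩ = n then x (Sum.inr (Sum.inr σ)) else 0) := by
  classical
  set g : P → TC X := fun p => if h : insert p ρ ∈ lk X σ.1 then DSIG_pc σ h
    else Sum.inr (Sum.inr σ) with hg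
  have hnb : ∀ p, p ∈ nb X (ρ ∪ σ.1) ↔ p ∉ ρ ∪ σ.1 ∧ insert p (ρ ∪ σ.1) ∈ X := fun p =>
    hX.mem_nb hρ.2
  have hin : ∀ p ∈ nb X (ρ ∪ σ.1), insert p ρ ∈ lk X σ.1 := by
    intro p hp
    have h1 := (hnb p).1 hp
    rw [Finset.mem_union, not_or] at h1
    exact ⟨Finset.disjoint_insert_left.mpr ⟨h1.1.2, hρ.1⟩, by
      rw [Finset.insert_union]
      exact h1.2⟩
  have hgp : ∀ p (hp : p ∈ nb X (ρ ∪ σ.1)), g p = DSIG_pc σ (hin p hp) := by
    intro p hp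
    simp only [hg]
    exact dif_pos (hin p hp)
  have hinj : ∀ p ∈ nb X (ρ ∪ σ.1), ∀ q ∈ nb X (ρ ∪ σ.1), g p = g q → p = q := by
    intro p hp q hq h
    rw [hgp p hp, hgp q hq] at h
    unfold DSIG_pc at h
    have h1 := congrArg (fun z : PT X => z.1.2.1) (Sum.inl.inj h)
    have h2 : insert p ρ ∪ σ.1 = insert q ρ ∪ σ.1 := h1
    rw [Finset.insert_union, Finset.insert_union] at h2
    have h3 : p ∈ insert q (ρ ∪ σ.1) := by
      rw [← h2]
      exact Finset.mem_insert_self p _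
    rcases Finset.mem_insert.1 h3 with h4 | h4
    · exact h4
    · exact absurd h4 ((hnb p).1 hp).1
  have hnotin : (Sum.inr (Sum.inr σ) : TC X) ∉ (nb X (ρ ∪ σ.1)).image g := by
    intro h
    obtain ⟨p, hp, h1⟩ := Finset.mem_image.1 h
    rw [hgp p hp] at h1
    unfold DSIG_pc at h1
    exact Sum.inl_ne_inr h1
  rw [finsum_eq_sum_of_support_subset (s := insert (Sum.inr (Sum.inr σ))
    ((nb X (ρ ∪ σ.1)).image g)), Finset.sum_insert hnotin, Finset.sum_image hinj, add_comm,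
    bd_apply hρ, mem_nb_lk hX hρ]
  · congr 1
    · refine Finset.sum_congr rfl fun p hp => ?_
      rw [hgp p hp, DSIG_x_pos (hin p hp), DSIG_inc_pc σ hs hρ (hin p hp)]
      have h1 : I.inc ⟨ρ ∪ σ.1, hρ.2⟩ ⟨insert p ρ ∪ σ.1, (hin p hp).2⟩ ≠ 0 := by
        rw [hs.fac]
        refine ⟨p, ?_, ?_⟩
        · show p ∈ insert p ρ ∪ σ.1
          exact Finset.mem_union_left _ (Finset.mem_insert_self p ρ)
        · show ρ ∪ σ.1 = (insert p ρ ∪ σ.1).erase p
          rw [Finset.insert_union, Finset.erase_insert ((hnb p).1 hp).1]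
      rw [DSIG_cast h1 (hs.one _ _), one_mul]
    · have h1 : (dualCx I ε n).inc (DSIG_pc σ hρ) (Sum.inr (Sum.inr σ)) =
        (if σ = σ ∧ I.dim ⟨ρ ∪ σ.1, hρ.2⟩ = n then ε ⟨ρ ∪ σ.1, hρ.2⟩ else 0) := rfl
      rw [h1]
      by_cases h2 : I.dim ⟨ρ ∪ σ.1, hρ.2⟩ = n
      · rw [if_pos ⟨rfl, h2⟩, if_pos h2, DSIG_cast_eps (hε _), one_mul]
      · rw [if_neg (fun h3 => h2 h3.2), if_neg h2, Int.cast_zero, zero_mul]
  · intro q hq
    have h1 : (((dualCx I ε n).inc (DSIG_pc σ hρ) q : ℤ) : ZMod 2) * x q ≠ 0 := hq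
    have h2 : x q ≠ 0 := right_ne_zero_of_mul h1
    have h3 : (dualCx I ε n).inc (DSIG_pc σ hρ) q ≠ 0 := by
      intro h4
      rw [h4, Int.cast_zero, zero_mul] at h1
      exact h1 rfl
    rw [Finset.coe_insert, Set.mem_insert_iff]
    rcases DSIG_T_cases (hx q h2) with ⟨ρ', hρ', rfl⟩ | rfl
    · right
      rw [DSIG_inc_pc σ hs hρ hρ'] at h3
      have h4 := right_ne_zero_of_mul h3
      obtain ⟨v, hv, h5⟩ := (hs.fac _ _).1 h4
      have h6 : ρ ∪ σ.1 = (ρ' ∪ σ.1).erase v := h5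
      have hv' : v ∈ ρ' ∪ σ.1 := hv
      have h7 : v ∉ ρ ∪ σ.1 := by
        rw [h6]
        exact Finset.notMem_erase v _
      have h8 : insert v (ρ ∪ σ.1) = ρ' ∪ σ.1 := by
        rw [h6, Finset.insert_erase hv']
      have h9 : v ∈ nb X (ρ ∪ σ.1) := (hnb v).2 ⟨h7, by rw [h8]; exact hρ'.2⟩
      have h10 : insert v ρ = ρ' := by
        have h11 : (insert v ρ ∪ σ.1) \ σ.1 = (ρ' ∪ σ.1) \ σ.1 := by
          rw [Finset.insert_union, h8]
        rw [Finset.union_sdiff_cancel_right (hin v h9).1, Finset.union_sdiff_cancel_right hρ'.1]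
          at h11
        exact h11
      rw [Finset.mem_coe, Finset.mem_image]
      refine ⟨v, h9, ?_⟩
      rw [hgp v h9]
      subst h10
      rfl
    · exact Or.inl rfl

theorem DSIG_dim_pc {I : CellCx (SX X)} (hX : FreeCx K X) (hs : SI X I) {ε : SX X → ℤ} {n : ℕ}
    (σ : SX X) {ρ : Finset P} (h : ρ ∈ lk X σ.1) :
    (dualCx I ε n).dim (DSIG_pc σ h) = n + ρ.card := by
  have h1 : (dualCx I ε n).dim (DSIG_pc σ h) = n + I.dim ⟨ρ ∪ σ.1, h.2⟩ - I.dim σ := rfl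
  have h2 : 0 < σ.1.card := Finset.card_pos.2 (hX.ne _ σ.2)
  have h3 : (ρ ∪ σ.1).card = ρ.card + σ.1.card := Finset.card_union_of_disjoint h.1
  rw [h1, hs.dim, hs.dim]
  show n + ((ρ ∪ σ.1).card - 1) - (σ.1.card - 1) = n + ρ.card
  omega

theorem DSIG_dim_sg {I : CellCx (SX X)} (hs : SI X I) {ε : SX X → ℤ} {n : ℕ} (σ : SX X) :
    (dualCx I ε n).dim (Sum.inr (Sum.inr σ)) = 2 * n + 1 - (σ.1.card - 1) := by
  have h1 : (dualCx I ε n).dim (Sum.inr (Sum.inr σ)) = 2 * n + 1 - I.dim σ := rfl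
  rw [h1, hs.dim]

/-- the chain of the complex given by a chain `w` of the link and a coefficient `c` of `[σ]'` -/
noncomputable def DSIG_y (σ : SX X) (w : Finset P → ZMod 2) (c : ZMod 2) : TC X → ZMod 2 :=
  open scoped Classical in fun q => match q with
    | Sum.inl x => if x.1.1 = σ then w (x.1.2.1 \ σ.1) else 0
    | Sum.inr (Sum.inl _) => 0
    | Sum.inr (Sum.inr σ') => if σ' = σ then c else 0

theorem DSIG_y_pc (σ : SX X) (w : Finset P → ZMod 2) (c : ZMod 2) {ρ : Finset P}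
    (h : ρ ∈ lk X σ.1) : DSIG_y σ w c (DSIG_pc σ h) = w ρ := by
  classical
  have h1 : DSIG_y σ w c (DSIG_pc σ h) = if σ = σ then w ((ρ ∪ σ.1) \ σ.1) else 0 := by
    unfold DSIG_y DSIG_pc
    congr
  rw [h1, if_pos rfl, Finset.union_sdiff_cancel_right h.1]

theorem DSIG_y_sg (σ : SX X) (w : Finset P → ZMod 2) (c : ZMod 2) :
    DSIG_y σ w c (Sum.inr (Sum.inr σ)) = c := by
  classical
  have h1 : DSIG_y σ w c (Sum.inr (Sum.inr σ)) = if σ = σ then c else 0 := by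
    unfold DSIG_y
    congr
  rw [h1, if_pos rfl]

theorem DSIG_y_T (σ : SX X) (w : Finset P → ZMod 2) (c : ZMod 2) (q : TC X)
    (hq : DSIG_y σ w c q ≠ 0) : q ∈ DSIG_T σ := by
  classical
  rcases q with x | τ | σ'
  · refine ⟨fun τ => Sum.inl_ne_inr, ?_⟩
    show x.1.1 = σ
    by_contra h1
    apply hq
    unfold DSIG_y
    exact if_neg h1
  · exact absurd rfl hq
  · have h1 : σ' = σ := by
      by_contra h1
      apply hq
      unfold DSIG_y
      exact if_neg h1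
    rw [h1]
    exact DSIG_sg_mem σ

theorem DSIG_x_y (σ : SX X) {w : Finset P → ZMod 2} (c : ZMod 2) {j : ℕ}
    (hw : w ∈ Ch (ZMod 2) (lk X σ.1) j) : DSIG_x σ (DSIG_y σ w c) = w := by
  funext ρ
  by_cases h : ρ ∈ lk X σ.1
  · rw [DSIG_x_pos h, DSIG_y_pc]
  · rw [DSIG_x_neg h]
    exact (hw ρ (fun h1 => h h1.1)).symm

theorem DSIG_T_finite (hX : FreeCx K X) (σ : SX X) : (DSIG_T σ).Finite := by
  classical
  have h1 := hX.cof_finite σ.2
  have h2 : (insert (Sum.inr (Sum.inr σ)) ((fun τ : Finset P =>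
      if h : τ ∈ X ∧ σ.1 ⊆ τ then (Sum.inl ⟨(σ, ⟨τ, h.1⟩), h.2⟩ : TC X)
        else Sum.inr (Sum.inr σ)) '' {τ | τ ∈ X ∧ σ.1 ⊆ τ})).Finite := (h1.image _).insert _
  refine h2.subset ?_
  intro c hc
  rcases DSIG_T_cases hc with ⟨ρ, hρ, rfl⟩ | rfl
  · right
    refine ⟨ρ ∪ σ.1, ⟨hρ.2, Finset.subset_union_right⟩, ?_⟩
    exact dif_pos ⟨hρ.2, Finset.subset_union_right⟩
  · exact Or.inl rfl

theorem DSIG_card_le {n : ℕ} (hM : HomMfd n X) (σ : SX X) : σ.1.card ≤ n + 1 := hM.dim _ σ.2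

theorem DSIG_hex (hX : FreeCx K X) {n : ℕ} (hM : HomMfd n X) {I : CellCx (SX X)} (hs : SI X I)
    {ε : SX X → ℤ} (hε : ∀ τ, ε τ = 1 ∨ ε τ = -1) (σ : SX X) (k : ℕ) (x : TC X → ZMod 2)
    (hx : ∀ c, x c ≠ 0 → c ∈ DSIG_T σ ∧ (dualCx I ε n).dim c = k)
    (hz : ∀ p ∈ DSIG_T σ, ∑ᶠ q, (((dualCx I ε n).inc p q : ℤ) : ZMod 2) * x q = 0) :
    ∃ y : TC X → ZMod 2, (∀ c, y c ≠ 0 → c ∈ DSIG_T σ ∧ (dualCx I ε n).dim c = k + 1) ∧
      ∀ p ∈ DSIG_T σ, ∑ᶠ q, (((dualCx I ε n).inc p q : ℤ) : ZMod 2) * y q = x p := by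
  classical
  have hσc : σ.1.card ≤ n + 1 := hM.dim _ σ.2
  have hσ0 : 0 < σ.1.card := Finset.card_pos.2 (hX.ne _ σ.2)
  have hcard : ∀ {ρ : Finset P} (h : ρ ∈ lk X σ.1), ρ.card + σ.1.card ≤ n + 1 := by
    intro ρ h
    rw [← Finset.card_union_of_disjoint h.1]
    exact hM.dim _ h.2
  have hdimI : ∀ {ρ : Finset P} (h : ρ ∈ lk X σ.1),
      I.dim ⟨ρ ∪ σ.1, h.2⟩ = n ↔ ρ.card + σ.1.card = n + 1 := by
    intro ρ h
    rw [hs.dim]
    show (ρ ∪ σ.1).card - 1 = n ↔ _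
    rw [Finset.card_union_of_disjoint h.1]
    omega
  have hL1 := fun {ρ : Finset P} (hρ : ρ ∈ lk X σ.1) =>
    DSIG_L1 (K := K) hX hs (n := n) hε σ (fun c hc => (hx c hc).1) hρ
  have hzx : ∀ {ρ : Finset P} (hρ : ρ ∈ lk X σ.1), bd (lk X σ.1) (DSIG_x σ x) ρ +
      (if I.dim ⟨ρ ∪ σ.1, hρ.2⟩ = n then x (Sum.inr (Sum.inr σ)) else 0) = 0 := by
    intro ρ hρ
    rw [← hL1 hρ]
    exact hz _ (DSIG_pc_mem σ hρ)
  have hxdim : ∀ ρ, DSIG_x σ x ρ ≠ 0 → ρ ∈ lk X σ.1 ∧ n + ρ.card = k := by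
    intro ρ h
    have h1 : ρ ∈ lk X σ.1 := by
      by_contra h2
      exact h (DSIG_x_neg h2)
    rw [DSIG_x_pos h1] at h
    exact ⟨h1, by rw [← DSIG_dim_pc (K := K) hX hs σ h1 (ε := ε)]; exact (hx _ h).2⟩
  have hx0 : x (Sum.inr (Sum.inr σ)) = 0 := by
    by_contra h0
    have h1 := (hx _ h0).2
    rw [DSIG_dim_sg hs] at h1
    have h2 : DSIG_x σ x = 0 := by
      funext ρ
      by_contra h3
      obtain ⟨h4, h5⟩ := hxdim ρ h3
      have h6 := hcard h4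
      omega
    obtain ⟨τ, hτ, hστ, hτc⟩ := hM.pure hX σ.2
    have h7 : τ \ σ.1 ∪ σ.1 = τ := Finset.sdiff_union_of_subset hστ
    have h8 : τ \ σ.1 ∈ lk X σ.1 := ⟨Finset.sdiff_disjoint, by rw [h7]; exact hτ⟩
    have h9 := hzx h8
    rw [h2, map_zero, if_pos] at h9
    · rw [Pi.zero_apply, zero_add] at h9
      exact h0 h9
    · rw [hdimI h8, ← Finset.card_union_of_disjoint h8.1, h7, hτc]
  have hbd : bd (lk X σ.1) (DSIG_x σ x) = 0 := by
    funext ρ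
    by_cases hρ : ρ ∈ lk X σ.1
    · have h1 := hzx hρ
      rw [hx0, ite_self, add_zero] at h1
      exact h1
    · exact bd_apply_not hρ
  by_cases hall : DSIG_x σ x = 0
  · refine ⟨fun _ => 0, fun c hc => absurd rfl hc, ?_⟩
    intro p hp
    rw [show (fun q => (((dualCx I ε n).inc p q : ℤ) : ZMod 2) * (0 : ZMod 2)) =
      fun _ => 0 from funext fun q => mul_zero _, finsum_zero]
    rcases DSIG_T_cases hp with ⟨ρ, hρ, rfl⟩ | rfl
    · rw [← DSIG_x_pos (x := x) hρ, hall]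
      rfl
    · exact hx0.symm
  obtain ⟨ρ0, hρ0⟩ := Function.ne_iff.1 hall
  have hk := (hxdim ρ0 hρ0).2
  set j := ρ0.card with hj
  have hch : DSIG_x σ x ∈ Ch (ZMod 2) (lk X σ.1) j := by
    intro ρ hρ
    by_contra h1
    obtain ⟨h2, h3⟩ := hxdim ρ h1
    exact hρ ⟨h2, by omega⟩
  by_cases hjm : j = n + 1 - σ.1.card
  · -- top degree
    obtain ⟨z₀, h1, h2, h3, h4⟩ := lkTop_cyc hM σ.2
    have hm : n + 1 - σ.1.card + σ.1.card = n + 1 := by omega
    have hone : lkTop_pull X σ.1 (n + 1 - σ.1.card) (onesT X n) = z₀ := by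
      rcases h4 _ (lkTop_pull_ch σ.1 _ (onesT X n)) (by
        funext ρ
        by_cases hρ : ρ ∈ lk X σ.1
        · rw [lkTop_pull_bd hX hm _ hρ, hM.ones_cycle hX]
          · rfl
          · intro τ hτ
            exact if_neg (fun h => hτ h.2)
        · exact bd_apply_not hρ) with h5 | h5
      · exfalso
        obtain ⟨τ, hτ, hστ, hτc⟩ := hM.pure hX σ.2
        have h6 := congrFun h5 (τ \ σ.1)
        rw [lkTop_pull_apply hτ hστ (by omega)] at h6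
        unfold onesT at h6
        rw [if_pos ⟨hτ, hτc⟩] at h6
        exact one_ne_zero h6
      · exact h5
    have hxz : DSIG_x σ x = z₀ := by
      rw [hjm] at hch
      rcases h4 _ hch hbd with h5 | h5
      · exact absurd h5 hall
      · exact h5
    have hval : ∀ ρ, DSIG_x σ x ρ = if ρ ∈ lk X σ.1 ∧ ρ.card = n + 1 - σ.1.card then 1 else 0 := by
      intro ρ
      rw [hxz, ← hone]
      unfold lkTop_pull
      by_cases h5 : ρ ∈ lk X σ.1 ∧ ρ.card = n + 1 - σ.1.card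
      · rw [if_pos h5, if_pos h5]
        unfold onesT
        refine if_pos ⟨h5.1.2, ?_⟩
        rw [Finset.card_union_of_disjoint h5.1.1]
        omega
      · rw [if_neg h5, if_neg h5]
    refine ⟨DSIG_y σ 0 1, ?_, ?_⟩
    · intro c hc
      have h5 := DSIG_y_T σ 0 1 c hc
      refine ⟨h5, ?_⟩
      rcases DSIG_T_cases h5 with ⟨ρ, hρ, rfl⟩ | rfl
      · rw [DSIG_y_pc] at hc
        exact absurd rfl hc
      · rw [DSIG_dim_sg hs]
        omega
    · intro p hp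
      rcases DSIG_T_cases hp with ⟨ρ, hρ, rfl⟩ | rfl
      · rw [DSIG_L1 (K := K) hX hs hε σ (DSIG_y_T σ 0 1) hρ, DSIG_y_sg,
          DSIG_x_y σ 1 (j := 0) (Submodule.zero_mem _), map_zero, Pi.zero_apply, zero_add,
          ← DSIG_x_pos (x := x) hρ, hval]
        by_cases h5 : ρ.card + σ.1.card = n + 1
        · rw [if_pos ((hdimI hρ).2 h5), if_pos ⟨hρ, by omega⟩]
        · rw [if_neg (fun h6 => h5 ((hdimI hρ).1 h6)), if_neg (fun h6 => h5 (by omega))]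
      · rw [DSIG_L2 hs σ (DSIG_y_T σ 0 1), hx0]
  · obtain ⟨w, hw, hwx⟩ := (hM.link σ.1 σ.2).1 j hjm _ hch hbd
    refine ⟨DSIG_y σ w 0, ?_, ?_⟩
    · intro c hc
      have h5 := DSIG_y_T σ w 0 c hc
      refine ⟨h5, ?_⟩
      rcases DSIG_T_cases h5 with ⟨ρ, hρ, rfl⟩ | rfl
      · rw [DSIG_y_pc] at hc
        rw [DSIG_dim_pc (K := K) hX hs σ hρ]
        have h6 : ρ.card = j + 1 := by
          by_contra h7
          exact hc (hw ρ (fun h8 => h7 h8.2))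
        omega
      · rw [DSIG_y_sg] at hc
        exact absurd rfl hc
    · intro p hp
      rcases DSIG_T_cases hp with ⟨ρ, hρ, rfl⟩ | rfl
      · rw [DSIG_L1 (K := K) hX hs hε σ (DSIG_y_T σ w 0) hρ, DSIG_y_sg, ite_self, add_zero,
          DSIG_x_y σ 0 hw, hwx, DSIG_x_pos hρ]
      · rw [DSIG_L2 hs σ (DSIG_y_T σ w 0), hx0]

end dsig

theorem sig_exact {K P : Type} [Group K] [DecidableEq P] [MulAction K P] {X : Set (Finset P)}
    (hX : FreeCx K X) {n : ℕ} (hM : HomMfd n X) {I : CellCx (SX X)} (hs : SI X I)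
    (hI : letI := sxAct (K := K) hX.inv; ∀ (h : K) (p q : SX X), I.inc (h • p) (h • q) = I.inc p q)
    {ε : SX X → ℤ} (hf : Fund n X I ε)
    (hε : letI := sxAct (K := K) hX.inv; ∀ (h : K) (p : SX X), p.1.card = n + 1 →
      ε (h • p) = ε p) (k : ℕ) :
    NH (dualCx I ε n) {x | ∀ τ, x ≠ Sum.inr (Sum.inl τ)} k := by
  classical
  letI := sxAct (K := K) hX.inv
  letI : MulAction K (TC X) := tcAct (K := K) hX.inv
  have hF : FC K (dualCx I ε n) := dual_fc hX hM.dim hs hI hf hε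
  have hle : ∀ σ : SX X, σ.1.card ≤ n + 1 := fun σ => hM.dim _ σ.2
  have hb : ∀ (h : K) (c : TC X), (DSIG_b (h • c)).1.card = (DSIG_b c).1.card := by
    intro h c
    rcases c with y | τ | σ
    · exact SingerVS.card_smul h y.1.1.1
    · exact SingerVS.card_smul h τ.1
    · exact SingerVS.card_smul h σ.1
  have hcvx := cvx_sig I ε n
  refine nh_filtration hF hcvx ?_ (fun c => n + 1 - (DSIG_b c).1.card) ?_ ?_ (n + 2) ?_ k ?_
  · intro h c hc τ hh
    rcases c with y | τ' | σ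
    · exact Sum.inl_ne_inr hh
    · exact hc τ' rfl
    · have h1 := Sum.inr.inj hh
      exact Sum.inr_ne_inl h1
  · intro p hp q hq hpq
    rcases DSIG_step hs hp hq hpq with h1 | h1
    · show n + 1 - _ ≤ n + 1 - _
      rw [h1]
    · show n + 1 - _ ≤ n + 1 - _
      omega
  · intro h c
    show n + 1 - _ = n + 1 - _
    rw [hb h c]
  · intro c _
    show n + 1 - _ < n + 2
    omega
  · intro j _
    refine nh_block DSIG_b ?_ k ?_
    · rintro p ⟨hp, hpj⟩ q ⟨hq, hqj⟩ hpq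
      rcases DSIG_step hs hp hq hpq with h1 | h1
      · exact h1
      · exfalso
        have h2 := hle (DSIG_b p)
        have h3 := hle (DSIG_b q)
        have h4 : n + 1 - (DSIG_b p).1.card = j := hpj
        have h5 : n + 1 - (DSIG_b q).1.card = j := hqj
        omega
    · intro σ
      by_cases hj : n + 1 - σ.1.card = j
      · have hset : {c : TC X | c ∈ {c | c ∈ {x : TC X | ∀ τ, x ≠ Sum.inr (Sum.inl τ)} ∧
            n + 1 - (DSIG_b c).1.card = j} ∧ DSIG_b c = σ} = DSIG_T σ := by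
          ext c
          constructor
          · rintro ⟨⟨h1, _⟩, h2⟩
            exact ⟨h1, h2⟩
          · rintro ⟨h1, h2⟩
            exact ⟨⟨h1, by rw [h2]; exact hj⟩, h2⟩
        rw [hset]
        refine nh_of_mod2 hF ?_ (DSIG_T_finite hX σ) k (DSIG_hex hX hM hs hf.pm σ k)
        intro p q r hp hr hpq hqr
        have hq : ∀ τ, q ≠ Sum.inr (Sum.inl τ) := hcvx p q r hp.1 hr.1 hpq hqr
        refine ⟨hq, ?_⟩
        rcases DSIG_step hs hp.1 hq hpq with h1 | h1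
        · rw [← h1]
          exact hp.2
        · exfalso
          rw [hp.2] at h1
          rcases DSIG_step hs hq hr.1 hqr with h2 | h2
          · rw [h2, hr.2] at h1
            omega
          · rw [hr.2] at h2
            omega
      · have hset : {c : TC X | c ∈ {c | c ∈ {x : TC X | ∀ τ, x ≠ Sum.inr (Sum.inl τ)} ∧
            n + 1 - (DSIG_b c).1.card = j} ∧ DSIG_b c = σ} = ∅ := by
          ext c
          constructor
          · rintro ⟨⟨_, h1⟩, h2⟩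
            exact hj (by rw [← h2]; exact h1)
          · intro h1
            exact absurd h1 (Set.notMem_empty c)
        rw [hset]
        exact nh_empty _ k

end SingerCub
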