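import Mathlib
import Pool.Agent.Lib_MP_394d50_cub.DFc
import Pool.Agent.Lib_MP_394d50_cub.EFil
import Pool.Agent.Lib_MP_394d50_cub.ERank

/-!
# Piece DTAU: the pairs together with the cells `[τ]` are exact

`S` = the set of all cells `inl _` and `inr (inl _)`. It is convex (`Cvx`): if `q = [σ]'` then
`inc q r ≠ 0` forces `r = [σ'']'`. Invariant. `nh_filtration` with `f` = dimension of the second simplex
(`f (σ, τ) = dim τ`, `f [τ] = dim τ`; `< n + 1`), then `nh_block` with `b` = the second simplex (in a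
stratum of constant `dim τ`, `inc p q ≠ 0` implies equal second simplices). The block of `τ`: the pairs
`(σ, τ)`, `σ ⊆ τ`, and `[τ]`: finite. Convex. `nh_of_mod2`: mod 2 the incidence numbers within the block
are: `inc (σ, τ) (σ', τ) = 1` iff `σ'` is a facet of `σ`; `inc (σ, τ) [τ] = 1` iff `σ` is a vertex; else `0`
(by `hs.fac`, `hs.one`). Pick a vertex `v₀ ∈ τ`. Let `x` be a cycle of degree `k`.
* If `x` is supported on `[τ]`: `x [τ] = 0` by the cycle condition at `({v₀}, τ)`.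
* If `x` is supported on the pairs with `σ.card = d + 1` (`k = n + dim τ - d`), `d ≥ 1`: put
  `y (σ', τ) = x (σ' ∪ {v₀}, τ)` for `σ'.card = d`, `v₀ ∉ σ'`. Then `(∂ y) σ = ∑_{v ∈ σ} y (σ \ v)`. If
  `v₀ ∈ σ`, only `v = v₀` gives a non-zero term, equal to `x σ`. If `v₀ ∉ σ`, it is
  `∑_{v ∈ σ} x (σ \ v ∪ v₀)`, and the cycle condition at `σ ∪ {v₀}` is
  `∑_{v ∈ σ} x ((σ ∪ v₀) \ v) + x σ = 0`.
* `d = 0`: `y [τ] = x ({v₀}, τ)`; the cycle condition at the edge `{v, v₀}` is `x v + x v₀ = 0`.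
(The cases do not overlap because the degree `k` determines the type: `[τ]` has degree `n + dim τ + 1`,
`(σ, τ)` has degree `n + dim τ - dim σ ≤ n + dim τ`.)
-/

namespace SingerCub

open SingerVS
open scoped Pointwise

section

variable {P : Type} [DecidableEq P] {X : Set (Finset P)}

private def dtB : TC X → SX X
  | Sum.inl y => y.1.2
  | Sum.inr (Sum.inl τ) => τ
  | Sum.inr (Sum.inr σ) => σ

private def dtBas : TC X → Finset P
  | Sum.inl y => y.1.1.1
  | Sum.inr _ => ∅

open scoped Classical in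
private noncomputable def dtCel (hd : ∀ σ ∈ X, ∀ τ, τ ⊆ σ → τ.Nonempty → τ ∈ X) (β : SX X)
    (σ : Finset P) : TC X :=
  if h : σ.Nonempty ∧ σ ⊆ β.1 then Sum.inl ⟨(⟨σ, hd β.1 β.2 σ h.2 h.1⟩, β), h.2⟩
  else Sum.inr (Sum.inl β)

private theorem dt_self {I : CellCx (SX X)} (hs : SI X I) (β : SX X) : I.inc β β = 0 := by
  by_contra h
  obtain ⟨v, hv, e⟩ := (hs.fac β β).1 h
  have h1 : v ∉ β.1.erase v := Finset.notMem_erase v _
  rw [← e] at h1
  exact h1 hv

private theorem dt_inc_ne {I : CellCx (SX X)} (hs : SI X I) {ε : SX X → ℤ} {n : ℕ} {p q : TC X}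
    (hp : ∀ σ, p ≠ Sum.inr (Sum.inr σ)) (hq : ∀ σ, q ≠ Sum.inr (Sum.inr σ))
    (h : (dualCx I ε n).inc p q ≠ 0) :
    dtB p = dtB q ∨ ∃ v ∈ (dtB q).1, (dtB p).1 = (dtB q).1.erase v := by
  rcases p with x | τ | σ
  · rcases q with y | τ' | σ'
    · change (if x.1.1 = y.1.1 then (-1 : ℤ) ^ I.dim x.1.1 * I.inc x.1.2 y.1.2 else 0) +
          (if x.1.2 = y.1.2 then I.inc y.1.1 x.1.1 else 0) ≠ 0 at h
      by_cases h1 : x.1.2 = y.1.2
      · exact Or.inl h1
      · rw [if_neg h1, add_zero] at h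
        refine Or.inr ((hs.fac x.1.2 y.1.2).1 fun h2 => h ?_)
        split_ifs
        · rw [h2, mul_zero]
        · rfl
    · change (if x.1.2 = τ' ∧ I.dim x.1.1 = 0 then (1 : ℤ) else 0) ≠ 0 at h
      by_cases h1 : x.1.2 = τ'
      · exact Or.inl h1
      · exact absurd (if_neg fun h2 => h1 h2.1) h
    · exact absurd rfl (hq σ')
  · rcases q with y | τ' | σ'
    · exact absurd rfl h
    · change - I.inc τ τ' ≠ 0 at h
      exact Or.inr ((hs.fac τ τ').1 fun h2 => h (by rw [h2, neg_zero]))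
    · exact absurd rfl (hq σ')
  · exact absurd rfl (hp σ)

private theorem dt_bas_cel (hd : ∀ σ ∈ X, ∀ τ, τ ⊆ σ → τ.Nonempty → τ ∈ X) {β : SX X}
    {σ : Finset P} (h : σ ⊆ β.1) : dtBas (dtCel hd β σ) = σ := by
  unfold dtCel
  by_cases h1 : σ.Nonempty
  · rw [dif_pos ⟨h1, h⟩]
    rfl
  · rw [dif_neg fun h2 => h1 h2.1]
    rw [Finset.not_nonempty_iff_eq_empty] at h1
    rw [h1]
    rfl

private theorem dt_B_cel (hd : ∀ σ ∈ X, ∀ τ, τ ⊆ σ → τ.Nonempty → τ ∈ X) (β : SX X)
    (σ : Finset P) : dtB (dtCel hd β σ) = β := by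
  unfold dtCel
  split_ifs
  · rfl
  · rfl

private theorem dt_cel_ne (hd : ∀ σ ∈ X, ∀ τ, τ ⊆ σ → τ.Nonempty → τ ∈ X) (β : SX X)
    (σ : Finset P) (ρ : SX X) : dtCel hd β σ ≠ Sum.inr (Sum.inr ρ) := by
  unfold dtCel
  split_ifs
  · exact Sum.inl_ne_inr
  · intro h
    exact Sum.inl_ne_inr (Sum.inr_injective h)

private theorem dt_cel_bas (hne : ∀ σ ∈ X, σ.Nonempty)
    (hd : ∀ σ ∈ X, ∀ τ, τ ⊆ σ → τ.Nonempty → τ ∈ X) {β : SX X} {c : TC X}
    (hc : ∀ σ, c ≠ Sum.inr (Sum.inr σ)) (hb : dtB c = β) :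
    dtBas c ⊆ β.1 ∧ dtCel hd β (dtBas c) = c := by
  subst hb
  rcases c with y | τ | σ
  · refine ⟨y.2, ?_⟩
    unfold dtCel
    rw [dif_pos ⟨hne _ y.1.1.2, y.2⟩]
    rfl
  · refine ⟨Finset.empty_subset _, ?_⟩
    unfold dtCel
    rw [dif_neg]
    · rfl
    · rintro ⟨h, _⟩
      exact Finset.not_nonempty_empty h
  · exact absurd rfl (hc σ)

private theorem dt_dim {I : CellCx (SX X)} (hs : SI X I) {ε : SX X → ℤ} {n : ℕ}
    (hd : ∀ σ ∈ X, ∀ τ, τ ⊆ σ → τ.Nonempty → τ ∈ X) {β : SX X} {σ : Finset P} (h : σ ⊆ β.1) :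
    (dualCx I ε n).dim (dtCel hd β σ) = n + I.dim β + 1 - σ.card := by
  unfold dtCel
  by_cases h1 : σ.Nonempty
  · rw [dif_pos ⟨h1, h⟩]
    change n + I.dim β - I.dim ⟨σ, _⟩ = _
    rw [hs.dim ⟨σ, _⟩]
    have := h1.card_pos
    simp only
    omega
  · rw [dif_neg fun h2 => h1 h2.1]
    rw [Finset.not_nonempty_iff_eq_empty] at h1
    rw [h1, Finset.card_empty]
    rfl

private theorem dt_inc {I : CellCx (SX X)} (hs : SI X I) {ε : SX X → ℤ} {n : ℕ}
    (hd : ∀ σ ∈ X, ∀ τ, τ ⊆ σ → τ.Nonempty → τ ∈ X) {β : SX X} {σ σ' : Finset P} (h : σ ⊆ β.1)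
    (h' : σ' ⊆ β.1) :
    ((∃ v ∈ σ, σ' = σ.erase v) →
      (((dualCx I ε n).inc (dtCel hd β σ) (dtCel hd β σ') : ℤ) : ZMod 2) = 1) ∧
    ((¬ ∃ v ∈ σ, σ' = σ.erase v) →
      (((dualCx I ε n).inc (dtCel hd β σ) (dtCel hd β σ') : ℤ) : ZMod 2) = 0) := by
  unfold dtCel
  by_cases h1 : σ.Nonempty
  · rw [dif_pos ⟨h1, h⟩]
    by_cases h2 : σ'.Nonempty
    · rw [dif_pos ⟨h2, h'⟩]
      set s1 : SX X := ⟨σ, hd β.1 β.2 σ h h1⟩ with hs1
      set s2 : SX X := ⟨σ', hd β.1 β.2 σ' h' h2⟩ with hs2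
      have e : (dualCx I ε n).inc (Sum.inl ⟨(s1, β), h⟩) (Sum.inl ⟨(s2, β), h'⟩) =
          I.inc s2 s1 := by
        change (if s1 = s2 then (-1 : ℤ) ^ I.dim s1 * I.inc β β else 0) +
          (if β = β then I.inc s2 s1 else 0) = _
        rw [dt_self hs, mul_zero, if_pos rfl]
        split_ifs
        · rw [zero_add]
        · rw [zero_add]
      rw [e]
      have hf := hs.fac s2 s1
      constructor
      · intro h3
        have h4 := hf.2 h3
        rcases hs.one s2 s1 with h5 | h5 | h5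
        · exact absurd h5 h4
        · rw [h5]; rfl
        · rw [h5]; rfl
      · intro h3
        have h4 : I.inc s2 s1 = 0 := by
          by_contra h5
          exact h3 (hf.1 h5)
        rw [h4]
        rfl
    · rw [dif_neg fun h3 => h2 h3.1]
      rw [Finset.not_nonempty_iff_eq_empty] at h2
      set s1 : SX X := ⟨σ, hd β.1 β.2 σ h h1⟩ with hs1
      have e : (dualCx I ε n).inc (Sum.inl ⟨(s1, β), h⟩) (Sum.inr (Sum.inl β)) =
          if I.dim s1 = 0 then 1 else 0 := by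
        change (if β = β ∧ I.dim s1 = 0 then (1 : ℤ) else 0) = _
        simp
      have hdim := hs.dim s1
      have hcard := h1.card_pos
      have hiff : (∃ v ∈ σ, σ' = σ.erase v) ↔ I.dim s1 = 0 := by
        rw [hdim, h2]
        constructor
        · rintro ⟨v, hv, hve⟩
          have h3 := Finset.card_erase_of_mem hv
          rw [← hve, Finset.card_empty] at h3
          exact h3.symm
        · intro h3
          have h4 : σ.card = 1 := by
            change σ.card - 1 = 0 at h3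
            omega
          obtain ⟨v, hv⟩ := Finset.card_eq_one.1 h4
          refine ⟨v, by rw [hv]; exact Finset.mem_singleton_self v, ?_⟩
          rw [hv, Finset.erase_singleton]
      rw [e, hiff]
      constructor
      · intro h3
        rw [if_pos h3]
        rfl
      · intro h3
        rw [if_neg h3]
        rfl
  · rw [dif_neg fun h3 => h1 h3.1]
    rw [Finset.not_nonempty_iff_eq_empty] at h1
    have h5 : ¬ ∃ v ∈ σ, σ' = σ.erase v := by
      rintro ⟨v, hv, _⟩
      rw [h1] at hv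
      exact absurd hv (Finset.notMem_empty v)
    refine ⟨fun h6 => absurd h6 h5, fun _ => ?_⟩
    split_ifs
    · rfl
    · have e : (dualCx I ε n).inc (Sum.inr (Sum.inl β)) (Sum.inr (Sum.inl β)) = - I.inc β β := rfl
      rw [e, dt_self hs]
      rfl

/-- the boundary modulo 2 in a block -/
private theorem dt_sum {I : CellCx (SX X)} (hs : SI X I) {ε : SX X → ℤ} {n : ℕ}
    (hne : ∀ σ ∈ X, σ.Nonempty)
    (hd : ∀ σ ∈ X, ∀ τ, τ ⊆ σ → τ.Nonempty → τ ∈ X) {β : SX X} (w : TC X → ZMod 2)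
    (hw : ∀ c, w c ≠ 0 → (∀ σ, c ≠ Sum.inr (Sum.inr σ)) ∧ dtB c = β) {σ : Finset P}
    (h : σ ⊆ β.1) :
    ∑ᶠ q, (((dualCx I ε n).inc (dtCel hd β σ) q : ℤ) : ZMod 2) * w q =
      ∑ v ∈ σ, w (dtCel hd β (σ.erase v)) := by
  classical
  have hinj : Set.InjOn (dtCel hd β) (β.1.powerset : Set (Finset P)) := by
    intro a ha b hb e
    rw [Finset.mem_coe, Finset.mem_powerset] at ha hb
    rw [← dt_bas_cel hd ha, ← dt_bas_cel hd hb, e]
  rw [finsum_eq_sum_of_support_subset (s := β.1.powerset.image (dtCel hd β))]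
  · rw [Finset.sum_image hinj]
    have h1 : σ.image (fun v => σ.erase v) ⊆ β.1.powerset := by
      intro a ha
      rw [Finset.mem_image] at ha
      obtain ⟨v, _, rfl⟩ := ha
      rw [Finset.mem_powerset]
      exact (Finset.erase_subset v σ).trans h
    rw [← Finset.sum_subset h1]
    · rw [Finset.sum_image (Finset.erase_injOn σ)]
      refine Finset.sum_congr rfl fun v hv => ?_
      rw [(dt_inc hs hd h ((Finset.erase_subset v σ).trans h)).1 ⟨v, hv, rfl⟩, one_mul]
    · intro a ha ha2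
      rw [Finset.mem_powerset] at ha
      rw [(dt_inc hs hd h ha).2, zero_mul]
      rintro ⟨v, hv, rfl⟩
      exact ha2 (Finset.mem_image.2 ⟨v, hv, rfl⟩)
  · intro q hq
    rw [Function.mem_support] at hq
    have h1 := hw q (right_ne_zero_of_mul hq)
    obtain ⟨h2, h3⟩ := dt_cel_bas hne hd h1.1 h1.2
    rw [Finset.mem_coe, Finset.mem_image]
    exact ⟨dtBas q, Finset.mem_powerset.2 h2, h3⟩

end

theorem tau_exact {K P : Type} [Group K] [DecidableEq P] [MulAction K P] {X : Set (Finset P)}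
    (hX : FreeCx K X) {n : ℕ} (hdim : ∀ σ ∈ X, σ.card ≤ n + 1) {I : CellCx (SX X)} (hs : SI X I)
    (hI : letI := sxAct (K := K) hX.inv; ∀ (h : K) (p q : SX X), I.inc (h • p) (h • q) = I.inc p q)
    {ε : SX X → ℤ} (hf : Fund n X I ε)
    (hε : letI := sxAct (K := K) hX.inv; ∀ (h : K) (p : SX X), p.1.card = n + 1 →
      ε (h • p) = ε p) (k : ℕ) :
    NH (dualCx I ε n) {x | ∀ σ, x ≠ Sum.inr (Sum.inr σ)} k := by
  classical
  letI iK : MulAction K (TC X) := tcAct (K := K) hX.inv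
  have hFC : FC K (dualCx I ε n) := dual_fc hX hdim hs hI hf hε
  set S : Set (TC X) := {x | ∀ σ, x ≠ Sum.inr (Sum.inr σ)} with hS
  have hcv : Cvx (dualCx I ε n) S := cvx_tau I ε n
  have hcard : ∀ p q : TC X, (dtB p).1 = (dtB q).1 → I.dim (dtB p) = I.dim (dtB q) := by
    intro p q e
    rw [hs.dim, hs.dim, e]
  have hle : ∀ p ∈ S, ∀ q ∈ S, (dualCx I ε n).inc p q ≠ 0 → I.dim (dtB p) ≤ I.dim (dtB q) := by
    intro p hp q hq h
    rcases dt_inc_ne hs hp hq h with h1 | ⟨v, hv, h1⟩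
    · rw [h1]
    · rw [hs.dim, hs.dim, h1]
      exact Nat.sub_le_sub_right (Finset.card_le_card (Finset.erase_subset _ _)) 1
  have heq : ∀ p ∈ S, ∀ q ∈ S, (dualCx I ε n).inc p q ≠ 0 → I.dim (dtB p) = I.dim (dtB q) →
      dtB p = dtB q := by
    intro p hp q hq h h2
    rcases dt_inc_ne hs hp hq h with h1 | ⟨v, hv, h1⟩
    · exact h1
    · exfalso
      rw [hs.dim, hs.dim] at h2
      have h3 := Finset.card_erase_of_mem hv
      rw [← h1] at h3
      have h4 := (hX.ne _ (dtB p).2).card_pos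
      omega
  refine nh_filtration hFC hcv ?_ (fun c => I.dim (dtB c)) hle ?_ (n + 1) ?_ k ?_
  · intro h c hc σ e
    rcases c with x | τ | ρ
    · exact Sum.inl_ne_inr e
    · exact Sum.inl_ne_inr (Sum.inr_injective e)
    · exact hc ρ rfl
  · intro h c
    have h1 : (dtB (h • c)).1 = h • (dtB c).1 := by
      rcases c with x | τ | ρ
      · rfl
      · rfl
      · rfl
    show I.dim (dtB (h • c)) = I.dim (dtB c)
    rw [hs.dim, hs.dim, h1, Finset.card_smul_finset]
  · intro c _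
    show I.dim (dtB c) < n + 1
    rw [hs.dim]
    have := hdim _ (dtB c).2
    omega
  · intro j _
    refine nh_block dtB ?_ k fun β => ?_
    · intro p hp q hq h
      exact heq p hp.1 q hq.1 h (hp.2.trans hq.2.symm)
    by_cases hj : I.dim β = j
    swap
    · have h1 : {c | c ∈ {c | c ∈ S ∧ I.dim (dtB c) = j} ∧ dtB c = β} = ∅ := by
        rw [Set.eq_empty_iff_forall_notMem]
        rintro c ⟨⟨_, h2⟩, h3⟩
        rw [h3] at h2
        exact hj h2
      rw [h1]
      exact nh_empty _ k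
    set T : Set (TC X) := {c | c ∈ {c | c ∈ S ∧ I.dim (dtB c) = j} ∧ dtB c = β} with hT
    have hTm : ∀ c, c ∈ T ↔ c ∈ S ∧ dtB c = β := by
      intro c
      constructor
      · rintro ⟨⟨h1, _⟩, h2⟩
        exact ⟨h1, h2⟩
      · rintro ⟨h1, h2⟩
        exact ⟨⟨h1, by rw [h2]; exact hj⟩, h2⟩
    have hcel : ∀ σ, dtCel hX.down β σ ∈ T := fun σ =>
      (hTm _).2 ⟨dt_cel_ne hX.down β σ, dt_B_cel hX.down β σ⟩
    refine nh_of_mod2 hFC ?_ ?_ k ?_
    · intro p q r hp hr h1 h2
      rw [hTm] at hp hr ⊢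
      have hq : q ∈ S := hcv p q r hp.1 hr.1 h1 h2
      refine ⟨hq, ?_⟩
      have a1 := hle p hp.1 q hq h1
      have a2 := hle q hq r hr.1 h2
      rw [hp.2] at a1
      rw [hr.2] at a2
      rw [← heq p hp.1 q hq h1 (by rw [hp.2]; exact le_antisymm a1 a2)]
      exact hp.2
    · refine ((β.1.powerset.image (dtCel hX.down β)).finite_toSet).subset fun c hc => ?_
      rw [hTm] at hc
      obtain ⟨h2, h3⟩ := dt_cel_bas hX.ne hX.down hc.1 hc.2
      rw [Finset.mem_coe, Finset.mem_image]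
      exact ⟨dtBas c, Finset.mem_powerset.2 h2, h3⟩
    · intro x hx hcyc
      obtain ⟨v0, hv0⟩ := hX.ne _ β.2
      have hx' : ∀ c, x c ≠ 0 → (∀ σ, c ≠ Sum.inr (Sum.inr σ)) ∧ dtB c = β := fun c hc =>
        (hTm c).1 (hx c hc).1
      have hC : ∀ σ ⊆ β.1, ∑ v ∈ σ, x (dtCel hX.down β (σ.erase v)) = 0 := by
        intro σ hσ
        rw [← dt_sum hs hX.ne hX.down x hx' hσ]
        exact hcyc _ (hcel σ)
      let y : TC X → ZMod 2 := fun c =>
        if c ∈ T ∧ v0 ∉ dtBas c then x (dtCel hX.down β (insert v0 (dtBas c))) else 0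
      have hy : ∀ σ ⊆ β.1, y (dtCel hX.down β σ) =
          if v0 ∉ σ then x (dtCel hX.down β (insert v0 σ)) else 0 := by
        intro σ hσ
        show (if dtCel hX.down β σ ∈ T ∧ v0 ∉ dtBas (dtCel hX.down β σ) then
          x (dtCel hX.down β (insert v0 (dtBas (dtCel hX.down β σ)))) else 0) = _
        rw [dt_bas_cel hX.down hσ]
        by_cases h1 : v0 ∉ σ
        · rw [if_pos ⟨hcel σ, h1⟩, if_pos h1]
        · rw [if_neg fun h2 => h1 h2.2, if_neg h1]
      have hy1 : ∀ c, y c ≠ 0 → c ∈ T ∧ v0 ∉ dtBas c ∧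
          x (dtCel hX.down β (insert v0 (dtBas c))) ≠ 0 := by
        intro c hc
        by_cases h1 : c ∈ T ∧ v0 ∉ dtBas c
        · refine ⟨h1.1, h1.2, ?_⟩
          intro h2
          apply hc
          show (if c ∈ T ∧ v0 ∉ dtBas c then x (dtCel hX.down β (insert v0 (dtBas c))) else 0) = 0
          rw [if_pos h1, h2]
        · exact absurd (if_neg h1) hc
      refine ⟨y, ?_, ?_⟩
      · intro c hc
        obtain ⟨h1, h2, h3⟩ := hy1 c hc
        refine ⟨h1, ?_⟩
        have h4 := (hx _ h3).2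
        obtain ⟨h5, h6⟩ := dt_cel_bas hX.ne hX.down ((hTm c).1 h1).1 ((hTm c).1 h1).2
        have h7 : insert v0 (dtBas c) ⊆ β.1 := Finset.insert_subset hv0 h5
        rw [dt_dim hs hX.down h7, Finset.card_insert_of_notMem h2] at h4
        have h8 := dt_dim (ε := ε) (n := n) hs hX.down h5
        rw [h6] at h8
        rw [h8]
        have h9 := Finset.card_le_card h7
        rw [Finset.card_insert_of_notMem h2] at h9
        have h10 := hs.dim β
        omega
      · intro p hp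
        obtain ⟨h5, h6⟩ := dt_cel_bas hX.ne hX.down ((hTm p).1 hp).1 ((hTm p).1 hp).2
        rw [← h6]
        set σ := dtBas p with hσ
        rw [dt_sum hs hX.ne hX.down y (fun c hc => (hTm c).1 (hy1 c hc).1) h5]
        have h7 : ∀ v ∈ σ, y (dtCel hX.down β (σ.erase v)) =
            if v0 ∉ σ.erase v then x (dtCel hX.down β (insert v0 (σ.erase v))) else 0 :=
          fun v _ => hy _ ((Finset.erase_subset v σ).trans h5)
        rw [Finset.sum_congr rfl h7]
        by_cases h8 : v0 ∈ σ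
        · rw [Finset.sum_eq_single v0]
          · rw [if_pos (Finset.notMem_erase v0 σ), Finset.insert_erase h8]
          · intro v hv hv2
            rw [if_neg]
            rw [not_not]
            exact Finset.mem_erase.2 ⟨hv2.symm, h8⟩
          · intro h
            exact absurd h8 h
        · have h9 := hC (insert v0 σ) (Finset.insert_subset hv0 h5)
          rw [Finset.sum_insert h8, Finset.erase_insert h8] at h9
          have h10 : ∑ v ∈ σ, x (dtCel hX.down β ((insert v0 σ).erase v)) =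
              ∑ v ∈ σ, (if v0 ∉ σ.erase v then
                x (dtCel hX.down β (insert v0 (σ.erase v))) else 0) := by
            refine Finset.sum_congr rfl fun v hv => ?_
            rw [if_pos fun h => h8 (Finset.mem_of_mem_erase h)]
            rw [Finset.erase_insert_of_ne]
            rintro rfl
            exact h8 hv
          rw [h10] at h9
          have h11 := eq_neg_of_add_eq_zero_right h9
          rw [h11, ZMod.neg_eq_self_mod_two]

end SingerCub
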