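import Mathlib
import Pool.Agent.Lib_MP_394d50_cub.DOri
import Pool.Agent.Lib_MP_394d50_cub.DTau
import Pool.Agent.Lib_MP_394d50_cub.DSig
import Pool.Agent.Lib_MP_394d50_vs.GCol

/-!
# Piece DMAIN: Poincaré duality

Proof. `K`, `ε` from `exists_fund`; `hXK : FreeCx K X := hX.of_finiteIndex K hK` (used in
`Lib_MP_394d50_vs/VMain.lean` or `Lib_MP_394d50_rn/MNR.lean`; find the file where it is proved). Let
`T = dualCx I ε n`, a free cell complex for `K` (`dual_fc`). `dim σ ≤ n` for all `σ ∈ X` (`hM.dim`).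
1. `NH T {x | ∃ σ, x = inr (inr σ)} (2 n + 1 - m)`: `nh_rev` with `φ σ = inr (inr σ)`, `e = -1`, `s = 1`,
   `N = 2 n + 1`.
2. `nh_sub` with `S1 = {inl _}`, `S2 = {inr (inr _)}`, degree `k = 2 n - m`: `S1 ∪ S2` is the set of
   `sig_exact`. So `NH T {inl _} (2 n - m)`.
3. `nh_quo` with `S1 = {inl _}`, `S2 = {inr (inl _)}`, degree `k = 2 n - m`: `S1 ∪ S2` is the set of
   `tau_exact`. So `NH T {inr (inl _)} (2 n - m + 1)`.
4. `nh_map` with `φ τ = inr (inl τ)`, `e = -1`, `a = 0`, `b = n + 1`, `k = n - m`: `NH I univ (n - m)`.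
The convexity `Cvx` of the two unions is easy (they are complements of the cells of one kind):
see DTAU, DSIG.
-/

namespace SingerCub

open SingerVS
open scoped Pointwise

theorem nh_dual_aux {K P : Type} [Group K] [DecidableEq P] [MulAction K P] {X : Set (Finset P)}
    (hX : FreeCx K X) {n : ℕ} (hM : HomMfd n X) {I : CellCx (SX X)} (hs : SI X I)
    (hI : letI := sxAct (K := K) hX.inv; ∀ (h : K) (p q : SX X), I.inc (h • p) (h • q) = I.inc p q)
    {ε : SX X → ℤ} (hf : Fund n X I ε)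
    (hε : letI := sxAct (K := K) hX.inv; ∀ (h : K) (p : SX X), p.1.card = n + 1 →
      ε (h • p) = ε p) (m : ℕ) (hm : m ≤ n) (h : NH I Set.univ m) :
    NH I Set.univ (n - m) := by
  let _ : MulAction K (TC X) := tcAct (K := K) hX.inv
  have hFC : FC K (dualCx I ε n) := dual_fc hX hM.dim hs hI hf hε
  have hdimI : ∀ p : SX X, I.dim p ≤ n := by
    intro p
    rw [hs.dim]
    have := hM.dim p.1 p.2
    omega
  -- the three kinds of cells
  obtain ⟨A, hA⟩ : ∃ A : Set (TC X), A = {x | ∃ y, x = Sum.inl y} := ⟨_, rfl⟩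
  obtain ⟨B, hB⟩ : ∃ B : Set (TC X), B = {x | ∃ τ, x = Sum.inr (Sum.inl τ)} := ⟨_, rfl⟩
  obtain ⟨D, hD⟩ : ∃ D : Set (TC X), D = {x | ∃ σ, x = Sum.inr (Sum.inr σ)} := ⟨_, rfl⟩
  have iA : ∀ (g : K), ∀ c ∈ A, g • c ∈ A := by
    intro g c hc
    rw [hA] at hc ⊢
    obtain ⟨y, rfl⟩ := hc
    exact ⟨_, rfl⟩
  have iB : ∀ (g : K), ∀ c ∈ B, g • c ∈ B := by
    intro g c hc
    rw [hB] at hc ⊢
    obtain ⟨y, rfl⟩ := hc
    exact ⟨_, rfl⟩
  have iD : ∀ (g : K), ∀ c ∈ D, g • c ∈ D := by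
    intro g c hc
    rw [hD] at hc ⊢
    obtain ⟨y, rfl⟩ := hc
    exact ⟨_, rfl⟩
  have uAD : A ∪ D = {x : TC X | ∀ τ, x ≠ Sum.inr (Sum.inl τ)} := by
    ext x
    rw [hA, hD]
    constructor
    · rintro (⟨y, rfl⟩ | ⟨σ, rfl⟩) τ e
      · exact absurd e (by simp)
      · exact absurd e (by simp)
    · intro hx
      rcases x with y | (τ | σ)
      · exact Or.inl ⟨y, rfl⟩
      · exact absurd rfl (hx τ)
      · exact Or.inr ⟨σ, rfl⟩
  have uAB : A ∪ B = {x : TC X | ∀ σ, x ≠ Sum.inr (Sum.inr σ)} := by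
    ext x
    rw [hA, hB]
    constructor
    · rintro (⟨y, rfl⟩ | ⟨σ, rfl⟩) τ e
      · exact absurd e (by simp)
      · exact absurd e (by simp)
    · intro hx
      rcases x with y | (τ | σ)
      · exact Or.inl ⟨y, rfl⟩
      · exact Or.inr ⟨τ, rfl⟩
      · exact absurd rfl (hx σ)
  have dAD : Disjoint A D := by
    rw [Set.disjoint_left, hA, hD]
    rintro x ⟨y, rfl⟩ ⟨σ, e⟩
    exact absurd e (by simp)
  have dAB : Disjoint A B := by
    rw [Set.disjoint_left, hA, hB]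
    rintro x ⟨y, rfl⟩ ⟨σ, e⟩
    exact absurd e (by simp)
  have z1 : ∀ p ∈ D, ∀ q ∈ A, (dualCx I ε n).inc p q = 0 := by
    intro p hp q hq
    rw [hD] at hp
    rw [hA] at hq
    obtain ⟨σ, rfl⟩ := hp
    obtain ⟨y, rfl⟩ := hq
    rfl
  have z2 : ∀ p ∈ B, ∀ q ∈ A, (dualCx I ε n).inc p q = 0 := by
    intro p hp q hq
    rw [hB] at hp
    rw [hA] at hq
    obtain ⟨σ, rfl⟩ := hp
    obtain ⟨y, rfl⟩ := hq
    rfl
  -- step 1
  have s1 : NH (dualCx I ε n) D (2 * n - m + 1) := by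
    have h1 := (nh_rev (I := I) (I' := dualCx I ε n) (S := Set.univ)
      (fun σ : SX X => (Sum.inr (Sum.inr σ) : TC X))
      (fun a _ b _ e => Sum.inr_injective (Sum.inr_injective e)) (fun _ => 1)
      (fun _ => Or.inl rfl) (-1) (Or.inr rfl)
      (fun p _ q _ => by
        show - I.inc q p = -1 * (1 * 1 * I.inc q p)
        ring)
      (2 * n + 1)
      (fun p _ => by
        show 2 * n + 1 - I.dim p + I.dim p = 2 * n + 1
        have := hdimI p
        omega) m (by omega)).1 h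
    have e1 : (fun σ : SX X => (Sum.inr (Sum.inr σ) : TC X)) '' Set.univ = D := by
      rw [hD]
      ext x
      constructor
      · rintro ⟨σ, _, rfl⟩
        exact ⟨σ, rfl⟩
      · rintro ⟨σ, rfl⟩
        exact ⟨σ, trivial, rfl⟩
    rw [e1] at h1
    have e2 : 2 * n + 1 - m = 2 * n - m + 1 := by omega
    rw [e2] at h1
    exact h1
  -- step 2
  have s2 : NH (dualCx I ε n) A (2 * n - m) := by
    refine nh_sub hFC dAD ?_ z1 iA iD ?_ s1
    · rw [uAD]
      exact cvx_sig I ε n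
    · rw [uAD]
      exact sig_exact hX hM hs hI hf hε _
  -- step 3
  have s3 : NH (dualCx I ε n) B (2 * n - m + 1) := by
    refine nh_quo hFC dAB ?_ z2 iA iB ?_ s2
    · rw [uAB]
      exact cvx_tau I ε n
    · rw [uAB]
      exact tau_exact hX hM.dim hs hI hf hε _
  -- step 4
  have e1 : (fun τ : SX X => (Sum.inr (Sum.inl τ) : TC X)) '' Set.univ = B := by
    rw [hB]
    ext x
    constructor
    · rintro ⟨σ, _, rfl⟩
      exact ⟨σ, rfl⟩
    · rintro ⟨σ, rfl⟩
      exact ⟨σ, trivial, rfl⟩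
  have h4 := nh_map (I := I) (I' := dualCx I ε n) (S := Set.univ)
      (fun τ : SX X => (Sum.inr (Sum.inl τ) : TC X))
      (fun a _ b _ e => Sum.inl_injective (Sum.inr_injective e)) (fun _ => 1)
      (fun _ => Or.inl rfl) (-1) (Or.inr rfl)
      (fun p _ q _ => by
        show - I.inc p q = -1 * (1 * 1 * I.inc p q)
        ring)
      0 (n + 1)
      (fun p _ => by
        show n + I.dim p + 1 + 0 = I.dim p + (n + 1)
        omega) (n - m)
  rw [e1, add_zero] at h4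
  refine h4.2 ?_
  have e2 : n - m + (n + 1) = 2 * n - m + 1 := by omega
  rw [e2]
  exact s3

theorem nh_dual {Γ P : Type} [Group Γ] [DecidableEq P] [MulAction Γ P] {X : Set (Finset P)}
    (hX : FreeCx Γ X) (hA : Acyc X) {n : ℕ} (hM : HomMfd n X) {I : CellCx (SX X)} (hs : SI X I)
    (hI : letI := sxAct (K := Γ) hX.inv; ∀ (h : Γ) (p q : SX X), I.inc (h • p) (h • q) = I.inc p q)
    (m : ℕ) (hm : m ≤ n) (h : NH I Set.univ m) : NH I Set.univ (n - m) := by
  obtain ⟨K, ε, hK, hf, hε⟩ := exists_fund hX hA hM hs hI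
  have hXK : FreeCx K X := hX.of_finiteIndex K hK
  exact nh_dual_aux hXK hM hs (fun g p q => hI (g : Γ) p q) hf
    (fun g p hp => hε (g : Γ) g.2 p hp) m hm h

end SingerCub
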