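import Mathlib
import Pool.Agent.Lib_MP_394d50_cub.WDefs
import Pool.Agent.Lib_MP_394d50_vs.LSDefs

/-!
# The hypothesis on the intersections of walls
-/

namespace SingerCub

open SingerVS SingerRN
open scoped Pointwise

/-- The hypothesis on the intersections of `j ≥ 1` walls: one of the walls has a virtually residually
(amenable, left-orderable, residually finite) stabiliser, or the `ℓ²`-Betti numbers of the intersection
vanish in the degrees less than `(n - j) / 2`. -/
def GoodW (n : ℕ) (Γ : Type) [Group Γ] {P ι : Type} [LinearOrder P] [MulAction Γ P]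
    [MulAction Γ ι] (Y : ι → Set (Finset P)) : Prop :=
  ∀ t : Finset ι, t.Nonempty → (wi Y t).Nonempty →
    (∃ i ∈ t, VirtRes (MulAction.stabilizer Γ i)) ∨
      ∀ q, 2 * q + t.card < n → bettiX (fixingSubgroup Γ (t : Set ι)) (wi Y t) q = 0

end SingerCub
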