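import Mathlib
import Pool.Agent.Lib_MP_394d50_cub.AInv
import Pool.Agent.Lib_MP_394d50_cub.ABet
import Pool.Agent.Lib_MP_394d50_cub.AStab
import Pool.Agent.Lib_MP_394d50_cub.AStar
import Pool.Agent.Lib_MP_394d50_cub.CMain
import Pool.Agent.Lib_MP_394d50_cub.DMain
import Pool.Agent.Lib_MP_394d50_cub.WGood

/-!
# Piece AMAIN: the theorem on walls

`I`, `s` from `exists_inv`, `hF : FC Γ I` from its last part (`FreeCell.fc`) with the action `sxAct`. Let
`Y' i = {c : SX X | c.1 ∈ Y i}`; `Fam Γ I Y'` from `hW` (`down`: `I.inc p q ≠ 0` gives `p.1 ⊆ q.1`, and `p.1` is not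
empty).

`wall_nh`: for `t` non-empty with `wi Y t` non-empty, a subgroup `K` as in `wi_freeCx` and
`bettiX K (wi Y t) q = 0`: `NH I {c | c.1 ∈ wi Y t} q`. `nh_of_betti` gives
`NH (simpCx (wi Y t) (· < ·)) univ q`, and `nh_map` with the inclusion `SX (wi Y t) → SX X`, the signs `s`,
`e = 1`, `a = b = 0` (`simpInc` does not depend on the complex).

`main_nh`: (1) for `2 k + 1 < n`, and (2) for `2 k + 1 = n` if in addition the middle Betti numbers of the
walls vanish: `NH I univ k`, by `cech_reduction`. `hrest` is `rest_walls` (`k < n`). `hcol`: let `t` be a list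
of length `j`, `1 ≤ j ≤ k + 1`, `q = k + 1 - j`, `T = t.toFinset`, `1 ≤ T.card ≤ j`. If `wi Y T` is empty, the
set is empty (`nh_empty`). Otherwise `hW.inter T` gives `Acyc` and `m ≥ n - T.card` with `HomMfd m`. Let
`K = fixingSubgroup Γ T`, `FreeCx K (wi Y T)` by `wi_freeCx`. We have `2 q = 2 k + 2 - 2 j`. In case (1), and in
case (2) if `j ≥ 2`, `2 q < n - j ≤ n - T.card ≤ m` (case (1): `2 k + 2 - 2 j ≤ n - 2 j < n - j`... precisely
`2 k + 2 ≤ n`, so `2 q ≤ n - 2 j`; case (2): `2 q = n + 1 - 2 j ≤ n - j - 1` for `j ≥ 2`). By `hG T`: either some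
stabiliser `VirtRes` (then `K` too, by the inclusion and `virtRes_of_injective`) and `main_rn` gives
`bettiX K (wi Y T) q = 0` since `2 q ≠ m`; or directly since `2 q + T.card < n`. In case (2) with `j = 1`:
`t = [i]`, `q = k = (n - 1) / 2`, and the hypothesis is `bettiX (stabilizer Γ i) (Y i) q = 0`;
`wi Y {i} = Y i`, and `K = stabilizer Γ i` is allowed in `wi_freeCx`.

Conclusion: `NH I univ k` for `2 k + 1 < n`; `nh_dual` gives `NH I univ (n - k)`, so `NH I univ k` for
`n + 1 < 2 k`, `k ≤ n`; for `k > n` there are no `k`-simplices (`hM.dim`), `NH` is trivial. Go back to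
`simpCx X (· < ·)` by `nh_map` (identity map, signs `s`), and `betti_of_nh`. In case (2) also `k = (n - 1) / 2`
and `n - k = (n + 1) / 2`.
The formulas: `betti_final` (LFinal) with `K = ⊤`, `I' = I`, `hz` from `locDim_of_nh`: as at the end of
`main_rn` (MNR), where `hF : FreeCell K I'`. (For `K = ⊤` one needs `FreeCell (⊤ : Subgroup Γ) I`, which
follows from `FreeCell Γ I`.)
-/

namespace SingerCub

open SingerVS SingerRN
open scoped Pointwise

section

variable {Γ P ι : Type} [Group Γ] [LinearOrder P] [MulAction Γ P] [MulAction Γ ι]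
  {X : Set (Finset P)}

theorem wall_nh {Y : ι → Set (Finset P)} {I : CellCx (SX X)} {s : SX X → ℤ}
    (hs : ∀ c, s c = 1 ∨ s c = -1)
    (hdim : ∀ c, I.dim c = (simpCx X (fun x y : P => x < y)).dim c)
    (hinc : ∀ p q, I.inc p q = s p * s q * (simpCx X (fun x y : P => x < y)).inc p q)
    (t : Finset ι) (hsub : wi Y t ⊆ X) (K : Subgroup Γ) (hK : FreeCx K (wi Y t)) (q : ℕ)
    (hb : bettiX K (wi Y t) q = 0) : NH I {c | c.1 ∈ wi Y t} q := by
  have h1 := nh_of_betti hK q hb
  let φ : SX (wi Y t) → SX X := fun c => ⟨c.1, hsub c.2⟩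
  have hφ : Set.InjOn φ Set.univ := by
    intro a _ b _ e
    exact Subtype.ext (congrArg (fun c : SX X => c.1) e)
  have h2 := (nh_map (I := simpCx (wi Y t) (fun x y : P => x < y)) (I' := I) (S := Set.univ) φ hφ
    (fun c => s (φ c)) (fun c => hs _) 1 (Or.inl rfl) (fun p _ q _ => by
      rw [hinc, one_mul]
      rfl) 0 0 (fun p _ => by
      rw [hdim]
      rfl) q).mp h1
  have h3 : φ '' Set.univ = {c | c.1 ∈ wi Y t} := by
    ext c
    constructor
    · rintro ⟨d, _, rfl⟩
      exact d.2
    · intro hc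
      exact ⟨⟨c.1, hc⟩, trivial, rfl⟩
  rw [h3] at h2
  exact h2

theorem main_nh (hX : FreeCx Γ X) {n : ℕ} (hM : HomMfd n X)
    {Y : ι → Set (Finset P)} {Z : Set P} (hW : Walls n Γ X Y Z) (hG : GoodW n Γ Y)
    {I : CellCx (SX X)} {s : SX X → ℤ} (hs : ∀ c, s c = 1 ∨ s c = -1) (hSI : SI X I)
    (hdim : ∀ c, I.dim c = (simpCx X (fun x y : P => x < y)).dim c)
    (hinc : ∀ p q, I.inc p q = s p * s q * (simpCx X (fun x y : P => x < y)).inc p q)
    (hF : letI := sxAct (K := Γ) hX.inv; FC Γ I) (k : ℕ)
    (hk : 2 * k + 1 < n ∨ (2 * k + 1 = n ∧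
      ∀ i, (Y i).Nonempty → bettiX (MulAction.stabilizer Γ i) (Y i) ((n - 1) / 2) = 0)) :
    NH I Set.univ k := by
  classical
  letI iA : MulAction Γ (SX X) := sxAct (K := Γ) hX.inv
  let Y' : ι → Set (SX X) := fun i => {c | c.1 ∈ Y i}
  have hFam : Fam Γ I Y' := by
    refine ⟨fun i q hq p hp => ?_, fun g i c hc => hW.smul g i c.1 hc, fun c => hW.locfin c.1 c.2⟩
    obtain ⟨v, _, e⟩ := (hSI.fac p q).mp hp
    exact hW.down i q.1 hq p.1 (by rw [e]; exact Finset.erase_subset _ _) (hX.ne _ p.2)
  have hrest : NH I {c | ∀ i, c ∉ Y' i} k := rest_walls hX hM hW hSI hF k (by omega)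
  refine cech_reduction hF hFam k (fun t ht hl => ?_) hrest
  have hset : {c : SX X | ∀ i ∈ t, c ∈ Y' i} = {c | c.1 ∈ wi Y t.toFinset} := by
    ext c
    constructor
    · intro h i hi
      exact h i (List.mem_toFinset.mp hi)
    · intro h i hi
      exact h i (List.mem_toFinset.mpr hi)
  rw [hset]
  by_cases hne : (wi Y t.toFinset).Nonempty
  · have hT : t.toFinset.Nonempty := by
      rw [List.toFinset_nonempty_iff]
      exact ht
    have hsub : wi Y t.toFinset ⊆ X := by
      intro σ hσ
      obtain ⟨i, hi⟩ := hT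
      exact hW.sub i (hσ i hi)
    have hcard : t.toFinset.card ≤ t.length := List.toFinset_card_le t
    have hcard1 : 1 ≤ t.toFinset.card := Finset.card_pos.mpr hT
    obtain ⟨hAc, m, hm, hMm⟩ := hW.inter _ hT hne
    have hKinv : ∀ g ∈ fixingSubgroup Γ (t.toFinset : Set ι), ∀ σ ∈ wi Y t.toFinset,
        g • σ ∈ wi Y t.toFinset := by
      intro g hg σ hσ i hi
      have h1 : g • i = i := (mem_fixingSubgroup_iff Γ).mp hg i hi
      have h2 := hW.smul g i σ (hσ i hi)
      rwa [h1] at h2
    have hKX := wi_freeCx hX hW _ hT (fixingSubgroup Γ (t.toFinset : Set ι)) le_rfl hKinv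
    by_cases hcase : 2 * k + 1 = n ∧ t.length = 1
    · -- the middle degree, one wall
      obtain ⟨hn, hl1⟩ := hcase
      obtain ⟨i, rfl⟩ := List.length_eq_one_iff.mp hl1
      have hmid : ∀ i, (Y i).Nonempty →
          bettiX (MulAction.stabilizer Γ i) (Y i) ((n - 1) / 2) = 0 := by
        rcases hk with hk | hk
        · omega
        · exact hk.2
      have hYi : wi Y [i].toFinset = Y i := by
        ext σ
        constructor
        · intro h
          exact h i (by simp)
        · intro h j hj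
          have : j = i := by simpa using hj
          rw [this]
          exact h
      have hst : ∀ g ∈ MulAction.stabilizer Γ i, ∀ σ ∈ wi Y [i].toFinset,
          g • σ ∈ wi Y [i].toFinset := by
        intro g hg σ hσ
        rw [hYi] at hσ ⊢
        have h2 := hW.smul g i σ hσ
        rwa [MulAction.mem_stabilizer_iff.mp hg] at h2
      have hle : fixingSubgroup Γ (([i].toFinset : Finset ι) : Set ι) ≤
          MulAction.stabilizer Γ i := by
        intro g hg
        exact MulAction.mem_stabilizer_iff.mpr ((mem_fixingSubgroup_iff Γ).mp hg i (by simp))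
      have hKX' := wi_freeCx hX hW _ hT (MulAction.stabilizer Γ i) hle hst
      have hb := hmid i (by rw [← hYi]; exact hne)
      refine wall_nh hs hdim hinc _ hsub (MulAction.stabilizer Γ i) hKX' _ ?_
      rw [hYi]
      have e : k + 1 - [i].length = (n - 1) / 2 := by
        simp only [List.length_singleton]
        omega
      rw [e]
      exact hb
    · have hq : 2 * (k + 1 - t.length) + t.length < n := by
        have h1 : 1 ≤ t.length := List.length_pos_iff.mpr ht
        have h2 : 2 * k + 1 ≤ n := by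
          rcases hk with hk | hk
          · omega
          · omega
        by_cases h3 : 2 * k + 1 = n
        · have h4 : t.length ≠ 1 := fun h => hcase ⟨h3, h⟩
          omega
        · omega
      refine wall_nh hs hdim hinc _ hsub _ hKX _ ?_
      rcases hG _ hT hne with ⟨i, hi, hv⟩ | h
      · have hle : fixingSubgroup Γ (t.toFinset : Set ι) ≤ MulAction.stabilizer Γ i := by
          intro g hg
          exact MulAction.mem_stabilizer_iff.mpr
            ((mem_fixingSubgroup_iff Γ).mp hg i hi)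
        have hv' : VirtRes (fixingSubgroup Γ (t.toFinset : Set ι)) :=
          virtRes_of_injective hv (Subgroup.inclusion hle) (Subgroup.inclusion_injective hle)
        exact (main_rn hKX hAc (Or.inl hMm) hv').1 _ (by omega)
      · exact h _ (by omega)
  · have h0 : {c : SX X | c.1 ∈ wi Y t.toFinset} = ∅ := by
      ext c
      constructor
      · intro hc
        exact (hne ⟨c.1, hc⟩).elim
      · intro hc
        exact hc.elim
    rw [h0]
    exact nh_empty I _

theorem main_walls (hX : FreeCx Γ X) (hA : Acyc X) {n : ℕ} (hM : HomMfd n X)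
    {Y : ι → Set (Finset P)} {Z : Set P} (hW : Walls n Γ X Y Z) (hG : GoodW n Γ Y) :
    (∀ k, 2 * k + 1 ≠ n → 2 * k ≠ n → 2 * k ≠ n + 1 → bettiX Γ X k = 0) ∧
    ((Even n ∨ ∀ i, (Y i).Nonempty → bettiX (MulAction.stabilizer Γ i) (Y i) ((n - 1) / 2) = 0) →
      (∀ k, 2 * k ≠ n → bettiX Γ X k = 0) ∧
      (∀ k, 2 * k = n → bettiX Γ X k = (-1 : ℝ) ^ k * chiX Γ X) ∧
      ((∀ k, bettiX Γ X k = 0) ↔ chiX Γ X = 0) ∧
      ∀ k, 2 * k = n → 0 ≤ (-1 : ℤ) ^ k * chiX Γ X) := by
  classical
  obtain ⟨I, s, hs, hSI, hdim, hinc, hFI⟩ := exists_inv hX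
  have hF : letI := sxAct (K := Γ) hX.inv; FC Γ I := by
    letI := sxAct (K := Γ) hX.inv
    exact hFI.fc
  have hI : letI := sxAct (K := Γ) hX.inv; ∀ (h : Γ) (p q : SX X),
      I.inc (h • p) (h • q) = I.inc p q := by
    letI := sxAct (K := Γ) hX.inv
    exact hFI.inc_smul
  -- back to the orientations given by the order
  have hback : ∀ k, NH I Set.univ k → NH (simpCx X (fun x y : P => x < y)) Set.univ k := by
    intro k h
    have h2 := (nh_map (I := I) (I' := simpCx X (fun x y : P => x < y)) (S := Set.univ)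
      (fun c => c) (fun a _ b _ e => e) s hs 1 (Or.inl rfl) (fun p _ q _ => by
        rw [hinc, one_mul]
        have h1 : ∀ c, s c * s c = 1 := fun c => by
          rcases hs c with h | h <;> rw [h] <;> norm_num
        calc (simpCx X (fun x y : P => x < y)).inc p q
            = (s p * s p) * (s q * s q) * (simpCx X (fun x y : P => x < y)).inc p q := by
              rw [h1, h1, one_mul, one_mul]
          _ = _ := by ring) 0 0 (fun p _ => by rw [hdim]) k).mp h
    rw [Set.image_id'] at h2
    exact h2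
  have hbig : ∀ k, n < k → NH I Set.univ k := by
    intro k hk z hz _ _
    apply l2_ext
    intro c
    by_contra h
    have h1 := (hz c h).2
    rw [hdim] at h1
    have h2 := hM.dim _ c.2
    have h3 : c.1.card - 1 = k := h1
    omega
  have hlow : ∀ k, 2 * k + 1 < n → NH I Set.univ k := fun k hk =>
    main_nh hX hM hW hG hs hSI hdim hinc hF k (Or.inl hk)
  have hhigh : ∀ k, n + 1 < 2 * k → NH I Set.univ k := by
    intro k hk
    by_cases hkn : n < k
    · exact hbig k hkn
    · have h1 := nh_dual hX hA hM hSI hI (n - k) (by omega) (hlow (n - k) (by omega))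
      rwa [show n - (n - k) = k by omega] at h1
  have h1 : ∀ k, 2 * k + 1 ≠ n → 2 * k ≠ n → 2 * k ≠ n + 1 →
      NH (simpCx X (fun x y : P => x < y)) Set.univ k := by
    intro k a b c
    rcases lt_or_ge (2 * k + 1) n with h | h
    · exact hback k (hlow k h)
    · exact hback k (hhigh k (by omega))
  refine ⟨fun k a b c => betti_of_nh hX k (h1 k a b c), fun hmid => ?_⟩
  have h2 : ∀ k, 2 * k ≠ n → NH (simpCx X (fun x y : P => x < y)) Set.univ k := by
    intro k hk
    by_cases ha : 2 * k + 1 = n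
    · rcases hmid with ⟨j, hj⟩ | hmid
      · omega
      · exact hback k (main_nh hX hM hW hG hs hSI hdim hinc hF k (Or.inr ⟨ha, hmid⟩))
    · by_cases hc : 2 * k = n + 1
      · rcases hmid with ⟨j, hj⟩ | hmid
        · omega
        · have h3 := main_nh hX hM hW hG hs hSI hdim hinc hF (n - k)
            (Or.inr ⟨by omega, hmid⟩)
          have h4 := nh_dual hX hA hM hSI hI (n - k) (by omega) h3
          rw [show n - (n - k) = k by omega] at h4
          exact hback k h4
      · exact h1 k ha hk hc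
  -- the Euler characteristic
  have hXT : FreeCx (⊤ : Subgroup Γ) X := hX.of_finiteIndex ⊤ inferInstance
  obtain ⟨I2, s2, hs2, _, hdim2, hinc2, hFI2⟩ := exists_inv hXT
  letI iA : MulAction Γ {σ : Finset P // σ ∈ X} := simpAct hX.inv
  have hsm : ∀ (h : Γ) (c : {σ : Finset P // σ ∈ X}), (h • c).1 = h • c.1 := fun _ _ => rfl
  have hr0 : ∀ σ ∈ X, TotOn (fun x y : P => x < y) σ := fun σ _ => SingerCub.totOn_lt σ
  have hloc := locDim_smul_simp (H := Γ) hX.inv hsm hr0
  have hfree : ∀ (g : Γ) (c : {σ : Finset P // σ ∈ X}), g • c = c → g = 1 :=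
    fun g c h => hX.free g c.1 c.2 (congrArg Subtype.val h)
  have hfin : Finite (Orb Γ {σ : Finset P // σ ∈ X}) := hFI.cofin
  have key := betti_final (Γ := Γ) (I := simpCx X (fun x y : P => x < y)) (I' := I2) ⊤
    hfree hfin (fun g c => by
      show (g • c.1).card - 1 = c.1.card - 1
      rw [Finset.card_smul_finset]) hloc hdim2 (fun c =>
      locDim_twist (simpCx X (fun x y : P => x < y)) I2 (Equiv.refl _) s2 hs2
        (fun p q => hinc2 p q) c) hFI2 n (fun c hc => by
      have h3 : c.1.card = (c.1.card - 1) + 1 := by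
        have := Finset.card_pos.mpr (hX.ne _ c.2)
        omega
      exact locDim_of_nh hX (c.1.card - 1) (h2 _ hc) c h3)
  rw [chiX_eq hX]
  have hb : ∀ k, bettiX Γ X k = l2Betti Γ (simpCx X (fun x y : P => x < y)) k :=
    fun k => bettiX_eq hX (fun g c => hloc g c) k
  simp only [hb]
  exact key

end

end SingerCub
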