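import Mathlib
import Pool.Agent.Lib_MP_394d50_vs.LkDefs

/-!
# CAT(0) cube complexes given by their half-spaces

`H` is a set of half-spaces with the involution `st` (the complementary half-space). A vertex `v` is
identified with the set of the half-spaces which contain it, and so is a cube `c` (the set of the
half-spaces which contain it), so that the smaller cubes have the larger sets. `A` is a set of half-spaces
(those in use) and `V` the set of the vertices.
-/

namespace SingerCub

open SingerVS
open scoped Pointwise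

/-- A set of half-spaces (a vertex, or a cube). -/
@[ext]
structure Cb (H : Type) where
  /-- the half-spaces which contain it -/
  s : Set H

instance {Γ H : Type} [Group Γ] [MulAction Γ H] : MulAction Γ (Cb H) where
  smul g c := ⟨g • c.s⟩
  one_smul c := Cb.ext (one_smul Γ c.s)
  mul_smul g h c := Cb.ext (mul_smul g h c.s)

theorem Cb.smul_s {Γ H : Type} [Group Γ] [MulAction Γ H] (g : Γ) (c : Cb H) :
    (g • c).s = g • c.s := rfl

section

variable {H : Type}

/-- `v` chooses one side of every wall. -/
def Ori (st : H → H) (A : Set H) (v : Set H) : Prop := v ⊆ A ∧ ∀ h ∈ A, (h ∈ v ↔ st h ∉ v)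

/-- The majority of three vertices. -/
def maj (u v w : Set H) : Set H := {h | (h ∈ u ∧ h ∈ v) ∨ (h ∈ u ∧ h ∈ w) ∨ (h ∈ v ∧ h ∈ w)}

/-- Go to the other side of the wall of `h`. -/
def flip (st : H → H) (h : H) (u : Set H) : Set H := insert (st h) (u \ {h})

/-- `V` is the set of the vertices of a CAT(0) cube complex with the half-spaces `A`: any two vertices
are separated by finitely many walls, `V` is closed under the majority, and two different vertices `u`,
`v` are not on the same side of the wall between `u` and one of its neighbours. -/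
structure HS (st : H → H) (A : Set H) (V : Set (Set H)) : Prop where
  inv : ∀ h, st (st h) = h
  act : ∀ h ∈ A, st h ∈ A
  nonempty : V.Nonempty
  ori : ∀ v ∈ V, Ori st A v
  fin : ∀ u ∈ V, ∀ v ∈ V, (u \ v).Finite
  med : ∀ u ∈ V, ∀ v ∈ V, ∀ w ∈ V, maj u v w ∈ V
  conn : ∀ u ∈ V, ∀ v ∈ V, u ≠ v → ∃ h ∈ u, h ∉ v ∧ flip st h u ∈ V

/-- The cubes: the consistent sets `c` of half-spaces, such that finitely many walls are not decided by
`c` and every choice of sides of these walls gives a vertex. -/
def Cub (st : H → H) (A : Set H) (V : Set (Set H)) : Set (Cb H) :=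
  {c | c.s ⊆ A ∧ (∀ h ∈ c.s, st h ∉ c.s) ∧ {h | h ∈ A ∧ h ∉ c.s ∧ st h ∉ c.s}.Finite ∧
    ∀ v, Ori st A v → c.s ⊆ v → v ∈ V}

/-- The non-empty finite chains in `Q`. -/
def OC (Q : Set (Cb H)) : Set (Finset (Cb H)) :=
  {σ | σ.Nonempty ∧ (∀ c ∈ σ, c ∈ Q) ∧ ∀ c ∈ σ, ∀ d ∈ σ, c.s ⊆ d.s ∨ d.s ⊆ c.s}

/-- The barycentric subdivision of the cube complex. -/
def cubX (st : H → H) (A : Set H) (V : Set (Set H)) : Set (Finset (Cb H)) := OC (Cub st A V)

/-- `c` crosses the wall of `h`. -/
def Crs (st : H → H) (h : H) (c : Cb H) : Prop := h ∉ c.s ∧ st h ∉ c.s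

/-- The hyperplane of `h`, as a subcomplex of the barycentric subdivision. -/
def hyp (st : H → H) (A : Set H) (V : Set (Set H)) (h : H) : Set (Finset (Cb H)) :=
  {σ | σ ∈ cubX st A V ∧ ∀ c ∈ σ, Crs st h c}

/-- The half-spaces of the hyperplane of `h`. -/
def subA (st : H → H) (A : Set H) (h : H) : Set H := {k | k ∈ A ∧ k ≠ h ∧ k ≠ st h}

/-- The vertices of the hyperplane of `h` (the edges which cross it). -/
def subV (st : H → H) (V : Set (Set H)) (h : H) : Set (Set H) :=
  {c | ∃ v ∈ V, h ∈ v ∧ flip st h v ∈ V ∧ c = v \ {h}}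

end

end SingerCub
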