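import Mathlib
import Pool.Agent.Lib_MP_394d50_cub.KDefs
import Pool.Agent.Lib_MP_394d50_top.ADefs

/-!
# Order complexes of sets of cubes: definitions

Chains with finite support, with the empty simplex; `bF` is the simplicial boundary of
`Lib_MP_394d50_top/ADefs` (`bF (single σ 1) = ∑_{p ∈ σ} single (σ.erase p) 1`).
-/

namespace SingerCub

open SingerVS

section

variable {H : Type} [DecidableEq (Cb H)]

/-- The finite chains in `Q`, with the empty one. -/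
def KC (Q : Set (Cb H)) : Set (Finset (Cb H)) :=
  {σ | (∀ c ∈ σ, c ∈ Q) ∧ ∀ c ∈ σ, ∀ d ∈ σ, c.s ⊆ d.s ∨ d.s ⊆ c.s}

/-- `z` is supported on the simplices of `K` with `k` vertices. -/
def OnK (K : Set (Finset (Cb H))) (k : ℕ) (z : Finset (Cb H) →₀ ZMod 2) : Prop :=
  ∀ σ ∈ z.support, σ ∈ K ∧ σ.card = k

/-- Cycles with `k` vertices are boundaries. -/
def Ex (K : Set (Finset (Cb H))) (k : ℕ) : Prop :=
  ∀ z, OnK K k z → bF z = 0 → ∃ w, OnK K (k + 1) w ∧ bF w = z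

/-- The reduced homology vanishes. -/
def Con (K : Set (Finset (Cb H))) : Prop := ∀ k, Ex K k

/-- The reduced homology of the sphere of dimension `m - 1`. -/
def Sph (m : ℕ) (K : Set (Finset (Cb H))) : Prop :=
  (∀ k, k ≠ m → Ex K k) ∧
  ∃ z₀, OnK K m z₀ ∧ bF z₀ = 0 ∧ (∀ w, OnK K (m + 1) w → bF w ≠ z₀) ∧
    ∀ z, OnK K m z → bF z = 0 → ∃ w, OnK K (m + 1) w ∧ (bF w = z ∨ bF w = z + z₀)

/-- The cubes comparable with all elements of `σ`, not in `σ`. -/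
def comp (Q : Set (Cb H)) (σ : Finset (Cb H)) : Set (Cb H) :=
  {c | c ∈ Q ∧ c ∉ σ ∧ ∀ d ∈ σ, c.s ⊆ d.s ∨ d.s ⊆ c.s}

/-- Local finiteness. -/
def LF (X : Set (Finset (Cb H))) : Prop := ∀ σ ∈ X, {p | p ∉ σ ∧ insert p σ ∈ X}.Finite

end

end SingerCub
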