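import Mathlib
import Pool.Agent.Lib_MP_394d50_cub.KPos

/-!
# Piece KBR: from `Sph`, `Con` to `SphF2`, `Acyc`

`X = OC Q`, `LF X`. For `σ ∈ X`: `lk X σ = KC (comp Q σ)` (`ρ` disjoint from `σ`, `ρ ∪ σ` a chain), and
`comp Q σ = {p | p ∉ σ ∧ insert p σ ∈ X}` is finite by `LF`, so `nb (lk X σ) ρ` is the finite set of the `p ∉ ρ` with
`insert p ρ ∈ lk X σ`, and `lk X σ` is a finite set. A function `z ∈ Ch (ZMod 2) (lk X σ) k` has finite support,
so it is a finitely supported function `z'` with `OnK (lk X σ) k z'`, and `bd (lk X σ) z` is `bF z'` (on `lk X σ`: for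
`ρ ∈ lk X σ`, `(bF z') ρ = ∑_{τ} z τ * #{p ∈ τ | τ.erase p = ρ} = ∑_{p ∈ nb} z (insert p ρ)`; outside both
vanish). So `SphF2 m (lk X σ) ↔ Sph m (KC (comp Q σ))`.

`acyc_of_con`: `pt`: `Ex (KC Q) 0` applied to `single ∅ 1` gives a chain with one-element simplices in `Q`, so
`Q` is not empty. `conn`: a function `c` on the vertices with finite support and `∑ᶠ v, c {v} = 0`, as a
finitely supported function `c'`, has `bF c' = single ∅ (∑ c) = 0`, so it is a boundary. `high`: the same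
(for `k ≥ 2`, `bd X c = 0` means `bF c' = 0`, as `bF c'` is supported on non-empty simplices). `nb X σ` is the
right finite set by `LF`; `bd X b = c` from `bF b' = c'` in the same way.
-/

namespace SingerCub

open SingerVS

variable {H : Type} [DecidableEq (Cb H)]

section gen

variable {P : Type} [DecidableEq P]

private theorem kbr_mem_nb {X : Set (Finset P)} {σ : Finset P}
    (hf : {p | p ∉ σ ∧ insert p σ ∈ X}.Finite) {p : P} :
    p ∈ nb X σ ↔ p ∉ σ ∧ insert p σ ∈ X := by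
  unfold nb
  rw [dif_pos hf, Set.Finite.mem_toFinset]
  exact Iff.rfl

private theorem kbr_bF (z : Finset P →₀ ZMod 2) (σ : Finset P) :
    bF z σ = ∑ τ ∈ z.support, z τ * ∑ p ∈ τ, (if τ.erase p = σ then (1 : ZMod 2) else 0) := by
  show (Finsupp.linearCombination (ZMod 2) (fun σ => ∑ p ∈ σ, Finsupp.single (σ.erase p) 1) z) σ = _
  rw [Finsupp.linearCombination_apply, Finsupp.sum, Finsupp.finsetSum_apply]
  refine Finset.sum_congr rfl fun τ _ => ?_
  rw [Finsupp.smul_apply, Finsupp.finsetSum_apply, smul_eq_mul]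
  congr 1
  refine Finset.sum_congr rfl fun p _ => ?_
  rw [Finsupp.single_apply]

private theorem kbr_bF_mem {X : Set (Finset P)} {z : Finset P →₀ ZMod 2}
    (hz : ∀ τ, z τ ≠ 0 → τ ∈ X)
    {σ : Finset P} (hf : {p | p ∉ σ ∧ insert p σ ∈ X}.Finite) (hσ : σ ∈ X) :
    bF z σ = bd X z σ := by
  rw [kbr_bF, bd_apply hσ]
  have h1 : ∀ p, z (insert p σ) = ∑ τ ∈ z.support, z τ * (if insert p σ = τ then 1 else 0) := by
    intro p
    simp only [mul_ite, mul_one, mul_zero]
    rw [Finset.sum_ite_eq]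
    split_ifs with h
    · rfl
    · exact Finsupp.notMem_support_iff.1 h
  rw [Finset.sum_congr rfl (fun p _ => h1 p), Finset.sum_comm]
  refine Finset.sum_congr rfl fun τ hτ => ?_
  rw [← Finset.mul_sum]
  congr 1
  have hτX : τ ∈ X := hz τ (Finsupp.mem_support_iff.1 hτ)
  rw [← Finset.sum_filter, ← Finset.sum_filter]
  refine Finset.sum_congr ?_ fun _ _ => rfl
  ext p
  rw [Finset.mem_filter, Finset.mem_filter, kbr_mem_nb hf]
  constructor
  · rintro ⟨h2, h3⟩
    have h4 : insert p σ = τ := by rw [← h3, Finset.insert_erase h2]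
    refine ⟨⟨?_, ?_⟩, h4⟩
    · rw [← h3]
      exact Finset.notMem_erase p τ
    · rw [h4]
      exact hτX
  · rintro ⟨⟨h2, h3⟩, h4⟩
    rw [← h4]
    exact ⟨Finset.mem_insert_self p σ, Finset.erase_insert h2⟩

private theorem kbr_bF_zero {X : Set (Finset P)} {z : Finset P →₀ ZMod 2}
    (hz : ∀ τ, z τ ≠ 0 → τ ∈ X) {σ : Finset P} (hX : ∀ τ ∈ X, σ ⊆ τ → σ ∈ X) (hσ : σ ∉ X) :
    bF z σ = 0 := by
  rw [kbr_bF]
  refine Finset.sum_eq_zero fun τ hτ => ?_
  have hτX : τ ∈ X := hz τ (Finsupp.mem_support_iff.1 hτ)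
  rw [Finset.sum_eq_zero, mul_zero]
  intro p _
  rw [if_neg]
  intro h
  exact hσ (hX τ hτX (h ▸ Finset.erase_subset p τ))

end gen

private theorem kbr_toCh {K : Set (Finset (Cb H))} {k : ℕ} {z : Finset (Cb H) →₀ ZMod 2}
    (hz : OnK K k z) : (z : Finset (Cb H) → ZMod 2) ∈ Ch (ZMod 2) K k := by
  intro σ hσ
  by_contra h
  exact hσ (hz σ (Finsupp.mem_support_iff.2 h))

private theorem kbr_of {K : Set (Finset (Cb H))} {k : ℕ} {c : Finset (Cb H) → ZMod 2}
    (hc : c ∈ Ch (ZMod 2) K k) (hf : (Function.support c).Finite) :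
    ∃ z : Finset (Cb H) →₀ ZMod 2, (z : Finset (Cb H) → ZMod 2) = c ∧ OnK K k z := by
  refine ⟨Finsupp.ofSupportFinite c hf, rfl, ?_⟩
  intro σ hσ
  by_contra hcon
  exact (Finsupp.mem_support_iff.1 hσ) (hc σ hcon)

private theorem kbr_fin {K : Set (Finset (Cb H))} (hK : K.Finite) {k : ℕ}
    {c : Finset (Cb H) → ZMod 2} (hc : c ∈ Ch (ZMod 2) K k) : (Function.support c).Finite := by
  refine hK.subset fun σ hσ => ?_
  by_contra h
  exact hσ (hc σ fun h' => h h'.1)

private theorem kbr_bd {K : Set (Finset (Cb H))} (hK : K.Finite)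
    (hd : ∀ σ τ : Finset (Cb H), τ ∈ K → σ ⊆ τ → σ ∈ K) {k : ℕ} {z : Finset (Cb H) →₀ ZMod 2}
    (hz : OnK K k z) : bd K z = (bF z : Finset (Cb H) → ZMod 2) := by
  have hz' : ∀ τ, z τ ≠ 0 → τ ∈ K := fun τ hτ => (hz τ (Finsupp.mem_support_iff.2 hτ)).1
  funext σ
  by_cases hσ : σ ∈ K
  · rw [kbr_bF_mem hz' ?_ hσ]
    have h1 : {p | p ∉ σ ∧ insert p σ ∈ K} ⊆ ⋃ τ ∈ K, (τ : Set (Cb H)) := by
      rintro p ⟨-, hp⟩
      rw [Set.mem_iUnion₂]
      exact ⟨_, hp, Finset.mem_coe.2 (Finset.mem_insert_self p σ)⟩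
    exact (hK.biUnion fun τ _ => τ.finite_toSet).subset h1
  · rw [kbr_bF_zero hz' (fun τ hτ h => hd σ τ hτ h) hσ, bd_apply_not hσ]

private theorem kbr_sph {K : Set (Finset (Cb H))} (hK : K.Finite)
    (hd : ∀ σ τ : Finset (Cb H), τ ∈ K → σ ⊆ τ → σ ∈ K) (m : ℕ) : SphF2 m K ↔ Sph m K := by
  have hzero : ∀ z : Finset (Cb H) →₀ ZMod 2, (z : Finset (Cb H) → ZMod 2) = 0 → z = 0 := by
    intro z hz
    exact DFunLike.coe_injective hz
  constructor
  · rintro ⟨h1, z₀, hz₀, hb₀, hn₀, hu⟩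
    refine ⟨fun k hk z hz hbz => ?_, ?_⟩
    · obtain ⟨w, hw, hbw⟩ := h1 k hk z (kbr_toCh hz) (by rw [kbr_bd hK hd hz, hbz]; rfl)
      obtain ⟨w', rfl, hw'⟩ := kbr_of hw (kbr_fin hK hw)
      rw [kbr_bd hK hd hw'] at hbw
      exact ⟨w', hw', DFunLike.coe_injective hbw⟩
    · obtain ⟨z', rfl, hz'⟩ := kbr_of hz₀ (kbr_fin hK hz₀)
      rw [kbr_bd hK hd hz'] at hb₀
      refine ⟨z', hz', hzero _ hb₀, fun w hw he => hn₀ w (kbr_toCh hw) ?_, fun z hz hb => ?_⟩
      · rw [kbr_bd hK hd hw, he]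
      · obtain ⟨w, hw, h⟩ := hu z (kbr_toCh hz) (by rw [kbr_bd hK hd hz, hb]; rfl)
        obtain ⟨w', rfl, hw'⟩ := kbr_of hw (kbr_fin hK hw)
        rw [kbr_bd hK hd hw'] at h
        refine ⟨w', hw', ?_⟩
        rcases h with h | h
        · exact Or.inl (DFunLike.coe_injective h)
        · exact Or.inr (DFunLike.coe_injective (by rw [h]; rfl))
  · rintro ⟨h1, z₀, hz₀, hb₀, hn₀, hu⟩
    refine ⟨fun k hk z hz hbz => ?_, z₀, kbr_toCh hz₀, ?_, fun w hw he => ?_, fun z hz hb => ?_⟩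
    · obtain ⟨z', rfl, hz'⟩ := kbr_of hz (kbr_fin hK hz)
      rw [kbr_bd hK hd hz'] at hbz
      obtain ⟨w, hw, hbw⟩ := h1 k hk z' hz' (hzero _ hbz)
      exact ⟨w, kbr_toCh hw, by rw [kbr_bd hK hd hw, hbw]⟩
    · rw [kbr_bd hK hd hz₀, hb₀]
      rfl
    · obtain ⟨w', rfl, hw'⟩ := kbr_of hw (kbr_fin hK hw)
      rw [kbr_bd hK hd hw'] at he
      exact hn₀ w' hw' (DFunLike.coe_injective he)
    · obtain ⟨z', rfl, hz'⟩ := kbr_of hz (kbr_fin hK hz)
      rw [kbr_bd hK hd hz'] at hb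
      obtain ⟨w, hw, h⟩ := hu z' hz' (hzero _ hb)
      refine ⟨w, kbr_toCh hw, ?_⟩
      rw [kbr_bd hK hd hw]
      rcases h with h | h
      · exact Or.inl (by rw [h])
      · exact Or.inr (by rw [h]; rfl)

theorem lk_OC {Q : Set (Cb H)} {σ : Finset (Cb H)} (hσ : σ ∈ OC Q) :
    lk (OC Q) σ = KC (comp Q σ) := by
  obtain ⟨h1, h2, h3⟩ := hσ
  ext ρ
  constructor
  · rintro ⟨hd, -, hQ, hc⟩
    rw [Finset.disjoint_left] at hd
    refine ⟨fun c hcρ => ⟨hQ c (Finset.mem_union_left _ hcρ), hd hcρ, fun d hdσ =>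
      hc c (Finset.mem_union_left _ hcρ) d (Finset.mem_union_right _ hdσ)⟩, fun c hcρ d hdρ =>
      hc c (Finset.mem_union_left _ hcρ) d (Finset.mem_union_left _ hdρ)⟩
  · rintro ⟨hQ, hc⟩
    refine ⟨Finset.disjoint_left.2 fun c hcρ => (hQ c hcρ).2.1, ?_, ?_, ?_⟩
    · exact h1.mono Finset.subset_union_right
    · intro c hcc
      rcases Finset.mem_union.1 hcc with h | h
      · exact (hQ c h).1
      · exact h2 c h
    · intro c hcc d hdd
      rcases Finset.mem_union.1 hcc with h | h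
      · rcases Finset.mem_union.1 hdd with h' | h'
        · exact hc c h d h'
        · exact (hQ c h).2.2 d h'
      · rcases Finset.mem_union.1 hdd with h' | h'
        · exact ((hQ d h').2.2 c h).symm
        · exact h3 c h d h'

theorem sphF2_iff {Q : Set (Cb H)} (hL : LF (OC Q)) {σ : Finset (Cb H)} (hσ : σ ∈ OC Q)
    (m : ℕ) : SphF2 m (lk (OC Q) σ) ↔ Sph m (KC (comp Q σ)) := by
  rw [lk_OC hσ]
  have hfin : (comp Q σ).Finite := by
    refine (hL σ hσ).subset ?_
    rintro c ⟨h1, h2, h3⟩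
    refine ⟨h2, Finset.insert_nonempty _ _, ?_, ?_⟩
    · intro d hd
      rcases Finset.mem_insert.1 hd with h | h
      · rw [h]; exact h1
      · exact hσ.2.1 d h
    · intro a ha b hb
      rcases Finset.mem_insert.1 ha with h | h
      · rcases Finset.mem_insert.1 hb with h' | h'
        · rw [h, h']
          exact Or.inl subset_rfl
        · rw [h]
          exact h3 b h'
      · rcases Finset.mem_insert.1 hb with h' | h'
        · rw [h']
          exact (h3 a h).symm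
        · exact hσ.2.2 a h b h'
  refine kbr_sph ?_ ?_ m
  · refine (hfin.toFinset.powerset.finite_toSet).subset ?_
    rintro ρ ⟨h1, -⟩
    rw [Finset.mem_coe, Finset.mem_powerset]
    intro c hc
    exact hfin.mem_toFinset.2 (h1 c hc)
  · rintro ρ τ ⟨h1, h2⟩ hsub
    exact ⟨fun c hc => h1 c (hsub hc), fun c hc d hd => h2 c (hsub hc) d (hsub hd)⟩

theorem acyc_of_con {Q : Set (Cb H)} (hL : LF (OC Q)) (hC : Con (KC Q)) : Acyc (OC Q) := by
  classical
  have hX : ∀ σ ∈ OC Q, ∀ τ, τ ⊆ σ → τ.Nonempty → τ ∈ OC Q := by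
    rintro σ ⟨-, h1, h2⟩ τ hsub hne
    exact ⟨hne, fun c hc => h1 c (hsub hc), fun c hc d hd => h2 c (hsub hc) d (hsub hd)⟩
  have hKO : ∀ σ ∈ KC Q, σ.Nonempty → σ ∈ OC Q := fun σ h hne => ⟨hne, h.1, h.2⟩
  have hOK : ∀ σ ∈ OC Q, σ ∈ KC Q := fun σ h => ⟨h.2.1, h.2.2⟩
  -- from the chains to the finitely supported functions and back
  have key : ∀ k, ∀ c ∈ Ch (ZMod 2) (OC Q) k, ∀ hc : (Function.support c).Finite,
      bF (Finsupp.ofSupportFinite c hc) = 0 →
      ∃ b ∈ Ch (ZMod 2) (OC Q) (k + 1), (Function.support b).Finite ∧ bd (OC Q) b = c := by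
    intro k c hcC hc hz
    have hz1 : OnK (KC Q) k (Finsupp.ofSupportFinite c hc) := by
      intro σ hσ
      have h0 : σ ∈ OC Q ∧ σ.card = k := by
        by_contra hcon
        exact (Finsupp.mem_support_iff.1 hσ) (hcC σ hcon)
      exact ⟨hOK σ h0.1, h0.2⟩
    obtain ⟨w, hw, hwz⟩ := hC k _ hz1 hz
    have hw' : ∀ σ, w σ ≠ 0 → σ ∈ OC Q ∧ σ.card = k + 1 := by
      intro σ hσ
      obtain ⟨h1, h2⟩ := hw σ (Finsupp.mem_support_iff.2 hσ)
      refine ⟨hKO σ h1 ?_, h2⟩
      rw [← Finset.card_pos]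
      omega
    refine ⟨w, ?_, w.hasFiniteSupport, ?_⟩
    · intro σ hσ
      by_contra hcon
      exact hσ (hw' σ hcon)
    · funext σ
      by_cases hσ : σ ∈ OC Q
      · rw [← kbr_bF_mem (fun τ hτ => (hw' τ hτ).1) (hL σ hσ) hσ, hwz]
        rfl
      · rw [bd_apply_not hσ]
        refine (hcC σ ?_).symm
        rintro ⟨h2, -⟩
        exact hσ h2
  have hzX : ∀ k, ∀ c ∈ Ch (ZMod 2) (OC Q) k, ∀ hc : (Function.support c).Finite,
      ∀ τ, Finsupp.ofSupportFinite c hc τ ≠ 0 → τ ∈ OC Q ∧ τ.card = k := by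
    intro k c hcC hc τ hτ
    by_contra hcon
    exact hτ (hcC τ hcon)
  refine ⟨?_, ?_, ?_⟩
  · have h0 : bF (Finsupp.single (∅ : Finset (Cb H)) (1 : ZMod 2)) = 0 := by
      show Finsupp.linearCombination (ZMod 2) _ _ = _
      rw [Finsupp.linearCombination_single, one_smul, Finset.sum_empty]
    obtain ⟨w, hw, hbw⟩ := hC 0 (Finsupp.single ∅ 1) (by
      intro σ hσ
      have h1 := Finsupp.support_single_subset hσ
      rw [Finset.mem_singleton] at h1
      subst h1
      exact ⟨⟨fun c hc => absurd hc (Finset.notMem_empty c), fun c hc =>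
        absurd hc (Finset.notMem_empty c)⟩, Finset.card_empty⟩) h0
    have hne : w ≠ 0 := by
      rintro rfl
      rw [map_zero] at hbw
      have := congrArg (fun z => z (∅ : Finset (Cb H))) hbw
      simp at this
    obtain ⟨σ, hσ⟩ := Finsupp.support_nonempty_iff.2 hne
    obtain ⟨h1, h2⟩ := hw σ hσ
    obtain ⟨v, rfl⟩ := Finset.card_eq_one.1 (by omega : σ.card = 1)
    exact ⟨v, hKO _ h1 (Finset.singleton_nonempty v)⟩
  · intro c hcC hc hsum
    refine key 1 c hcC hc ?_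
    ext σ
    rw [Finsupp.zero_apply]
    have hz := hzX 1 c hcC hc
    rcases σ.eq_empty_or_nonempty with rfl | hσn
    · rw [kbr_bF]
      have e1 : ∀ τ ∈ (Finsupp.ofSupportFinite c hc).support,
          Finsupp.ofSupportFinite c hc τ *
            ∑ p ∈ τ, (if τ.erase p = ∅ then (1 : ZMod 2) else 0) = c τ := by
        intro τ hτ
        have h2 := (hz τ (Finsupp.mem_support_iff.1 hτ)).2
        obtain ⟨a, rfl⟩ := Finset.card_eq_one.1 h2
        rw [Finset.sum_singleton, if_pos (by simp), mul_one]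
        rfl
      rw [Finset.sum_congr rfl e1]
      set s : Finset (Cb H) := (Finsupp.ofSupportFinite c hc).support.biUnion id with hs
      have e2 : (Finsupp.ofSupportFinite c hc).support ⊆ s.image (fun v => {v}) := by
        intro τ hτ
        have h2 := (hz τ (Finsupp.mem_support_iff.1 hτ)).2
        obtain ⟨a, ha⟩ := Finset.card_eq_one.1 h2
        rw [Finset.mem_image]
        refine ⟨a, ?_, ha.symm⟩
        rw [hs, Finset.mem_biUnion]
        exact ⟨τ, hτ, by rw [ha]; exact Finset.mem_singleton_self a⟩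
      have e3 : ∀ τ ∈ s.image (fun v => {v}),
          τ ∉ (Finsupp.ofSupportFinite c hc).support → c τ = 0 := fun τ _ hτ =>
        Finsupp.notMem_support_iff.1 hτ
      rw [Finset.sum_subset e2 e3,
        Finset.sum_image (fun a _ b _ hab => Finset.singleton_injective hab)]
      rw [← hsum]
      symm
      refine finsum_eq_sum_of_support_subset _ ?_
      intro v hv
      have hv' : c {v} ≠ 0 := hv
      rw [Finset.mem_coe, hs, Finset.mem_biUnion]
      exact ⟨{v}, Finsupp.mem_support_iff.2 hv', Finset.mem_singleton_self v⟩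
    · by_cases hσ : σ ∈ OC Q
      · rw [kbr_bF_mem (fun τ hτ => (hz τ hτ).1) (hL σ hσ) hσ, bd_apply hσ]
        refine Finset.sum_eq_zero fun p hp => ?_
        refine hcC _ ?_
        rintro ⟨-, h3⟩
        rw [Finset.card_insert_of_notMem ((kbr_mem_nb (hL σ hσ)).1 hp).1] at h3
        have := hσn.card_pos
        omega
      · exact kbr_bF_zero (fun τ hτ => (hz τ hτ).1) (fun τ hτ h => hX τ hτ σ h hσn) hσ
  · intro k hk c hcC hc hb
    refine key k c hcC hc ?_
    ext σ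
    rw [Finsupp.zero_apply]
    have hz := hzX k c hcC hc
    by_cases hσ : σ ∈ OC Q
    · rw [kbr_bF_mem (fun τ hτ => (hz τ hτ).1) (hL σ hσ) hσ]
      exact congrFun hb σ
    · rcases σ.eq_empty_or_nonempty with rfl | hσn
      · rw [kbr_bF]
        refine Finset.sum_eq_zero fun τ hτ => ?_
        have h2 := (hz τ (Finsupp.mem_support_iff.1 hτ)).2
        rw [Finset.sum_eq_zero, mul_zero]
        intro p hp
        rw [if_neg]
        intro h3
        have h4 := Finset.card_erase_of_mem hp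
        rw [h3, Finset.card_empty] at h4
        omega
      · exact kbr_bF_zero (fun τ hτ => (hz τ hτ).1) (fun τ hτ h => hX τ hτ σ h hσn) hσ

end SingerCub
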