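import Mathlib
import Pool.Agent.Lib_MP_394d50_cub.KDefs

/-!
# Piece KSUB: a hyperplane is again a CAT(0) cube complex

Basic facts. For `h ∈ A`: `st h ≠ h` (`ori`, `nonempty`). `Ori st A v`, `h ∈ v` imply `Ori st A (flip st h v)`.

`cub_sub`. (⊇) Let `c ∈ Cub st A V`, `h ∉ c`, `st h ∉ c`. `c ⊆ subA`. For `w` with `Ori st (subA st A h) w`, `c ⊆ w`:
`insert h w` and `insert (st h) w` are orientations of `A` which contain `c`, so they are in `V`, and
`insert (st h) w = flip st h (insert h w)`, `w = (insert h w) \ {h}`. So `w ∈ subV`.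
(⊆) Let `c ∈ Cub st (subA st A h) (subV st V h)`. The undecided elements of `A` are those of `subA` and `h`,
`st h`. For `v` with `Ori st A v`, `c ⊆ v`: `w = v \ {h, st h}` is an orientation of `subA` which contains `c`, so
`w = v₀ \ {h}`, `v₀ ∈ V`, `h ∈ v₀`, `flip st h v₀ ∈ V`. If `h ∈ v` then `v = v₀`, if `st h ∈ v` then
`v = flip st h v₀`.

`hs_sub`. `ori`: `v \ {h} ⊆ subA` because `st h ∉ v`. `fin`: clear. `med`: for `u = u' \ {h}` etc.
`maj u v w = maj u' v' w' \ {h}`, `h ∈ maj u' v' w'` and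
`flip st h (maj u' v' w') = maj (flip st h u') (flip st h v') (flip st h w')`. `conn`: `u = u' \ {h}`,
`v = v' \ {h}`, `u' ≠ v'`; let `k ∈ u'`, `k ∉ v'`, `flip st k u' ∈ V`. `k ≠ h` (`h ∈ v'`), `k ≠ st h` (`st h ∉ u'`).
`flip st k u = flip st k u' \ {h}`, `h ∈ flip st k u'` and
`flip st h (flip st k u') = maj (flip st h u') (flip st h v') (flip st k u') ∈ V`: at `h`, `st h` the first
two agree, at `k`, `st k` the last two agree, at the other `l` the first and the third agree with `u'`.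

`hyp_eq` follows from `cub_sub`.
-/

namespace SingerCub

open SingerVS

variable {H : Type} {st : H → H} {A : Set H} {V : Set (Set H)}

theorem HS.st_ne (hV : HS st A V) {h : H} (hh : h ∈ A) : st h ≠ h := by
  intro e
  obtain ⟨v, hv⟩ := hV.nonempty
  have h1 := (hV.ori v hv).2 h hh
  rw [e] at h1
  tauto

/-- membership in `flip` -/
theorem mem_flip {h k : H} {u : Set H} : k ∈ flip st h u ↔ k = st h ∨ (k ∈ u ∧ k ≠ h) := by
  unfold flip
  rw [Set.mem_insert_iff, Set.mem_sdiff, Set.mem_singleton_iff]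

theorem HS.ori_flip (hV : HS st A V) {v : Set H} (hv : Ori st A v) {h : H} (hh : h ∈ v) :
    Ori st A (flip st h v) := by
  have hA : h ∈ A := hv.1 hh
  have hne := hV.st_ne hA
  have hinv := hV.inv
  refine ⟨fun k hk => ?_, fun k hk => ?_⟩
  · rcases mem_flip.mp hk with rfl | h1
    · exact hV.act h hA
    · exact hv.1 h1.1
  · have h1 := hv.2 k hk
    rw [mem_flip, mem_flip]
    by_cases e1 : k = h
    · subst e1
      constructor
      · rintro (e | e)
        · exact absurd e.symm hne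
        · exact absurd rfl e.2
      · intro e
        exact absurd (Or.inl rfl) e
    · by_cases e2 : k = st h
      · subst e2
        constructor
        · intro _
          rintro (e | e)
          · exact hne ((hinv h).symm.trans e).symm
          · exact e.2 (hinv h)
        · intro _
          exact Or.inl rfl
      · have e3 : st k ≠ st h := fun e => e1 (by rw [← hinv k, e, hinv])
        have e4 : st k ≠ h := fun e => e2 (by rw [← e, hinv])
        tauto

theorem mem_subA {h k : H} : k ∈ subA st A h ↔ k ∈ A ∧ k ≠ h ∧ k ≠ st h := Iff.rfl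

/-- From an orientation of `subA` to one of `A`, on the side of `h`. -/
theorem HS.ori_insert (hV : HS st A V) {h : H} (hh : h ∈ A) {w : Set H}
    (hw : Ori st (subA st A h) w) : Ori st A (insert h w) := by
  have hne := hV.st_ne hh
  have hinv := hV.inv
  have hhw : h ∉ w := fun e => (hw.1 e).2.1 rfl
  have hsw : st h ∉ w := fun e => (hw.1 e).2.2 rfl
  refine ⟨fun k hk => ?_, fun k hk => ?_⟩
  · rcases hk with rfl | hk
    · exact hh
    · exact (hw.1 hk).1
  · rw [Set.mem_insert_iff, Set.mem_insert_iff]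
    by_cases e1 : k = h
    · subst e1
      tauto
    · by_cases e2 : k = st h
      · subst e2
        have := hinv h
        tauto
      · have e3 : st k ≠ st h := fun e => e1 (by rw [← hinv k, e, hinv])
        have e4 : st k ≠ h := fun e => e2 (by rw [← e, hinv])
        have h1 := hw.2 k ⟨hk, e1, e2⟩
        tauto

theorem flip_insert {h : H} {w : Set H} (hhw : h ∉ w) :
    flip st h (insert h w) = insert (st h) w := by
  unfold flip
  rw [Set.insert_sdiff_of_mem _ (Set.mem_singleton h), Set.sdiff_singleton_eq_self hhw]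

/-- An orientation of `A` on the side of `h` gives one of `subA`. -/
theorem HS.ori_diff (hV : HS st A V) {h : H} {v : Set H} (hv : Ori st A v) (hh : h ∈ v) :
    Ori st (subA st A h) (v \ {h}) := by
  have hA := hv.1 hh
  have hs : st h ∉ v := (hv.2 h hA).mp hh
  refine ⟨fun k hk => ⟨hv.1 hk.1, hk.2, fun e => hs (e ▸ hk.1)⟩, fun k hk => ?_⟩
  have h1 := hv.2 k hk.1
  have e3 : st k ≠ h := fun e => hk.2.2 (by rw [← e, hV.inv])
  rw [Set.mem_sdiff, Set.mem_sdiff, Set.mem_singleton_iff, Set.mem_singleton_iff]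
  have := hk.2.1
  tauto

theorem HS.flip_flip (hV : HS st A V) {v : Set H} (hv : Ori st A v) {h : H} (hh : h ∈ v) :
    flip st (st h) (flip st h v) = v := by
  have hA := hv.1 hh
  have hs : st h ∉ v := (hv.2 h hA).mp hh
  ext k
  rw [mem_flip, mem_flip, hV.inv]
  by_cases e1 : k = h
  · subst e1
    tauto
  · by_cases e2 : k = st h
    · subst e2
      tauto
    · tauto

theorem cub_sub (hV : HS st A V) {h : H} (hh : h ∈ A) :
    Cub st (subA st A h) (subV st V h) = {c | c ∈ Cub st A V ∧ Crs st h c} := by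
  have hne := hV.st_ne hh
  ext c
  constructor
  · rintro ⟨h1, h2, h3, h4⟩
    have hc : Crs st h c := ⟨fun e => (h1 e).2.1 rfl, fun e => (h1 e).2.2 rfl⟩
    refine ⟨⟨fun k hk => (h1 hk).1, h2, ?_, fun v hv hcv => ?_⟩, hc⟩
    · refine (h3.union (Set.toFinite {h, st h})).subset ?_
      rintro k ⟨hk1, hk2, hk3⟩
      by_cases e1 : k = h
      · right
        rw [e1]
        exact Or.inl rfl
      · by_cases e2 : k = st h
        · right
          rw [e2]
          exact Or.inr rfl
        · left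
          exact ⟨⟨hk1, e1, e2⟩, hk2, hk3⟩
    · by_cases hv1 : h ∈ v
      · obtain ⟨v0, hv0, hh0, _, e⟩ := h4 (v \ {h}) (hV.ori_diff hv hv1)
          (fun k hk => ⟨hcv hk, fun e => hc.1 (e ▸ hk)⟩)
        have : v = v0 := by
          ext k
          by_cases e1 : k = h
          · rw [e1]
            exact ⟨fun _ => hh0, fun _ => hv1⟩
          · have h5 : k ∈ v \ {h} ↔ k ∈ v0 \ {h} := by rw [e]
            rw [Set.mem_sdiff, Set.mem_sdiff, Set.mem_singleton_iff] at h5
            tauto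
        rw [this]
        exact hv0
      · have hv2 : st h ∈ v := by
          by_contra h5
          exact hv1 ((hv.2 h hh).mpr h5)
        have hv3 := hV.ori_flip hv hv2
        rw [show flip st (st h) v = flip st (st h) v from rfl] at hv3
        have hmem : h ∈ flip st (st h) v := by
          rw [mem_flip, hV.inv]
          exact Or.inl rfl
        obtain ⟨v0, hv0, hh0, hf0, e⟩ := h4 (flip st (st h) v \ {h}) (hV.ori_diff hv3 hmem)
          (fun k hk => ⟨by
            rw [mem_flip]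
            exact Or.inr ⟨hcv hk, fun e => hc.2 (e ▸ hk)⟩, fun e => hc.1 (e ▸ hk)⟩)
        have : v = flip st h v0 := by
          have e1 : v0 = flip st (st h) v := by
            ext k
            by_cases e1 : k = h
            · rw [e1]
              exact ⟨fun _ => hmem, fun _ => hh0⟩
            · have h5 : k ∈ flip st (st h) v \ {h} ↔ k ∈ v0 \ {h} := by rw [e]
              rw [Set.mem_sdiff, Set.mem_sdiff, Set.mem_singleton_iff] at h5
              exact ⟨fun a => (h5.mpr ⟨a, e1⟩).1, fun a => (h5.mp ⟨a, e1⟩).1⟩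
          rw [e1]
          have h6 := hV.flip_flip hv hv2
          rw [hV.inv] at h6
          exact h6.symm
        rw [this]
        exact hf0
  · rintro ⟨⟨h1, h2, h3, h4⟩, hc⟩
    refine ⟨fun k hk => ⟨h1 hk, fun e => hc.1 (e ▸ hk), fun e => hc.2 (e ▸ hk)⟩, h2, ?_,
      fun w hw hcw => ?_⟩
    · refine h3.subset ?_
      rintro k ⟨hk1, hk2, hk3⟩
      exact ⟨hk1.1, hk2, hk3⟩
    · have hhw : h ∉ w := fun e => (hw.1 e).2.1 rfl
      have h5 := hV.ori_insert hh hw
      have h6 := h4 _ h5 (hcw.trans (Set.subset_insert h w))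
      have h7 := hV.ori_flip h5 (Set.mem_insert h w)
      rw [flip_insert hhw] at h7
      have h8 := h4 _ h7 (hcw.trans (Set.subset_insert _ w))
      refine ⟨insert h w, h6, Set.mem_insert h w, ?_, ?_⟩
      · rw [flip_insert hhw]
        exact h8
      · rw [Set.insert_sdiff_of_mem _ (Set.mem_singleton h), Set.sdiff_singleton_eq_self hhw]

theorem hs_sub (hV : HS st A V) {h : H} (hh : h ∈ A) (hne : (subV st V h).Nonempty) :
    HS st (subA st A h) (subV st V h) where
  inv := hV.inv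
  act := fun k hk => ⟨hV.act k hk.1, fun e => hk.2.2 (by rw [← e, hV.inv]),
    fun e => hk.2.1 (by rw [← hV.inv k, e, hV.inv])⟩
  nonempty := hne
  ori := by
    rintro c ⟨v, hv, hhv, _, rfl⟩
    exact hV.ori_diff (hV.ori v hv) hhv
  fin := by
    rintro c ⟨v, hv, hhv, _, rfl⟩ d ⟨w, hw, hhw, _, rfl⟩
    refine (hV.fin v hv w hw).subset ?_
    rintro k ⟨hk1, hk2⟩
    exact ⟨hk1.1, fun e => hk2 ⟨e, hk1.2⟩⟩
  med := by
    rintro _ ⟨u, hu, hhu, hfu, rfl⟩ _ ⟨v, hv, hhv, hfv, rfl⟩ _ ⟨w, hw, hhw, hfw, rfl⟩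
    refine ⟨maj u v w, hV.med u hu v hv w hw, Or.inl ⟨hhu, hhv⟩, ?_, ?_⟩
    · have h1 := hV.med _ hfu _ hfv _ hfw
      have h2 : flip st h (maj u v w) = maj (flip st h u) (flip st h v) (flip st h w) := by
        ext k
        rw [mem_flip]
        show _ ↔ (k ∈ flip st h u ∧ k ∈ flip st h v) ∨ (k ∈ flip st h u ∧ k ∈ flip st h w) ∨
          (k ∈ flip st h v ∧ k ∈ flip st h w)
        rw [mem_flip, mem_flip, mem_flip]
        show k = st h ∨ (((k ∈ u ∧ k ∈ v) ∨ (k ∈ u ∧ k ∈ w) ∨ (k ∈ v ∧ k ∈ w)) ∧ k ≠ h) ↔ _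
        tauto
      rw [h2]
      exact h1
    · ext k
      show ((k ∈ u \ {h} ∧ k ∈ v \ {h}) ∨ (k ∈ u \ {h} ∧ k ∈ w \ {h}) ∨
        (k ∈ v \ {h} ∧ k ∈ w \ {h})) ↔
        (((k ∈ u ∧ k ∈ v) ∨ (k ∈ u ∧ k ∈ w) ∨ (k ∈ v ∧ k ∈ w)) ∧ k ∉ ({h} : Set H))
      rw [Set.mem_sdiff, Set.mem_sdiff, Set.mem_sdiff]
      tauto
  conn := by
    rintro _ ⟨u, hu, hhu, hfu, rfl⟩ _ ⟨v, hv, hhv, hfv, rfl⟩ huv
    have huv' : u ≠ v := fun e => huv (by rw [e])
    obtain ⟨k, hk1, hk2, hk3⟩ := hV.conn u hu v hv huv'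
    have ou := hV.ori u hu
    have ov := hV.ori v hv
    have hsu : st h ∉ u := (ou.2 h hh).mp hhu
    have hsv : st h ∉ v := (ov.2 h hh).mp hhv
    have e1 : k ≠ h := fun e => hk2 (e ▸ hhv)
    have e2 : k ≠ st h := fun e => hsu (e ▸ hk1)
    have e3 : st k ≠ h := fun e => e2 (by rw [← e, hV.inv])
    have e4 : st k ≠ st h := fun e => e1 (by rw [← hV.inv k, e, hV.inv])
    have hkA : k ∈ A := ou.1 hk1
    have hskv : st k ∈ v := by
      by_contra h5
      exact hk2 ((ov.2 k hkA).mpr h5)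
    have hsku : st k ∉ u := (ou.2 k hkA).mp hk1
    refine ⟨k, ⟨hk1, e1⟩, fun e => hk2 e.1, flip st k u, hk3, ?_, ?_, ?_⟩
    · rw [mem_flip]
      exact Or.inr ⟨hhu, fun e => e1 e.symm⟩
    · have h1 := hV.med _ hfu _ hfv _ hk3
      have h2 : flip st h (flip st k u) = maj (flip st h u) (flip st h v) (flip st k u) := by
        ext l
        show l ∈ flip st h (flip st k u) ↔ (l ∈ flip st h u ∧ l ∈ flip st h v) ∨
          (l ∈ flip st h u ∧ l ∈ flip st k u) ∨ (l ∈ flip st h v ∧ l ∈ flip st k u)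
        rw [mem_flip, mem_flip, mem_flip, mem_flip]
        by_cases a1 : l = h
        · subst a1
          tauto
        · by_cases a2 : l = st h
          · subst a2
            tauto
          · by_cases a3 : l = k
            · subst a3
              tauto
            · by_cases a4 : l = st k
              · subst a4
                tauto
              · tauto
      rw [h2]
      exact h1
    · ext l
      rw [mem_flip, Set.mem_sdiff, Set.mem_sdiff, mem_flip, Set.mem_singleton_iff]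
      by_cases a1 : l = h
      · subst a1
        tauto
      · by_cases a4 : l = st k
        · subst a4
          tauto
        · tauto

theorem hyp_eq (hV : HS st A V) {h : H} (hh : h ∈ A) :
    hyp st A V h = cubX st (subA st A h) (subV st V h) := by
  ext σ
  unfold cubX
  rw [cub_sub hV hh]
  constructor
  · rintro ⟨⟨h1, h2, h3⟩, h4⟩
    exact ⟨h1, fun c hc => ⟨h2 c hc, h4 c hc⟩, h3⟩
  · rintro ⟨h1, h2, h3⟩
    exact ⟨⟨h1, fun c hc => (h2 c hc).1, h3⟩, fun c hc => (h2 c hc).2⟩

/-- If a cube crosses the wall of `h`, the hyperplane has a vertex. -/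
theorem subV_nonempty (hV : HS st A V) {h : H} (hh : h ∈ A) {c : Cb H} (hc : c ∈ Cub st A V)
    (hcr : Crs st h c) : (subV st V h).Nonempty := by
  obtain ⟨v₀, hv₀⟩ := hV.nonempty
  have o := hV.ori v₀ hv₀
  have hinv := hV.inv
  -- an orientation which contains `c`
  have key : ∃ v, Ori st A v ∧ c.s ⊆ v := by
    refine ⟨{k | k ∈ A ∧ (k ∈ c.s ∨ (st k ∉ c.s ∧ k ∈ v₀))}, ⟨fun k hk => hk.1, ?_⟩,
      fun k hk => ⟨hc.1 hk, Or.inl hk⟩⟩
    intro k hk
    have h1 := o.2 k hk
    have h2 := hV.act k hk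
    have h3 := hc.2.1
    show (k ∈ A ∧ (k ∈ c.s ∨ (st k ∉ c.s ∧ k ∈ v₀))) ↔
      ¬ (st k ∈ A ∧ (st k ∈ c.s ∨ (st (st k) ∉ c.s ∧ st k ∈ v₀)))
    rw [hinv]
    have h4 : k ∈ c.s → st k ∉ c.s := h3 k
    tauto
  obtain ⟨v, hv, hcv⟩ := key
  by_cases h1 : h ∈ v
  · have h2 := hV.ori_flip hv h1
    refine ⟨v \ {h}, v, hc.2.2.2 v hv hcv, h1, hc.2.2.2 _ h2 ?_, rfl⟩
    intro k hk
    rw [mem_flip]
    exact Or.inr ⟨hcv hk, fun e => hcr.1 (e ▸ hk)⟩
  · have h3 : st h ∈ v := by
      by_contra h5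
      exact h1 ((hv.2 h hh).mpr h5)
    have h2 := hV.ori_flip hv h3
    have hmem : h ∈ flip st (st h) v := by
      rw [mem_flip, hV.inv]
      exact Or.inl rfl
    have h6 := hV.flip_flip hv h3
    rw [hV.inv] at h6
    refine ⟨_, flip st (st h) v, hc.2.2.2 _ h2 ?_, hmem, ?_, rfl⟩
    · intro k hk
      rw [mem_flip]
      exact Or.inr ⟨hcv hk, fun e => hcr.2 (e ▸ hk)⟩
    · rw [h6]
      exact hc.2.2.2 v hv hcv

end SingerCub
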