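import Mathlib
import Pool.Agent.Lib_MP_394d50_cub.KSub

/-!
# Piece KMIN: a minimal half-space

`V` is finite with at least two elements. For `h ∈ A` let `V⁺ h = {v ∈ V | h ∈ v}`. There is `h ∈ A` with
`V⁺ h` non-empty and not all of `V` (`u ≠ v` in `V`, `conn` gives `h ∈ u`, `h ∉ v`; `h ∈ A` by `ori`). Choose such
an `h` with `(V⁺ h).ncard` minimal.

Different half-spaces are different: if `h ≠ k` in `A` and `V⁺ h = V⁺ k` is non-empty and not all of `V`, take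
`u ∈ V⁺ h`, `w ∈ V`, `w ∉ V⁺ h` with `(u \ w).ncard` minimal. `conn` gives `l ∈ u`, `l ∉ w`, `u' = flip st l u ∈ V`.
`u' \ w = (u \ w) \ {l}` (`st l ∈ w` because `l ∉ w`), so `u' ∉ V⁺ h = V⁺ k` by minimality; `h ∈ u`, `h ∉ u'`
imply `l = h`; in the same way `l = k`: contradiction.

Let `v ∈ V`, `h ∈ v`. Choose `w ∈ V` with `h ∉ w` and `(v \ w).ncard` minimal (`fin`). If there is `k ∈ v`,
`k ∉ w`, `k ≠ h`: `V⁺ k` contains `v` and not `w`, so by the choice of `h` and the previous paragraph `V⁺ k` is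
not contained in `V⁺ h` (otherwise `V⁺ k = V⁺ h` by the cardinalities): there is `x ∈ V` with `k ∈ x`, `h ∉ x`.
`m = maj v w x ∈ V`, `h ∉ m`, `k ∈ m`, and `v \ m ⊆ v \ w`, `k ∈ v \ w`, `k ∉ v \ m`: contradiction to the
minimality of `w`. So `v \ w = {h}`, and `w = flip st h v` (both are orientations).
-/

namespace SingerCub

open SingerVS

variable {H : Type} {st : H → H} {A : Set H} {V : Set (Set H)}

private theorem KMin_ex {α : Type} (P : α → Prop) (N : α → ℕ) (h : ∃ a, P a) :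
    ∃ a, P a ∧ ∀ b, P b → N a ≤ N b := by
  have hS : (({n | ∃ a, P a ∧ N a = n} : Set ℕ)).Nonempty := by
    obtain ⟨a, ha⟩ := h
    exact ⟨N a, a, ha, rfl⟩
  obtain ⟨a, ha, e⟩ := Nat.sInf_mem hS
  refine ⟨a, ha, fun b hb => ?_⟩
  rw [e]
  exact Nat.sInf_le ⟨b, hb, rfl⟩

private theorem KMin_st {v : Set H} (hv : Ori st A v) {h : H} (hh : h ∈ A) (hn : h ∉ v) :
    st h ∈ v := by
  by_contra hc
  exact hn ((hv.2 h hh).2 hc)

private theorem KMin_st' {v : Set H} (hv : Ori st A v) {h : H} (hn : h ∈ v) :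
    st h ∉ v := (hv.2 h (hv.1 hn)).1 hn

private theorem KMin_diff (hV : HS st A V) {h k : H}
    (h1 : ∃ v ∈ V, h ∈ v) (h2 : ∃ v ∈ V, h ∉ v) (hk : ∀ v ∈ V, (h ∈ v ↔ k ∈ v)) : h = k := by
  obtain ⟨u0, hu0, hhu0⟩ := h1
  obtain ⟨w0, hw0, hhw0⟩ := h2
  obtain ⟨⟨u, w⟩, ⟨hu, hhu, hw, hhw⟩, hmin⟩ :=
    KMin_ex (fun p : Set H × Set H => p.1 ∈ V ∧ h ∈ p.1 ∧ p.2 ∈ V ∧ h ∉ p.2)
      (fun p => (p.1 \ p.2).ncard) ⟨(u0, w0), hu0, hhu0, hw0, hhw0⟩
  simp only at hu hhu hw hhw hmin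
  have hne : u ≠ w := by
    intro e
    rw [e] at hhu
    exact hhw hhu
  obtain ⟨l, hlu, hlw, hf⟩ := hV.conn u hu w hw hne
  have ou := hV.ori u hu
  have ow := hV.ori w hw
  have hlA : l ∈ A := ou.1 hlu
  have hslw : st l ∈ w := KMin_st ow hlA hlw
  have hhn : h ∉ flip st l u := by
    intro hc
    have h3 := hmin (flip st l u, w) ⟨hf, hc, hw, hhw⟩
    simp only at h3
    have h4 : (flip st l u) \ w ⊂ u \ w := by
      constructor
      · rintro x ⟨hx, hxw⟩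
        rcases hx with hx | hx
        · rw [hx] at hxw
          exact absurd hslw hxw
        · exact ⟨hx.1, hxw⟩
      · intro hsub
        have h5 : l ∈ (flip st l u) \ w := hsub ⟨hlu, hlw⟩
        rcases h5.1 with h6 | h6
        · rw [← h6] at hslw
          exact hlw hslw
        · exact h6.2 rfl
    exact absurd (Set.ncard_lt_ncard h4 (hV.fin u hu w hw)) (not_lt.2 h3)
  have key : ∀ x, x ∈ u → x ∉ flip st l u → x = l := by
    intro x hx hxn
    by_contra hne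
    exact hxn (Or.inr ⟨hx, hne⟩)
  have e1 := key h hhu hhn
  have e2 := key k ((hk u hu).1 hhu) (fun hc => hhn ((hk _ hf).2 hc))
  rw [e1, e2]

theorem exists_minimal (hV : HS st A V) (hfin : V.Finite) (h2 : ∃ u ∈ V, ∃ v ∈ V, u ≠ v) :
    ∃ h ∈ A, (∃ v ∈ V, h ∈ v) ∧ (∃ v ∈ V, h ∉ v) ∧ ∀ v ∈ V, h ∈ v → flip st h v ∈ V := by
  obtain ⟨u, hu, v, hv, huv⟩ := h2
  obtain ⟨h, ⟨hhA, h1, h2⟩, hmin⟩ := KMin_ex
    (fun h : H => h ∈ A ∧ (∃ v ∈ V, h ∈ v) ∧ (∃ v ∈ V, h ∉ v))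
    (fun h => {v | v ∈ V ∧ h ∈ v}.ncard) (by
      obtain ⟨h, h3, h4, _⟩ := hV.conn u hu v hv huv
      exact ⟨h, (hV.ori u hu).1 h3, ⟨u, hu, h3⟩, ⟨v, hv, h4⟩⟩)
  refine ⟨h, hhA, h1, h2, ?_⟩
  intro v hv hhv
  obtain ⟨w, ⟨hw, hhw⟩, hwmin⟩ := KMin_ex (fun w : Set H => w ∈ V ∧ h ∉ w)
    (fun w => (v \ w).ncard) (by obtain ⟨w, hw, hhw⟩ := h2; exact ⟨w, hw, hhw⟩)
  have ov := hV.ori v hv
  have ow := hV.ori w hw
  have hdiff : ∀ k, k ∈ v → k ∉ w → k = h := by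
    intro k hkv hkw
    by_contra hkh
    have hkA := ov.1 hkv
    have hx : ∃ x ∈ V, k ∈ x ∧ h ∉ x := by
      by_contra hno
      push Not at hno
      have hsub : {v | v ∈ V ∧ k ∈ v} ⊆ {v | v ∈ V ∧ h ∈ v} := fun x hx => ⟨hx.1, hno x hx.1 hx.2⟩
      have hle := hmin k ⟨hkA, ⟨v, hv, hkv⟩, ⟨w, hw, hkw⟩⟩
      have heq := Set.eq_of_subset_of_ncard_le hsub hle (hfin.subset fun x hx => hx.1)
      apply hkh
      refine (KMin_diff hV h1 h2 fun x hx => ?_).symm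
      constructor
      · intro hhx
        have : x ∈ {v | v ∈ V ∧ k ∈ v} := by
          rw [heq]; exact ⟨hx, hhx⟩
        exact this.2
      · exact hno x hx
    obtain ⟨x, hxV, hkx, hhx⟩ := hx
    have hm := hV.med v hv w hw x hxV
    have hhm : h ∉ maj v w x := by
      rintro (⟨_, h4⟩ | ⟨_, h4⟩ | ⟨_, h4⟩)
      · exact hhw h4
      · exact hhx h4
      · exact hhx h4
    have hle := hwmin (maj v w x) ⟨hm, hhm⟩
    have hss : v \ maj v w x ⊂ v \ w := by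
      constructor
      · rintro y ⟨hy, hym⟩
        exact ⟨hy, fun hyw => hym (Or.inl ⟨hy, hyw⟩)⟩
      · intro hsub
        exact (hsub ⟨hkv, hkw⟩).2 (Or.inr (Or.inl ⟨hkv, hkx⟩))
    exact absurd (Set.ncard_lt_ncard hss (hV.fin v hv w hw)) (not_lt.2 hle)
  have hweq : flip st h v = w := by
    apply Set.eq_of_subset_of_subset
    · rintro x (hx | ⟨hx, hxh⟩)
      · rw [hx]
        exact KMin_st ow hhA hhw
      · by_contra hxw
        exact hxh (hdiff x hx hxw)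
    · intro x hx
      by_cases hxv : x ∈ v
      · refine Or.inr ⟨hxv, ?_⟩
        intro hxh
        rw [hxh] at hx
        exact hhw hx
      · left
        have e := hdiff (st x) (KMin_st ov (ow.1 hx) hxv) (KMin_st' ow hx)
        rw [← e, hV.inv]
  rw [hweq]
  exact hw

end SingerCub
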