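import Mathlib
import Pool.Agent.Lib_MP_394d50_cub.KPos
import Pool.Agent.Lib_MP_394d50_top.APs

/-!
# Piece KPRI: monotone maps and homotopies of order complexes

`con_cone`: `e ∈ Q` comparable with all elements of `Q`. For a cycle `z` with `k` vertices let
`w = ∑_{σ ∈ z.support, e ∉ σ} single (insert e σ) 1`. Then `bF w = z`: write `z = z₁ + (z₂ with e)`, the
standard cone argument (`bF (e * x) = x + e * bF x` for chains `x` without `e`; `z = x + e * y`,
`0 = bF z = bF x + y + e * bF y`, so `y = bF x`, and `bF (e * x) = x + e * bF x = z`).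

`con_retract`: `f` maps `Q` to `Q' ⊆ Q`, monotone on `Q`, with `c ≤ f c` for all `c ∈ Q` (or `f c ≤ c` for all
`c ∈ Q`). Let `pf` be the linear map with `pf (single σ 1) = single (σ.image f) 1` if `f` is injective on `σ`,
`0` otherwise. On chains supported on `KC Q` it commutes with `bF` (if `f` is not injective on `σ`, there are
consecutive vertices `p < q` in the chain `σ` with `f p = f q`; in `pf (bF σ)` only the terms `σ \ p` and
`σ \ q` can be non-zero and they are equal). The prism operator `h σ = ∑_{p ∈ σ} single ({x ∈ σ | x ≤ p} ∪ f {x ∈ σ | p ≤ x})`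
(in case `c ≤ f c`; the term is `0` if the set does not have `σ.card + 1` elements) satisfies
`bF (h z) + h (bF z) = z + pf z`. It can be obtained from the list version in `Lib_MP_394d50_top/ADefs`
(`pr`, `ps`, `soL`, and their lemmas in `APs.lean`: for a monotone chain the lists of the prism are chains);
take `so σ` = the list of `σ` in increasing order (sort by any linear extension, for example by a
linear order on the finite set of cubes concerned which extends inclusion). For a cycle `z` of `KC Q`,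
`z = bF (h z) + pf z` and `pf z` is a cycle of `KC Q'`, so a boundary there.
An alternative proof without prisms: induction, one step at a time, removing the elements of `Q \ Q'`
... only for finite `Q`; the prism proof works in general.
-/

namespace SingerCub

open SingerVS

variable {H : Type} [DecidableEq (Cb H)]

private theorem KPri_onK_iff {K : Set (Finset (Cb H))} {k : ℕ} {z : Finset (Cb H) →₀ ZMod 2} :
    OnK K k z ↔ z ∈ Finsupp.supported (ZMod 2) (ZMod 2) {σ | σ ∈ K ∧ σ.card = k} := by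
  constructor
  · intro h σ hσ
    exact h σ hσ
  · intro h σ hσ
    exact h hσ

private theorem KPri_onK_map {K K' : Set (Finset (Cb H))} {k k' : ℕ}
    (T : (Finset (Cb H) →₀ ZMod 2) →ₗ[ZMod 2] (Finset (Cb H) →₀ ZMod 2))
    (h : ∀ σ ∈ K, σ.card = k → OnK K' k' (T (Finsupp.single σ 1)))
    {z : Finset (Cb H) →₀ ZMod 2} (hz : OnK K k z) : OnK K' k' (T z) := by
  have h1 : z = ∑ σ ∈ z.support, z σ • Finsupp.single σ (1 : ZMod 2) := by
    conv_lhs => rw [← Finsupp.sum_single z]
    refine Finset.sum_congr rfl fun l _ => ?_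
    rw [Finsupp.smul_single, smul_eq_mul, mul_one]
  rw [KPri_onK_iff, h1, map_sum]
  refine Submodule.sum_mem _ fun σ hσ => ?_
  rw [map_smul]
  exact Submodule.smul_mem _ _ (KPri_onK_iff.1 (h σ (hz σ hσ).1 (hz σ hσ).2))

private theorem KPri_onK_add {K : Set (Finset (Cb H))} {k : ℕ} {z w : Finset (Cb H) →₀ ZMod 2}
    (hz : OnK K k z) (hw : OnK K k w) : OnK K k (z + w) := by
  rw [KPri_onK_iff] at *
  exact Submodule.add_mem _ hz hw

private theorem KPri_onK_mono {K K' : Set (Finset (Cb H))} (hK : K ⊆ K') {k : ℕ}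
    {z : Finset (Cb H) →₀ ZMod 2} (hz : OnK K k z) : OnK K' k z :=
  fun σ hσ => ⟨hK (hz σ hσ).1, (hz σ hσ).2⟩

theorem con_cone {Q : Set (Cb H)} {e : Cb H} (he : e ∈ Q)
    (hc : ∀ c ∈ Q, c.s ⊆ e.s ∨ e.s ⊆ c.s) : Con (KC Q) := by
  intro k z hz hb
  refine ⟨TPS_W e z, ?_, ?_⟩
  · refine KPri_onK_map (TPS_W e) (fun σ hσ hcard => ?_) hz
    rw [TPS_W_single]
    split_ifs with h
    · intro τ hτ
      simp at hτ
    · rw [KPri_onK_iff]
      refine Finsupp.single_mem_supported _ _ ⟨⟨?_, ?_⟩, ?_⟩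
      · intro c hcm
        rcases Finset.mem_insert.1 hcm with rfl | hcm
        · exact he
        · exact hσ.1 c hcm
      · intro c hcm d hdm
        rcases Finset.mem_insert.1 hcm with h1 | h1
        · rcases Finset.mem_insert.1 hdm with h2 | h2
          · rw [h1, h2]
            exact Or.inl (subset_refl _)
          · rw [h1]
            exact (hc d (hσ.1 d h2)).symm
        · rcases Finset.mem_insert.1 hdm with h2 | h2
          · rw [h2]
            exact hc c (hσ.1 c h1)
          · exact hσ.2 c h1 d h2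
      · rw [Finset.card_insert_of_notMem h, hcard]
  · rw [TPS_bF_W, hb, map_zero, add_zero]

/-- chains in `Q` as lists -/
private def KPri_CL (Q : Set (Cb H)) (k : ℕ) (l : List (Cb H)) : Prop :=
  l.length = k ∧ (∀ c ∈ l, c ∈ Q) ∧ ∀ c ∈ l, ∀ d ∈ l, c.s ⊆ d.s ∨ d.s ⊆ c.s

private theorem KPri_ps {Q : Set (Cb H)} {k : ℕ} {u : LC (Cb H)} (hu : u ∈ On (KPri_CL Q k)) :
    OnK (KC Q) k (ps u) := by
  have h1 : u = ∑ l ∈ u.support, u l • Finsupp.single l (1 : ZMod 2) := by
    conv_lhs => rw [← Finsupp.sum_single u]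
    refine Finset.sum_congr rfl fun l _ => ?_
    rw [Finsupp.smul_single, smul_eq_mul, mul_one]
  rw [KPri_onK_iff, h1, map_sum]
  refine Submodule.sum_mem _ fun l hl => ?_
  rw [map_smul, ps_single]
  refine Submodule.smul_mem _ _ ?_
  have hl' : KPri_CL Q k l := hu hl
  unfold psl
  split_ifs with hn
  · refine Finsupp.single_mem_supported _ _ ⟨⟨?_, ?_⟩, ?_⟩
    · intro c hc
      exact hl'.2.1 c (List.mem_toFinset.1 hc)
    · intro c hc d hd
      exact hl'.2.2 c (List.mem_toFinset.1 hc) d (List.mem_toFinset.1 hd)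
    · rw [List.toFinset_card_of_nodup hn]
      exact hl'.1
  · exact Submodule.zero_mem _

private theorem KPri_prl {Q : Set (Cb H)} (a b : Cb H → Cb H) (ha : ∀ c ∈ Q, a c ∈ Q)
    (hb : ∀ c ∈ Q, b c ∈ Q) (hma : ∀ c ∈ Q, ∀ d ∈ Q, c.s ⊆ d.s → (a c).s ⊆ (a d).s)
    (hmb : ∀ c ∈ Q, ∀ d ∈ Q, c.s ⊆ d.s → (b c).s ⊆ (b d).s)
    (hab : ∀ c ∈ Q, (a c).s ⊆ (b c).s) (l : List (Cb H)) (hl : ∀ c ∈ l, c ∈ Q)
    (hs : l.Pairwise (fun c d => c.s ⊆ d.s)) :
    prl a b l ∈ On (fun l' => KPri_CL Q (l.length + 1) l' ∧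
      ∀ z ∈ l', ∃ x ∈ l, z = a x ∨ z = b x) := by
  induction l with
  | nil => exact Submodule.zero_mem _
  | cons y l ih =>
    have hy : y ∈ Q := hl y List.mem_cons_self
    have hl2 : ∀ c ∈ l, c ∈ Q := fun c hc => hl c (List.mem_cons_of_mem y hc)
    obtain ⟨hs1, hs2⟩ := List.pairwise_cons.1 hs
    have ih' := ih hl2 hs2
    refine Submodule.add_mem _ (On_single ⟨⟨?_, ?_, ?_⟩, ?_⟩) ?_
    · simp
    · intro c hc
      rcases List.mem_cons.1 hc with rfl | hc
      · exact ha y hy
      · rcases List.mem_cons.1 hc with rfl | hc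
        · exact hb y hy
        · obtain ⟨x, hx, rfl⟩ := List.mem_map.1 hc
          exact hb x (hl2 x hx)
    · have key : ∀ c ∈ (b y :: l.map b), ∃ x, x ∈ (y :: l) ∧ c = b x := by
        intro c hc
        rcases List.mem_cons.1 hc with rfl | hc
        · exact ⟨y, List.mem_cons_self, rfl⟩
        · obtain ⟨x, hx, rfl⟩ := List.mem_map.1 hc
          exact ⟨x, List.mem_cons_of_mem y hx, rfl⟩
      have cmp : ∀ x ∈ (y :: l), ∀ x' ∈ (y :: l), x.s ⊆ x'.s ∨ x'.s ⊆ x.s := by
        intro x hx x' hx'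
        by_cases h : x = x'
        · rw [h]
          exact Or.inl (subset_refl _)
        · have hsym : Std.Symm (fun c d : Cb H => c.s ⊆ d.s ∨ d.s ⊆ c.s) :=
            ⟨fun c d h => h.symm⟩
          have hs' : (y :: l).Pairwise (fun c d : Cb H => c.s ⊆ d.s ∨ d.s ⊆ c.s) :=
            hs.imp (fun h => Or.inl h)
          exact hs'.forall hx hx' h
      have ay : ∀ x ∈ (y :: l), (a y).s ⊆ (b x).s := by
        intro x hx
        rcases List.mem_cons.1 hx with rfl | hx
        · exact hab _ hy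
        · exact (hma y hy x (hl2 x hx) (hs1 x hx)).trans (hab x (hl2 x hx))
      intro c hc d hd
      rcases List.mem_cons.1 hc with rfl | hc
      · rcases List.mem_cons.1 hd with rfl | hd
        · exact Or.inl (subset_refl _)
        · obtain ⟨x, hx, rfl⟩ := key d hd
          exact Or.inl (ay x hx)
      · obtain ⟨x, hx, rfl⟩ := key c hc
        rcases List.mem_cons.1 hd with rfl | hd
        · exact Or.inr (ay x hx)
        · obtain ⟨x', hx', rfl⟩ := key d hd
          rcases cmp x hx x' hx' with h | h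
          · exact Or.inl (hmb x (hl x hx) x' (hl x' hx') h)
          · exact Or.inr (hmb x' (hl x' hx') x (hl x hx) h)
    · intro z hz
      rcases List.mem_cons.1 hz with rfl | hz
      · exact ⟨y, List.mem_cons_self, Or.inl rfl⟩
      · rcases List.mem_cons.1 hz with rfl | hz
        · exact ⟨y, List.mem_cons_self, Or.inr rfl⟩
        · obtain ⟨x, hx, rfl⟩ := List.mem_map.1 hz
          exact ⟨x, List.mem_cons_of_mem y hx, Or.inr rfl⟩
    · refine On_map (cn (a y)) (fun l' hl' => ?_) ih'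
      rw [cn_single]
      obtain ⟨⟨h1, h2, h3⟩, h4⟩ := hl'
      have ay : ∀ z ∈ l', (a y).s ⊆ z.s := by
        intro z hz
        obtain ⟨x, hx, h⟩ := h4 z hz
        have e1 := hma y hy x (hl2 x hx) (hs1 x hx)
        rcases h with rfl | rfl
        · exact e1
        · exact e1.trans (hab x (hl2 x hx))
      refine On_single ⟨⟨?_, ?_, ?_⟩, ?_⟩
      · rw [List.length_cons, List.length_cons, h1]
      · intro c hc
        rcases List.mem_cons.1 hc with rfl | hc
        · exact ha y hy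
        · exact h2 c hc
      · intro c hc d hd
        rcases List.mem_cons.1 hc with rfl | hc
        · rcases List.mem_cons.1 hd with rfl | hd
          · exact Or.inl (subset_refl _)
          · exact Or.inl (ay d hd)
        · rcases List.mem_cons.1 hd with rfl | hd
          · exact Or.inr (ay c hc)
          · exact h3 c hc d hd
      · intro z hz
        rcases List.mem_cons.1 hz with rfl | hz
        · exact ⟨y, List.mem_cons_self, Or.inl rfl⟩
        · obtain ⟨x, hx, h⟩ := h4 z hz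
          exact ⟨x, List.mem_cons_of_mem y hx, h⟩

/-- orderings of the finite sets of cubes which are increasing for inclusion on chains -/
private theorem KPri_ord : ∃ so : Finset (Cb H) → List (Cb H), Ord so ∧
    ∀ σ : Finset (Cb H), (∀ c ∈ σ, ∀ d ∈ σ, c.s ⊆ d.s ∨ d.s ⊆ c.s) →
      (so σ).Pairwise (fun c d => c.s ⊆ d.s) := by
  classical
  have hpo : IsPartialOrder (Cb H) (fun c d => c.s ⊆ d.s) :=
    { refl := fun c => subset_refl _
      trans := fun a b c h1 h2 => Set.Subset.trans h1 h2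
      antisymm := fun a b h1 h2 => Cb.ext (Set.Subset.antisymm h1 h2) }
  obtain ⟨r, hr, hle⟩ := extend_partialOrder (fun c d : Cb H => c.s ⊆ d.s)
  have h1 : Std.Total r := inferInstance
  have h2 : IsTrans (Cb H) r := inferInstance
  have h3 : Std.Antisymm r := inferInstance
  refine ⟨fun σ => σ.sort r, ⟨fun σ => Finset.sort_nodup σ r, fun σ => ?_, fun σ => ?_⟩, ?_⟩
  · exact Finset.sort_toFinset σ r
  · rw [TPS_bdl_erase _ (Finset.sort_nodup σ r), Finset.sort_toFinset σ r]
    refine Finset.sum_congr rfl fun p _ => ?_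
    congr 1
    have hs : ((σ.sort r).erase p).Pairwise r :=
      (Finset.pairwise_sort σ r).sublist List.erase_sublist
    refine List.Perm.eq_of_pairwise' hs (Finset.pairwise_sort (σ.erase p) r) ?_
    refine (List.perm_ext_iff_of_nodup ((Finset.sort_nodup σ r).erase p)
      (Finset.sort_nodup (σ.erase p) r)).2 fun a => ?_
    rw [(Finset.sort_nodup σ r).mem_erase_iff, Finset.mem_sort, Finset.mem_sort,
      Finset.mem_erase]
  · intro σ hσ
    have hs := Finset.pairwise_sort σ r
    refine hs.imp_of_mem ?_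
    intro c d hc hd hcd
    rcases hσ c ((Finset.mem_sort r).1 hc) d ((Finset.mem_sort r).1 hd) with h | h
    · exact h
    · have h4 : r d c := hle d c h
      have h5 : c = d := Std.Antisymm.antisymm _ _ hcd h4
      rw [h5]

private theorem KPri_retract_aux {Q Q' : Set (Cb H)} (hQ : Q' ⊆ Q) (f a b : Cb H → Cb H)
    (hf : ∀ c ∈ Q, f c ∈ Q') (hmono : ∀ c ∈ Q, ∀ d ∈ Q, c.s ⊆ d.s → (f c).s ⊆ (f d).s)
    (hmp : ∀ u : LC (Cb H), mp a u + mp b u = u + mp f u)
    (ha : ∀ c ∈ Q, a c ∈ Q)
    (hb : ∀ c ∈ Q, b c ∈ Q) (hma : ∀ c ∈ Q, ∀ d ∈ Q, c.s ⊆ d.s → (a c).s ⊆ (a d).s)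
    (hmb : ∀ c ∈ Q, ∀ d ∈ Q, c.s ⊆ d.s → (b c).s ⊆ (b d).s)
    (hab : ∀ c ∈ Q, (a c).s ⊆ (b c).s) (hC : Con (KC Q')) :
    Con (KC Q) := by
  obtain ⟨so, hso, hsort⟩ := KPri_ord (H := H)
  intro k z hz hbz
  set u := soL so z with hu
  have hbu : bL u = 0 := by rw [hu, bL_soL hso, hbz, map_zero]
  have hpu : ps u = z := ps_soL hso z
  have huOn : u ∈ On (fun l => KPri_CL Q k l ∧ l.Pairwise (fun c d => c.s ⊆ d.s)) := by
    have h1 : z = ∑ σ ∈ z.support, z σ • Finsupp.single σ (1 : ZMod 2) := by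
      conv_lhs => rw [← Finsupp.sum_single z]
      refine Finset.sum_congr rfl fun l _ => ?_
      rw [Finsupp.smul_single, smul_eq_mul, mul_one]
    rw [hu, h1, map_sum]
    refine Submodule.sum_mem _ fun σ hσ => ?_
    rw [map_smul, soL_single]
    refine Submodule.smul_mem _ _ (On_single ?_)
    obtain ⟨hσ1, hσ2⟩ := hz σ hσ
    have hmem : ∀ c, c ∈ so σ ↔ c ∈ σ := by
      intro c
      rw [← List.mem_toFinset, hso.toF]
    refine ⟨⟨?_, ?_, ?_⟩, hsort σ hσ1.2⟩
    · rw [length_so hso, hσ2]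
    · intro c hc
      exact hσ1.1 c ((hmem c).1 hc)
    · intro c hc d hd
      exact hσ1.2 c ((hmem c).1 hc) d ((hmem d).1 hd)
  have h1 := bL_pr a b u
  rw [hbu, map_zero, add_zero, hmp] at h1
  have h2 : bF (ps (pr a b u)) = z + ps (mp f u) := by
    rw [← ps_bL, h1, map_add, hpu]
  have h3 : bF (ps (mp f u)) = 0 := by
    rw [← ps_bL, bL_mp, hbu, map_zero, map_zero]
  have h4 : OnK (KC Q') k (ps (mp f u)) := by
    apply KPri_ps
    refine On_map (mp f) (fun l hl => ?_) huOn
    rw [mp_single]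
    obtain ⟨⟨h1, h2, h3⟩, h4⟩ := hl
    refine On_single ⟨?_, ?_, ?_⟩
    · rw [List.length_map, h1]
    · intro c hc
      obtain ⟨x, hx, rfl⟩ := List.mem_map.1 hc
      exact hf x (h2 x hx)
    · intro c hc d hd
      obtain ⟨x, hx, rfl⟩ := List.mem_map.1 hc
      obtain ⟨y, hy, rfl⟩ := List.mem_map.1 hd
      rcases h3 x hx y hy with h | h
      · exact Or.inl (hmono x (h2 x hx) y (h2 y hy) h)
      · exact Or.inr (hmono y (h2 y hy) x (h2 x hx) h)
  obtain ⟨w', hw', hbw'⟩ := hC k _ h4 h3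
  refine ⟨ps (pr a b u) + w', KPri_onK_add ?_ ?_, ?_⟩
  · apply KPri_ps
    refine On_map (pr a b) (fun l hl => ?_) huOn
    rw [pr_single]
    obtain ⟨⟨h1, h2, h3⟩, h4⟩ := hl
    have h5 := KPri_prl a b ha hb hma hmb hab l h2 h4
    rw [h1] at h5
    exact On_mono (fun l' hl' => hl'.1) h5
  · refine KPri_onK_mono ?_ hw'
    intro σ hσ
    exact ⟨fun c hc => hQ (hσ.1 c hc), hσ.2⟩
  · rw [map_add, h2, hbw', add_assoc, TPS_fs_self, add_zero]

theorem con_retract {Q Q' : Set (Cb H)} (hQ : Q' ⊆ Q) (f : Cb H → Cb H)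
    (hf : ∀ c ∈ Q, f c ∈ Q') (hmono : ∀ c ∈ Q, ∀ d ∈ Q, c.s ⊆ d.s → (f c).s ⊆ (f d).s)
    (hle : (∀ c ∈ Q, c.s ⊆ (f c).s) ∨ ∀ c ∈ Q, (f c).s ⊆ c.s) (hC : Con (KC Q')) :
    Con (KC Q) := by
  rcases hle with h | h
  · refine KPri_retract_aux hQ f (fun c => c) f hf hmono (fun u => ?_) (fun c hc => hc)
      (fun c hc => hQ (hf c hc)) (fun c _ d _ hcd => hcd) hmono h hC
    rw [mp_id]
  · refine KPri_retract_aux hQ f f (fun c => c) hf hmono (fun u => ?_)
      (fun c hc => hQ (hf c hc)) (fun c hc => hc) hmono (fun c _ d _ hcd => hcd) h hC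
    rw [mp_id, add_comm]

end SingerCub
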