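import Mathlib
import Pool.Agent.Lib_MP_394d50_cub.KMin
import Pool.Agent.Lib_MP_394d50_cub.KPri

/-!
# Piece KFIN: CAT(0) cube complexes are acyclic

`exists_ori`: `c ⊆ A` consistent, `v₀` an orientation: `{k ∈ A | k ∈ c ∨ (st k ∉ c ∧ k ∈ v₀)}` is an orientation which
contains `c`.

`con_fin` (`V` finite), by strong induction on the number of elements of `V`. If `V = {v}`: a cube `c` has
only the completion `v`, so it decides all walls (otherwise there are two completions), `c = v`;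
`Cub st A V = {⟨v⟩}` and `con_cone`. Otherwise let `h` be as in `exists_minimal`.
`Q = Cub st A V`, `Q₁ = {c ∈ Q | h ∉ c}`, `Q₂ = {c ∈ Q | st h ∈ c}`, `V' = {v ∈ V | st h ∈ v}`.
* `f c = c \ {h}` maps `Q` to `Q₁`: for `c ∈ Q` with `h ∈ c` the completions `v` of `c \ {h}` either contain `h`,
  and then `c ⊆ v`, `v ∈ V`; or contain `st h`, and then `v' = flip st (st h) v` is a completion of `c`, so
  in `V`, contains `h`, and `v = flip st h v' ∈ V`. `f` is monotone, `f c ⊆ c`. `con_retract`.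
* `g c = insert (st h) c` maps `Q₁` to `Q₂`, is monotone, `c ⊆ g c`. `con_retract`.
* `Q₂ = Cub st A V'`: (⊆) clear. (⊇) if `c ∈ Cub st A V'` does not contain `st h` there is a completion of `c`
  which contains `h` (`exists_ori` applied to `insert h c`, or to `c` if `h ∈ c`), which is not in `V'`.
  `HS st A V'`: `st h ∈ maj u v w`; `conn`: if `k ∈ u`, `k ∉ v`, `flip st k u ∈ V`, then `k ≠ st h` (`st h ∈ v`), so
  `st h ∈ flip st k u`. `V'` is smaller than `V` and not empty.

`con_cub` (general `V`). Let `z` be a cycle on `KC (Cub st A V)`. Let `B` be a non-empty finite set of cubes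
which contains all vertices of the simplices in the support of `z`, and `F` the set of all completions
`v` (orientations of `A`) of the cubes in `B`: finite (finitely many undecided walls), non-empty
(`exists_ori`), `F ⊆ V`. `a = {h | ∀ v ∈ F, h ∈ v}`, `Va = {v ∈ V | a ⊆ v}`. `Va` is finite: fix `v₀ ∈ F`; if `v ∈ Va`,
`h ∈ v`, `h ∉ v₀`, then `st h ∈ v₀`, `st h ∉ v`, so `st h ∉ a`, there is `u ∈ F` with `st h ∉ u`, `h ∈ u`; so `v \ v₀`
is a subset of the finite set `⋃_{u ∈ F} (u \ v₀)`, and `v` is determined by `v \ v₀` (orientations). `HS st A Va`: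
`a ⊆ maj u v w`; `conn`: `k ∉ v ⊇ a` gives `k ∉ a`, `a ⊆ flip st k u`. `Cub st A Va ⊆ Cub st A V`; the cubes in `B`
are in `Cub st A Va` (their completions are in `F ⊆ Va`). So `z` is a cycle on `KC (Cub st A Va)`, and
`con_fin` gives the `w`.
-/

namespace SingerCub

open SingerVS

variable {H : Type} [DecidableEq (Cb H)] {st : H → H} {A : Set H} {V : Set (Set H)}

omit [DecidableEq (Cb H)] in
private theorem KFin_st {v : Set H} (hv : Ori st A v) {h : H} (hh : h ∈ A) (hn : h ∉ v) :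
    st h ∈ v := by
  by_contra hc
  exact hn ((hv.2 h hh).2 hc)

omit [DecidableEq (Cb H)] in
private theorem KFin_st' {v : Set H} (hv : Ori st A v) {h : H} (hn : h ∈ v) :
    st h ∉ v := (hv.2 h (hv.1 hn)).1 hn

omit [DecidableEq (Cb H)] in
private theorem KFin_eq {v w : Set H} (hv : Ori st A v) (hw : Ori st A w) (hvw : v ⊆ w) :
    v = w := by
  apply Set.eq_of_subset_of_subset hvw
  intro x hx
  by_contra hxv
  exact KFin_st' hw hx (hvw (KFin_st hv (hw.1 hx) hxv))

omit [DecidableEq (Cb H)] in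
theorem exists_ori (hV : HS st A V) {c v₀ : Set H} (hc : c ⊆ A) (hc' : ∀ h ∈ c, st h ∉ c)
    (hv : Ori st A v₀) : ∃ v, Ori st A v ∧ c ⊆ v := by
  refine ⟨{k | k ∈ A ∧ (k ∈ c ∨ (st k ∉ c ∧ k ∈ v₀))}, ⟨fun k hk => hk.1, fun h hh => ?_⟩,
    fun k hk => ⟨hc hk, Or.inl hk⟩⟩
  have hsA := hV.act h hh
  constructor
  · rintro ⟨_, h1⟩ ⟨_, h2⟩
    rw [hV.inv] at h2
    rcases h1 with h1 | ⟨h1, h1'⟩
    · rcases h2 with h2 | ⟨h2, _⟩
      · exact hc' h h1 h2
      · exact h2 h1
    · rcases h2 with h2 | ⟨_, h2⟩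
      · exact h1 h2
      · exact KFin_st' hv h1' h2
  · intro h1
    refine ⟨hh, ?_⟩
    by_cases h2 : h ∈ c
    · exact Or.inl h2
    · right
      have h3 : st h ∉ c := fun h4 => h1 ⟨hsA, Or.inl h4⟩
      refine ⟨h3, ?_⟩
      by_contra h4
      apply h1
      refine ⟨hsA, Or.inr ⟨?_, KFin_st hv hh h4⟩⟩
      rw [hV.inv]
      exact h2

omit [DecidableEq (Cb H)] in
private theorem KFin_cube (hV : HS st A V) {c : Cb H} (hc : c ∈ Cub st A V) :
    ∃ v ∈ V, c.s ⊆ v := by
  obtain ⟨v₀, hv₀⟩ := hV.nonempty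
  obtain ⟨v, hv, hcv⟩ := exists_ori hV hc.1 hc.2.1 (hV.ori v₀ hv₀)
  exact ⟨v, hc.2.2.2 v hv hcv, hcv⟩

omit [DecidableEq (Cb H)] in
private theorem KFin_vert (hV : HS st A V) {v : Set H} (hv : v ∈ V) :
    (⟨v⟩ : Cb H) ∈ Cub st A V := by
  have ov := hV.ori v hv
  refine ⟨ov.1, fun h hh => KFin_st' ov hh, ?_, ?_⟩
  · convert Set.finite_empty
    ext h
    constructor
    · rintro ⟨h1, h2, h3⟩
      exact h3 (KFin_st ov h1 h2)
    · exact fun h => h.elim
  · intro w hw hvw
    rw [← KFin_eq ov hw hvw]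
    exact hv

private theorem KFin_one (hV : HS st A V) {v : Set H} (hv : V = {v}) :
    Con (KC (Cub st A V)) := by
  have hvV : v ∈ V := by rw [hv]; rfl
  refine con_cone (e := ⟨v⟩) (KFin_vert hV hvV) ?_
  intro c hc
  obtain ⟨w, hw, hcw⟩ := KFin_cube hV hc
  left
  rw [hv] at hw
  rw [← (hw : w = v)]
  exact hcw

omit [DecidableEq (Cb H)] in
private theorem KFin_f (hV : HS st A V) {h : H} (hh : h ∈ A)
    (hmin : ∀ v ∈ V, h ∈ v → flip st h v ∈ V) {c : Cb H} (hc : c ∈ Cub st A V) :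
    (⟨c.s \ {h}⟩ : Cb H) ∈ Cub st A V := by
  obtain ⟨h1, h2, h3, h4⟩ := hc
  refine ⟨fun x hx => h1 hx.1, fun k hk hk' => h2 k hk.1 hk'.1, ?_, ?_⟩
  · refine (h3.union (Set.toFinite ({h, st h} : Set H))).subset ?_
    rintro k ⟨hkA, hk1, hk2⟩
    by_cases e1 : k = h
    · right; left; exact e1
    · by_cases e2 : st k = h
      · right; right
        change k = st h
        rw [← e2, hV.inv]
      · left
        exact ⟨hkA, fun hc => hk1 ⟨hc, e1⟩, fun hc => hk2 ⟨hc, e2⟩⟩
  · intro v hv hcv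
    by_cases hhv : h ∈ v
    · refine h4 v hv fun x hx => ?_
      by_cases e : x = h
      · rw [e]; exact hhv
      · exact hcv ⟨hx, e⟩
    · by_cases hhc : h ∈ c.s
      · have hsv : st h ∈ v := KFin_st hv hh hhv
        have ho : Ori st A (flip st (st h) v) := hV.ori_flip hv hsv
        have hsub : c.s ⊆ flip st (st h) v := by
          intro x hx
          by_cases e : x = h
          · left
            rw [e, hV.inv]
          · right
            refine ⟨hcv ⟨hx, e⟩, ?_⟩
            intro e'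
            have e'' : x = st h := e'
            rw [e''] at hx
            exact h2 h hhc hx
        have hv' := h4 _ ho hsub
        have hh' : h ∈ flip st (st h) v := by
          left
          rw [hV.inv]
        have := hmin _ hv' hh'
        have e : flip st h (flip st (st h) v) = v := by
          ext x
          constructor
          · rintro (hx | ⟨hx | hx, hx'⟩)
            · rw [hx]; exact hsv
            · exfalso
              apply hx'
              rw [hx, hV.inv]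
              rfl
            · exact hx.1
          · intro hx
            by_cases e : x = st h
            · left; exact e
            · right
              refine ⟨Or.inr ⟨hx, e⟩, ?_⟩
              intro e'
              have e'' : x = h := e'
              rw [e''] at hx
              exact hhv hx
        rw [← e]
        exact this
      · refine h4 v hv fun x hx => ?_
        refine hcv ⟨hx, ?_⟩
        intro e
        have e' : x = h := e
        rw [e'] at hx
        exact hhc hx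

omit [DecidableEq (Cb H)] in
private theorem KFin_g (hV : HS st A V) {h : H} (hh : h ∈ A) {c : Cb H}
    (hc : c ∈ Cub st A V) (hhc : h ∉ c.s) :
    (⟨insert (st h) c.s⟩ : Cb H) ∈ Cub st A V := by
  obtain ⟨h1, h2, h3, h4⟩ := hc
  have hne := hV.st_ne hh
  refine ⟨?_, ?_, h3.subset ?_, ?_⟩
  · rintro x (hx | hx)
    · rw [hx]; exact hV.act h hh
    · exact h1 hx
  · rintro k (hk | hk) hk'
    · rw [hk, hV.inv] at hk'
      rcases hk' with hk' | hk'
      · exact hne hk'.symm
      · exact hhc hk'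
    · rcases hk' with hk' | hk'
      · have e : k = h := by
          rw [← hV.inv k, hk', hV.inv]
        rw [e] at hk
        exact hhc hk
      · exact h2 k hk hk'
  · rintro k ⟨hkA, hk1, hk2⟩
    exact ⟨hkA, fun hc => hk1 (Or.inr hc), fun hc => hk2 (Or.inr hc)⟩
  · intro v hv hcv
    exact h4 v hv fun x hx => hcv (Or.inr hx)

omit [DecidableEq (Cb H)] in
private theorem KFin_Q2 (hV : HS st A V) {h : H} (hh : h ∈ A) :
    {c | c ∈ Cub st A V ∧ st h ∈ c.s} = Cub st A {v | v ∈ V ∧ st h ∈ v} := by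
  have hne := hV.st_ne hh
  ext c
  constructor
  · rintro ⟨⟨h1, h2, h3, h4⟩, hc⟩
    exact ⟨h1, h2, h3, fun v hv hcv => ⟨h4 v hv hcv, hcv hc⟩⟩
  · rintro ⟨h1, h2, h3, h4⟩
    refine ⟨⟨h1, h2, h3, fun v hv hcv => (h4 v hv hcv).1⟩, ?_⟩
    by_contra hc
    obtain ⟨v₀, hv₀⟩ := hV.nonempty
    obtain ⟨v, hv, hcv⟩ := exists_ori hV (c := insert h c.s) (by
      rintro x (hx | hx)
      · rw [hx]; exact hh
      · exact h1 hx) (by
      rintro k (hk | hk) hk'
      · rw [hk] at hk'
        rcases hk' with hk' | hk'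
        · exact hne hk'
        · exact hc hk'
      · rcases hk' with hk' | hk'
        · have e : k = st h := by rw [← hk', hV.inv]
          rw [e] at hk
          exact hc hk
        · exact h2 k hk hk') (hV.ori v₀ hv₀)
    have h5 := (h4 v hv fun x hx => hcv (Or.inr hx)).2
    exact KFin_st' hv (hcv (Or.inl rfl)) h5

omit [DecidableEq (Cb H)] in
private theorem KFin_HS (hV : HS st A V) (a : Set H) (hne : {v | v ∈ V ∧ a ⊆ v}.Nonempty) :
    HS st A {v | v ∈ V ∧ a ⊆ v} := by
  refine ⟨hV.inv, hV.act, hne, fun v hv => hV.ori v hv.1, fun u hu v hv => hV.fin u hu.1 v hv.1,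
    ?_, ?_⟩
  · intro u hu v hv w hw
    exact ⟨hV.med u hu.1 v hv.1 w hw.1, fun x hx => Or.inl ⟨hu.2 hx, hv.2 hx⟩⟩
  · intro u hu v hv huv
    obtain ⟨k, hk1, hk2, hk3⟩ := hV.conn u hu.1 v hv.1 huv
    refine ⟨k, hk1, hk2, hk3, fun x hx => ?_⟩
    right
    refine ⟨hu.2 hx, ?_⟩
    intro e
    have e' : x = k := e
    apply hk2
    rw [← e']
    exact hv.2 hx

theorem con_fin (hV : HS st A V) (hfin : V.Finite) : Con (KC (Cub st A V)) := by
  induction hn : V.ncard using Nat.strong_induction_on generalizing V with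
  | _ n ih =>
    by_cases h2 : ∃ u ∈ V, ∃ v ∈ V, u ≠ v
    · obtain ⟨h, hhA, ⟨v1, hv1, hhv1⟩, ⟨v2, hv2, hhv2⟩, hmin⟩ := exists_minimal hV hfin h2
      have hset : {v | v ∈ V ∧ st h ∈ v} = {v | v ∈ V ∧ {st h} ⊆ v} := by
        ext v
        simp
      have hne : {v | v ∈ V ∧ {st h} ⊆ v}.Nonempty := by
        refine ⟨v2, hv2, ?_⟩
        rw [Set.singleton_subset_iff]
        exact KFin_st (hV.ori v2 hv2) hhA hhv2
      have hHS := KFin_HS hV {st h} hne
      rw [← hset] at hHS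
      have hsub : {v | v ∈ V ∧ st h ∈ v} ⊂ V := by
        constructor
        · exact fun x hx => hx.1
        · intro hc
          exact KFin_st' (hV.ori v1 hv1) hhv1 (hc hv1).2
      have hcard := Set.ncard_lt_ncard hsub hfin
      rw [hn] at hcard
      have hcon := ih _ hcard hHS (hfin.subset hsub.1) rfl
      rw [← KFin_Q2 hV hhA] at hcon
      have hcon1 : Con (KC {c | c ∈ Cub st A V ∧ h ∉ c.s}) := by
        refine con_retract (Q' := {c | c ∈ Cub st A V ∧ st h ∈ c.s}) ?_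
          (fun c => ⟨insert (st h) c.s⟩) ?_ ?_ (Or.inl ?_) hcon
        · rintro c ⟨hc, hs⟩
          refine ⟨hc, fun hh => ?_⟩
          exact hc.2.1 h hh hs
        · rintro c ⟨hc, hs⟩
          exact ⟨KFin_g hV hhA hc hs, Or.inl rfl⟩
        · intro c _ d _ hcd
          exact Set.insert_subset_insert hcd
        · intro c _
          exact Set.subset_insert _ _
      refine con_retract (Q' := {c | c ∈ Cub st A V ∧ h ∉ c.s}) ?_
        (fun c => ⟨c.s \ {h}⟩) ?_ ?_ (Or.inr ?_) hcon1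
      · exact fun c hc => hc.1
      · intro c hc
        exact ⟨KFin_f hV hhA hmin hc, fun hh => hh.2 rfl⟩
      · intro c _ d _ hcd
        exact Set.diff_subset_diff_left hcd
      · intro c _
        exact Set.diff_subset
    · push Not at h2
      obtain ⟨v, hv⟩ := hV.nonempty
      refine KFin_one hV (v := v) ?_
      ext u
      constructor
      · exact fun hu => h2 u hu v hv
      · intro hu
        have hu' : u = v := hu
        rw [hu']
        exact hv

omit [DecidableEq (Cb H)] in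
private theorem KFin_comp_fin {c : Cb H} (hc : c ∈ Cub st A V) :
    {v | Ori st A v ∧ c.s ⊆ v}.Finite := by
  obtain ⟨h1, h2, h3, h4⟩ := hc
  refine Set.Finite.of_finite_image (f := fun v => v ∩ {h | h ∈ A ∧ h ∉ c.s ∧ st h ∉ c.s}) ?_ ?_
  · refine h3.finite_subsets.subset ?_
    rintro _ ⟨v, _, rfl⟩
    exact Set.inter_subset_right
  · have key : ∀ v w : Set H, Ori st A v → c.s ⊆ v → c.s ⊆ w →
        v ∩ {h | h ∈ A ∧ h ∉ c.s ∧ st h ∉ c.s} = w ∩ {h | h ∈ A ∧ h ∉ c.s ∧ st h ∉ c.s} →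
        v ⊆ w := by
      intro v w hv hcv hcw e x hx
      by_cases hxc : x ∈ c.s
      · exact hcw hxc
      · have : x ∈ v ∩ {h | h ∈ A ∧ h ∉ c.s ∧ st h ∉ c.s} :=
          ⟨hx, hv.1 hx, hxc, fun hs => KFin_st' hv hx (hcv hs)⟩
        rw [e] at this
        exact this.1
    rintro v ⟨hv, hcv⟩ w ⟨hw, hcw⟩ e
    exact Set.eq_of_subset_of_subset (key v w hv hcv hcw e) (key w v hw hcw hcv e.symm)

omit [DecidableEq (Cb H)] in
private theorem KFin_diff_inj {v w v₀ : Set H} (hv : Ori st A v) (hw : Ori st A w)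
    (hv₀ : Ori st A v₀) (e : v \ v₀ = w \ v₀) : v ⊆ w := by
  intro x hx
  by_cases hx0 : x ∈ v₀
  · by_contra hxw
    have h1 : st x ∈ w \ v₀ := ⟨KFin_st hw (hv.1 hx) hxw, KFin_st' hv₀ hx0⟩
    rw [← e] at h1
    exact KFin_st' hv hx h1.1
  · have h1 : x ∈ v \ v₀ := ⟨hx, hx0⟩
    rw [e] at h1
    exact h1.1

theorem con_cub (hV : HS st A V) : Con (KC (Cub st A V)) := by
  intro k z hz hbz
  obtain ⟨v₀, hv₀⟩ := hV.nonempty
  have o₀ := hV.ori v₀ hv₀
  set B : Finset (Cb H) := insert ⟨v₀⟩ (z.support.biUnion id) with hB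
  have hBQ : ∀ c ∈ B, c ∈ Cub st A V := by
    intro c hc
    rw [hB, Finset.mem_insert, Finset.mem_biUnion] at hc
    rcases hc with hc | ⟨σ, hσ, hc⟩
    · rw [hc]; exact KFin_vert hV hv₀
    · exact (hz σ hσ).1.1 c hc
  set F : Set (Set H) := {v | Ori st A v ∧ ∃ c ∈ B, c.s ⊆ v} with hF
  have hFfin : F.Finite := by
    have : F = ⋃ c ∈ B, {v | Ori st A v ∧ c.s ⊆ v} := by
      ext v
      simp only [hF, Set.mem_setOf_eq, Set.mem_iUnion, exists_prop]
      constructor
      · rintro ⟨h1, c, hc, h2⟩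
        exact ⟨c, hc, h1, h2⟩
      · rintro ⟨c, hc, h1, h2⟩
        exact ⟨h1, c, hc, h2⟩
    rw [this]
    refine Set.Finite.biUnion (Finset.finite_toSet B) ?_
    intro c hc
    exact KFin_comp_fin (hBQ c hc)
  have hFV : ∀ v ∈ F, v ∈ V := by
    rintro v ⟨hv, c, hc, hcv⟩
    exact (hBQ c hc).2.2.2 v hv hcv
  have hF0 : v₀ ∈ F := ⟨o₀, ⟨v₀⟩, Finset.mem_insert_self _ _, fun x hx => hx⟩
  set a : Set H := {h | ∀ v ∈ F, h ∈ v} with ha
  set Va : Set (Set H) := {v | v ∈ V ∧ a ⊆ v} with hVa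
  have hFa : ∀ v ∈ F, a ⊆ v := fun v hv x hx => hx v hv
  have hHS : HS st A Va := KFin_HS hV a ⟨v₀, hv₀, hFa v₀ hF0⟩
  have hfin : Va.Finite := by
    have hW : (⋃ u ∈ F, (u \ v₀)).Finite :=
      Set.Finite.biUnion hFfin fun u hu => hV.fin u (hFV u hu) v₀ hv₀
    refine Set.Finite.of_finite_image (f := fun v => v \ v₀) ?_ ?_
    · refine hW.finite_subsets.subset ?_
      rintro _ ⟨v, ⟨hvV, hav⟩, rfl⟩
      rintro x ⟨hx, hx0⟩
      have ov := hV.ori v hvV
      have hs : st x ∉ a := fun hc => KFin_st' ov hx (hav hc)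
      have hs' : ∃ u ∈ F, st x ∉ u := by
        by_contra hno
        push Not at hno
        exact hs hno
      obtain ⟨u, hu, hsu⟩ := hs'
      simp only [Set.mem_iUnion, exists_prop]
      refine ⟨u, hu, ?_, hx0⟩
      have := KFin_st hu.1 (hV.act x (ov.1 hx)) hsu
      rw [hV.inv] at this
      exact this
    · rintro v ⟨hv, _⟩ w ⟨hw, _⟩ e
      exact Set.eq_of_subset_of_subset
        (KFin_diff_inj (hV.ori v hv) (hV.ori w hw) o₀ e)
        (KFin_diff_inj (hV.ori w hw) (hV.ori v hv) o₀ e.symm)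
  have hzK : OnK (KC (Cub st A Va)) k z := by
    intro σ hσ
    refine ⟨⟨fun c hc => ?_, (hz σ hσ).1.2⟩, (hz σ hσ).2⟩
    have hcB : c ∈ B := by
      rw [hB, Finset.mem_insert, Finset.mem_biUnion]
      right
      exact ⟨σ, hσ, hc⟩
    obtain ⟨h1, h2, h3, h4⟩ := hBQ c hcB
    refine ⟨h1, h2, h3, fun v hv hcv => ?_⟩
    have hvF : v ∈ F := ⟨hv, c, hcB, hcv⟩
    exact ⟨hFV v hvF, hFa v hvF⟩
  obtain ⟨w, hw, hbw⟩ := con_fin hHS hfin k z hzK hbz
  refine ⟨w, fun σ hσ => ?_, hbw⟩
  obtain ⟨⟨h1, h2⟩, h3⟩ := hw σ hσ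
  refine ⟨⟨fun c hc => ?_, h2⟩, h3⟩
  obtain ⟨g1, g2, g3, g4⟩ := h1 c hc
  exact ⟨g1, g2, g3, fun v hv hcv => (g4 v hv hcv).1⟩

end SingerCub
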