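import Mathlib
import Pool.Agent.Lib_MP_394d50_cub.KPos
import Pool.Agent.Lib_MP_394d50_top.APs

/-!
# Piece KMV: the Mayer-Vietoris argument

`K₁`, `K₂` are closed under subsets. `K = K₁ ∪ K₂`. A chain supported on `K` is the sum of one supported on
`K₁` and one supported on `K₂` (split the support), of the same cardinality of simplices. A chain supported
on `K₁` and on `K₂` is supported on `K₁ ∩ K₂`. The boundary preserves the supports.
* Exactness of `K₁ ∩ K₂` at `k ≠ m`: let `z'` be a cycle there; `z' = bF w₁ = bF w₂`, `w_i` on `K_i` with `k + 1`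
  vertices (`Con`). `z = w₁ + w₂` is a cycle on `K`, `k + 1 ≠ m + 1`, so `z = bF w`, `w = u₁ + u₂`. Then
  `w₁ + bF u₁ = w₂ + bF u₂ =: u` is on `K₁ ∩ K₂` and `bF u = z'`.
* The generator: `z₀` of `K` at `m + 1`, `z₀ = a + b`, `a` on `K₁`, `b` on `K₂`; `z₀' = bF a = bF b` on
  `K₁ ∩ K₂` with `m` vertices. If `z₀' = bF u` with `u` on `K₁ ∩ K₂`, then `a + u`, `b + u` are cycles of
  `K₁`, `K₂`, so boundaries, and `z₀` is a boundary: contradiction.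
* Let `z'` be a cycle of `K₁ ∩ K₂` with `m` vertices, `w₁, w₂` as above, `z = w₁ + w₂`. Either `z = bF w`, and
  `z'` is a boundary as above, or `bF w = z + z₀`; apply the same argument to `w₁ + a`, `w₂ + b` with
  `bF (w₁ + a) = z' + z₀'`: `z' + z₀'` is a boundary.
-/

namespace SingerCub

open SingerVS

variable {H : Type} [DecidableEq (Cb H)]

private theorem kmv_two (z : Finset (Cb H) →₀ ZMod 2) : z + z = 0 := by
  ext σ
  show z σ + z σ = 0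
  exact CharTwo.add_self_eq_zero _

private theorem kmv_eq {x y : Finset (Cb H) →₀ ZMod 2} (h : x + y = 0) : x = y := by
  have h1 : x + y + y = y := by rw [h, zero_add]
  rwa [add_assoc, kmv_two, add_zero] at h1

private theorem kmv_add {K : Set (Finset (Cb H))} {k : ℕ} {a b : Finset (Cb H) →₀ ZMod 2}
    (ha : OnK K k a) (hb : OnK K k b) : OnK K k (a + b) := by
  intro σ hσ
  rcases Finset.mem_union.1 (Finsupp.support_add hσ) with h | h
  · exact ha σ h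
  · exact hb σ h

private theorem kmv_bF {K : Set (Finset (Cb H))} (hK : ∀ σ ∈ K, ∀ τ ⊆ σ, τ ∈ K) {k : ℕ}
    {z : Finset (Cb H) →₀ ZMod 2} (hz : OnK K (k + 1) z) : OnK K k (bF z) := by
  intro σ hσ
  rw [Finsupp.mem_support_iff] at hσ
  have h1 : bF z = ∑ τ ∈ z.support, z τ • ∑ p ∈ τ, Finsupp.single (τ.erase p) (1 : ZMod 2) := by
    show Finsupp.linearCombination (ZMod 2) _ z = _
    rw [Finsupp.linearCombination_apply]
    rfl
  rw [h1, Finsupp.finset_sum_apply] at hσ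
  obtain ⟨τ, hτ, h2⟩ := Finset.exists_ne_zero_of_sum_ne_zero hσ
  rw [Finsupp.smul_apply, Finsupp.finset_sum_apply] at h2
  obtain ⟨p, hp, h3⟩ := Finset.exists_ne_zero_of_sum_ne_zero (right_ne_zero_of_mul h2)
  have h4 : τ.erase p = σ := by
    by_contra hne
    exact h3 (Finsupp.single_eq_of_ne (Ne.symm hne))
  obtain ⟨h5, h6⟩ := hz τ hτ
  rw [← h4]
  refine ⟨hK τ h5 _ (Finset.erase_subset p τ), ?_⟩
  rw [Finset.card_erase_of_mem hp, h6]
  rfl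

private theorem kmv_mono {K K' : Set (Finset (Cb H))} (h : K ⊆ K') {k : ℕ}
    {z : Finset (Cb H) →₀ ZMod 2} (hz : OnK K k z) : OnK K' k z :=
  fun σ hσ => ⟨h (hz σ hσ).1, (hz σ hσ).2⟩

private theorem kmv_split {K₁ K₂ : Set (Finset (Cb H))} {k : ℕ} {z : Finset (Cb H) →₀ ZMod 2}
    (hz : OnK (K₁ ∪ K₂) k z) : ∃ a b, OnK K₁ k a ∧ OnK K₂ k b ∧ z = a + b := by
  classical
  refine ⟨z.filter (· ∈ K₁), z.filter (fun σ => ¬ σ ∈ K₁), ?_, ?_,
    (Finsupp.filter_pos_add_filter_neg z _).symm⟩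
  · intro σ hσ
    rw [Finsupp.support_filter, Finset.mem_filter] at hσ
    exact ⟨hσ.2, (hz σ hσ.1).2⟩
  · intro σ hσ
    rw [Finsupp.support_filter, Finset.mem_filter] at hσ
    exact ⟨(hz σ hσ.1).1.resolve_left hσ.2, (hz σ hσ.1).2⟩

private theorem kmv_main {K₁ K₂ : Set (Finset (Cb H))} (d1 : ∀ σ ∈ K₁, ∀ τ ⊆ σ, τ ∈ K₁)
    (d2 : ∀ σ ∈ K₂, ∀ τ ⊆ σ, τ ∈ K₂) {k : ℕ} {z' w₁ w₂ w : Finset (Cb H) →₀ ZMod 2}
    (h1 : OnK K₁ (k + 1) w₁) (h2 : OnK K₂ (k + 1) w₂) (e1 : bF w₁ = z')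
    (hw : OnK (K₁ ∪ K₂) (k + 1 + 1) w) (e : bF w = w₁ + w₂) :
    ∃ u, OnK (K₁ ∩ K₂) (k + 1) u ∧ bF u = z' := by
  obtain ⟨u₁, u₂, hu1, hu2, rfl⟩ := kmv_split hw
  have hb1 := kmv_bF d1 hu1
  have hb2 := kmv_bF d2 hu2
  have e3 : w₁ + bF u₁ = w₂ + bF u₂ := by
    apply kmv_eq
    rw [map_add] at e
    have h3 : w₁ + bF u₁ + (w₂ + bF u₂) = (w₁ + w₂) + (bF u₁ + bF u₂) := by abel
    rw [h3, e]
    exact kmv_two _
  refine ⟨w₁ + bF u₁, ?_, ?_⟩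
  · intro σ hσ
    have h4 := kmv_add h1 hb1 σ hσ
    have h5 := kmv_add h2 hb2 σ (by rw [← e3]; exact hσ)
    exact ⟨⟨h4.1, h5.1⟩, h4.2⟩
  · rw [map_add, bF_bF, add_zero, e1]

theorem sph_mv {K₁ K₂ : Set (Finset (Cb H))} (d1 : ∀ σ ∈ K₁, ∀ τ ⊆ σ, τ ∈ K₁)
    (d2 : ∀ σ ∈ K₂, ∀ τ ⊆ σ, τ ∈ K₂) (c1 : Con K₁) (c2 : Con K₂) {m : ℕ}
    (h : Sph (m + 1) (K₁ ∪ K₂)) : Sph m (K₁ ∩ K₂) := by
  obtain ⟨hex, z₀, hz0, hc0, hn0, hg0⟩ := h
  have hl : K₁ ∩ K₂ ⊆ K₁ := Set.inter_subset_left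
  have hr : K₁ ∩ K₂ ⊆ K₂ := Set.inter_subset_right
  have ul : K₁ ⊆ K₁ ∪ K₂ := Set.subset_union_left
  have ur : K₂ ⊆ K₁ ∪ K₂ := Set.subset_union_right
  constructor
  · intro k hk z' hz' hc'
    obtain ⟨w₁, hw1, e1⟩ := c1 k z' (kmv_mono hl hz') hc'
    obtain ⟨w₂, hw2, e2⟩ := c2 k z' (kmv_mono hr hz') hc'
    have hz : OnK (K₁ ∪ K₂) (k + 1) (w₁ + w₂) := kmv_add (kmv_mono ul hw1) (kmv_mono ur hw2)
    obtain ⟨w, hw, e⟩ := hex (k + 1) (fun h => hk (Nat.succ_injective h)) (w₁ + w₂) hz (by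
      rw [map_add, e1, e2]
      exact kmv_two _)
    exact kmv_main d1 d2 hw1 hw2 e1 hw e
  · obtain ⟨a, b, ha, hb, hab⟩ := kmv_split hz0
    have eab : bF a = bF b := by
      apply kmv_eq
      rw [← map_add, ← hab]
      exact hc0
    refine ⟨bF a, ?_, bF_bF a, ?_, ?_⟩
    · intro σ hσ
      have h1 := kmv_bF d1 ha σ hσ
      have h2 := kmv_bF d2 hb σ (by rw [← eab]; exact hσ)
      exact ⟨⟨h1.1, h2.1⟩, h1.2⟩
    · intro u hu eu
      obtain ⟨p, hp, e1⟩ := c1 (m + 1) (a + u) (kmv_add ha (kmv_mono hl hu)) (by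
        rw [map_add, eu]
        exact kmv_two _)
      obtain ⟨q, hq, e2⟩ := c2 (m + 1) (b + u) (kmv_add hb (kmv_mono hr hu)) (by
        rw [map_add, eu, eab]
        exact kmv_two _)
      refine hn0 (p + q) (kmv_add (kmv_mono ul hp) (kmv_mono ur hq)) ?_
      rw [map_add, e1, e2, hab]
      have h3 : a + u + (b + u) = a + b + (u + u) := by abel
      rw [h3, kmv_two, add_zero]
    · intro z' hz' hc'
      obtain ⟨w₁, hw1, e1⟩ := c1 m z' (kmv_mono hl hz') hc'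
      obtain ⟨w₂, hw2, e2⟩ := c2 m z' (kmv_mono hr hz') hc'
      have hz : OnK (K₁ ∪ K₂) (m + 1) (w₁ + w₂) := kmv_add (kmv_mono ul hw1) (kmv_mono ur hw2)
      obtain ⟨w, hw, e | e⟩ := hg0 (w₁ + w₂) hz (by
        rw [map_add, e1, e2]
        exact kmv_two _)
      · obtain ⟨u, hu, eu⟩ := kmv_main d1 d2 hw1 hw2 e1 hw e
        exact ⟨u, hu, Or.inl eu⟩
      · obtain ⟨u, hu, eu⟩ := kmv_main d1 d2 (kmv_add hw1 ha) (kmv_add hw2 hb)
          (z' := z' + bF a) (by rw [map_add, e1]) hw (by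
            rw [e, hab]
            abel)
        exact ⟨u, hu, Or.inr eu⟩

end SingerCub
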