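import Mathlib
import Pool.Agent.Lib_MP_394d50_cub.KFin
import Pool.Agent.Lib_MP_394d50_cub.KMv
import Pool.Agent.Lib_MP_394d50_cub.KBr

/-!
# Piece KMFD: the hyperplanes of a homology manifold are homology manifolds

`con_side`: `Q = Cub st A V`, `σ ∈ OC Q`, all elements of `σ` cross the wall of `h ∈ A`. Let `s` be the largest set
in `σ`, `e = insert h s`, `Q⁺ = {c ∈ comp Q σ | st h ∉ c}`, `Q^e = {c ∈ Q⁺ | c ⊆ e ∨ e ⊆ c}`. `e ∈ Q^e`: `e` is a cube
(its completions are completions of `s`), `e ∉ σ` as `h ∉ d` for `d ∈ σ`, `d ⊆ s ⊆ e` for `d ∈ σ`, `st h ∉ e`.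
`ψ c = insert h c` if `s ⊂ c`, `c` otherwise (then `c ⊆ s`, since `c` is comparable with `s`). `ψ` maps `Q⁺` to `Q^e`:
if `s ⊂ c`, `insert h c ⊇ e` is a cube, `st h ∉`, it is not in `σ` (it is not contained in `s`) and contains all
`d ∈ σ`; if `c ⊆ s` then `c ⊆ e`. `ψ` is monotone, `c ⊆ ψ c`. So `Con (KC Q⁺)` by `con_retract` and
`con_cone`. By symmetry (replace `h` by `st h`, `st (st h) = h`) `Con (KC Q⁻)` for
`Q⁻ = {c ∈ comp Q σ | h ∉ c}`.

`hyp_mfd`. Let `X = cubX st A V`, `Y = cubX st (subA st A h) (subV st V h) = hyp st A V h`, `LF X`, so `LF Y`. Let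
`σ ∈ Y`. `insert e σ ∈ X` (with `e` as above), so `σ.card + 1 ≤ m + 1`: this gives `dim` for `Y`, and `1 ≤ m`.
`KC (comp Q σ) = KC Q⁺ ∪ KC Q⁻`: if a chain contains `c ∋ h` and `d ∋ st h`, the larger of the two contains
`h` and `st h`, impossible for a cube. `Q⁺ ∩ Q⁻ = comp (Cub st (subA st A h) (subV st V h)) σ` (`cub_sub`), and
`KC Q⁺ ∩ KC Q⁻ = KC (Q⁺ ∩ Q⁻)`. `hM.link σ` and `sphF2_iff` give `Sph (m + 1 - σ.card) (KC (comp Q σ))`,
`m + 1 - σ.card = (m - σ.card) + 1`; `sph_mv` gives `Sph (m - σ.card)` of the intersection, and `sphF2_iff` for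
`Y` the link condition for `Y` in dimension `m - 1`.
-/

namespace SingerCub

open SingerVS

variable {H : Type} [DecidableEq (Cb H)] {st : H → H} {A : Set H} {V : Set (Set H)}

omit [DecidableEq (Cb H)] in
private theorem kmfd_ins (hV : HS st A V) {h : H} (hh : h ∈ A) {c : Cb H} (hc : c ∈ Cub st A V)
    (hs : st h ∉ c.s) :
    (⟨insert h c.s⟩ : Cb H) ∈ Cub st A V ∧ st h ∉ (⟨insert h c.s⟩ : Cb H).s := by
  obtain ⟨h1, h2, h3, h4⟩ := hc
  have hn : st h ∉ insert h c.s := by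
    intro hm
    rcases Set.mem_insert_iff.1 hm with hm | hm
    · exact hV.st_ne hh hm
    · exact hs hm
  refine ⟨⟨?_, ?_, ?_, ?_⟩, hn⟩
  · exact Set.insert_subset hh h1
  · intro k hk
    rcases Set.mem_insert_iff.1 hk with rfl | hk
    · exact hn
    · intro hm
      rcases Set.mem_insert_iff.1 hm with hm | hm
      · apply hs
        rw [← hm, hV.inv]
        exact hk
      · exact h2 k hk hm
  · refine h3.subset ?_
    rintro k ⟨hk, hk1, hk2⟩
    exact ⟨hk, fun hm => hk1 (Set.mem_insert_of_mem _ hm), fun hm => hk2 (Set.mem_insert_of_mem _ hm)⟩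
  · intro v hv hcv
    exact h4 v hv ((Set.subset_insert _ _).trans hcv)

omit [DecidableEq (Cb H)] in
private theorem kmfd_top {σ : Finset (Cb H)} (hne : σ.Nonempty)
    (hch : ∀ c ∈ σ, ∀ d ∈ σ, c.s ⊆ d.s ∨ d.s ⊆ c.s) : ∃ s ∈ σ, ∀ d ∈ σ, d.s ⊆ s.s := by
  obtain ⟨s, hs⟩ := σ.exists_maximalFor (fun c => c.s) hne
  refine ⟨s, hs.1, fun d hd => ?_⟩
  rcases hch d hd s hs.1 with h | h
  · exact h
  · exact hs.2 hd h

omit [DecidableEq (Cb H)] in
/-- the cube `e` -/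
private theorem kmfd_e (hV : HS st A V) {h : H} (hh : h ∈ A) {σ : Finset (Cb H)}
    (hσ : σ ∈ hyp st A V h) : ∃ s ∈ σ, (∀ d ∈ σ, d.s ⊆ s.s) ∧
      (⟨insert h s.s⟩ : Cb H) ∈ comp (Cub st A V) σ ∧ st h ∉ (⟨insert h s.s⟩ : Cb H).s := by
  obtain ⟨⟨hne, hQ, hch⟩, hcr⟩ := hσ
  obtain ⟨s, hs, hmax⟩ := kmfd_top hne hch
  obtain ⟨h1, h2⟩ := kmfd_ins hV hh (hQ s hs) (hcr s hs).2
  refine ⟨s, hs, hmax, ⟨h1, ?_, ?_⟩, h2⟩
  · intro hm
    exact (hcr _ hm).1 (Set.mem_insert _ _)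
  · intro d hd
    exact Or.inr ((hmax d hd).trans (Set.subset_insert _ _))

theorem con_side (hV : HS st A V) {h : H} (hh : h ∈ A) {σ : Finset (Cb H)}
    (hσ : σ ∈ hyp st A V h) : Con (KC {c | c ∈ comp (Cub st A V) σ ∧ st h ∉ c.s}) := by
  classical
  obtain ⟨s, hs, hmax, he, hen⟩ := kmfd_e hV hh hσ
  obtain ⟨⟨hne, hQ, hch⟩, hcr⟩ := hσ
  have hcone : Con (KC {c | (c ∈ comp (Cub st A V) σ ∧ st h ∉ c.s) ∧
      (c.s ⊆ insert h s.s ∨ insert h s.s ⊆ c.s)}) := by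
    refine con_cone (e := ⟨insert h s.s⟩) ⟨⟨he, hen⟩, Or.inl (le_refl _)⟩ ?_
    rintro c ⟨_, hc⟩
    exact hc
  refine con_retract (Q' := {c | (c ∈ comp (Cub st A V) σ ∧ st h ∉ c.s) ∧
      (c.s ⊆ insert h s.s ∨ insert h s.s ⊆ c.s)}) (fun c hc => hc.1)
      (fun c => if s.s ⊆ c.s then ⟨insert h c.s⟩ else c) ?_ ?_ (Or.inl ?_) hcone
  · rintro c ⟨hc, hcn⟩
    by_cases hsc : s.s ⊆ c.s
    · show (if s.s ⊆ c.s then (⟨insert h c.s⟩ : Cb H) else c) ∈ _
      rw [if_pos hsc]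
      obtain ⟨h1, h2⟩ := kmfd_ins hV hh hc.1 hcn
      refine ⟨⟨⟨h1, ?_, ?_⟩, h2⟩, Or.inr ?_⟩
      · intro hm
        exact (hcr _ hm).1 (Set.mem_insert _ _)
      · intro d hd
        exact Or.inr (((hmax d hd).trans hsc).trans (Set.subset_insert _ _))
      · exact Set.insert_subset_insert hsc
    · show (if s.s ⊆ c.s then (⟨insert h c.s⟩ : Cb H) else c) ∈ _
      rw [if_neg hsc]
      refine ⟨⟨hc, hcn⟩, Or.inl ?_⟩
      rcases hc.2.2 s hs with h1 | h1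
      · exact h1.trans (Set.subset_insert _ _)
      · exact absurd h1 hsc
  · intro c _ d _ hcd
    show (if s.s ⊆ c.s then (⟨insert h c.s⟩ : Cb H) else c).s ⊆
      (if s.s ⊆ d.s then (⟨insert h d.s⟩ : Cb H) else d).s
    by_cases hsc : s.s ⊆ c.s
    · rw [if_pos hsc, if_pos (hsc.trans hcd)]
      exact Set.insert_subset_insert hcd
    · rw [if_neg hsc]
      split_ifs
      · exact hcd.trans (Set.subset_insert _ _)
      · exact hcd
  · intro c _
    show c.s ⊆ (if s.s ⊆ c.s then (⟨insert h c.s⟩ : Cb H) else c).s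
    split_ifs
    · exact Set.subset_insert _ _
    · exact le_refl _

omit [DecidableEq (Cb H)] in
private theorem kmfd_sym (hV : HS st A V) {h : H} {σ : Finset (Cb H)}
    (hσ : σ ∈ hyp st A V h) : σ ∈ hyp st A V (st h) := by
  refine ⟨hσ.1, fun c hc => ?_⟩
  have := hσ.2 c hc
  refine ⟨this.2, ?_⟩
  rw [hV.inv]
  exact this.1

omit [DecidableEq (Cb H)] in
private theorem kmfd_down (Q : Set (Cb H)) : ∀ σ ∈ KC Q, ∀ τ ⊆ σ, τ ∈ KC Q := by
  intro σ hσ τ hτ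
  exact ⟨fun c hc => hσ.1 c (hτ hc), fun c hc d hd => hσ.2 c (hτ hc) d (hτ hd)⟩

theorem hyp_mfd (hV : HS st A V) (hL : LF (cubX st A V)) {m : ℕ}
    (hM : HomMfd m (cubX st A V)) {h : H} (hh : h ∈ A) (hne : (hyp st A V h).Nonempty) :
    1 ≤ m ∧ HomMfd (m - 1) (hyp st A V h) := by
  have hcard : ∀ σ ∈ hyp st A V h, σ.card ≤ m := by
    intro σ hσ
    obtain ⟨s, hs, hmax, he, hen⟩ := kmfd_e hV hh hσ
    have hX : insert (⟨insert h s.s⟩ : Cb H) σ ∈ cubX st A V := by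
      obtain ⟨⟨_, hQ, hch⟩, _⟩ := hσ
      refine ⟨Finset.insert_nonempty _ _, ?_, ?_⟩
      · intro c hc
        rcases Finset.mem_insert.1 hc with rfl | hc
        · exact he.1
        · exact hQ c hc
      · intro c hc d hd
        rcases Finset.mem_insert.1 hc with rfl | hc
        · rcases Finset.mem_insert.1 hd with rfl | hd
          · exact Or.inl (le_refl _)
          · exact he.2.2 d hd
        · rcases Finset.mem_insert.1 hd with rfl | hd
          · exact (he.2.2 c hc).symm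
          · exact hch c hc d hd
    have := hM.dim _ hX
    rw [Finset.card_insert_of_notMem he.2.1] at this
    omega
  have hpos : ∀ σ ∈ hyp st A V h, 1 ≤ σ.card := fun σ hσ => Finset.card_pos.2 hσ.1.1
  have hm : 1 ≤ m := by
    obtain ⟨σ, hσ⟩ := hne
    exact (hpos σ hσ).trans (hcard σ hσ)
  refine ⟨hm, ⟨fun σ hσ => ?_, fun σ hσ => ?_⟩⟩
  · have := hcard σ hσ
    omega
  · have hLY : LF (OC (Cub st (subA st A h) (subV st V h))) := by
      intro τ hτ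
      have hτ' : τ ∈ hyp st A V h := by
        rw [hyp_eq hV hh]
        exact hτ
      refine (hL τ hτ'.1).subset ?_
      rintro p ⟨hp1, hp2⟩
      refine ⟨hp1, ?_⟩
      have hp3 : insert p τ ∈ hyp st A V h := by
        rw [hyp_eq hV hh]
        exact hp2
      exact hp3.1
    have hσY : σ ∈ OC (Cub st (subA st A h) (subV st V h)) := by
      have := hσ
      rw [hyp_eq hV hh] at this
      exact this
    have h1 : Sph (m + 1 - σ.card) (KC (comp (Cub st A V) σ)) :=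
      (sphF2_iff hL hσ.1 _).1 (hM.link σ hσ.1)
    have hc := hcard σ hσ
    have hp := hpos σ hσ
    have e1 : m + 1 - σ.card = (m - σ.card) + 1 := by omega
    have e2 : m - 1 + 1 - σ.card = m - σ.card := by omega
    rw [e1] at h1
    rw [e2, hyp_eq hV hh]
    refine (sphF2_iff hLY hσY _).2 ?_
    have hU : KC (comp (Cub st A V) σ) =
        KC {c | c ∈ comp (Cub st A V) σ ∧ st h ∉ c.s} ∪
          KC {c | c ∈ comp (Cub st A V) σ ∧ h ∉ c.s} := by
      ext τ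
      constructor
      · intro hτ
        by_cases hc1 : ∃ c ∈ τ, st h ∈ c.s
        · obtain ⟨c, hc1, hc2⟩ := hc1
          refine Or.inr ⟨fun d hd => ⟨hτ.1 d hd, fun hd2 => ?_⟩, hτ.2⟩
          rcases hτ.2 c hc1 d hd with h3 | h3
          · exact (hτ.1 d hd).1.2.1 h hd2 (h3 hc2)
          · exact (hτ.1 c hc1).1.2.1 h (h3 hd2) hc2
        · push Not at hc1
          exact Or.inl ⟨fun d hd => ⟨hτ.1 d hd, hc1 d hd⟩, hτ.2⟩
      · rintro (hτ | hτ)
        · exact ⟨fun c hc => (hτ.1 c hc).1, hτ.2⟩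
        · exact ⟨fun c hc => (hτ.1 c hc).1, hτ.2⟩
    have hI : KC (comp (Cub st (subA st A h) (subV st V h)) σ) =
        KC {c | c ∈ comp (Cub st A V) σ ∧ st h ∉ c.s} ∩
          KC {c | c ∈ comp (Cub st A V) σ ∧ h ∉ c.s} := by
      have hQ : ∀ c : Cb H, c ∈ comp (Cub st (subA st A h) (subV st V h)) σ ↔
          (c ∈ comp (Cub st A V) σ ∧ st h ∉ c.s) ∧ (c ∈ comp (Cub st A V) σ ∧ h ∉ c.s) := by
        intro c
        constructor
        · rintro ⟨g1, g2, g3⟩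
          rw [cub_sub hV hh] at g1
          exact ⟨⟨⟨g1.1, g2, g3⟩, g1.2.2⟩, ⟨⟨g1.1, g2, g3⟩, g1.2.1⟩⟩
        · rintro ⟨⟨g1, g2⟩, ⟨_, g3⟩⟩
          refine ⟨?_, g1.2.1, g1.2.2⟩
          rw [cub_sub hV hh]
          exact ⟨g1.1, g3, g2⟩
      ext τ
      constructor
      · intro hτ
        exact ⟨⟨fun c hc => ((hQ c).1 (hτ.1 c hc)).1, hτ.2⟩,
          ⟨fun c hc => ((hQ c).1 (hτ.1 c hc)).2, hτ.2⟩⟩
      · rintro ⟨hτ1, hτ2⟩
        exact ⟨fun c hc => (hQ c).2 ⟨hτ1.1 c hc, hτ2.1 c hc⟩, hτ1.2⟩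
    rw [hI]
    refine sph_mv (kmfd_down _) (kmfd_down _) (con_side hV hh hσ) ?_ ?_
    · have := con_side hV (hV.act h hh) (kmfd_sym hV hσ)
      rw [hV.inv] at this
      exact this
    · rw [← hU]
      exact h1

end SingerCub
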