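import Mathlib
import Pool.Agent.Lib_MP_394d50_cub.KMfd
import Pool.Agent.Lib_MP_394d50_cub.WDefs
import Pool.Agent.Lib_MP_394d50_vs.VBase

/-!
# Piece KWAL: the hyperplanes of a CAT(0) cube complex are walls

`wi_cub`: by induction on the finite set `t` (`Finset.induction_on`): for `A = Set.univ` and `t` with
`{σ ∈ X | ∀ h ∈ t, σ ∈ hyp st univ V h}` non-empty there are `A'`, `V'` with `HS st A' V'`, this set is
`cubX st A' V'`, and it is a homology manifold of dimension `m` with `n ≤ m + t.card`. `t = ∅`: `A' = univ`, `V' = V`.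
Step `insert h t`: if `h ∈ A'` then the new set is `hyp st A' V' h = cubX st (subA st A' h) (subV st V' h)`
(`hyp_eq`), `HS` by `hs_sub`, `subV_nonempty`, the manifold by `hyp_mfd` with `m - 1`. If `h ∉ A'` then every
`c ∈ Cub st A' V'` has `h ∉ c`, `st h ∉ c` (if `st h ∈ A'` then `h = st (st h) ∈ A'`), and the set does not change.
`LF` passes to subcomplexes. Then `Acyc` by `con_cub`, `acyc_of_con`. (For non-empty `t` the set is `wi Y t`.)

`Walls`: `Y h = hyp st univ V h`, `Z = {c | c.s ∈ V}`. `sub`, `down`: clear. `smul`: `g • c` is a cube if `c` is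
(`g` permutes `V`, commutes with `st`; a completion `v` of `g • c` gives the completion `g⁻¹ • v` of `c`;
`hVg` also for `g⁻¹`), and it crosses the wall of `g • h` if `c` crosses that of `h`. `locfin`: `{h | σ ∈ hyp h}`
is contained in the finite set of the undecided `h` of any `c ∈ σ`. `inter`: `wi_cub`. `cell`: let `s` be the
largest set in `σ ∈ X`. (→) if `σ ∉ hyp h` for all `h`, then `s` decides every `h` (if `s` crosses the wall of `h`
then so do all `c ⊆ s` in `σ`), so `s` is an orientation, a completion of itself, `s ∈ V`. (←) an element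
of `V` crosses no wall. `uniq`: two orientations, one contained in the other, are equal.
-/

namespace SingerCub

open SingerVS
open scoped Pointwise

variable {Γ H : Type} [Group Γ] [MulAction Γ H] [DecidableEq (Cb H)] {st : H → H}
  {V : Set (Set H)}

theorem LF_of_freeCx {X : Set (Finset (Cb H))} (hX : FreeCx Γ X) : LF X :=
  fun _ hσ => hX.nb_finite hσ

omit [Group Γ] [MulAction Γ H] in
private theorem LF_sub {X Y : Set (Finset (Cb H))} (hX : LF X) (hY : Y ⊆ X) : LF Y := by
  intro σ hσ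
  refine (hX σ (hY hσ)).subset ?_
  rintro p ⟨h1, h2⟩
  exact ⟨h1, hY h2⟩

omit [Group Γ] [MulAction Γ H] in
private theorem wi_cub {n : ℕ} (hV : HS st Set.univ V) (hL : LF (cubX st Set.univ V))
    (hM : HomMfd n (cubX st Set.univ V)) (t : Finset H) :
    {σ | σ ∈ cubX st Set.univ V ∧ ∀ h ∈ t, σ ∈ hyp st Set.univ V h}.Nonempty →
    ∃ (A' : Set H) (V' : Set (Set H)), HS st A' V' ∧
      {σ | σ ∈ cubX st Set.univ V ∧ ∀ h ∈ t, σ ∈ hyp st Set.univ V h} = cubX st A' V' ∧
      ∃ m, n ≤ m + t.card ∧ HomMfd m (cubX st A' V') := by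
  classical
  induction t using Finset.induction_on with
  | empty =>
    intro _
    refine ⟨Set.univ, V, hV, ?_, n, by simp, hM⟩
    ext σ
    simp
  | insert h t hht ih =>
    intro hne
    have hne' : {σ | σ ∈ cubX st Set.univ V ∧ ∀ k ∈ t, σ ∈ hyp st Set.univ V k}.Nonempty := by
      obtain ⟨σ, h1, h2⟩ := hne
      exact ⟨σ, h1, fun k hk => h2 k (Finset.mem_insert_of_mem hk)⟩
    obtain ⟨A', V', hV', he, m, hm, hM'⟩ := ih hne'
    have hset : {σ | σ ∈ cubX st Set.univ V ∧ ∀ k ∈ insert h t, σ ∈ hyp st Set.univ V k} =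
        hyp st A' V' h := by
      ext σ
      constructor
      · rintro ⟨h1, h2⟩
        have h3 : σ ∈ cubX st A' V' := by
          rw [← he]
          exact ⟨h1, fun k hk => h2 k (Finset.mem_insert_of_mem hk)⟩
        exact ⟨h3, (h2 h (Finset.mem_insert_self h t)).2⟩
      · rintro ⟨h1, h2⟩
        rw [← he] at h1
        refine ⟨h1.1, fun k hk => ?_⟩
        rcases Finset.mem_insert.mp hk with rfl | hk
        · exact ⟨h1.1, h2⟩
        · exact h1.2 k hk
    have hL' : LF (cubX st A' V') := by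
      rw [← he]
      exact LF_sub hL fun σ hσ => hσ.1
    rw [hset] at hne ⊢
    rw [Finset.card_insert_of_notMem hht]
    by_cases hh : h ∈ A'
    · obtain ⟨h1, h2⟩ := hyp_mfd hV' hL' hM' hh hne
      obtain ⟨σ, hσ⟩ := hne
      obtain ⟨c, hc⟩ := hσ.1.1
      have hsub := subV_nonempty hV' hh (hσ.1.2.1 c hc) (hσ.2 c hc)
      refine ⟨subA st A' h, subV st V' h, hs_sub hV' hh hsub, hyp_eq hV' hh, m - 1, by omega, ?_⟩
      rw [← hyp_eq hV' hh]
      exact h2
    · refine ⟨A', V', hV', ?_, m, by omega, hM'⟩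
      ext σ
      constructor
      · intro h1
        exact h1.1
      · intro h1
        refine ⟨h1, fun c hc => ?_⟩
        have h2 := (h1.2.1 c hc).1
        refine ⟨fun h3 => hh (h2 h3), fun h3 => hh ?_⟩
        have h4 := hV'.act _ (h2 h3)
        rwa [hV'.inv] at h4

omit [Group Γ] [MulAction Γ H] [DecidableEq (Cb H)] in
private theorem exists_top {σ : Finset (Cb H)} (hne : σ.Nonempty)
    (hch : ∀ c ∈ σ, ∀ d ∈ σ, c.s ⊆ d.s ∨ d.s ⊆ c.s) : ∃ s ∈ σ, ∀ d ∈ σ, d.s ⊆ s.s := by
  classical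
  obtain ⟨s, hs, hmax⟩ := Finset.exists_maximalFor (fun c : Cb H => c.s) σ hne
  refine ⟨s, hs, fun d hd => ?_⟩
  rcases hch d hd s hs with h | h
  · exact h
  · exact hmax hd h

theorem walls_cub {n : ℕ} (hV : HS st Set.univ V) (hst : ∀ (g : Γ) (h : H), st (g • h) = g • st h)
    (hVg : ∀ (g : Γ), ∀ v ∈ V, g • v ∈ V) (hX : FreeCx Γ (cubX st Set.univ V))
    (hM : HomMfd n (cubX st Set.univ V)) :
    Walls n Γ (cubX st Set.univ V) (hyp st Set.univ V) {c | c.s ∈ V} where
  sub := fun _ _ hσ => hσ.1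
  down := fun _ σ hσ τ h1 h2 => ⟨hX.down σ hσ.1 τ h1 h2, fun c hc => hσ.2 c (h1 hc)⟩
  smul := by
    intro g h σ hσ
    refine ⟨hX.inv g σ hσ.1, fun c hc => ?_⟩
    obtain ⟨d, hd, rfl⟩ := Finset.mem_smul_finset.mp hc
    have h1 := hσ.2 d hd
    refine ⟨fun h2 => h1.1 ?_, fun h2 => h1.2 ?_⟩
    · rw [Cb.smul_s] at h2
      exact (Set.smul_mem_smul_set_iff).mp h2
    · rw [Cb.smul_s, hst] at h2
      exact (Set.smul_mem_smul_set_iff).mp h2
  locfin := by
    intro σ hσ
    obtain ⟨c, hc⟩ := hσ.1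
    refine (hσ.2.1 c hc).2.2.1.subset ?_
    intro h hh
    exact ⟨Set.mem_univ h, hh.2 c hc⟩
  inter := by
    intro t ht hne
    have hL := LF_of_freeCx hX
    have hw : wi (hyp st Set.univ V) t =
        {σ | σ ∈ cubX st Set.univ V ∧ ∀ h ∈ t, σ ∈ hyp st Set.univ V h} := by
      ext σ
      constructor
      · intro h1
        obtain ⟨k, hk⟩ := ht
        exact ⟨(h1 k hk).1, h1⟩
      · intro h1
        exact h1.2
    rw [hw] at hne ⊢
    obtain ⟨A', V', hV', he, m, hm, hM'⟩ := wi_cub hV hL hM t hne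
    rw [he]
    refine ⟨?_, m, hm, hM'⟩
    have hL' : LF (cubX st A' V') := by
      rw [← he]
      exact LF_sub hL fun σ hσ => hσ.1
    exact acyc_of_con hL' (con_cub hV')
  cell := by
    intro σ hσ
    constructor
    · intro h
      obtain ⟨s, hs, htop⟩ := exists_top hσ.1 hσ.2.2
      refine ⟨s, ?_, hs⟩
      have hcub := hσ.2.1 s hs
      have hdec : ∀ k, k ∈ s.s ∨ st k ∈ s.s := by
        intro k
        by_contra hcon
        push Not at hcon
        refine h k ⟨hσ, fun d hd => ⟨fun h1 => hcon.1 (htop d hd h1), fun h1 => hcon.2 (htop d hd h1)⟩⟩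
      refine hcub.2.2.2 s.s ⟨Set.subset_univ _, fun k _ => ⟨fun h1 => hcub.2.1 k h1, fun h1 => ?_⟩⟩
        (fun _ h1 => h1)
      exact (hdec k).resolve_right h1
    · rintro ⟨z, hz, hzσ⟩ k hk
      have h1 := hk.2 z hzσ
      have h2 := (hV.ori z.s hz).2 k (Set.mem_univ k)
      exact h1.1 (h2.mpr h1.2)
  uniq := by
    have key : ∀ z z' : Cb H, z.s ∈ V → z'.s ∈ V → z.s ⊆ z'.s → z = z' := by
      intro z z' hz hz' hzz
      refine Cb.ext (Set.Subset.antisymm hzz fun k hk => ?_)
      have h1 := ((hV.ori z'.s hz').2 k (Set.mem_univ k)).mp hk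
      exact ((hV.ori z.s hz).2 k (Set.mem_univ k)).mpr fun h2 => h1 (hzz h2)
    intro σ hσ z hz z' hz' h1 h2
    rcases hσ.2.2 z h1 z' h2 with h3 | h3
    · exact key z z' hz hz' h3
    · exact (key z' z hz' hz h3).symm

theorem acyc_cub (hV : HS st Set.univ V) (hX : FreeCx Γ (cubX st Set.univ V)) :
    Acyc (cubX st Set.univ V) :=
  acyc_of_con (LF_of_freeCx hX) (con_cub hV)

end SingerCub
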