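import Mathlib
import Pool.Agent.Lib_MP_394d50_cub.AMain
import Pool.Agent.Lib_MP_394d50_cub.KWal
import Pool.Agent.Lib_MP_394d50_top.AMfd
import Pool.Agent.Lib_MP_394d50_top.AFin

/-!
# Piece KMAIN: CAT(0) cube complexes

`main_walls` with `walls_cub`, `acyc_cub`. `LocEuc n (geo X)` gives `HomMfd n X` as in `main_top_rn` (MNR):
`homMfd_of_locEuc hD hX.ne (fun σ hσ => hX.finStar hσ) h`.
-/

namespace SingerCub

open SingerVS SingerRN
open scoped Pointwise

theorem main_cub {n : ℕ} {Γ H : Type} [Group Γ] [MulAction Γ H] [LinearOrder (Cb H)]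
    {st : H → H} {V : Set (Set H)} (hV : HS st Set.univ V)
    (hst : ∀ (g : Γ) (h : H), st (g • h) = g • st h) (hVg : ∀ (g : Γ), ∀ v ∈ V, g • v ∈ V)
    (hX : FreeCx Γ (cubX st Set.univ V))
    (hM : LocEuc n (geo (cubX st Set.univ V)) ∨ HomMfd n (cubX st Set.univ V))
    (hG : GoodW n Γ (hyp st Set.univ V)) :
    (∀ k, 2 * k + 1 ≠ n → 2 * k ≠ n → 2 * k ≠ n + 1 → bettiX Γ (cubX st Set.univ V) k = 0) ∧
    ((Even n ∨ ∀ h, (hyp st Set.univ V h).Nonempty →
        bettiX (MulAction.stabilizer Γ h) (hyp st Set.univ V h) ((n - 1) / 2) = 0) →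
      (∀ k, 2 * k ≠ n → bettiX Γ (cubX st Set.univ V) k = 0) ∧
      (∀ k, 2 * k = n → bettiX Γ (cubX st Set.univ V) k =
        (-1 : ℝ) ^ k * chiX Γ (cubX st Set.univ V)) ∧
      ((∀ k, bettiX Γ (cubX st Set.univ V) k = 0) ↔ chiX Γ (cubX st Set.univ V) = 0) ∧
      ∀ k, 2 * k = n → 0 ≤ (-1 : ℤ) ^ k * chiX Γ (cubX st Set.univ V)) := by
  have hD : Dn (cubX st Set.univ V) := fun σ hσ τ h1 h2 => hX.down σ hσ τ h1 h2
  have hM' : HomMfd n (cubX st Set.univ V) := by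
    rcases hM with h | h
    · exact homMfd_of_locEuc hD hX.ne (fun σ hσ => hX.finStar hσ) h
    · exact h
  exact main_walls hX (acyc_cub hV hX) hM' (walls_cub hV hst hVg hX hM') hG

end SingerCub
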